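import Mathlib

set_option autoImplicit false

/-!
# The generalized Baire space and the perfect set game of length `ω + 1`
-/

namespace Pool.Agent.R590.Kur

open Cardinal Set

/-- The functions from `κ` to `κ`; the cardinal `κ` is identified with its initial ordinal. -/
def Sp (κ : Cardinal.{0}) : Type := κ.ord.ToType → κ.ord.ToType

variable {κ : Cardinal.{0}}

/-- `x` and `y` agree below `α`. -/
def Agree (x y : Sp κ) (α : κ.ord.ToType) : Prop := ∀ β < α, x β = y β

/-- The bounded topology: the basic open sets are the sets of all extensions of the restriction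
of some `x` to some `α < κ`. -/
instance (κ : Cardinal.{0}) : TopologicalSpace (Sp κ) :=
  TopologicalSpace.generateFrom {s | ∃ (x : Sp κ) (α : κ.ord.ToType), s = {y | Agree y x α}}

/-- The finite sequence `a 0, …, a (n - 1)`. -/
def play {A : Type} (a : ℕ → A) (n : ℕ) : List A := (List.range n).map a

/-- Player II has a winning strategy in the game `G_κ(E, x₀, ω + 1)`. The strategy consists of
a function `s`, which gives the move `x_n` of Player II in the finite round `n ≥ 1`, depending on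
the moves `a 0, …, a (n - 1)` of Player I in the rounds `1, …, n`, and of a function `t`, which
gives her move in round `ω`. -/
def IIWins (E : Set (Sp κ)) (x₀ : Sp κ) : Prop :=
  ∃ (s : List κ.ord.ToType → Sp κ) (t : (ℕ → κ.ord.ToType) → Sp κ), s [] = x₀ ∧
    ∀ a : ℕ → κ.ord.ToType, StrictMono a →
      (∀ n, s (play a (n + 1)) ∈ E) ∧
      (∀ i j, i < j → s (play a j) ≠ s (play a i) ∧ Agree (s (play a j)) (s (play a i)) (a i)) ∧
      t a ∈ E ∧ ∀ i, t a ≠ s (play a i) ∧ Agree (t a) (s (play a i)) (a i)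

/-- The set `E` is `(ω + 1)`-perfect. -/
def Perf (E : Set (Sp κ)) : Prop := IsClosed E ∧ ∀ x₀ ∈ E, IIWins E x₀

/-! ### Basic facts -/

theorem Agree.symm {x y : Sp κ} {α : κ.ord.ToType} (h : Agree x y α) : Agree y x α :=
  fun β hβ => (h β hβ).symm

theorem Agree.trans {x y z : Sp κ} {α : κ.ord.ToType} (h : Agree x y α) (h' : Agree y z α) :
    Agree x z α := fun β hβ => (h β hβ).trans (h' β hβ)

theorem Agree.mono {x y : Sp κ} {α α' : κ.ord.ToType} (h : Agree x y α) (hα : α' ≤ α) :
    Agree x y α' := fun β hβ => h β (hβ.trans_le hα)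

theorem Agree.refl (x : Sp κ) (α : κ.ord.ToType) : Agree x x α := fun _ _ => rfl

theorem isOpen_cyl (x : Sp κ) (α : κ.ord.ToType) : IsOpen {y | Agree y x α} :=
  TopologicalSpace.isOpen_generateFrom_of_mem ⟨x, α, rfl⟩

theorem isOpen_iff [Nonempty κ.ord.ToType] {s : Set (Sp κ)} :
    IsOpen s ↔ ∀ x ∈ s, ∃ α, ∀ y, Agree y x α → y ∈ s := by
  constructor
  · intro h
    induction h with
    | basic s hs =>
      obtain ⟨z, α, rfl⟩ := hs
      intro x hx
      exact ⟨α, fun y hy => Agree.trans hy hx⟩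
    | univ => exact fun x _ => ⟨Classical.arbitrary _, fun _ _ => trivial⟩
    | inter s t _ _ ihs iht =>
      rintro x ⟨h1, h2⟩
      obtain ⟨α, hα⟩ := ihs x h1
      obtain ⟨β, hβ⟩ := iht x h2
      exact ⟨max α β, fun y hy => ⟨hα y (hy.mono (le_max_left _ _)),
        hβ y (hy.mono (le_max_right _ _))⟩⟩
    | sUnion S _ ih =>
      rintro x ⟨s, hs, hx⟩
      obtain ⟨α, hα⟩ := ih s hs x hx
      exact ⟨α, fun y hy => ⟨s, hs, hα y hy⟩⟩
  · intro h
    choose! α hα using h
    have : s = ⋃ x ∈ s, {y | Agree y x (α x)} := by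
      ext y
      simp only [mem_iUnion, mem_ofPred_eq, exists_prop]
      exact ⟨fun hy => ⟨y, hy, Agree.refl _ _⟩, fun ⟨x, hx, hy⟩ => hα x hx y hy⟩
    rw [this]
    exact isOpen_biUnion fun x _ => isOpen_cyl x _

theorem continuous_of [Nonempty κ.ord.ToType] {f : Sp κ → Sp κ}
    (h : ∀ x α, ∃ β, ∀ y, Agree y x β → Agree (f y) (f x) α) : Continuous f := by
  refine continuous_def.2 fun s hs => isOpen_iff.2 fun x hx => ?_
  obtain ⟨α, hα⟩ := isOpen_iff.1 hs (f x) hx
  obtain ⟨β, hβ⟩ := h x α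
  exact ⟨β, fun y hy => hα _ (hβ y hy)⟩

theorem isClosed_of [Nonempty κ.ord.ToType] {s : Set (Sp κ)}
    (h : ∀ x, x ∉ s → ∃ α, ∀ y, Agree y x α → y ∉ s) : IsClosed s :=
  isOpen_compl_iff.1 (isOpen_iff.2 h)

theorem play_succ {A : Type} (a : ℕ → A) (n : ℕ) : play a (n + 1) = play a n ++ [a n] := by
  simp [play, List.range_succ]

theorem play_congr {A : Type} {a b : ℕ → A} {n : ℕ} (h : ∀ i < n, a i = b i) :
    play a n = play b n :=
  List.map_congr_left fun i hi => h i (List.mem_range.1 hi)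

theorem mem_play {A : Type} {a : ℕ → A} {n : ℕ} {x : A} : x ∈ play a n ↔ ∃ i < n, a i = x := by
  simp [play]

end Pool.Agent.R590.Kur
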