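import Mathlib
import Pool.Agent.R590.KuDefs

set_option autoImplicit false

/-!
# The branches of a Kurepa tree
-/

namespace Pool.Agent.R590.Kur

open Cardinal Set

/-- `ω₁`, as a linear order -/
abbrev W : Type := (ℵ₁ : Cardinal.{0}).ord.ToType

/-- `ω₁ ^ ω₁` -/
abbrev Sq : Type := Sp (ℵ₁ : Cardinal.{0})

theorem mk_W : #W = ℵ₁ := mk_ord_toType _

instance : Nonempty W := by
  rw [← mk_ne_zero_iff, mk_W]
  exact (aleph_pos 1).ne'

/-- countable sets are bounded -/
theorem W_bdd {s : Set W} (hs : s.Countable) : ∃ b : W, ∀ x ∈ s, x < b := by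
  by_contra hcon
  push Not at hcon
  have h1 : (univ : Set W) = ⋃ x ∈ s, Iic x := by
    ext b
    simp only [mem_univ, mem_iUnion, mem_Iic, exists_prop, true_iff]
    exact hcon b
  have h2 : (univ : Set W).Countable := by
    rw [h1]
    refine hs.biUnion fun x _ => ?_
    have h3 : (Iio x).Countable := by
      rw [← Cardinal.le_aleph0_iff_set_countable, ← Cardinal.lt_aleph_one_iff]
      exact Cardinal.mk_Iio_toType_ord_lt x
    rw [← Iio_insert]
    exact h3.insert x
  have h3 := Cardinal.le_aleph0_iff_set_countable.2 h2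
  rw [mk_univ, mk_W] at h3
  exact absurd h3 (not_le.2 aleph0_lt_aleph_one)

theorem exists_gt (x : W) : ∃ y, x < y := by
  obtain ⟨b, hb⟩ := W_bdd (countable_singleton x)
  exact ⟨b, hb x rfl⟩

/-- something above -/
noncomputable def up (x : W) : W := (exists_gt x).choose

theorem lt_up (x : W) : x < up x := (exists_gt x).choose_spec

/-- a fixed element -/
noncomputable def w0 : W := Classical.arbitrary W

open Classical in
/-- `x` restricted to `j` -/
noncomputable def trunc (x : Sq) (j : W) : Sq := fun β => if β < j then x β else w0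

theorem trunc_of_lt (x : Sq) {j β : W} (h : β < j) : trunc x j β = x β := if_pos h

theorem trunc_of_not (x : Sq) {j β : W} (h : ¬ β < j) : trunc x j β = w0 := if_neg h

theorem trunc_eq_iff {x y : Sq} {j : W} : trunc x j = trunc y j ↔ Agree x y j := by
  constructor
  · intro h β hβ
    have := congrFun h β
    rwa [trunc_of_lt _ hβ, trunc_of_lt _ hβ] at this
  · intro h
    funext β
    by_cases hβ : β < j
    · rw [trunc_of_lt _ hβ, trunc_of_lt _ hβ]
      exact h β hβ
    · rw [trunc_of_not _ hβ, trunc_of_not _ hβ]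

theorem agree_trunc (x : Sq) (j : W) : Agree (trunc x j) x j := fun _ hβ => trunc_of_lt x hβ

section game

variable {x₀ : Sq} {s : List W → Sq} {t : (ℕ → W) → Sq}

open Classical in
/-- a point of difference -/
noncomputable def gam (s : List W → Sq) (S : List W × W) : W :=
  if h : ∃ γ, s (S.1 ++ [up S.2]) γ ≠ s S.1 γ then h.choose else w0

theorem gam_spec {S : List W × W} (h : s (S.1 ++ [up S.2]) ≠ s S.1) :
    s (S.1 ++ [up S.2]) (gam s S) ≠ s S.1 (gam s S) := by
  have h' : ∃ γ, s (S.1 ++ [up S.2]) γ ≠ s S.1 γ := Function.ne_iff.1 h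
  rw [gam, dif_pos h']
  exact h'.choose_spec

/-- the move of Player I -/
noncomputable def mv (s : List W → Sq) (S : List W × W) (b : Bool) : W :=
  if b then up (max (up S.2) (gam s S)) else up S.2

/-- the next state -/
noncomputable def st (s : List W → Sq) (S : List W × W) (b : Bool) : List W × W :=
  (S.1 ++ [mv s S b], max (mv s S b) (gam s S))

/-- the state after a finite sequence -/
noncomputable def state (s : List W → Sq) (l : List Bool) : List W × W :=
  l.foldl (st s) ([], w0)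

/-- the moves of Player I along `b` -/
noncomputable def mvs (s : List W → Sq) (b : ℕ → Bool) (n : ℕ) : W :=
  mv s (state s (play b n)) (b n)

theorem state_succ (b : ℕ → Bool) (n : ℕ) :
    state s (play b (n + 1)) = st s (state s (play b n)) (b n) := by
  rw [play_succ, state, List.foldl_append]
  rfl

theorem state_fst (b : ℕ → Bool) (n : ℕ) : (state s (play b n)).1 = play (mvs s b) n := by
  induction n with
  | zero => rfl
  | succ n ih =>
    rw [state_succ, play_succ, ← ih]
    rfl

theorem lt_mv (S : List W × W) (b : Bool) : S.2 < mv s S b := by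
  cases b
  · exact lt_up S.2
  · exact (lt_up S.2).trans ((le_max_left _ _).trans_lt (lt_up _))

theorem strictMono_mvs (b : ℕ → Bool) : StrictMono (mvs s b) := by
  refine strictMono_nat_of_lt_succ fun n => ?_
  refine lt_of_le_of_lt ?_ (lt_mv _ _)
  rw [state_succ]
  exact le_max_left _ _

theorem exists_first_diff {b b' : ℕ → Bool} (h : b ≠ b') :
    ∃ n, b n ≠ b' n ∧ ∀ i < n, b i = b' i := by
  classical
  have h1 : ∃ n, b n ≠ b' n := Function.ne_iff.1 h
  refine ⟨Nat.find h1, Nat.find_spec h1, fun i hi => ?_⟩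
  by_contra hcon
  exact Nat.find_min h1 hi hcon

/-- Player II does not win in a set all whose elements are branches of a tree with countable
levels. -/
theorem no_win {C : W → Set Sq} (hC : ∀ j, (C j).Countable) {E : Set Sq}
    (hE : ∀ x ∈ E, ∀ j, trunc x j ∈ C j) (x₀ : Sq) : ¬ IIWins E x₀ := by
  rintro ⟨s, t, -, hwin⟩
  obtain ⟨δ, hδ⟩ := W_bdd (countable_range fun l : List Bool => gam s (state s l))
  have hδ' : ∀ l, gam s (state s l) < δ := fun l => hδ _ ⟨l, rfl⟩
  have hdiff : ∀ b b' : ℕ → Bool, ∀ n, b n = false → b' n = true → (∀ i < n, b i = b' i) →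
      trunc (t (mvs s b)) δ ≠ trunc (t (mvs s b')) δ := by
    intro b b' n h1 h2 h3 heq
    rw [trunc_eq_iff] at heq
    have hS : state s (play b' n) = state s (play b n) := by rw [play_congr h3]
    obtain ⟨-, hne, -, hag⟩ := hwin (mvs s b) (strictMono_mvs b)
    obtain ⟨-, -, -, hag'⟩ := hwin (mvs s b') (strictMono_mvs b')
    have hm : mvs s b n = up (state s (play b n)).2 := by
      rw [mvs, h1]
      rfl
    have h4 : s ((state s (play b n)).1 ++ [up (state s (play b n)).2]) ≠
        s (state s (play b n)).1 := by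
      rw [state_fst, ← hm, ← play_succ]
      exact (hne n (n + 1) n.lt_succ_self).1
    have h5 := gam_spec h4
    have h6 : t (mvs s b) (gam s (state s (play b n))) =
        s ((state s (play b n)).1 ++ [up (state s (play b n)).2]) (gam s (state s (play b n))) := by
      rw [state_fst, ← hm, ← play_succ]
      refine (hag (n + 1)).2 _ ?_
      refine lt_of_le_of_lt ?_ (lt_mv _ _)
      rw [state_succ]
      exact le_max_right _ _
    have h7 : t (mvs s b') (gam s (state s (play b n))) =
        s (state s (play b n)).1 (gam s (state s (play b n))) := by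
      rw [← hS, state_fst]
      refine (hag' n).2 _ ?_
      rw [mvs, h2]
      exact (le_max_right _ _).trans_lt (lt_up _)
    exact h5 (h6.symm.trans ((heq _ (hδ' _)).trans h7))
  have hinj : Function.Injective fun b : ℕ → Bool =>
      (⟨trunc (t (mvs s b)) δ, hE _ (hwin _ (strictMono_mvs b)).2.2.1 δ⟩ : C δ) := by
    intro b b' h
    by_contra hne
    obtain ⟨n, hn, hlt⟩ := exists_first_diff hne
    have h' : trunc (t (mvs s b)) δ = trunc (t (mvs s b')) δ := congrArg Subtype.val h
    cases hb : b n <;> cases hb' : b' n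
    · exact hn (hb.trans hb'.symm)
    · exact hdiff b b' n hb hb' hlt h'
    · exact hdiff b' b n hb' hb (fun i hi => (hlt i hi).symm) h'.symm
    · exact hn (hb.trans hb'.symm)
  have h0 : #(ℕ → Bool) = 𝔠 := by
    rw [mk_arrow, lift_id, lift_id, mk_bool, mk_nat, two_power_aleph0]
  have h1 := (mk_le_of_injective hinj).trans (Cardinal.le_aleph0_iff_set_countable.2 (hC δ))
  rw [h0] at h1
  exact absurd h1 (not_le.2 aleph0_lt_continuum)

end game

section tree

variable {U : Type} {u : U → Sq}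

/-- the branches of the tree of the restrictions of the `u s` -/
def Br (u : U → Sq) : Set Sq := {x | ∀ j, ∃ s, Agree x (u s) j}

theorem mem_Br (s : U) : u s ∈ Br u := fun _ => ⟨s, Agree.refl _ _⟩

theorem isClosed_Br : IsClosed (Br u) := by
  refine isClosed_of fun x hx => ?_
  simp only [Br, mem_ofPred_eq, not_forall] at hx
  obtain ⟨j, hj⟩ := hx
  refine ⟨j, fun y hy h => hj ?_⟩
  obtain ⟨s, hs⟩ := h j
  exact ⟨s, hy.symm.trans hs⟩

theorem Br_trunc {x : Sq} (hx : x ∈ Br u) (j : W) : trunc x j ∈ range fun s => trunc (u s) j := by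
  obtain ⟨s, hs⟩ := hx j
  exact ⟨s, (trunc_eq_iff.2 hs).symm⟩

theorem no_win_Br (hc : ∀ j, (range fun s => trunc (u s) j).Countable) {E : Set Sq}
    (hE : E ⊆ Br u) (x₀ : Sq) : ¬ IIWins E x₀ :=
  no_win hc (fun x hx j => Br_trunc (hE hx) j) x₀

theorem continuum_lt_mk_Br (hu : Function.Injective u) (hU : 𝔠 < #U) : 𝔠 < #(Br u) :=
  hU.trans_le (mk_le_of_injective (f := fun s => (⟨u s, mem_Br s⟩ : Br u))
    fun s s' h => hu (congrArg Subtype.val h))

theorem powerlt_aleph_one_le : (ℵ₁ : Cardinal.{0}) ^< ℵ₁ ≤ 𝔠 := by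
  rw [powerlt_le]
  intro x hx
  have h1 : x ≤ ℵ₀ := Cardinal.lt_aleph_one_iff.1 hx
  calc (ℵ₁ : Cardinal.{0}) ^ x ≤ 𝔠 ^ ℵ₀ := by
        refine (power_le_power_right aleph_one_le_continuum).trans ?_
        exact power_le_power_left continuum_ne_zero h1
    _ = 𝔠 := continuum_power_aleph0

theorem diff_nonempty {E X : Set Sq} (hE : 𝔠 < #E)
    (hX : #X ≤ (ℵ₁ : Cardinal.{0}) ^< ℵ₁) : (E \ X).Nonempty := by
  by_contra hcon
  rw [not_nonempty_iff_eq_empty, sdiff_eq_empty] at hcon
  have h1 := mk_le_mk_of_subset hcon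
  exact absurd (hE.trans_le (h1.trans (hX.trans powerlt_aleph_one_le))) (lt_irrefl _)

/-! ### The first example: a closed continuous image of the whole space -/

open Classical in
/-- the retraction -/
noncomputable def ret (u : U → Sq) (x : Sq) : Sq :=
  if h : {j : W | ¬ ∃ s, Agree x (u s) j}.Nonempty then
    trunc x (wellFounded_lt.min {j : W | ¬ ∃ s, Agree x (u s) j} h) else x

theorem ret_of_mem {x : Sq} (hx : x ∈ Br u) : ret u x = x := by
  rw [ret, dif_neg]
  rintro ⟨j, hj⟩
  exact hj (hx j)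

theorem exists_min {x : Sq} (hx : x ∉ Br u) :
    ∃ j, (¬ ∃ s, Agree x (u s) j) ∧ ∀ i < j, ∃ s, Agree x (u s) i := by
  have h : {j : W | ¬ ∃ s, Agree x (u s) j}.Nonempty := by
    simp only [Br, mem_ofPred_eq, not_forall] at hx
    exact hx
  refine ⟨_, wellFounded_lt.min_mem _ h, fun i hi => ?_⟩
  by_contra hcon
  exact wellFounded_lt.not_lt_min _ hcon hi

theorem ret_eq {x : Sq} {j : W} (h1 : ¬ ∃ s, Agree x (u s) j)
    (h2 : ∀ i < j, ∃ s, Agree x (u s) i) : ret u x = trunc x j := by
  have h : {j : W | ¬ ∃ s, Agree x (u s) j}.Nonempty := ⟨j, h1⟩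
  rw [ret, dif_pos h]
  congr 1
  apply le_antisymm
  · by_contra hcon
    exact wellFounded_lt.not_lt_min _ h1 (not_le.1 hcon)
  · by_contra hcon
    exact wellFounded_lt.min_mem _ h (h2 _ (not_le.1 hcon))

theorem no_agree {x y : Sq} {j : W} (h : Agree y x j) (h1 : ¬ ∃ s, Agree x (u s) j) :
    ¬ ∃ s, Agree y (u s) j := by
  rintro ⟨s, hs⟩
  exact h1 ⟨s, h.symm.trans hs⟩

theorem ag_agree {x y : Sq} {j : W} (h : Agree y x j) (h1 : ∀ i < j, ∃ s, Agree x (u s) i) :
    ∀ i < j, ∃ s, Agree y (u s) i := by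
  intro i hi
  obtain ⟨s, hs⟩ := h1 i hi
  exact ⟨s, (h.mono hi.le).trans hs⟩

theorem ret_ret (x : Sq) : ret u (ret u x) = ret u x := by
  by_cases hx : x ∈ Br u
  · rw [ret_of_mem hx, ret_of_mem hx]
  · obtain ⟨j, h1, h2⟩ := exists_min hx
    rw [ret_eq h1 h2, ret_eq (no_agree (agree_trunc x j) h1) (ag_agree (agree_trunc x j) h2)]
    rw [trunc_eq_iff]
    exact agree_trunc x j

theorem continuous_ret : Continuous (ret u) := by
  refine continuous_of fun x α => ?_
  by_cases hx : x ∈ Br u
  · refine ⟨α, fun y hy => ?_⟩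
    rw [ret_of_mem hx]
    by_cases hy' : y ∈ Br u
    · rw [ret_of_mem hy']
      exact hy
    · obtain ⟨j, h1, h2⟩ := exists_min hy'
      rw [ret_eq h1 h2]
      have hα : α ≤ j := by
        by_contra hcon
        exact no_agree (hy.symm.mono (not_le.1 hcon).le) h1 (hx j)
      exact ((agree_trunc y j).mono hα).trans hy
  · obtain ⟨j, h1, h2⟩ := exists_min hx
    refine ⟨max α j, fun y hy => ?_⟩
    have hj : Agree y x j := hy.mono (le_max_right _ _)
    rw [ret_eq h1 h2, ret_eq (no_agree hj h1) (ag_agree hj h2), trunc_eq_iff.2 hj]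
    exact Agree.refl _ _

/-- the range of the retraction -/
def Ex (u : U → Sq) : Set Sq := range (ret u)

theorem mem_Ex {x : Sq} : x ∈ Ex u ↔ ret u x = x :=
  ⟨fun ⟨y, hy⟩ => by rw [← hy, ret_ret], fun h => ⟨x, h⟩⟩

theorem Br_subset : Br u ⊆ Ex u := fun _ hx => mem_Ex.2 (ret_of_mem hx)

/-- the points outside `Br` are isolated -/
theorem isolated {x : Sq} (hx : x ∈ Ex u) (hb : x ∉ Br u) :
    ∃ j, ∀ y ∈ Ex u, Agree y x j → y = x := by
  obtain ⟨j, h1, h2⟩ := exists_min hb
  refine ⟨j, fun y hy h => ?_⟩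
  rw [← mem_Ex.1 hx, ← mem_Ex.1 hy, ret_eq h1 h2, ret_eq (no_agree h h1) (ag_agree h h2),
    trunc_eq_iff]
  exact h

theorem isClosed_Ex : IsClosed (Ex u) := by
  refine isClosed_of fun x hx => ?_
  have hb : x ∉ Br u := fun h => hx (Br_subset h)
  obtain ⟨j, h1, h2⟩ := exists_min hb
  have hne : trunc x j ≠ x := fun h => hx (mem_Ex.2 ((ret_eq h1 h2).trans h))
  obtain ⟨γ, hγ⟩ := Function.ne_iff.1 hne
  obtain ⟨δ, hδ⟩ := exists_gt (max γ j)
  refine ⟨δ, fun y hy h => ?_⟩
  have hj : Agree y x j := hy.mono ((le_max_right γ j).trans hδ.le)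
  have h3 := mem_Ex.1 h
  rw [ret_eq (no_agree hj h1) (ag_agree hj h2), trunc_eq_iff.2 hj] at h3
  apply hγ
  rw [h3]
  exact hy γ ((le_max_left γ j).trans_lt hδ)

/-- In a game at an isolated point Player II loses. -/
theorem not_wins_isolated {E : Set Sq} {x : Sq} (j : W) (h : ∀ y ∈ E, Agree y x j → y = x) :
    ¬ IIWins E x := by
  rintro ⟨s, t, hs, hwin⟩
  obtain ⟨a, ha, ha0⟩ : ∃ a : ℕ → W, StrictMono a ∧ a 0 = j :=
    ⟨fun n => Nat.rec j (fun _ x => up x) n, strictMono_nat_of_lt_succ fun n => lt_up _, rfl⟩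
  obtain ⟨h1, h2, -⟩ := hwin a ha
  have h3 := h2 0 1 one_pos
  have h4 : s (play a 0) = x := hs
  rw [h4, ha0] at h3
  exact h3.1 (h _ (h1 0) h3.2)

theorem first_example (hu : Function.Injective u) (hU : 𝔠 < #U)
    (hc : ∀ j, (range fun s => trunc (u s) j).Countable) (X : Set Sq)
    (hX : #X ≤ (ℵ₁ : Cardinal.{0}) ^< ℵ₁) : ¬ Perf (Ex u \ X) := by
  rintro ⟨-, h⟩
  have hsub : Ex u \ X ⊆ Br u := by
    intro x hx
    by_contra hb
    obtain ⟨j, hj⟩ := isolated hx.1 hb
    exact not_wins_isolated j (fun y hy => hj y hy.1) (h x hx)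
  have h1 : 𝔠 < #(Ex u) := (continuum_lt_mk_Br hu hU).trans_le (mk_le_mk_of_subset Br_subset)
  obtain ⟨x, hx⟩ := diff_nonempty h1 hX
  exact no_win_Br hc hsub x (h x hx)

/-! ### The second example: a continuous image of a perfect set -/

/-- a pairing -/
noncomputable def eqv : W ≃ W × Bool := by
  have h : #W = #(W × Bool) := by
    rw [mk_prod, lift_id, lift_id, mk_W, mk_bool]
    exact (Cardinal.mul_eq_left (aleph0_le_aleph 1)
      ((natCast_lt_aleph0 (n := 2)).le.trans (aleph0_le_aleph 1)) two_ne_zero).symm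
  exact (Cardinal.eq.1 h).some

/-- the projection -/
noncomputable def pro (z : Sq) : Sq := fun β => (eqv (z β)).1

theorem continuous_pro : Continuous pro :=
  continuous_of fun x α => ⟨α, fun y hy β hβ => by
    show (eqv (y β)).1 = (eqv (x β)).1
    rw [hy β hβ]⟩

/-- the perfect set above `Br` -/
def Dx (u : U → Sq) : Set Sq := {z | pro z ∈ Br u}

theorem isClosed_Dx : IsClosed (Dx u) := isClosed_Br.preimage continuous_pro

open Classical in
/-- flip at the places in `A` -/
noncomputable def flp (z : Sq) (A : Set W) : Sq := fun β =>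
  if β ∈ A then eqv.symm ((eqv (z β)).1, !(eqv (z β)).2) else z β

theorem pro_flp (z : Sq) (A : Set W) : pro (flp z A) = pro z := by
  funext β
  show (eqv (flp z A β)).1 = (eqv (z β)).1
  unfold flp
  split_ifs
  · rw [Equiv.apply_symm_apply]
  · rfl

theorem flp_congr {z : Sq} {A B : Set W} {α : W} (h : ∀ β < α, β ∈ A ↔ β ∈ B) :
    Agree (flp z A) (flp z B) α := by
  intro β hβ
  by_cases hA : β ∈ A
  · have h1 : flp z A β = eqv.symm ((eqv (z β)).1, !(eqv (z β)).2) := if_pos hA
    have h2 : flp z B β = eqv.symm ((eqv (z β)).1, !(eqv (z β)).2) := if_pos ((h β hβ).1 hA)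
    rw [h1, h2]
  · have h1 : flp z A β = z β := if_neg hA
    have h2 : flp z B β = z β := if_neg fun hB => hA ((h β hβ).2 hB)
    rw [h1, h2]

theorem flp_ne {z : Sq} {A B : Set W} {β : W} (h1 : β ∈ A) (h2 : β ∉ B) :
    flp z A ≠ flp z B := by
  intro h
  have h3 : flp z A β = flp z B β := congrFun h β
  have h4 : flp z A β = eqv.symm ((eqv (z β)).1, !(eqv (z β)).2) := if_pos h1
  have h5 : flp z B β = z β := if_neg h2
  rw [h4, h5] at h3
  have h6 := congrArg eqv h3
  rw [Equiv.apply_symm_apply] at h6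
  have h7 : (!(eqv (z β)).2) = (eqv (z β)).2 := congrArg Prod.snd h6
  cases h8 : (eqv (z β)).2 <;> rw [h8] at h7 <;> simp at h7

theorem perf_Dx : Perf (Dx u) := by
  refine ⟨isClosed_Dx, fun z hz => ?_⟩
  refine ⟨fun l => flp z {β | β ∈ l}, fun a => flp z (range a), ?_, fun a ha => ?_⟩
  · funext β
    exact if_neg (by simp)
  have hmem : ∀ A, flp z A ∈ Dx u := fun A => by
    show pro (flp z A) ∈ Br u
    rw [pro_flp]
    exact hz
  refine ⟨fun n => hmem _, fun i j hij => ⟨?_, ?_⟩, hmem _, fun i => ⟨?_, ?_⟩⟩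
  · refine flp_ne (β := a i) (mem_play.2 ⟨i, hij, rfl⟩) ?_
    rintro h
    obtain ⟨k, hk, hki⟩ := mem_play.1 h
    exact hk.ne (ha.injective hki)
  · refine flp_congr fun β hβ => ?_
    constructor
    · intro h
      obtain ⟨k, hk, rfl⟩ := mem_play.1 h
      exact mem_play.2 ⟨k, ha.lt_iff_lt.1 hβ, rfl⟩
    · intro h
      obtain ⟨k, hk, rfl⟩ := mem_play.1 h
      exact mem_play.2 ⟨k, hk.trans hij, rfl⟩
  · refine flp_ne (β := a i) ⟨i, rfl⟩ ?_
    rintro h
    obtain ⟨k, hk, hki⟩ := mem_play.1 h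
    exact hk.ne (ha.injective hki)
  · refine flp_congr fun β hβ => ?_
    constructor
    · rintro ⟨k, rfl⟩
      exact mem_play.2 ⟨k, ha.lt_iff_lt.1 hβ, rfl⟩
    · intro h
      obtain ⟨k, hk, rfl⟩ := mem_play.1 h
      exact ⟨k, rfl⟩

theorem exists_surj : ∃ f : Dx u → Br u, Continuous f ∧ Function.Surjective f := by
  refine ⟨fun z => ⟨pro z.1, z.2⟩,
    (continuous_pro.comp continuous_subtype_val).subtype_mk _, fun x => ?_⟩
  have h : pro (fun β => eqv.symm (x.1 β, false)) = x.1 := by
    funext β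
    show (eqv (eqv.symm (x.1 β, false))).1 = x.1 β
    rw [Equiv.apply_symm_apply]
  refine ⟨⟨fun β => eqv.symm (x.1 β, false), ?_⟩, Subtype.ext h⟩
  show pro _ ∈ Br u
  rw [h]
  exact x.2

theorem second_example (hu : Function.Injective u) (hU : 𝔠 < #U)
    (hc : ∀ j, (range fun s => trunc (u s) j).Countable) (X : Set Sq)
    (hX : #X ≤ (ℵ₁ : Cardinal.{0}) ^< ℵ₁) :
    (∃ x ∈ Br u \ X, ¬ IIWins (Br u) x) ∧ ¬ Perf (Br u \ X) := by
  obtain ⟨x, hx⟩ := diff_nonempty (continuum_lt_mk_Br hu hU) hX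
  exact ⟨⟨x, hx, no_win_Br hc subset_rfl x⟩, fun h => no_win_Br hc sdiff_subset x (h.2 x hx)⟩

end tree

/-! ### Families of sets -/

/-- a second element -/
noncomputable def w1 : W := up w0

theorem w1_ne : w1 ≠ w0 := (lt_up w0).ne'

open Classical in
/-- characteristic function -/
noncomputable def chr (A : Set W) : Sq := fun β => if β ∈ A then w1 else w0

theorem chr_inj : Function.Injective chr := by
  intro A B h
  ext β
  have h1 := congrFun h β
  unfold chr at h1
  by_cases hA : β ∈ A <;> by_cases hB : β ∈ B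
  · exact ⟨fun _ => hB, fun _ => hA⟩
  · rw [if_pos hA, if_neg hB] at h1
    exact absurd h1 w1_ne
  · rw [if_neg hA, if_pos hB] at h1
    exact absurd h1.symm w1_ne
  · exact ⟨fun h => absurd h hA, fun h => absurd h hB⟩

theorem trunc_chr (A : Set W) (j : W) : trunc (chr A) j = chr (A ∩ Iio j) := by
  funext β
  unfold trunc chr
  by_cases hj : β < j <;> by_cases hA : β ∈ A <;> simp [hj, hA]

theorem countable_traces {U : Type} {u : U → Set W}
    (hc : ∀ j, (range fun s => u s ∩ Iio j).Countable) (j : W) :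
    (range fun s => trunc (chr (u s)) j).Countable := by
  have : (range fun s => trunc (chr (u s)) j) = chr '' range fun s => u s ∩ Iio j := by
    rw [← range_comp]
    congr 1
    funext s
    exact trunc_chr _ _
  rw [this]
  exact (hc j).image _

end Pool.Agent.R590.Kur
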