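import Mathlib
import Pool.Agent.Helper669.Forcing
import Pool.Agent.Helper669.KDelta
import Pool.Agent.R590.KuTree

set_option autoImplicit false

/-!
# A family of more than continuum many subsets of `ω₁` with countably many traces can be added
-/

namespace Pool.Agent.R590.Kur

open Cardinal Set Pool.Agent.Helper669.Forcing

/-! ### The hypothesis and its translation -/

/-- There is no function from `ℕ` onto `ω₁`. There are a family of pairwise different subsets
`A i` (`i` in `U`) of `ω₁`, such that for every `j < ω₁` there is a sequence of subsets of `ω₁`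
such that every `A i` agrees below `j` with a member of the sequence, and a set `Y`, such
that there is a function from `Y` onto the set of all functions from `ℕ` to `ℕ`, but no
injective function from `U` to `Y`. -/
def Hypothesis : Prop :=
  (¬ ∃ f : ℕ → W, f.Surjective) ∧
    ∃ (U Y : Type) (A : U → W → Prop),
      (∀ i i', i ≠ i' → ¬ ∀ β, A i β ↔ A i' β) ∧
      (∀ j : W, ∃ e : ℕ → W → Prop, ∀ i, ∃ n, ∀ β, β < j → (A i β ↔ e n β)) ∧
      (∃ E : Y → ℕ → ℕ, ∀ x : ℕ → ℕ, ∃ y, x = E y) ∧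
      ¬ ∃ f : U → Y, f.Injective

/-- The meaning of the hypothesis. -/
theorem hypothesis_iff : Hypothesis ↔
    ∃ (U : Type) (u : U → Set W), Function.Injective u ∧ 𝔠 < #U ∧
      ∀ j, (range fun s => u s ∩ Iio j).Countable := by
  constructor
  · rintro ⟨-, U, Y, A, h1, h2, ⟨E, h3⟩, h4⟩
    refine ⟨U, fun i => {β | A i β}, ?_, ?_, ?_⟩
    · intro i j hij
      by_contra hne
      refine h1 i j hne fun β => ?_
      have h5 : {β | A i β} = {β | A j β} := hij
      have : β ∈ {β | A i β} ↔ β ∈ {β | A j β} := by rw [h5]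
      exact this
    · by_contra hcon
      apply h4
      have h5 : #U ≤ #Y := by
        refine (not_lt.1 hcon).trans ?_
        have h6 : Function.Surjective E := fun x => by
          obtain ⟨y, hy⟩ := h3 x
          exact ⟨y, hy.symm⟩
        have h7 := mk_le_of_surjective h6
        have h8 : #(ℕ → ℕ) = 𝔠 := by
          rw [← power_def, mk_nat, aleph0_power_aleph0]
        rwa [h8] at h7
      obtain ⟨g⟩ := h5
      exact ⟨g, g.injective⟩
    · intro j
      obtain ⟨e, he⟩ := h2 j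
      refine (countable_range fun n => {β | e n β ∧ β < j}).mono ?_
      rintro _ ⟨i, rfl⟩
      obtain ⟨n, hn⟩ := he i
      refine ⟨n, ?_⟩
      ext β
      constructor
      · rintro ⟨h5, h6⟩
        exact ⟨(hn β h6).2 h5, h6⟩
      · rintro ⟨h5, h6⟩
        exact ⟨(hn β h6).1 h5, h6⟩
  · rintro ⟨U, u, h1, h2, h3⟩
    refine ⟨?_, U, ℕ → ℕ, fun i β => β ∈ u i, ?_, ?_, ⟨id, fun x => ⟨x, rfl⟩⟩, ?_⟩
    · rintro ⟨f, hf⟩
      have h4 := mk_le_of_surjective hf
      rw [mk_nat, mk_W] at h4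
      exact absurd h4 (not_le.2 aleph0_lt_aleph_one)
    · intro i j hij h
      exact hij (h1 (Set.ext h))
    · intro j
      have hne : Nonempty U := by
        rw [← mk_ne_zero_iff]
        intro h0
        rw [h0] at h2
        exact absurd h2 not_lt_zero'
      obtain ⟨e, he⟩ := (h3 j).exists_eq_range (range_nonempty _)
      refine ⟨fun n β => β ∈ e n, fun i => ?_⟩
      have h5 : u i ∩ Iio j ∈ range e := by
        rw [← he]
        exact ⟨i, rfl⟩
      obtain ⟨n, hn⟩ := h5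
      refine ⟨n, fun β hβ => ?_⟩
      show β ∈ u i ↔ β ∈ e n
      rw [hn]
      exact ⟨fun h => ⟨h, hβ⟩, fun h => h.1⟩
    · rintro ⟨f, hf⟩
      have h4 := mk_le_of_injective hf
      have h8 : #(ℕ → ℕ) = 𝔠 := by
        rw [← power_def, mk_nat, aleph0_power_aleph0]
      rw [h8] at h4
      exact absurd h2 (not_lt.2 h4)

section Names

variable {P : Type} [Preorder P]

/-- `φ if and only if ψ`. -/
def fiff (φ ψ : Set P) : Set P := fand (fimp φ ψ) (fimp ψ φ)

/-- The translation of the hypothesis into the forcing language: relations are replaced by names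
of relations, functions by names of their graphs. The set `W` is the `ω₁` of the
ground model, and the first clause says that it is still uncountable. -/
def HypothesisN (P : Type) [Preorder P] : Set P :=
  fand (fnot (fex fun R : ℕ → W → Set P => fand (IsFun R) (IsOnto R)))
    (fex fun U : Type => fex fun Y : Type => fex fun A : U → W → Set P =>
      fand (fall fun i : U => fall fun i' : U => fimp (fground (i ≠ i'))
          (fnot (fall fun β => fiff (meets (A i β)) (meets (A i' β)))))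
        (fand (fall fun j : W => fex fun e : ℕ → W → Set P => fall fun i : U => fex fun n =>
            fall fun β => fimp (fground (β < j)) (fiff (meets (A i β)) (meets (e n β))))
          (fand (ContinuumLe P Y)
            (fnot (fex fun R : U → Y → Set P => fand (IsFun R) (IsInj R))))))

end Names

/-! ### The conditions -/

/-- the index set -/
abbrev Th : Type := (Order.succ (𝔠 : Cardinal.{0})).ord.ToType

theorem mk_Th : #Th = Order.succ 𝔠 := mk_ord_toType _

/-- the conditions -/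
structure Cond where
  /-- the height -/
  al : W
  /-- the countable support -/
  I : Set Th
  /-- the family -/
  f : Th → Set W
  cnt : I.Countable
  ne : I.Nonempty
  bdd : ∀ i ∈ I, f i ⊆ Iio al

instance : Preorder Cond where
  le q p := p.al ≤ q.al ∧ p.I ⊆ q.I ∧ (∀ i ∈ p.I, q.f i ∩ Iio p.al = p.f i) ∧
    ∀ i ∈ q.I, ∃ k ∈ p.I, q.f i ∩ Iio p.al = p.f k
  le_refl p := ⟨le_rfl, Subset.rfl, fun i hi => inter_eq_left.2 (p.bdd i hi),
    fun i hi => ⟨i, hi, inter_eq_left.2 (p.bdd i hi)⟩⟩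
  le_trans r q p := by
    rintro ⟨h1, h2, h3, h4⟩ ⟨g1, g2, g3, g4⟩
    have key : ∀ i, r.f i ∩ Iio p.al = (r.f i ∩ Iio q.al) ∩ Iio p.al := by
      intro i
      rw [inter_assoc, Iio_inter_Iio, min_eq_right g1]
    refine ⟨g1.trans h1, g2.trans h2, fun i hi => ?_, fun i hi => ?_⟩
    · rw [key, h3 i (g2 hi), g3 i hi]
    · obtain ⟨k, hk, hk'⟩ := h4 i hi
      obtain ⟨l, hl, hl'⟩ := g4 k hk
      exact ⟨l, hl, by rw [key, hk', hl']⟩

namespace Cond

theorem le_def {q p : Cond} : q ≤ p ↔ p.al ≤ q.al ∧ p.I ⊆ q.I ∧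
    (∀ i ∈ p.I, q.f i ∩ Iio p.al = p.f i) ∧ ∀ i ∈ q.I, ∃ k ∈ p.I, q.f i ∩ Iio p.al = p.f k :=
  Iff.rfl

theorem val {q p : Cond} (h : q ≤ p) {i : Th} (hi : i ∈ p.I) {β : W} (hβ : β < p.al) :
    β ∈ q.f i ↔ β ∈ p.f i := by
  rw [← h.2.2.1 i hi]
  exact ⟨fun h => ⟨h, hβ⟩, fun h => h.1⟩

/-- the conditions are closed under limits of decreasing sequences -/
theorem exists_lower (p : ℕ → Cond) (hp : ∀ n, p (n + 1) ≤ p n) : ∃ q, ∀ n, q ≤ p n := by
  have hanti : ∀ m n, m ≤ n → p n ≤ p m := fun m n h => antitone_nat_of_succ_le hp h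
  obtain ⟨δ, hδ⟩ := W_bdd (countable_range fun n => (p n).al)
  have hδ' : ∀ n, (p n).al < δ := fun n => hδ _ ⟨n, rfl⟩
  have hkey : ∀ m, ∀ i ∈ (p m).I, ∀ n, n ≤ m →
      {β | ∃ k, i ∈ (p k).I ∧ β ∈ (p k).f i} ∩ Iio (p n).al = (p m).f i ∩ Iio (p n).al := by
    intro m i hi n hn
    ext β
    constructor
    · rintro ⟨⟨k, hk, hβ⟩, hβ'⟩
      refine ⟨?_, hβ'⟩
      have hβn : β < (p n).al := hβ'
      rcases le_total k m with hkm | hkm
      · have h1 : β < (p k).al := (p k).bdd i hk hβ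
        exact (val (hanti k m hkm) hk h1).2 hβ
      · have h1 : β < (p m).al := hβn.trans_le (hanti n m hn).1
        exact (val (hanti m k hkm) hi h1).1 hβ
    · rintro ⟨h1, h2⟩
      exact ⟨⟨m, hi, h1⟩, h2⟩
  refine ⟨⟨δ, ⋃ n, (p n).I, fun i => {β | ∃ k, i ∈ (p k).I ∧ β ∈ (p k).f i},
    countable_iUnion fun n => (p n).cnt, (p 0).ne.mono (subset_iUnion _ 0), ?_⟩, fun n => ?_⟩
  · rintro i - β ⟨k, hk, hβ⟩
    exact ((p k).bdd i hk hβ).trans (hδ' k)
  · refine ⟨(hδ' n).le, subset_iUnion (fun n => (p n).I) n, fun i hi => ?_, fun i hi => ?_⟩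
    · refine (hkey n i hi n le_rfl).trans ?_
      exact inter_eq_left.2 ((p n).bdd i hi)
    · obtain ⟨m, hm⟩ := mem_iUnion.1 hi
      have h1 : i ∈ (p (max m n)).I := (hanti m _ (le_max_left _ _)).2.1 hm
      obtain ⟨k, hk, hk'⟩ := (hanti n _ (le_max_right m n)).2.2.2 i h1
      exact ⟨k, hk, (hkey (max m n) i h1 n (le_max_right _ _)).trans hk'⟩

/-- countably many dense open requirements can be met -/
theorem exists_generic (p : Cond) (D : ℕ → Set Cond) (hd : ∀ n, Down (D n))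
    (hD : ∀ n, ∀ q ≤ p, ∃ r ≤ q, r ∈ D n) : ∃ q ≤ p, ∀ n, q ∈ D n := by
  choose! g hg1 hg2 using hD
  let s : ℕ → {q : Cond // q ≤ p} := fun n =>
    Nat.rec ⟨p, le_rfl⟩ (fun n q => ⟨g n q.1, (hg1 n q.1 q.2).trans q.2⟩) n
  have hs : ∀ n, (s (n + 1)).1 = g n (s n).1 := fun n => rfl
  obtain ⟨q, hq⟩ := exists_lower (fun n => (s n).1) fun n => by
    rw [hs]
    exact hg1 n _ (s n).2
  refine ⟨q, hq 0, fun n => ?_⟩
  refine hd n _ (hg2 n _ (s n).2) _ ?_
  rw [← hs]
  exact hq (n + 1)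

/-- raising the height -/
def raise (p : Cond) (δ : W) (h : p.al ≤ δ) : Cond where
  al := δ
  I := p.I
  f := p.f
  cnt := p.cnt
  ne := p.ne
  bdd i hi := (p.bdd i hi).trans fun _ hβ => lt_of_lt_of_le hβ h

theorem raise_le (p : Cond) (δ : W) (h : p.al ≤ δ) : p.raise δ h ≤ p :=
  ⟨h, Subset.rfl, fun i hi => inter_eq_left.2 (p.bdd i hi),
    fun i hi => ⟨i, hi, inter_eq_left.2 (p.bdd i hi)⟩⟩

theorem exists_high (p : Cond) (δ : W) : ∃ q ≤ p, δ ≤ q.al :=
  ⟨p.raise (max p.al δ) (le_max_left _ _), raise_le _ _ _, le_max_right _ _⟩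

open Classical in
/-- adding an index -/
noncomputable def add (p : Cond) (i : Th) : Cond where
  al := p.al
  I := insert i p.I
  f j := if j ∈ p.I then p.f j else p.f p.ne.some
  cnt := p.cnt.insert i
  ne := insert_nonempty _ _
  bdd j _ := by
    split_ifs with h
    · exact p.bdd j h
    · exact p.bdd _ p.ne.some_mem

theorem add_le (p : Cond) (i : Th) : p.add i ≤ p := by
  have h1 : ∀ j ∈ p.I, (p.add i).f j = p.f j := fun j hj => if_pos hj
  refine ⟨le_rfl, subset_insert _ _, fun j hj => ?_, fun j _ => ?_⟩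
  · rw [h1 j hj]
    exact inter_eq_left.2 (p.bdd j hj)
  · by_cases hj : j ∈ p.I
    · exact ⟨j, hj, by rw [h1 j hj]; exact inter_eq_left.2 (p.bdd j hj)⟩
    · refine ⟨_, p.ne.some_mem, ?_⟩
      have h2 : (p.add i).f j = p.f p.ne.some := if_neg hj
      rw [h2]
      exact inter_eq_left.2 (p.bdd _ p.ne.some_mem)

theorem exists_mem (p : Cond) (i : Th) : ∃ q ≤ p, i ∈ q.I :=
  ⟨p.add i, add_le p i, mem_insert _ _⟩

open Classical in
/-- splitting at the height -/
noncomputable def spl (p : Cond) (i : Th) : Cond where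
  al := up p.al
  I := p.I
  f j := if j = i then insert p.al (p.f j) else p.f j
  cnt := p.cnt
  ne := p.ne
  bdd j hj := by
    have h := p.bdd j hj
    have h' : p.f j ⊆ Iio (up p.al) := fun β hβ => lt_trans (h hβ) (lt_up _)
    split_ifs
    · exact insert_subset (lt_up _) h'
    · exact h'

theorem spl_le (p : Cond) (i : Th) : p.spl i ≤ p := by
  have h1 : ∀ j ∈ p.I, (p.spl i).f j ∩ Iio p.al = p.f j := by
    intro j hj
    by_cases hji : j = i
    · have h2 : (p.spl i).f j = insert p.al (p.f j) := if_pos hji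
      rw [h2, insert_inter_of_notMem (by simp)]
      exact inter_eq_left.2 (p.bdd j hj)
    · have h2 : (p.spl i).f j = p.f j := if_neg hji
      rw [h2]
      exact inter_eq_left.2 (p.bdd j hj)
  exact ⟨(lt_up _).le, Subset.rfl, h1, fun j hj => ⟨j, hj, h1 j hj⟩⟩

/-- the names of the members of the family -/
def An (i : Th) (β : W) : Set Cond := {p | i ∈ p.I ∧ β ∈ p.f i}

theorem mem_An_iff {p : Cond} {i : Th} (hi : i ∈ p.I) {β : W} (hβ : β < p.al) :
    p ∈ meets (An i β) ↔ β ∈ p.f i := by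
  constructor
  · intro h
    obtain ⟨r, hr, s, hs, hrs⟩ := h p le_rfl
    have h1 : β ∈ r.f i := (val hrs hs.1 (s.bdd i hs.1 hs.2)).2 hs.2
    exact (val hr hi hβ).1 h1
  · intro h
    exact meets_of_mem ⟨hi, h⟩

/-- the names of ground model sets -/
def chk (h : Prop) : Set Cond := {_p | h}

theorem mem_chk {p : Cond} {h : Prop} : p ∈ meets (chk h) ↔ h :=
  ⟨fun h1 => by
    obtain ⟨_, _, _, h2, _⟩ := h1 p le_rfl
    exact h2, fun h1 => meets_of_mem h1⟩

theorem fiff_of {φ ψ : Set Cond} {p : Cond} (h : ∀ q ≤ p, (q ∈ φ ↔ q ∈ ψ)) : p ∈ fiff φ ψ :=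
  ⟨mem_fimp.2 fun q hq h1 => ⟨q, le_rfl, (h q hq).1 h1⟩,
    mem_fimp.2 fun q hq h1 => ⟨q, le_rfl, (h q hq).2 h1⟩⟩

theorem distinct (p : Cond) {i j : Th} (hij : i ≠ j) :
    p ∈ fnot (fall fun β => fiff (meets (An i β)) (meets (An j β))) := by
  intro q _ hq
  obtain ⟨q1, hq1, hi⟩ := exists_mem q i
  obtain ⟨q2, hq2, hj⟩ := exists_mem q1 j
  have hi2 : i ∈ q2.I := hq2.2.1 hi
  have h1 := spl_le q2 i
  have h2 : i ∈ (q2.spl i).I := hi2
  have h3 : j ∈ (q2.spl i).I := hj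
  have hlt : q2.al < (q2.spl i).al := lt_up _
  have h4 : q2.al ∈ (q2.spl i).f i := by
    have : (q2.spl i).f i = insert q2.al (q2.f i) := if_pos rfl
    rw [this]
    exact mem_insert _ _
  have h5 : q2.al ∉ (q2.spl i).f j := by
    have : (q2.spl i).f j = q2.f j := if_neg hij.symm
    rw [this]
    exact fun h => lt_irrefl q2.al (q2.bdd j hj h)
  obtain ⟨r, hr, hr'⟩ := mem_fimp.1 (hq q2.al).1 (q2.spl i) (h1.trans (hq2.trans hq1))
    ((mem_An_iff h2 hlt).2 h4)
  have h6 := (mem_An_iff (hr.2.1 h3) (hlt.trans_le hr.1)).1 hr'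
  exact h5 ((val hr h3 hlt).1 h6)

theorem traces (p : Cond) (j : W) : p ∈ fex fun e : ℕ → W → Set Cond => fall fun i : Th =>
    fex fun n => fall fun β => fimp (fground (β < j)) (fiff (meets (An i β)) (meets (e n β))) := by
  refine mem_fex.2 fun q _ => ?_
  obtain ⟨q1, hq1, hal⟩ := exists_high q j
  obtain ⟨e, he⟩ := q1.cnt.exists_eq_range q1.ne
  refine ⟨q1, hq1, fun n β => chk (β ∈ q1.f (e n)), fun i => mem_fex.2 fun r hr => ?_⟩
  obtain ⟨r1, hr1, hi⟩ := exists_mem r i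
  have h1 : r1 ≤ q1 := hr1.trans hr
  obtain ⟨k, hk, hk'⟩ := h1.2.2.2 i hi
  rw [he] at hk
  obtain ⟨n, rfl⟩ := hk
  refine ⟨r1, hr1, n, fun β => mem_fimp.2 fun r2 hr2 hβ => ⟨r2, le_rfl, ?_⟩⟩
  have hβ' : β < q1.al := lt_of_lt_of_le hβ hal
  refine fiff_of fun r3 hr3 => ?_
  have hr31 : r3 ≤ r1 := hr3.trans hr2
  rw [mem_chk, mem_An_iff (hr31.2.1 hi) (hβ'.trans_le (hr31.trans h1).1),
    val hr31 hi (hβ'.trans_le h1.1), ← hk']
  exact ⟨fun h => ⟨h, hβ'⟩, fun h => h.1⟩

/-- deciding the values of a function on `ℕ` -/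
theorem decide_fun {X : Type} {R : ℕ → X → Set Cond} {p : Cond} (h : p ∈ IsFun R) :
    ∃ q ≤ p, ∃ x : ℕ → X, ∀ n, q ∈ meets (R n (x n)) := by
  obtain ⟨q, hq, hq'⟩ := exists_generic p (fun n => {q | ∃ x, q ∈ meets (R n x)})
    (fun n q hq r hr => by
      obtain ⟨x, hx⟩ := hq
      exact ⟨x, down_meets _ _ hx _ hr⟩)
    (fun n q hq => by
      obtain ⟨r, hr, x, hx⟩ := IsFun.total (down_IsFun R p h q hq) n
      exact ⟨r, hr, x, hx⟩)
  choose x hx using hq'
  exact ⟨q, hq, x, hx⟩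

theorem omegaOne (p : Cond) :
    p ∈ fnot (fex fun R : ℕ → W → Set Cond => fand (IsFun R) (IsOnto R)) := by
  intro q _ hq
  obtain ⟨q1, _, R, hF, hO⟩ := mem_fex.1 hq q le_rfl
  obtain ⟨q2, hq2, x, hx⟩ := decide_fun hF
  obtain ⟨δ, hδ⟩ := W_bdd (countable_range x)
  obtain ⟨q3, hq3, n, hn⟩ := mem_fex.1 (hO δ) q2 hq2
  have h1 := IsFun.unique (down_IsFun R q1 hF _ (hq3.trans hq2)) (down_meets _ _ (hx n) _ hq3) hn
  have h2 := hδ (x n) ⟨n, rfl⟩
  rw [h1] at h2
  exact lt_irrefl _ h2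

theorem continuumLe (p : Cond) : p ∈ ContinuumLe Cond (ℕ → ℕ) := by
  refine mem_fex.2 fun q _ => ⟨q, le_rfl, fun y n a => chk (y n = a), fun y => ⟨fun n => ?_,
    fun n a b => ?_⟩, fun x => mem_fimp.2 fun r _ hr => ?_⟩
  · exact mem_fex.2 fun r _ => ⟨r, le_rfl, y n, mem_chk.2 rfl⟩
  · refine mem_fimp.2 fun r _ h => ⟨r, le_rfl, ?_⟩
    exact (mem_chk.1 h.1).symm.trans (mem_chk.1 h.2)
  · obtain ⟨q2, hq2, y, hy⟩ := decide_fun hr
    refine ⟨q2, hq2, mem_fex.2 fun q3 hq3 => ⟨q3, le_rfl, y, fun n a b => ?_⟩⟩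
    refine mem_fimp.2 fun q4 hq4 h => ⟨q4, le_rfl, ?_⟩
    have h1 := IsFun.unique (down_IsFun x r hr _ (hq4.trans (hq3.trans hq2)))
      (down_meets _ _ (hy n) _ (hq4.trans hq3)) h.1
    exact h1.symm.trans (mem_chk.1 h.2)

/-! ### The chain condition -/

/-- the bounded subsets of `ω₁` -/
def Bd : Type := {A : Set W // ∃ δ, A ⊆ Iio δ}

theorem mk_Bd : #Bd ≤ 𝔠 := by
  have h1 : ∀ δ : W, #{A : Set W | A ⊆ Iio δ} ≤ 𝔠 := by
    intro δ
    have h2 : #{A : Set W | A ⊆ Iio δ} ≤ #(Set (Iio δ)) := by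
      refine mk_le_of_injective (f := fun A => {x : Iio δ | x.1 ∈ A.1}) ?_
      intro A B hAB
      apply Subtype.ext
      ext β
      constructor
      · intro h
        have h3 : (⟨β, A.2 h⟩ : Iio δ) ∈ {x : Iio δ | x.1 ∈ A.1} := h
        simp only at hAB
        rw [hAB] at h3
        exact h3
      · intro h
        have h3 : (⟨β, B.2 h⟩ : Iio δ) ∈ {x : Iio δ | x.1 ∈ B.1} := h
        simp only at hAB
        rw [← hAB] at h3
        exact h3
    refine h2.trans ?_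
    rw [mk_set]
    have h3 : #(Iio δ) ≤ ℵ₀ := by
      rw [← Cardinal.lt_aleph_one_iff]
      have := Cardinal.mk_Iio_lt δ (by rw [mk_W]; exact (Ordinal.type_toType _).symm)
      rwa [mk_W] at this
    calc (2 : Cardinal.{0}) ^ #(Iio δ) ≤ 2 ^ ℵ₀ := power_le_power_left two_ne_zero h3
      _ = 𝔠 := two_power_aleph0
  have h2 : {A : Set W | ∃ δ, A ⊆ Iio δ} = ⋃ δ, {A : Set W | A ⊆ Iio δ} := by
    ext A
    simp
  show #{A : Set W | ∃ δ, A ⊆ Iio δ} ≤ 𝔠
  rw [h2]
  refine Pool.Agent.Helper669.KDelta.small_iUnion aleph0_le_continuum ?_ _ h1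
  rw [mk_W]
  exact aleph_one_le_continuum

theorem pow_le {c : Cardinal.{0}} (h : c ≤ 𝔠) : c ^ (ℵ₀ : Cardinal.{0}) ≤ 𝔠 :=
  (power_le_power_right h).trans continuum_power_aleph0.le

/-- more than continuum many conditions are not pairwise incompatible -/
theorem compatible {T : Type} (hT : ¬ #T ≤ 𝔠) (q : T → Cond) :
    ∃ b b' : T, b ≠ b' ∧ ∃ r, r ≤ q b ∧ r ≤ q b' := by
  classical
  obtain ⟨T', R, hT', hR, hTR⟩ := Pool.Agent.Helper669.KDelta.weak_delta (K := Th)
    aleph0_le_continuum hT (fun b => (q b).I) fun b =>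
      (Cardinal.le_aleph0_iff_set_countable.2 (q b).cnt).trans_lt aleph0_lt_continuum
  choose e he using fun b => (q b).cnt.exists_eq_range (q b).ne
  have hmem : ∀ b n, e b n ∈ (q b).I := fun b n => by
    rw [he b]
    exact ⟨n, rfl⟩
  let v : T → ℕ → Bd := fun b n => ⟨(q b).f (e b n), (q b).al, (q b).bdd _ (hmem b n)⟩
  let key : T' → W × (ℕ → Bd) × (ℕ → Option (R × Bd)) := fun b =>
    ((q b.1).al, v b.1, fun n => if h : e b.1 n ∈ R then some (⟨e b.1 n, h⟩, v b.1 n) else none)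
  have hcard : #(W × (ℕ → Bd) × (ℕ → Option (R × Bd))) ≤ 𝔠 := by
    have h1 : #(R × Bd) ≤ 𝔠 := by
      rw [mk_prod, lift_id, lift_id]
      exact (mul_le_mul' hR mk_Bd).trans continuum_mul_self.le
    have h2 : #(Option (R × Bd)) ≤ 𝔠 := by
      rw [mk_option]
      exact (add_le_add h1 (one_lt_aleph0.le.trans aleph0_le_continuum)).trans
        continuum_add_self.le
    have h3 : #(ℕ → Bd) ≤ 𝔠 := by
      rw [← power_def, mk_nat]
      exact pow_le mk_Bd
    have h4 : #(ℕ → Option (R × Bd)) ≤ 𝔠 := by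
      rw [← power_def, mk_nat]
      exact pow_le h2
    rw [mk_prod, lift_id, lift_id, mk_prod, lift_id, lift_id, mk_W]
    exact (mul_le_mul' aleph_one_le_continuum
      ((mul_le_mul' h3 h4).trans continuum_mul_self.le)).trans continuum_mul_self.le
  have hninj : ¬ Function.Injective key := fun h => hT' ((mk_le_of_injective h).trans hcard)
  simp only [Function.Injective, not_forall] at hninj
  obtain ⟨b, b', hk, hne⟩ := hninj
  have hal : (q b.1).al = (q b'.1).al := congrArg Prod.fst hk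
  have hv : v b.1 = v b'.1 := congrArg (fun x => x.2.1) hk
  have ho : ∀ n, (if h : e b.1 n ∈ R then some ((⟨e b.1 n, h⟩ : R), v b.1 n) else none) =
      if h : e b'.1 n ∈ R then some ((⟨e b'.1 n, h⟩ : R), v b'.1 n) else none :=
    fun n => congrFun (congrArg (fun x => x.2.2) hk) n
  have hne' : b.1 ≠ b'.1 := fun h => hne (Subtype.ext h)
  have hfv : ∀ n, (q b.1).f (e b.1 n) = (q b'.1).f (e b'.1 n) := fun n =>
    congrArg Subtype.val (congrFun hv n)
  have hag : ∀ i, i ∈ (q b.1).I → i ∈ (q b'.1).I → (q b.1).f i = (q b'.1).f i := by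
    intro i hi hi'
    have hiR : i ∈ R := hTR _ b.2 _ b'.2 hne' ⟨hi, hi'⟩
    have hi2 := hi
    rw [he b.1] at hi2
    obtain ⟨n, rfl⟩ := hi2
    have h1 := ho n
    rw [dif_pos hiR] at h1
    by_cases h2 : e b'.1 n ∈ R
    · rw [dif_pos h2] at h1
      have h3 := Option.some.inj h1
      have h4 : e b.1 n = e b'.1 n := congrArg (fun x => x.1.1) h3
      rw [hfv n, h4]
    · rw [dif_neg h2] at h1
      exact absurd h1 (by simp)
  have hrange : ∀ i ∈ (q b.1).I, ∃ k ∈ (q b'.1).I, (q b.1).f i = (q b'.1).f k := by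
    intro i hi
    rw [he b.1] at hi
    obtain ⟨n, rfl⟩ := hi
    exact ⟨e b'.1 n, hmem _ _, hfv n⟩
  have hrange' : ∀ i ∈ (q b'.1).I, ∃ k ∈ (q b.1).I, (q b'.1).f i = (q b.1).f k := by
    intro i hi
    rw [he b'.1] at hi
    obtain ⟨n, rfl⟩ := hi
    exact ⟨e b.1 n, hmem _ _, (hfv n).symm⟩
  let r : Cond := ⟨(q b.1).al, (q b.1).I ∪ (q b'.1).I,
    fun i => if i ∈ (q b.1).I then (q b.1).f i else (q b'.1).f i,
    (q b.1).cnt.union (q b'.1).cnt, (q b.1).ne.mono subset_union_left, by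
      intro i hi
      split_ifs with h
      · exact (q b.1).bdd i h
      · rw [hal]
        exact (q b'.1).bdd i (hi.resolve_left h)⟩
  have hr1 : ∀ i ∈ (q b.1).I, r.f i = (q b.1).f i := fun i hi => if_pos hi
  have hr2 : ∀ i ∈ (q b'.1).I, r.f i = (q b'.1).f i := by
    intro i hi
    by_cases h : i ∈ (q b.1).I
    · rw [hr1 i h, hag i h hi]
    · exact if_neg h
  refine ⟨b.1, b'.1, hne', r, ⟨le_rfl, subset_union_left, fun i hi => ?_, fun i hi => ?_⟩,
    ⟨hal.ge, subset_union_right, fun i hi => ?_, fun i hi => ?_⟩⟩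
  · rw [hr1 i hi]
    exact inter_eq_left.2 ((q b.1).bdd i hi)
  · rcases hi with hi | hi
    · exact ⟨i, hi, by rw [hr1 i hi]; exact inter_eq_left.2 ((q b.1).bdd i hi)⟩
    · obtain ⟨k, hk, hk'⟩ := hrange' i hi
      exact ⟨k, hk, by rw [hr2 i hi, hk']; exact inter_eq_left.2 ((q b.1).bdd k hk)⟩
  · rw [hr2 i hi]
    exact inter_eq_left.2 ((q b'.1).bdd i hi)
  · rcases hi with hi | hi
    · obtain ⟨k, hk, hk'⟩ := hrange i hi
      exact ⟨k, hk, by rw [hr1 i hi, hk']; exact inter_eq_left.2 ((q b'.1).bdd k hk)⟩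
    · exact ⟨i, hi, by rw [hr2 i hi]; exact inter_eq_left.2 ((q b'.1).bdd i hi)⟩

theorem noInj (p : Cond) :
    p ∈ fnot (fex fun R : Th → (ℕ → ℕ) → Set Cond => fand (IsFun R) (IsInj R)) := by
  intro q _ hq
  obtain ⟨q1, _, R, hF, hI⟩ := mem_fex.1 hq q le_rfl
  choose r hr y hy using fun i => IsFun.total hF i
  have hbig : ∃ y0 : ℕ → ℕ, ¬ #{i | y i = y0} ≤ 𝔠 := by
    by_contra hcon
    push Not at hcon
    have h1 : (univ : Set Th) = ⋃ y0, {i | y i = y0} := by
      ext i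
      simp
    have h2 : #(univ : Set Th) ≤ 𝔠 := by
      rw [h1]
      have h8 : #(ℕ → ℕ) = 𝔠 := by
        rw [← power_def, mk_nat, aleph0_power_aleph0]
      exact Pool.Agent.Helper669.KDelta.small_iUnion aleph0_le_continuum h8.le _ hcon
    rw [mk_univ, mk_Th] at h2
    exact absurd (Order.lt_succ (𝔠 : Cardinal.{0})) (not_lt.2 h2)
  obtain ⟨y0, hy0⟩ := hbig
  obtain ⟨b, b', hne, s, hs, hs'⟩ := compatible hy0 fun i => r i.1
  have h1 : s ∈ meets (R b.1 y0) := by
    have := down_meets _ _ (hy b.1) s hs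
    rwa [b.2] at this
  have h2 : s ∈ meets (R b'.1 y0) := by
    have := down_meets _ _ (hy b'.1) s hs'
    rwa [b'.2] at this
  exact hne (Subtype.ext (IsInj.eq (down_IsInj R q1 hI s (hs.trans (hr b.1))) h1 h2))

theorem forced (p : Cond) : p ∈ HypothesisN Cond := by
  refine ⟨omegaOne p, mem_fex.2 fun q _ => ⟨q, le_rfl, Th, mem_fex.2 fun q1 _ => ⟨q1, le_rfl,
    ℕ → ℕ, mem_fex.2 fun q2 _ => ⟨q2, le_rfl, An, fun i i' => ?_, fun j => traces q2 j,
      continuumLe q2, noInj q2⟩⟩⟩⟩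
  exact mem_fimp.2 fun q3 _ h => ⟨q3, le_rfl, distinct q3 h⟩

instance : Nonempty Cond := by
  have h : Nonempty Th := by
    rw [← mk_ne_zero_iff, mk_Th]
    exact (Order.bot_lt_succ _).ne'
  obtain ⟨i⟩ := h
  exact ⟨⟨w0, {i}, fun _ => ∅, countable_singleton _, singleton_nonempty _,
    fun _ _ => empty_subset _⟩⟩

end Cond

theorem exists_forcing : ∃ (P : Type) (_ : Preorder P), Nonempty P ∧ ∀ p : P, p ∈ HypothesisN P :=
  ⟨Cond, inferInstance, inferInstance, Cond.forced⟩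

end Pool.Agent.R590.Kur
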