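import Mathlib
import Pool.Agent.R590.KuDefs

set_option autoImplicit false

/-!
# The generalized Borel hierarchy and sequential limits
-/

namespace Pool.Agent.R590.Brl

open Cardinal Set Filter Topology Pool.Agent.R590.Kur

section

variable (κ : Cardinal.{0})

/-- The family `Σ⁰_ξ(X)`, for ordinals `ξ ≥ 1`: the sets in `Σ⁰_1` are the open sets,
and for `ξ > 1` the sets in `Σ⁰_ξ` are the unions of at most `κ` sets whose complements are
in `Σ⁰_η` for some `1 ≤ η < ξ` (which may depend on the set). -/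
inductive Sig {X : Type} [TopologicalSpace X] : Ordinal.{0} → Set X → Prop
  | opn (A : Set X) (hA : IsOpen A) : Sig 1 A
  | union (ξ : Ordinal.{0}) (hξ : 1 < ξ) (I : Type) (hI : #I ≤ κ) (F : I → Set X)
      (η : I → Ordinal.{0}) (h1 : ∀ i, 1 ≤ η i) (h2 : ∀ i, η i < ξ)
      (h3 : ∀ i, Sig (η i) (F i)ᶜ) : Sig ξ (⋃ i, F i)

/-- The `κ⁺`-Borel sets: the sets in `Σ⁰_ξ` for some `ξ < κ⁺`. -/
def Bor {X : Type} [TopologicalSpace X] (A : Set X) : Prop :=
  ∃ ξ < (Order.succ κ).ord, Sig κ ξ A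

/-- The `κ⁺`-Borel measurable functions. -/
def BorMeas {X Y : Type} [TopologicalSpace X] [TopologicalSpace Y] (f : X → Y) : Prop :=
  ∀ U : Set Y, IsOpen U → Bor κ (f ⁻¹' U)

/-- The smallest class of functions which contains all continuous functions and is closed
under `μ`-limits for every regular `μ ≤ κ`, that is, pointwise limits of families indexed by
the ordinal `μ`. -/
inductive SeqCl {X Y : Type} [TopologicalSpace X] [TopologicalSpace Y] : (X → Y) → Prop
  | cont (f : X → Y) (hf : Continuous f) : SeqCl f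
  | lim (μ : Cardinal.{0}) (hμ : μ.IsRegular) (hle : μ ≤ κ) (F : μ.ord.ToType → X → Y)
      (f : X → Y) (hF : ∀ i, SeqCl (F i))
      (hl : ∀ x, Tendsto (fun i => F i x) atTop (𝓝 (f x))) : SeqCl f

end

/-! ### Cardinal arithmetic -/

section card

variable {κ : Cardinal.{0}}

theorem exists_ub (hκ : κ.IsRegular) {M : Type} (hM : #M < κ) (g : M → κ.ord.ToType) :
    ∃ β, ∀ m, g m < β := by
  by_contra hcon
  push Not at hcon
  have h1 : IsCofinal (range g) := fun β => by
    obtain ⟨m, hm⟩ := hcon β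
    exact ⟨g m, ⟨m, rfl⟩, hm⟩
  have h2 := Order.cof_le h1
  rw [Ordinal.cof_toType, hκ.cof_ord] at h2
  exact absurd (h2.trans mk_range_le) (not_le.2 hM)

theorem mk_Iio_lt' (β : κ.ord.ToType) : #(Iio β) < κ := by
  have := Cardinal.mk_Iio_lt β (by rw [mk_ord_toType]; exact (Ordinal.type_toType _).symm)
  rwa [mk_ord_toType] at this

theorem mk_fun_le (hκ : κ.IsRegular) (h2 : (2 : Cardinal.{0}) ^< κ = κ) {M : Type}
    (hM : #M < κ) : #(M → κ.ord.ToType) ≤ κ := by
  have hinf : ℵ₀ ≤ κ := hκ.aleph0_le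
  let S : κ.ord.ToType → Set (M → κ.ord.ToType) := fun β => {g | ∀ m, g m < β}
  have h3 : (univ : Set (M → κ.ord.ToType)) = ⋃ β, S β := by
    ext g
    simp only [mem_univ, mem_iUnion, true_iff]
    exact exists_ub hκ hM g
  have h4 : ∀ β, #(S β) ≤ κ := by
    intro β
    have h5 : #(S β) ≤ #(M → Iio β) := by
      refine mk_le_of_injective (f := fun g => fun m => (⟨g.1 m, g.2 m⟩ : Iio β)) ?_
      intro g g' h
      apply Subtype.ext
      funext m
      exact congrArg Subtype.val (congrFun h m)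
    refine h5.trans ?_
    rw [← power_def]
    calc #(Iio β) ^ #M ≤ (2 ^ #(Iio β)) ^ #M := power_le_power_right (cantor _).le
      _ = 2 ^ (#(Iio β) * #M) := (power_mul).symm
      _ ≤ (2 : Cardinal.{0}) ^< κ := le_powerlt _ (mul_lt_of_lt hinf (mk_Iio_lt' β) hM)
      _ = κ := h2
  rw [← mk_univ, h3]
  refine (mk_iUnion_le S).trans ?_
  calc #(κ.ord.ToType) * (⨆ i, #(S i)) ≤ κ * κ :=
        mul_le_mul' (mk_ord_toType κ).le (ciSup_le' h4)
    _ = κ := mul_eq_self hinf

/-- the basic sets -/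
def Cy (κ : Cardinal.{0}) : Set (Set (Sp κ)) :=
  {s | ∃ (x : Sp κ) (α : κ.ord.ToType), s = {y | Agree y x α}}

theorem mk_Cy (hκ : κ.IsRegular) (h2 : (2 : Cardinal.{0}) ^< κ = κ) : #(Cy κ) ≤ κ := by
  have hinf : ℵ₀ ≤ κ := hκ.aleph0_le
  have hch : ∀ s : Cy κ, ∃ (x : Sp κ) (α : κ.ord.ToType), s.1 = {y | Agree y x α} := fun s => s.2
  choose x α hx using hch
  have h3 : #(Cy κ) ≤ #(Σ α : κ.ord.ToType, (Iio α → κ.ord.ToType)) := by
    refine mk_le_of_injective (f := fun s => ⟨α s, fun β => x s β.1⟩) ?_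
    intro s t hst
    apply Subtype.ext
    rw [hx s, hx t]
    have h4 : α s = α t := congrArg Sigma.fst hst
    have h5 : Agree (x s) (x t) (α s) := by
      intro β hβ
      have h6 : HEq (fun β : Iio (α s) => x s β.1) (fun β : Iio (α t) => x t β.1) :=
        (Sigma.mk.inj_iff.1 hst).2
      have key : ∀ (a b : κ.ord.ToType) (hab : a = b) (f : Iio a → κ.ord.ToType)
          (g : Iio b → κ.ord.ToType), HEq f g → ∀ (β : κ.ord.ToType) (ha : β < a) (hb : β < b),
          f ⟨β, ha⟩ = g ⟨β, hb⟩ := by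
        rintro a _ rfl f g h β ha hb
        rw [eq_of_heq h]
      exact key _ _ h4 _ _ h6 β hβ (h4 ▸ hβ)
    ext y
    simp only [mem_ofPred_eq]
    rw [← h4]
    exact ⟨fun h => h.trans h5, fun h => h.trans h5.symm⟩
  refine h3.trans ?_
  rw [mk_sigma]
  refine (Cardinal.sum_le_mk_mul_iSup _).trans ?_
  calc #(κ.ord.ToType) * (⨆ i : κ.ord.ToType, #(Iio i → κ.ord.ToType)) ≤ κ * κ :=
        mul_le_mul' (mk_ord_toType κ).le
          (ciSup_le' fun i => mk_fun_le hκ h2 (mk_Iio_lt' i))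
    _ = κ := mul_eq_self hinf

end card

end Pool.Agent.R590.Brl
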