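import Mathlib
import Pool.Agent.R590.BrDefs

set_option autoImplicit false

/-!
# Borel measurable functions are iterated sequential limits of continuous functions
-/

namespace Pool.Agent.R590.Brl

open Cardinal Set Filter Topology Pool.Agent.R590.Kur

variable {κ : Cardinal.{0}} {X Y : Type} [TopologicalSpace X] [TopologicalSpace Y]

/-! ### Good sets -/

open Classical in
/-- `g` on `A` and `h` outside -/
noncomputable def pw (A : Set X) (g h : X → Y) : X → Y := fun x => if x ∈ A then g x else h x

omit [TopologicalSpace X] [TopologicalSpace Y] in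
theorem pw_mem {A : Set X} {g h : X → Y} {x : X} (hx : x ∈ A) : pw A g h x = g x := if_pos hx

omit [TopologicalSpace X] [TopologicalSpace Y] in
theorem pw_not {A : Set X} {g h : X → Y} {x : X} (hx : x ∉ A) : pw A g h x = h x := if_neg hx

/-- sets along which functions can be glued -/
def Good (κ : Cardinal.{0}) (Y : Type) [TopologicalSpace Y] (A : Set X) : Prop :=
  ∀ g h : X → Y, SeqCl κ g → SeqCl κ h → SeqCl κ (pw A g h)

theorem good_clopen {A : Set X} (hA : IsClopen A) : Good κ Y A := by
  classical
  have hcont : ∀ g h : X → Y, Continuous g → Continuous h → Continuous (pw A g h) := by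
    intro g h hg hh
    have : pw A g h = A.piecewise g h := by
      funext x
      by_cases hx : x ∈ A
      · rw [piecewise_eq_of_mem _ _ _ hx, pw_mem hx]
      · rw [piecewise_eq_of_notMem _ _ _ hx, pw_not hx]
    rw [this]
    refine Continuous.piecewise ?_ hg hh
    intro a ha
    rw [hA.frontier_eq] at ha
    exact absurd ha (notMem_empty a)
  have h1 : ∀ h : X → Y, Continuous h → ∀ g : X → Y, SeqCl κ g → SeqCl κ (pw A g h) := by
    intro h hh g hg
    induction hg with
    | cont g hg => exact SeqCl.cont _ (hcont g h hg hh)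
    | lim μ hμ hle F f _ hl ih =>
      refine SeqCl.lim μ hμ hle (fun i => pw A (F i) h) _ ih fun x => ?_
      by_cases hx : x ∈ A
      · simp only [pw_mem hx]
        exact hl x
      · simp only [pw_not hx]
        exact tendsto_const_nhds
  intro g h hg hh
  induction hh with
  | cont h hh => exact h1 h hh g hg
  | lim μ hμ hle F f _ hl ih =>
    refine SeqCl.lim μ hμ hle (fun i => pw A g (F i)) _ ih fun x => ?_
    by_cases hx : x ∈ A
    · simp only [pw_mem hx]
      exact tendsto_const_nhds
    · simp only [pw_not hx]
      exact hl x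

theorem Good.compl {A : Set X} (hA : Good κ Y A) : Good κ Y Aᶜ := by
  intro g h hg hh
  have : pw Aᶜ g h = pw A h g := by
    funext x
    by_cases hx : x ∈ A
    · rw [pw_mem hx, pw_not (A := Aᶜ) (by simpa using hx)]
    · rw [pw_not hx, pw_mem (A := Aᶜ) hx]
  rw [this]
  exact hA h g hh hg

/-! ### The gluing lemma -/

section glue

variable {V : Type} [LinearOrder V] [WellFoundedLT V]

open Classical in
/-- the value `v j x` for some `j < i` with `x ∈ A j`, and `h x` if there is none -/
noncomputable def glue (A : V → Set X) (v : V → X → Y) (h : X → Y) (i : V) (x : X) : Y :=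
  if hx : ∃ j, j < i ∧ x ∈ A j then v hx.choose x else h x

theorem glue_of {A : V → Set X} {v : V → X → Y} {h : X → Y}
    (hc : ∀ i j x, x ∈ A i → x ∈ A j → v i x = v j x) {i j : V} {x : X} (hj : j < i)
    (hx : x ∈ A j) : glue A v h i x = v j x := by
  have hx' : ∃ j, j < i ∧ x ∈ A j := ⟨j, hj, hx⟩
  rw [glue, dif_pos hx']
  exact hc _ _ x hx'.choose_spec.2 hx

theorem glue_of_not {A : V → Set X} {v : V → X → Y} {h : X → Y} {i : V} {x : X}
    (hx : ¬ ∃ j, j < i ∧ x ∈ A j) : glue A v h i x = h x := dif_neg hx

theorem glue_mem {A : V → Set X} {v : V → X → Y} {h : X → Y}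
    (hc : ∀ i j x, x ∈ A i → x ∈ A j → v i x = v j x) (hA : ∀ i, Good κ Y (A i))
    (hv : ∀ i, SeqCl κ (v i)) (hh : SeqCl κ h) (hV : ∀ i : V, #(Iio i) ≤ κ) (i : V) :
    SeqCl κ (glue A v h i) := by
  induction i using WellFoundedLT.induction with
  | _ i ih =>
    rcases isEmpty_or_nonempty (Iio i) with hemp | hne
    · have : glue A v h i = h := by
        funext x
        refine glue_of_not ?_
        rintro ⟨j, hj, -⟩
        exact hemp.elim ⟨j, hj⟩
      rw [this]
      exact hh
    · by_cases hmax : ∃ j : V, j < i ∧ ∀ k, k < i → k ≤ j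
      · obtain ⟨j, hj, hmax⟩ := hmax
        have : glue A v h i = pw (A j) (v j) (glue A v h j) := by
          funext x
          by_cases hx : x ∈ A j
          · rw [pw_mem hx, glue_of hc hj hx]
          · rw [pw_not hx]
            by_cases hx' : ∃ k, k < j ∧ x ∈ A k
            · obtain ⟨k, hk, hx'⟩ := hx'
              rw [glue_of hc hk hx', glue_of hc (hk.trans hj) hx']
            · rw [glue_of_not hx', glue_of_not]
              rintro ⟨k, hk, hx''⟩
              rcases (hmax k hk).lt_or_eq with h1 | rfl
              · exact hx' ⟨k, h1, hx''⟩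
              · exact hx hx''
        rw [this]
        exact hA j _ _ (hv j) (ih j hj)
      · push Not at hmax
        have hno : NoMaxOrder (Iio i) := ⟨fun a => by
          obtain ⟨k, hk, hk'⟩ := hmax a.1 a.2
          exact ⟨⟨k, hk⟩, hk'⟩⟩
        obtain ⟨s, hs, hs'⟩ := Ordinal.exists_ord_cof_eq (Iio i)
        have hreg : (Order.cof (Iio i)).IsRegular := by
          refine ⟨Order.aleph0_le_cof, ?_⟩
          rw [Order.cof_ord_cof]
        have hiso : Nonempty ((Order.cof (Iio i)).ord.ToType ≃o s) := by
          have h1 : Ordinal.type ((· < ·) : (Order.cof (Iio i)).ord.ToType → _ → Prop) =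
              Ordinal.type ((· < ·) : s → s → Prop) := by
            rw [Ordinal.type_toType]
            exact hs'.symm
          obtain ⟨e⟩ := Ordinal.type_eq.1 h1
          exact ⟨OrderIso.ofRelIsoLT e⟩
        obtain ⟨e⟩ := hiso
        refine SeqCl.lim _ hreg ((Order.cof_le_cardinalMk _).trans (hV i))
          (fun k => glue A v h (e k).1.1) _ (fun k => ih _ (e k).1.2) fun x => ?_
        have hne2 : Nonempty (Order.cof (Iio i)).ord.ToType := by
          obtain ⟨a⟩ := hne
          obtain ⟨b, hb, -⟩ := hs a
          exact ⟨e.symm ⟨b, hb⟩⟩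
        by_cases hx : ∃ j, j < i ∧ x ∈ A j
        · obtain ⟨j, hj, hx⟩ := hx
          rw [glue_of hc hj hx]
          refine tendsto_const_nhds.congr' ?_
          obtain ⟨j', hj'⟩ := hno.exists_gt ⟨j, hj⟩
          obtain ⟨b, hb, hjb⟩ := hs j'
          filter_upwards [eventually_ge_atTop (e.symm ⟨b, hb⟩)] with k hk
          have h1 : (⟨b, hb⟩ : s) ≤ e k := by
            rw [← e.apply_symm_apply ⟨b, hb⟩]
            exact e.monotone hk
          have h2 : b ≤ (e k).1 := h1
          have h3 : j < (e k).1.1 := lt_of_lt_of_le (show j < j'.1 from hj')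
            ((show j'.1 ≤ b.1 from hjb).trans h2)
          exact (glue_of hc h3 hx).symm
        · rw [glue_of_not hx]
          refine tendsto_const_nhds.congr' (Eventually.of_forall fun k => ?_)
          refine (glue_of_not ?_).symm
          rintro ⟨j, hj, hx'⟩
          exact hx ⟨j, hj.trans (e k).1.2, hx'⟩

end glue

/-- gluing at most `κ` pieces -/
theorem glue_family {I : Type} (hI : #I ≤ κ) {A : I → Set X} {v : I → X → Y} {h f : X → Y}
    (hc : ∀ i j x, x ∈ A i → x ∈ A j → v i x = v j x) (hA : ∀ i, Good κ Y (A i))
    (hv : ∀ i, SeqCl κ (v i)) (hh : SeqCl κ h) (hf1 : ∀ i x, x ∈ A i → f x = v i x)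
    (hf2 : ∀ x, (∀ i, x ∉ A i) → f x = h x) : SeqCl κ f := by
  obtain ⟨e⟩ : Nonempty ((#I).ord.ToType ≃ I) := Cardinal.eq.1 (mk_ord_toType _)
  have hempty : Good κ Y (∅ : Set X) := good_clopen isClopen_empty
  have key := glue_mem (κ := κ) (V := WithTop (#I).ord.ToType)
    (A := fun i => i.recTopCoe ∅ fun j => A (e j)) (v := fun i => i.recTopCoe h fun j => v (e j))
    (h := h) (by
      intro i j x hi hj
      induction i using WithTop.recTopCoe with
      | top => exact absurd hi (notMem_empty x)
      | coe i =>
        induction j using WithTop.recTopCoe with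
        | top => exact absurd hj (notMem_empty x)
        | coe j => exact hc _ _ x hi hj)
    (by
      intro i
      induction i using WithTop.recTopCoe with
      | top => exact hempty
      | coe i => exact hA _)
    (by
      intro i
      induction i using WithTop.recTopCoe with
      | top => exact hh
      | coe i => exact hv _) hh (by
      intro i
      refine le_trans ?_ hI
      refine (mk_le_of_injective (β := I)
        (f := fun j => e (j.1.untop (ne_top_of_lt j.2))) ?_)
      intro j j' hjj
      have := e.injective hjj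
      apply Subtype.ext
      have h1 := WithTop.coe_untop j.1 (ne_top_of_lt j.2)
      have h2 := WithTop.coe_untop j'.1 (ne_top_of_lt j'.2)
      rw [← h1, ← h2, this]) ⊤
  convert key using 1
  funext x
  by_cases hx : ∃ i, x ∈ A i
  · obtain ⟨i, hi⟩ := hx
    rw [hf1 i x hi]
    have h1 : x ∈ (fun i : WithTop (#I).ord.ToType =>
        (i.recTopCoe ∅ fun j => A (e j) : Set X)) ((e.symm i : (#I).ord.ToType) :
        WithTop (#I).ord.ToType) := by
      show x ∈ A (e (e.symm i))
      rw [e.apply_symm_apply]
      exact hi
    rw [glue_of _ (WithTop.coe_lt_top _) h1]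
    · show v i x = v (e (e.symm i)) x
      rw [e.apply_symm_apply]
    · intro i j x hi hj
      induction i using WithTop.recTopCoe with
      | top => exact absurd hi (notMem_empty x)
      | coe i =>
        induction j using WithTop.recTopCoe with
        | top => exact absurd hj (notMem_empty x)
        | coe j => exact hc _ _ x hi hj
  · push Not at hx
    rw [hf2 x hx, glue_of_not]
    rintro ⟨j, hj, hxj⟩
    induction j using WithTop.recTopCoe with
    | top => exact absurd hj (lt_irrefl _)
    | coe j => exact hx _ hxj

theorem good_iUnion {I : Type} (hI : #I ≤ κ) {A : I → Set X} (hA : ∀ i, Good κ Y (A i)) :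
    Good κ Y (⋃ i, A i) := by
  intro g h hg hh
  refine glue_family hI (v := fun _ => g) (h := h) (fun _ _ _ _ _ => rfl) hA (fun _ => hg) hh
    (fun i x hx => ?_) fun x hx => ?_
  · exact pw_mem (mem_iUnion.2 ⟨i, hx⟩)
  · refine pw_not ?_
    simpa using hx

end Pool.Agent.R590.Brl
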