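import Mathlib
import Pool.Agent.R590.BrMain

set_option autoImplicit false

/-!
# The two inclusions
-/

namespace Pool.Agent.R590.Brl

open Cardinal Set Filter Topology Pool.Agent.R590.Kur

variable {κ : Cardinal.{0}}

theorem nonempty_of (hκ : κ.IsRegular) : Nonempty κ.ord.ToType := by
  rw [← mk_ne_zero_iff, mk_ord_toType]
  exact hκ.pos.ne'

theorem clopen_Cy (hκ : κ.IsRegular) {s : Set (Sp κ)} (hs : s ∈ Cy κ) : IsClopen s := by
  have := nonempty_of hκ
  obtain ⟨x, α, rfl⟩ := hs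
  refine ⟨isClosed_of fun y hy => ⟨α, fun z hz h => hy ?_⟩, isOpen_cyl x α⟩
  exact Agree.trans hz.symm h

theorem clopen_pre (hκ : κ.IsRegular) (X : Set (Sp κ)) {s : Set (Sp κ)} (hs : s ∈ Cy κ) :
    IsClopen ((↑) ⁻¹' s : Set X) := (clopen_Cy hκ hs).preimage continuous_subtype_val

/-- the basic sets inside a given set -/
def Jn (X : Set (Sp κ)) (U : Set X) : Set (Set (Sp κ)) := {s | s ∈ Cy κ ∧ ((↑) ⁻¹' s : Set X) ⊆ U}

theorem mk_Jn (hκ : κ.IsRegular) (h2 : (2 : Cardinal.{0}) ^< κ = κ) (X : Set (Sp κ))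
    (U : Set X) : #(Jn X U) ≤ κ :=
  (mk_le_mk_of_subset fun _ h => h.1).trans (mk_Cy hκ h2)

theorem exists_nhd (hκ : κ.IsRegular) {X : Set (Sp κ)} {U : Set X} (hU : IsOpen U) {x : X}
    (hx : x ∈ U) : ∃ α, ∀ y : X, Agree y.1 x.1 α → y ∈ U := by
  have := nonempty_of hκ
  obtain ⟨V, hV, rfl⟩ := isOpen_induced_iff.1 hU
  obtain ⟨α, hα⟩ := isOpen_iff.1 hV x.1 hx
  exact ⟨α, fun y hy => hα _ hy⟩

theorem open_eq (hκ : κ.IsRegular) {X : Set (Sp κ)} {U : Set X} (hU : IsOpen U) :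
    U = ⋃ s : Jn X U, ((↑) ⁻¹' s.1 : Set X) := by
  ext x
  simp only [mem_iUnion]
  constructor
  · intro hx
    obtain ⟨α, hα⟩ := exists_nhd hκ hU hx
    exact ⟨⟨{y | Agree y x.1 α}, ⟨x.1, α, rfl⟩, fun y hy => hα y hy⟩, Agree.refl _ _⟩
  · rintro ⟨s, hs⟩
    exact s.2.2 hs

variable {Y : Type} [TopologicalSpace Y]

theorem good_open (hκ : κ.IsRegular) (h2 : (2 : Cardinal.{0}) ^< κ = κ) {X : Set (Sp κ)}
    {U : Set X} (hU : IsOpen U) : Good κ Y U := by
  rw [open_eq hκ hU]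
  exact good_iUnion (mk_Jn hκ h2 X U) fun s => good_clopen (clopen_pre hκ X s.2.1)

theorem good_sig (hκ : κ.IsRegular) (h2 : (2 : Cardinal.{0}) ^< κ = κ) {X : Set (Sp κ)}
    {ξ : Ordinal.{0}} {A : Set X} (hA : Sig κ ξ A) : Good κ Y A := by
  induction hA with
  | opn A hA => exact good_open hκ h2 hA
  | union ξ hξ I hI F η h1 h2 h3 ih =>
    refine good_iUnion hI fun i => ?_
    have := (ih i).compl
    rwa [compl_compl] at this

theorem seqCl_of_borMeas (hκ : κ.IsRegular) (h2 : (2 : Cardinal.{0}) ^< κ = κ)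
    {X Y : Set (Sp κ)} {f : X → Y} (hf : BorMeas κ f) : SeqCl κ f := by
  classical
  rcases isEmpty_or_nonempty X with hX | ⟨⟨x0⟩⟩
  · exact SeqCl.cont _ (continuous_iff_continuousAt.2 fun x => isEmptyElim x)
  let I : κ.ord.ToType → Type := fun γ =>
    {c : Set (Sp κ) // (∃ x : Sp κ, c = {y | Agree y x γ}) ∧ ∃ y : Y, y.1 ∈ c}
  have hI : ∀ γ, #(I γ) ≤ κ := by
    intro γ
    refine le_trans (mk_le_of_injective (β := Cy κ)
      (f := fun c => ⟨c.1, c.2.1.choose, γ, c.2.1.choose_spec⟩) ?_) (mk_Cy hκ h2)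
    intro c c' h
    exact Subtype.ext (show c.1 = c'.1 from congrArg (fun z : Cy κ => z.1) h)
  let rep : ∀ γ, I γ → Y := fun γ c => c.2.2.choose
  have hrep : ∀ γ (c : I γ), (rep γ c).1 ∈ c.1 := fun γ c => c.2.2.choose_spec
  let cl : ∀ γ, X → I γ := fun γ x => ⟨{y | Agree y (f x).1 γ}, ⟨(f x).1, rfl⟩, f x,
    Agree.refl _ _⟩
  have hcl : ∀ γ (c : I γ) x, (f x).1 ∈ c.1 → c = cl γ x := by
    intro γ c x hx
    apply Subtype.ext
    obtain ⟨z, hz⟩ := c.2.1
    rw [hz] at hx ⊢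
    show {y | Agree y z γ} = {y | Agree y (f x).1 γ}
    ext y
    exact ⟨fun h => Agree.trans h hx.symm, fun h => Agree.trans h hx⟩
  let F : κ.ord.ToType → X → Y := fun γ x => rep γ (cl γ x)
  refine SeqCl.lim κ hκ le_rfl F f (fun γ => ?_) fun x => ?_
  · refine glue_family (hI γ) (A := fun c => f ⁻¹' ((↑) ⁻¹' c.1)) (v := fun c _ => rep γ c)
      (h := fun _ => f x0) ?_ ?_ ?_ ?_ ?_ ?_
    · intro c c' x h1 h2
      show rep γ c = rep γ c'
      rw [hcl γ c x h1, hcl γ c' x h2]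
    · intro c
      obtain ⟨ξ, -, h⟩ := hf ((↑) ⁻¹' c.1)
        (clopen_pre hκ Y ⟨c.2.1.choose, γ, c.2.1.choose_spec⟩).isOpen
      exact good_sig hκ h2 h
    · exact fun c => SeqCl.cont _ continuous_const
    · exact SeqCl.cont _ continuous_const
    · intro c x h1
      show rep γ (cl γ x) = rep γ c
      rw [← hcl γ c x h1]
    · intro x hx
      exact absurd (show (f x).1 ∈ (cl γ x).1 from Agree.refl _ _) (hx (cl γ x))
  · rw [tendsto_nhds]
    intro U hU hx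
    obtain ⟨α, hα⟩ := exists_nhd hκ hU hx
    filter_upwards [eventually_ge_atTop α] with γ hγ
    refine hα _ ?_
    have h3 : Agree (rep γ (cl γ x)).1 (f x).1 γ := hrep γ (cl γ x)
    exact h3.mono hγ

/-! ### The other inclusion -/

section bor

variable {X : Type} [TopologicalSpace X]

theorem Sig.one_le {ξ : Ordinal.{0}} {A : Set X} (h : Sig κ ξ A) : 1 ≤ ξ := by
  cases h with
  | opn A hA => exact le_rfl
  | union ξ hξ => exact hξ.le

theorem Sig.compl (hκ : κ.IsRegular) {ξ : Ordinal.{0}} {A : Set X} (h : Sig κ ξ A) :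
    Sig κ (ξ + 1) Aᶜ := by
  have h1 : Sig κ (ξ + 1) (⋃ _ : Unit, Aᶜ) := by
    refine Sig.union _ (lt_of_le_of_lt h.one_le (lt_add_one ξ)) Unit ?_ _ (fun _ => ξ)
      (fun _ => h.one_le) (fun _ => lt_add_one ξ) fun _ => ?_
    · rw [mk_unit]
      exact one_le_aleph0.trans hκ.aleph0_le
    · rw [compl_compl]
      exact h
  rwa [iUnion_const] at h1

theorem lim_succ (hκ : κ.IsRegular) {ξ : Ordinal.{0}} (h : ξ < (Order.succ κ).ord) :
    ξ + 1 < (Order.succ κ).ord :=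
  (isSuccLimit_ord (hκ.aleph0_le.trans (Order.le_succ κ))).succ_lt h

theorem bor_compl (hκ : κ.IsRegular) {A : Set X} (h : Bor κ A) : Bor κ Aᶜ := by
  obtain ⟨ξ, hξ, h⟩ := h
  exact ⟨ξ + 1, lim_succ hκ hξ, h.compl hκ⟩

theorem bor_iUnion (hκ : κ.IsRegular) {I : Type} (hI : #I ≤ κ) {F : I → Set X}
    (hF : ∀ i, Bor κ (F i)) : Bor κ (⋃ i, F i) := by
  choose ξ hξ h using hF
  have hreg : (Order.succ κ).IsRegular := isRegular_succ hκ.aleph0_le
  obtain ⟨β, hβ⟩ := exists_ub hreg (M := I) (hI.trans_lt (Order.lt_succ κ))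
    fun i => Ordinal.ToType.mk ⟨ξ i + 1, lim_succ hκ (hξ i)⟩
  have h0 : (0 : Ordinal.{0}) < (Order.succ κ).ord := by
    rw [← ord_zero, ord_lt_ord]
    exact hreg.pos
  have h2 : (2 : Ordinal.{0}) < (Order.succ κ).ord := by
    have h3 := lim_succ hκ (lim_succ hκ h0)
    rwa [zero_add, one_add_one_eq_two] at h3
  refine ⟨max 2 (Ordinal.ToType.mk.symm β).1, max_lt h2 (Ordinal.ToType.mk.symm β).2, ?_⟩
  refine Sig.union _ (lt_of_lt_of_le one_lt_two (le_max_left _ _)) I hI F (fun i => ξ i + 1)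
    (fun i => (h i).one_le.trans (le_self_add)) (fun i => ?_) fun i => (h i).compl hκ
  refine lt_of_lt_of_le ?_ (le_max_right _ _)
  have h4 := hβ i
  have h5 : (⟨ξ i + 1, lim_succ hκ (hξ i)⟩ : Iio (Order.succ κ).ord) <
      Ordinal.ToType.mk.symm β := by
    rw [← Ordinal.ToType.mk.lt_iff_lt, OrderIso.apply_symm_apply]
    exact h4
  exact h5

theorem bor_iInter (hκ : κ.IsRegular) {I : Type} (hI : #I ≤ κ) {F : I → Set X}
    (hF : ∀ i, Bor κ (F i)) : Bor κ (⋂ i, F i) := by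
  have h := bor_compl hκ (bor_iUnion hκ hI fun i => bor_compl hκ (hF i))
  rwa [compl_iUnion, funext fun i => compl_compl (F i)] at h

end bor

theorem borMeas_of_seqCl (hκ : κ.IsRegular) (h2 : (2 : Cardinal.{0}) ^< κ = κ)
    {X Y : Set (Sp κ)} {f : X → Y} (hf : SeqCl κ f) : BorMeas κ f := by
  induction hf with
  | cont f hf =>
    intro U hU
    refine ⟨1, ?_, Sig.opn _ (hU.preimage hf)⟩
    have hreg : (Order.succ κ).IsRegular := isRegular_succ hκ.aleph0_le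
    have h0 : (0 : Ordinal.{0}) < (Order.succ κ).ord := by
      rw [← ord_zero, ord_lt_ord]
      exact hreg.pos
    have := lim_succ hκ h0
    rwa [zero_add] at this
  | lim μ hμ hle F f _ hl ih =>
    intro U hU
    have hne := nonempty_of hμ
    have heq : f ⁻¹' U = ⋃ s : Jn Y U, ⋃ i : μ.ord.ToType, ⋂ j : Ici i,
        F j ⁻¹' ((↑) ⁻¹' s.1) := by
      ext x
      simp only [mem_iUnion, mem_iInter]
      constructor
      · intro hx
        obtain ⟨α, hα⟩ := exists_nhd hκ hU hx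
        have hop : IsOpen ((↑) ⁻¹' {y | Agree y (f x).1 α} : Set Y) :=
          (clopen_pre hκ Y ⟨(f x).1, α, rfl⟩).isOpen
        have hev := (tendsto_nhds.1 (hl x)) _ hop (Agree.refl _ _)
        obtain ⟨i, hi⟩ := mem_atTop_sets.1 hev
        exact ⟨⟨{y | Agree y (f x).1 α}, ⟨(f x).1, α, rfl⟩, fun y hy => hα y hy⟩, i,
          fun j => hi j.1 j.2⟩
      · rintro ⟨s, i, h⟩
        have hcl : IsClosed ((↑) ⁻¹' s.1 : Set Y) := (clopen_pre hκ Y s.2.1).isClosed
        refine s.2.2 (hcl.mem_of_tendsto (hl x) ?_)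
        filter_upwards [eventually_ge_atTop i] with j hj
        exact h ⟨j, hj⟩
    rw [heq]
    refine bor_iUnion hκ (mk_Jn hκ h2 Y U) fun s => bor_iUnion hκ ?_ fun i =>
      bor_iInter hκ ?_ fun j => ih j _ (clopen_pre hκ Y s.2.1).isOpen
    · rw [mk_ord_toType]
      exact hle
    · refine (mk_set_le _).trans ?_
      rw [mk_ord_toType]
      exact hle

end Pool.Agent.R590.Brl
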