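import Pool.Agent.R590.HcPart

/-!
# Minimal dense `G_δ`-sets in the Hilbert cube and Martin's axiom: definitions
-/

set_option autoImplicit false

namespace Pool.Agent.R590.Hc

open Set Topology Cardinal

/-- `G` is a minimal dense `G_δ`-set in the Hilbert cube: a dense `G_δ`-set such that every dense
`G_δ`-set contains the image of `G` under some homeomorphism of the cube -/
def MinimalGδ (G : Set Q) : Prop :=
  IsGδ G ∧ Dense G ∧ ∀ G' : Set Q, IsGδ G' → Dense G' → ∃ h : Q ≃ₜ Q, h '' G ⊆ G'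

/-- `X` belongs to the `σ`-ideal generated by the minimal dense `G_δ`-sets: it is contained in the
union of countably many of them -/
def SigmaG (X : Set Q) : Prop :=
  ∃ 𝒞 : Set (Set Q), 𝒞.Countable ∧ (∀ G ∈ 𝒞, MinimalGδ G) ∧ X ⊆ ⋃₀ 𝒞

section

variable (P : Type) [PartialOrder P]

/-- every antichain (set of pairwise incompatible elements) is countable -/
def CCC : Prop :=
  ∀ S : Set P, (∀ p ∈ S, ∀ q ∈ S, p ≠ q → ¬ ∃ r, r ≤ p ∧ r ≤ q) → S.Countable

/-- the poset is `σ`-linked: a union of countably many sets of pairwise compatible elements -/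
def SigmaLinked : Prop :=
  ∃ c : P → ℕ, ∀ p q, c p = c q → ∃ r, r ≤ p ∧ r ≤ q

/-- `D` is dense in the poset -/
def DenseIn (D : Set P) : Prop := ∀ p, ∃ q ∈ D, q ≤ p

/-- some filter on the poset meets every member of `𝒟` -/
def HasFilter (𝒟 : Set (Set P)) : Prop :=
  ∃ G : Set P, G.Nonempty ∧ (∀ p ∈ G, ∀ q, p ≤ q → q ∈ G) ∧
    (∀ p ∈ G, ∀ q ∈ G, ∃ r ∈ G, r ≤ p ∧ r ≤ q) ∧ ∀ D ∈ 𝒟, (D ∩ G).Nonempty

end

/-- Martin's axiom -/
def MA : Prop :=
  ∀ (P : Type) [PartialOrder P] [Nonempty P], CCC P →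
    ∀ 𝒟 : Set (Set P), #𝒟 < 𝔠 → (∀ D ∈ 𝒟, DenseIn P D) → HasFilter P 𝒟

/-- Martin's axiom for `κ` dense sets in a `σ`-linked poset -/
def MALinked (κ : Cardinal.{0}) : Prop :=
  ∀ (P : Type) [PartialOrder P] [Nonempty P], SigmaLinked P →
    ∀ 𝒟 : Set (Set P), #𝒟 ≤ κ → (∀ D ∈ 𝒟, DenseIn P D) → HasFilter P 𝒟

end Pool.Agent.R590.Hc
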