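import Pool.Agent.R590.HcPoset
import Pool.Agent.R590.HcDefs

/-!
# Fewer than `𝔠` members of the `σ`-ideal do not cover the Hilbert cube under Martin's axiom
-/

set_option autoImplicit false

namespace Pool.Agent.R590.Hc

open Set Topology Filter Cardinal

/-- the poset of the good finite sets, larger sets being stronger -/
abbrev Pos {ι : Type} (U : ℕ → ℕ → Set Q) (g : ι → Q ≃ₜ Q) : Type :=
  {p : (Finset (ι × ℕ))ᵒᵈ // Good U g (OrderDual.ofDual p)}

theorem sigmaLinked {ι : Type} {U : ℕ → ℕ → Set Q} (hU : ∀ n, NullFam fun u => closure (U n u))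
    (g : ι → Q ≃ₜ Q) : SigmaLinked (Pos U g) := by
  classical
  obtain ⟨b, hb⟩ : ∃ b : ℕ → Set C(Q, Q), TopologicalSpace.IsTopologicalBasis (range b) := by
    obtain ⟨S, hS1, hS2, hS3⟩ := TopologicalSpace.exists_countable_basis C(Q, Q)
    obtain ⟨b, hb⟩ := (hS1.insert ∅).exists_eq_range (insert_nonempty _ _)
    exact ⟨b, hb ▸ hS3.insert_empty⟩
  choose N e m k P P' he h1 h2 h3 using fun p : Pos U g => exists_code hU hb p.2
  obtain ⟨c, hc⟩ := exists_injective_nat (Σ N : ℕ, (Fin N → ℕ × ℕ))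
  let code : Pos U g → Σ N : ℕ, (Fin N → ℕ × ℕ) := fun p => ⟨N p, fun j => ((e p j).2, m p j)⟩
  refine ⟨fun p => c (code p), fun p q hpq => ?_⟩
  have hcode : code p = code q := hc hpq
  have key : Good U g (OrderDual.ofDual p.1 ∪ OrderDual.ofDual q.1) := by
    have g1 := he q
    have g2 := h1 p
    have g3 := h2 p
    have g4 := fun j => (h3 p j).2
    have g5 := fun j => (h3 q j).1
    simp only [code] at hcode
    generalize e p = ep at *
    generalize e q = eq at *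
    generalize m p = mp at *
    generalize m q = mq at *
    generalize N p = Np at *
    generalize N q = Nq at *
    simp only [Sigma.mk.injEq] at hcode
    obtain ⟨rfl, hcode⟩ := hcode
    have hcode := eq_of_heq hcode
    have hj : ∀ j, (ep j).2 = (eq j).2 ∧ mp j = mq j := by
      intro j
      have := congrFun hcode j
      exact Prod.mk.inj this
    exact good_union (e := ep) (m := mp) hU g1 g2 g3 g4
      (fun j => by rw [(hj j).2]; exact g5 j) (fun j => (hj j).1)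
  refine ⟨⟨OrderDual.toDual (OrderDual.ofDual p.1 ∪ OrderDual.ofDual q.1), key⟩, ?_, ?_⟩
  · show OrderDual.ofDual p.1 ⊆ OrderDual.ofDual p.1 ∪ OrderDual.ofDual q.1
    exact Finset.subset_union_left
  · show OrderDual.ofDual q.1 ⊆ OrderDual.ofDual p.1 ∪ OrderDual.ofDual q.1
    exact Finset.subset_union_right

theorem not_cover {ι : Type} {κ : Cardinal.{0}} (hMA : MALinked κ) (hι : #ι ≤ κ) (G : ι → Set Q)
    (hG : ∀ i, MinimalGδ (G i)) : ∃ x : Q, ∀ i, x ∉ G i := by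
  classical
  obtain ⟨U, hU1, hU2, hU3, hU4⟩ := exists_families
  have hG' : IsGδ (⋂ n, ⋃ u, U n u) := IsGδ.iInter_of_isOpen fun n => isOpen_iUnion (hU1 n)
  have hG'' : Dense (⋂ n, ⋃ u, U n u) :=
    dense_iInter_of_isOpen (fun n => isOpen_iUnion (hU1 n)) hU2
  choose h hh using fun i => (hG i).2.2 _ hG' hG''
  let g : ι → Q ≃ₜ Q := fun i => (h i).symm
  have : Nonempty (Pos U g) := ⟨⟨OrderDual.toDual ∅, good_empty U g⟩⟩
  let D : ι → Set (Pos U g) := fun i => {p | ∃ n, (i, n) ∈ OrderDual.ofDual p.1}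
  obtain ⟨F, hF1, -, hF3, hF4⟩ := hMA (Pos U g) (sigmaLinked hU3 g) (range D)
    (Cardinal.mk_range_le.trans hι) (by
      rintro _ ⟨i, rfl⟩ p
      obtain ⟨n, hn⟩ := good_insert hU3 hU4 p.2 i
      refine ⟨⟨OrderDual.toDual (insert (i, n) (OrderDual.ofDual p.1)), hn⟩, ⟨n, ?_⟩, ?_⟩
      · exact Finset.mem_insert_self _ _
      · show OrderDual.ofDual p.1 ⊆ insert (i, n) (OrderDual.ofDual p.1)
        exact Finset.subset_insert _ _)
  let S : Set (ι × ℕ) := {a | ∃ p ∈ F, a ∈ OrderDual.ofDual p.1}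
  have hS : ∀ t : Finset S, ∃ p ∈ F, ∀ a ∈ t, (a : ι × ℕ) ∈ OrderDual.ofDual p.1 := by
    intro t
    induction t using Finset.induction_on with
    | empty =>
      obtain ⟨p, hp⟩ := hF1
      exact ⟨p, hp, fun a ha => absurd ha (Finset.notMem_empty a)⟩
    | insert a t hat ih =>
      obtain ⟨p, hp1, hp2⟩ := ih
      obtain ⟨q, hq1, hq2⟩ := a.2
      obtain ⟨r, hr1, hr2, hr3⟩ := hF3 p hp1 q hq1
      refine ⟨r, hr1, fun c hc => ?_⟩
      rcases Finset.mem_insert.1 hc with rfl | hc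
      · exact (show OrderDual.ofDual q.1 ⊆ OrderDual.ofDual r.1 from hr3) hq2
      · exact (show OrderDual.ofDual p.1 ⊆ OrderDual.ofDual r.1 from hr2) (hp2 c hc)
  let K : S → Set Q := fun a => (⋃ u, g a.1.1 '' U a.1.2 u)ᶜ
  have hK : ∀ a, IsClosed (K a) := fun a =>
    (isOpen_iUnion fun u => (g a.1.1).isOpenMap _ (hU1 _ u)).isClosed_compl
  obtain ⟨x, -, hx⟩ := isCompact_univ.inter_iInter_nonempty K hK (by
    intro t
    obtain ⟨p, hp1, hp2⟩ := hS t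
    obtain ⟨k, P, P', h1, h2⟩ := p.2
    obtain ⟨x, hx⟩ := miranda k P P' h1
    refine ⟨x, mem_univ _, mem_iInter₂.2 fun a ha hxa => ?_⟩
    obtain ⟨u, y, hy, rfl⟩ := mem_iUnion.1 hxa
    exact h2 a.1 (hp2 a ha) u y (subset_closure hy) hx)
  refine ⟨x, fun i hxi => ?_⟩
  obtain ⟨p, ⟨n, hn⟩, hpF⟩ := hF4 (D i) ⟨i, rfl⟩
  have h1 : x ∈ K ⟨(i, n), p, hpF, hn⟩ := mem_iInter.1 hx _
  apply h1
  have h2 : h i x ∈ ⋂ n, ⋃ u, U n u := hh i ⟨x, hxi, rfl⟩
  obtain ⟨u, hu⟩ := mem_iUnion.1 (mem_iInter.1 h2 n)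
  exact mem_iUnion.2 ⟨u, h i x, hu, (h i).symm_apply_apply x⟩

theorem main {κ : Cardinal.{0}} (hκ : ℵ₀ ≤ κ) (hMA : MALinked κ) (𝒜 : Set (Set Q))
    (h : ∀ X ∈ 𝒜, SigmaG X) (hc : ⋃₀ 𝒜 = Set.univ) : κ < #𝒜 := by
  by_contra hlt
  push Not at hlt
  choose 𝒞 h1 h2 h3 using fun X : 𝒜 => h X.1 X.2
  have hcard : #(Σ X : 𝒜, 𝒞 X) ≤ κ := by
    rw [Cardinal.mk_sigma]
    refine (Cardinal.sum_le_sum _ (fun _ => ℵ₀) fun X => (h1 X).le_aleph0).trans ?_
    rw [Cardinal.sum_const, Cardinal.lift_id, Cardinal.lift_id]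
    exact (mul_le_mul' hlt hκ).trans (Cardinal.mul_eq_self hκ).le
  obtain ⟨x, hx⟩ := not_cover hMA hcard (fun z => z.2.1) (fun z => h2 z.1 z.2.1 z.2.2)
  have hx2 : x ∈ ⋃₀ 𝒜 := hc ▸ mem_univ x
  obtain ⟨X, hX, hxX⟩ := hx2
  obtain ⟨G, hG, hxG⟩ := h3 ⟨X, hX⟩ hxX
  exact hx ⟨⟨X, hX⟩, ⟨G, hG⟩⟩ hxG

theorem ccc_of_sigmaLinked {P : Type} [PartialOrder P] (h : SigmaLinked P) : CCC P := by
  obtain ⟨c, hc⟩ := h
  intro S hS
  have hinj : InjOn c S := by
    intro p hp q hq hpq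
    by_contra hne
    exact hS p hp q hq hne (hc p q hpq)
  exact (Set.countable_of_injective_of_countable_image hinj (Set.to_countable _))

theorem mALinked_of_MA (h : MA) {κ : Cardinal.{0}} (hκ : κ < 𝔠) : MALinked κ := by
  intro P _ _ hP 𝒟 h𝒟 hd
  exact h P (ccc_of_sigmaLinked hP) 𝒟 (h𝒟.trans_lt hκ) hd

end Pool.Agent.R590.Hc
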