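import Pool.Agent.R590.HcPart

/-!
# Null families of small open sets with dense union
-/

set_option autoImplicit false

namespace Pool.Agent.R590.Hc

open Set Topology Filter

/-- in a metric space with a countable base there is a sequence of open sets with pairwise disjoint
closures, with dense union, the diameter of the closure of the `u`-th being at most `ε / 2 ^ u` -/
theorem exists_small {X : Type*} [MetricSpace X] [SecondCountableTopology X] {ε : ℝ} (hε : 0 < ε) :
    ∃ U : ℕ → Set X, (∀ u, IsOpen (U u)) ∧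
      (∀ u v, u ≠ v → Disjoint (closure (U u)) (closure (U v))) ∧ Dense (⋃ u, U u) ∧
      ∀ u, ∀ x ∈ closure (U u), ∀ y ∈ closure (U u), dist x y ≤ ε / 2 ^ u := by
  classical
  obtain ⟨b, hb⟩ : ∃ b : ℕ → Set X, TopologicalSpace.IsTopologicalBasis (range b) := by
    obtain ⟨S, hS1, hS2, hS3⟩ := TopologicalSpace.exists_countable_basis X
    obtain ⟨b, hb⟩ := (hS1.insert ∅).exists_eq_range (insert_nonempty _ _)
    exact ⟨b, hb ▸ hS3.insert_empty⟩
  have step : ∀ (n : ℕ) (C : Set X), ∃ U : Set X, IsOpen U ∧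
      (IsClosed C → closure U ⊆ b n \ C) ∧ (IsClosed C → (b n \ C).Nonempty → U.Nonempty) ∧
      ∀ x ∈ closure U, ∀ y ∈ closure U, dist x y ≤ ε / 2 ^ n := by
    intro n C
    by_cases hC : IsClosed C ∧ (b n \ C).Nonempty
    · obtain ⟨hC1, x, hx⟩ := hC
      have ho : IsOpen (b n \ C) := (hb.isOpen (mem_range_self n)).sdiff hC1
      obtain ⟨r, hr, hr2⟩ := Metric.nhds_basis_closedBall.mem_iff.1 (ho.mem_nhds hx)
      let δ : ℝ := min r (ε / 2 ^ n / 2)
      have hδ : 0 < δ := lt_min hr (by positivity)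
      refine ⟨Metric.ball x δ, Metric.isOpen_ball, fun _ => ?_, fun _ _ => ⟨x, Metric.mem_ball_self hδ⟩,
        ?_⟩
      · exact (Metric.closure_ball_subset_closedBall.trans
          (Metric.closedBall_subset_closedBall (min_le_left _ _))).trans hr2
      · intro y hy z hz
        have h1 : dist y x ≤ δ := Metric.closure_ball_subset_closedBall hy
        have h2 : dist z x ≤ δ := Metric.closure_ball_subset_closedBall hz
        have h3 : δ ≤ ε / 2 ^ n / 2 := min_le_right _ _
        have h4 := dist_triangle_right y z x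
        linarith
    · refine ⟨∅, isOpen_empty, fun _ => ?_, fun h1 h2 => absurd ⟨h1, h2⟩ hC, ?_⟩
      · rw [closure_empty]
        exact empty_subset _
      · intro x hx
        rw [closure_empty] at hx
        exact absurd hx (notMem_empty x)
  choose f hf1 hf2 hf3 hf4 using step
  let C : ℕ → Set X := fun n => Nat.rec ∅ (fun n C => C ∪ closure (f n C)) n
  have hCs : ∀ n, C (n + 1) = C n ∪ closure (f n (C n)) := fun n => rfl
  have hC : ∀ n, IsClosed (C n) := by
    intro n
    induction n with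
    | zero => exact isClosed_empty
    | succ n ih =>
      rw [hCs]
      exact ih.union isClosed_closure
  have hm : Monotone C := monotone_nat_of_le_succ fun n => by
    rw [hCs]
    exact subset_union_left
  have hsub : ∀ u v, u < v → closure (f u (C u)) ⊆ C v := by
    intro u v huv
    refine Subset.trans ?_ (hm (Nat.succ_le_of_lt huv))
    show closure (f u (C u)) ⊆ C (u + 1)
    rw [hCs]
    exact subset_union_right
  have hdis : ∀ u v, u < v → Disjoint (closure (f u (C u))) (closure (f v (C v))) := by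
    intro u v huv
    rw [Set.disjoint_left]
    intro x hx1 hx2
    exact (hf2 v (C v) (hC v) hx2).2 (hsub u v huv hx1)
  have hmem : ∀ n x, x ∈ C n → ∃ u < n, x ∈ closure (f u (C u)) := by
    intro n
    induction n with
    | zero =>
      intro x hx
      exact absurd hx (notMem_empty x)
    | succ n ih =>
      intro x hx
      rw [hCs] at hx
      rcases hx with hx | hx
      · obtain ⟨u, hu, hxu⟩ := ih x hx
        exact ⟨u, by omega, hxu⟩
      · exact ⟨n, by omega, hx⟩
  refine ⟨fun u => f u (C u), fun u => hf1 _ _, ?_, ?_, fun u => hf4 u (C u)⟩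
  · intro u v huv
    rcases lt_or_gt_of_ne huv with h | h
    · exact hdis u v h
    · exact (hdis v u h).symm
  · rw [dense_iff_inter_open]
    rintro O hO ⟨x, hx⟩
    obtain ⟨_, ⟨n, rfl⟩, hxn, hnO⟩ := hb.exists_subset_of_mem_open hx hO
    by_cases hne : (b n \ C n).Nonempty
    · obtain ⟨y, hy⟩ := hf3 n (C n) (hC n) hne
      exact ⟨y, hnO (hf2 n (C n) (hC n) (subset_closure hy)).1, mem_iUnion.2 ⟨n, hy⟩⟩
    · have hxC : x ∈ C n := by
        by_contra h
        exact hne ⟨x, hxn, h⟩
      obtain ⟨u, -, hu⟩ := hmem n x hxC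
      obtain ⟨y, hy1, hy2⟩ := mem_closure_iff.1 hu (b n) (hb.isOpen (mem_range_self n)) hxn
      exact ⟨y, hnO hy1, mem_iUnion.2 ⟨u, hy2⟩⟩

theorem exists_gap {X : Type*} [MetricSpace X] [CompactSpace X] {S T : Set X} (hS : IsClosed S)
    (hT : IsClosed T) (h : Disjoint S T) : ∃ δ > 0, ∀ x ∈ S, ∀ y ∈ T, δ ≤ dist x y := by
  obtain ⟨δ, hδ, hd⟩ := h.exists_thickenings hS.isCompact hT
  refine ⟨δ, hδ, fun x hx y hy => ?_⟩
  by_contra hlt
  push Not at hlt
  refine Set.disjoint_left.1 hd (Metric.mem_thickening_iff.2 ⟨x, hx, ?_⟩)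
    (Metric.self_subset_thickening hδ T hy)
  rw [dist_comm]
  exact hlt

/-- a sequence of families `U n` of open sets of the Hilbert cube: the union of each family is dense,
the closures of its members form a null family, and for any two disjoint closed sets some family has
no member whose closure meets both -/
theorem exists_families : ∃ U : ℕ → ℕ → Set Q, (∀ n u, IsOpen (U n u)) ∧
    (∀ n, Dense (⋃ u, U n u)) ∧ (∀ n, NullFam fun u => closure (U n u)) ∧
    ∀ S T : Set Q, IsClosed S → IsClosed T → Disjoint S T →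
      ∃ n, ∀ u, ¬ ((closure (U n u) ∩ S).Nonempty ∧ (closure (U n u) ∩ T).Nonempty) := by
  letI : MetricSpace Q := TopologicalSpace.metrizableSpaceMetric Q
  choose U hU1 hU2 hU3 hU4 using fun n : ℕ =>
    exists_small (X := Q) (ε := 1 / ((n : ℝ) + 1)) (by positivity)
  refine ⟨U, hU1, hU3, fun n => ⟨fun u => isClosed_closure, hU2 n, ?_⟩, ?_⟩
  · intro S T hS hT hST
    obtain ⟨δ, hδ, hd⟩ := exists_gap hS hT hST
    have h1 : Tendsto (fun u : ℕ => 1 / ((n : ℝ) + 1) / 2 ^ u) atTop (𝓝 0) := by
      have h2 := tendsto_pow_atTop_nhds_zero_of_lt_one (r := (1 / 2 : ℝ)) (by norm_num) (by norm_num)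
      have h3 := h2.const_mul (1 / ((n : ℝ) + 1))
      rw [mul_zero] at h3
      refine h3.congr fun u => ?_
      rw [one_div_pow, mul_one_div]
    have h2 := (h1.eventually (gt_mem_nhds hδ))
    obtain ⟨N, hN⟩ := eventually_atTop.1 h2
    refine (finite_lt_nat N).subset ?_
    rintro u ⟨⟨x, hx1, hx2⟩, ⟨y, hy1, hy2⟩⟩
    by_contra hu
    have h3 := hN u (not_lt.1 hu)
    have h4 := hU4 n u x hx1 y hy1
    have h5 := hd x hx2 y hy2
    linarith
  · intro S T hS hT hST
    obtain ⟨δ, hδ, hd⟩ := exists_gap hS hT hST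
    obtain ⟨n, hn⟩ := exists_nat_one_div_lt hδ
    refine ⟨n, ?_⟩
    rintro u ⟨⟨x, hx1, hx2⟩, ⟨y, hy1, hy2⟩⟩
    have h4 := hU4 n u x hx1 y hy1
    have h5 := hd x hx2 y hy2
    have h6 : 1 / ((n : ℝ) + 1) / 2 ^ u ≤ 1 / ((n : ℝ) + 1) :=
      div_le_self (by positivity) (one_le_pow₀ (by norm_num))
    linarith

end Pool.Agent.R590.Hc
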