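import Pool.Agent.H63Fed.Miranda

/-!
# Partitions of the Hilbert cube, and a separation lemma for null families of closed sets
-/

set_option autoImplicit false

namespace Pool.Agent.R590.Hc

open Set Topology Filter

/-- the Hilbert cube -/
abbrev Q : Type := ℕ → unitInterval

/-- the face `x i = 0` -/
def A (i : ℕ) : Set Q := {x | x i = 0}

/-- the face `x i = 1` -/
def B (i : ℕ) : Set Q := {x | x i = 1}

theorem isClosed_A (i : ℕ) : IsClosed (A i) := isClosed_singleton.preimage (continuous_apply i)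

theorem isClosed_B (i : ℕ) : IsClosed (B i) := isClosed_singleton.preimage (continuous_apply i)

theorem disjoint_AB (i : ℕ) : Disjoint (A i) (B i) := by
  rw [Set.disjoint_left]
  intro x h1 h2
  have h3 : x i = 0 := h1
  have h4 : x i = 1 := h2
  rw [h3] at h4
  exact zero_ne_one h4

/-- the disjoint open sets `P`, `P'` separate the faces `x i = 0` and `x i = 1` -/
def Sep (i : ℕ) (P P' : Set Q) : Prop :=
  IsOpen P ∧ IsOpen P' ∧ Disjoint P P' ∧ A i ⊆ P ∧ B i ⊆ P'

theorem miranda (k : ℕ) (P P' : ℕ → Set Q) (h : ∀ i < k, Sep i (P i) (P' i)) :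
    ∃ x : Q, ∀ i < k, x ∉ P i ∧ x ∉ P' i := by
  classical
  letI : MetricSpace Q := TopologicalSpace.metrizableSpaceMetric Q
  let x : (Fin k → ℝ) → Q := fun y i =>
    if h : i < k then projIcc (0 : ℝ) 1 zero_le_one (y ⟨i, h⟩) else 0
  have hx : Continuous x := by
    refine continuous_pi fun i => ?_
    by_cases h : i < k
    · simp only [x, dif_pos h]
      exact continuous_projIcc.comp (continuous_apply _)
    · simp only [x, dif_neg h]
      exact continuous_const
  let F : (Fin k → ℝ) → (Fin k → ℝ) := fun y i =>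
    Metric.infDist (x y) (P' i)ᶜ - Metric.infDist (x y) (P i)ᶜ
  have hF : Continuous F := by
    refine continuous_pi fun i => ?_
    exact ((Metric.continuous_infDist_pt _).comp hx).sub ((Metric.continuous_infDist_pt _).comp hx)
  obtain ⟨y, hy1, hy2⟩ := H63Fed.Miranda.poincare_miranda k F hF.continuousOn
    (by
      intro y hy i hi
      have h1 : x y ∈ A i := by
        show x y i = 0
        simp only [x, dif_pos i.2, hi]
        exact projIcc_left ..
      have h2 : x y ∉ P' i := fun h3 =>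
        Set.disjoint_left.1 (h i i.2).2.2.1 ((h i i.2).2.2.2.1 h1) h3
      have h3 : Metric.infDist (x y) (P' i)ᶜ = 0 := Metric.infDist_zero_of_mem h2
      show Metric.infDist (x y) (P' i)ᶜ - Metric.infDist (x y) (P i)ᶜ ≤ 0
      rw [h3]
      linarith [Metric.infDist_nonneg (x := x y) (s := (P i)ᶜ)])
    (by
      intro y hy i hi
      have h1 : x y ∈ B i := by
        show x y i = 1
        simp only [x, dif_pos i.2, hi]
        exact projIcc_right ..
      have h2 : x y ∉ P i := fun h3 =>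
        Set.disjoint_left.1 (h i i.2).2.2.1 h3 ((h i i.2).2.2.2.2 h1)
      have h3 : Metric.infDist (x y) (P i)ᶜ = 0 := Metric.infDist_zero_of_mem h2
      show 0 ≤ Metric.infDist (x y) (P' i)ᶜ - Metric.infDist (x y) (P i)ᶜ
      rw [h3]
      linarith [Metric.infDist_nonneg (x := x y) (s := (P' i)ᶜ)])
  refine ⟨x y, fun i hi => ?_⟩
  have h1 : Metric.infDist (x y) (P' i)ᶜ - Metric.infDist (x y) (P i)ᶜ = 0 :=
    congrFun hy2 ⟨i, hi⟩
  obtain ⟨g1, g2, g3, g4, g5⟩ := h i hi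
  have hn1 : ((P i)ᶜ).Nonempty := by
    refine ⟨fun _ => 1, fun h3 => ?_⟩
    exact Set.disjoint_left.1 g3 h3 (g5 rfl)
  have hn2 : ((P' i)ᶜ).Nonempty := by
    refine ⟨fun _ => 0, fun h3 => ?_⟩
    exact Set.disjoint_left.1 g3 (g4 rfl) h3
  constructor
  · intro h2
    have h3 : x y ∉ P' i := fun h4 => Set.disjoint_left.1 g3 h2 h4
    have h4 : Metric.infDist (x y) (P' i)ᶜ = 0 := Metric.infDist_zero_of_mem h3
    have h5 : Metric.infDist (x y) (P i)ᶜ = 0 := by linarith
    exact ((g1.isClosed_compl.mem_iff_infDist_zero hn1).2 h5) h2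
  · intro h2
    have h3 : x y ∉ P i := fun h4 => Set.disjoint_left.1 g3 h4 h2
    have h4 : Metric.infDist (x y) (P i)ᶜ = 0 := Metric.infDist_zero_of_mem h3
    have h5 : Metric.infDist (x y) (P' i)ᶜ = 0 := by linarith
    exact ((g2.isClosed_compl.mem_iff_infDist_zero hn2).2 h5) h2

section sep

variable {X : Type*} [TopologicalSpace X] [NormalSpace X]

/-- a family of closed sets, pairwise disjoint, such that only finitely many members meet both of any
two disjoint closed sets -/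
def NullFam (V : ℕ → Set X) : Prop :=
  (∀ u, IsClosed (V u)) ∧ (∀ u v, u ≠ v → Disjoint (V u) (V v)) ∧
  ∀ S T : Set X, IsClosed S → IsClosed T → Disjoint S T →
    {u | (V u ∩ S).Nonempty ∧ (V u ∩ T).Nonempty}.Finite

theorem enlarge {V : ℕ → Set X} (hV : NullFam V) {S T : Set X} (hS : IsClosed S) (hT : IsClosed T)
    (hST : Disjoint S T) (h : ∀ u, ¬ ((V u ∩ S).Nonempty ∧ (V u ∩ T).Nonempty)) :
    ∃ G G' : Set X, IsOpen G ∧ IsOpen G' ∧ S ⊆ G ∧ T ⊆ G' ∧ Disjoint (closure G) (closure G') ∧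
      ∀ u, ¬ ((V u ∩ closure G).Nonempty ∧ (V u ∩ closure G').Nonempty) := by
  obtain ⟨hV1, hV2, hV3⟩ := hV
  obtain ⟨O, hO1, hO2, hO3⟩ := normal_exists_closure_subset hS hT.isOpen_compl
    (Set.disjoint_left.1 hST : S ⊆ Tᶜ)
  have hTO : T ⊆ (closure O)ᶜ := fun x hx hx2 => hO3 hx2 hx
  obtain ⟨O', hO1', hO2', hO3'⟩ := normal_exists_closure_subset hT isClosed_closure.isOpen_compl hTO
  have hdis : Disjoint (closure O) (closure O') :=
    Set.disjoint_left.2 fun x hx hx2 => hO3' hx2 hx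
  have hfin := hV3 _ _ isClosed_closure isClosed_closure hdis
  have key : ∀ (Z Y W : Set X), IsClosed Z → IsOpen W → Z ⊆ W → ∃ G : Set X, IsOpen G ∧ Z ⊆ G ∧
      closure G ⊆ W ∧ ∀ u ∈ {u | (V u ∩ closure O).Nonempty ∧ (V u ∩ closure O').Nonempty},
        ¬ (V u ∩ Z).Nonempty → ¬ (V u ∩ closure G).Nonempty := by
    intro Z Y W hZ hW hZW
    let F : Set ℕ := {u | ((V u ∩ closure O).Nonempty ∧ (V u ∩ closure O').Nonempty) ∧
      ¬ (V u ∩ Z).Nonempty}
    have hF : F.Finite := hfin.subset fun u hu => hu.1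
    have hc : IsClosed (⋃ u ∈ F, V u) := hF.isClosed_biUnion fun u _ => hV1 u
    have hZ2 : Z ⊆ W ∩ (⋃ u ∈ F, V u)ᶜ := by
      intro x hx
      refine ⟨hZW hx, fun hx2 => ?_⟩
      obtain ⟨u, hu, hxu⟩ := mem_iUnion₂.1 hx2
      exact hu.2 ⟨x, hxu, hx⟩
    obtain ⟨G, hG1, hG2, hG3⟩ := normal_exists_closure_subset hZ (hW.inter hc.isOpen_compl) hZ2
    refine ⟨G, hG1, hG2, fun x hx => (hG3 hx).1, ?_⟩
    rintro u hu1 hu2 ⟨x, hx1, hx2⟩
    exact (hG3 hx2).2 (mem_biUnion (show u ∈ F from ⟨hu1, hu2⟩) hx1)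
  obtain ⟨G, g1, g2, g3, g4⟩ := key S T O hS hO1 hO2
  obtain ⟨G', g1', g2', g3', g4'⟩ := key T S O' hT hO1' hO2'
  have hGO : closure G ⊆ closure O := g3.trans subset_closure
  have hGO' : closure G' ⊆ closure O' := g3'.trans subset_closure
  refine ⟨G, G', g1, g1', g2, g2', hdis.mono hGO hGO', ?_⟩
  rintro u ⟨⟨x, hx1, hx2⟩, ⟨y, hy1, hy2⟩⟩
  have hu : u ∈ {u | (V u ∩ closure O).Nonempty ∧ (V u ∩ closure O').Nonempty} :=
    ⟨⟨x, hx1, hGO hx2⟩, ⟨y, hy1, hGO' hy2⟩⟩
  by_cases h1 : (V u ∩ S).Nonempty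
  · by_cases h2 : (V u ∩ T).Nonempty
    · exact h u ⟨h1, h2⟩
    · exact g4' u hu h2 ⟨y, hy1, hy2⟩
  · exact g4 u hu h1 ⟨x, hx1, hx2⟩

/-- the pairs of disjoint closed sets such that no member of the family meets both -/
def St (V : ℕ → Set X) : Type _ := {p : Set X × Set X // IsClosed p.1 ∧ IsClosed p.2 ∧
  Disjoint p.1 p.2 ∧ ∀ u, ¬ ((V u ∩ p.1).Nonempty ∧ (V u ∩ p.2).Nonempty)}

theorem step {V : ℕ → Set X} (hV : NullFam V) (n : ℕ) (p : St V) :
    ∃ q : St V, p.1.1 ⊆ interior q.1.1 ∧ p.1.2 ⊆ interior q.1.2 ∧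
      (V n ⊆ interior q.1.1 ∨ V n ⊆ interior q.1.2) := by
  obtain ⟨⟨S, T⟩, hS, hT, hST, h⟩ := p
  simp only at hS hT hST h
  have hVn := hV.1 n
  have hmeet : ∀ u, u ≠ n → ∀ Z : Set X, (V u ∩ (Z ∪ V n)).Nonempty → (V u ∩ Z).Nonempty := by
    rintro u hu Z ⟨x, hx1, hx2 | hx2⟩
    · exact ⟨x, hx1, hx2⟩
    · exact absurd hx2 (Set.disjoint_left.1 (hV.2.1 u n hu) hx1)
  by_cases hn : (V n ∩ S).Nonempty
  · have hT' : ¬ (V n ∩ T).Nonempty := fun h2 => h n ⟨hn, h2⟩
    have hd : Disjoint (S ∪ V n) T := by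
      rw [Set.disjoint_left]
      rintro x (hx | hx) hx2
      · exact Set.disjoint_left.1 hST hx hx2
      · exact hT' ⟨x, hx, hx2⟩
    obtain ⟨G, G', g1, g2, g3, g4, g5, g6⟩ := enlarge hV (hS.union hVn) hT hd (by
      intro u hu
      by_cases hun : u = n
      · subst hun
        exact hT' hu.2
      · exact h u ⟨hmeet u hun S hu.1, hu.2⟩)
    refine ⟨⟨(closure G, closure G'), isClosed_closure, isClosed_closure, g5, g6⟩, ?_, ?_, Or.inl ?_⟩
    · exact (subset_union_left.trans g3).trans (interior_maximal subset_closure g1)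
    · exact g4.trans (interior_maximal subset_closure g2)
    · exact (subset_union_right.trans g3).trans (interior_maximal subset_closure g1)
  · have hd : Disjoint S (T ∪ V n) := by
      rw [Set.disjoint_left]
      rintro x hx (hx2 | hx2)
      · exact Set.disjoint_left.1 hST hx hx2
      · exact hn ⟨x, hx2, hx⟩
    obtain ⟨G, G', g1, g2, g3, g4, g5, g6⟩ := enlarge hV hS (hT.union hVn) hd (by
      intro u hu
      by_cases hun : u = n
      · subst hun
        exact hn hu.1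
      · exact h u ⟨hu.1, hmeet u hun T hu.2⟩)
    refine ⟨⟨(closure G, closure G'), isClosed_closure, isClosed_closure, g5, g6⟩, ?_, ?_, Or.inr ?_⟩
    · exact g3.trans (interior_maximal subset_closure g1)
    · exact (subset_union_left.trans g4).trans (interior_maximal subset_closure g2)
    · exact (subset_union_right.trans g4).trans (interior_maximal subset_closure g2)

theorem sep_lemma {V : ℕ → Set X} (hV : NullFam V) {S T : Set X} (hS : IsClosed S) (hT : IsClosed T)
    (hST : Disjoint S T) (h : ∀ u, ¬ ((V u ∩ S).Nonempty ∧ (V u ∩ T).Nonempty)) :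
    ∃ O O' : Set X, IsOpen O ∧ IsOpen O' ∧ Disjoint O O' ∧ S ⊆ O ∧ T ⊆ O' ∧ ∀ u, V u ⊆ O ∪ O' := by
  choose f hf1 hf2 hf3 using step hV
  let s : ℕ → St V := fun n => Nat.rec ⟨(S, T), hS, hT, hST, h⟩ (fun n p => f n p) n
  have hs : ∀ n, s (n + 1) = f n (s n) := fun n => rfl
  have hm1 : Monotone fun n => (s n).1.1 := by
    refine monotone_nat_of_le_succ fun n => ?_
    show (s n).1.1 ⊆ (s (n + 1)).1.1
    rw [hs]
    exact (hf1 n (s n)).trans interior_subset
  have hm2 : Monotone fun n => (s n).1.2 := by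
    refine monotone_nat_of_le_succ fun n => ?_
    show (s n).1.2 ⊆ (s (n + 1)).1.2
    rw [hs]
    exact (hf2 n (s n)).trans interior_subset
  refine ⟨⋃ n, interior (s n).1.1, ⋃ n, interior (s n).1.2, isOpen_iUnion fun n => isOpen_interior,
    isOpen_iUnion fun n => isOpen_interior, ?_, ?_, ?_, ?_⟩
  · rw [Set.disjoint_left]
    intro x hx1 hx2
    obtain ⟨n, hn⟩ := mem_iUnion.1 hx1
    obtain ⟨m, hm⟩ := mem_iUnion.1 hx2
    have h1 : x ∈ (s (max n m)).1.1 := hm1 (le_max_left n m) (interior_subset hn)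
    have h2 : x ∈ (s (max n m)).1.2 := hm2 (le_max_right n m) (interior_subset hm)
    exact Set.disjoint_left.1 (s (max n m)).2.2.2.1 h1 h2
  · intro x hx
    exact mem_iUnion.2 ⟨1, hf1 0 (s 0) hx⟩
  · intro x hx
    exact mem_iUnion.2 ⟨1, hf2 0 (s 0) hx⟩
  · intro u x hx
    rcases hf3 u (s u) with h1 | h1
    · exact Or.inl (mem_iUnion.2 ⟨u + 1, h1 hx⟩)
    · exact Or.inr (mem_iUnion.2 ⟨u + 1, h1 hx⟩)

end sep

end Pool.Agent.R590.Hc
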