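import Pool.Agent.R590.HcNull

/-!
# The poset of the good finite sets, and the covering theorem
-/

set_option autoImplicit false

namespace Pool.Agent.R590.Hc

open Set Topology Filter Cardinal

/-- the points outside the first `k` pairs of open sets -/
def Lk (k : ℕ) (P P' : ℕ → Set Q) : Set Q := {x | ∀ i < k, x ∉ P i ∧ x ∉ P' i}

theorem isClosed_Lk {k : ℕ} {P P' : ℕ → Set Q} (h : ∀ i < k, Sep i (P i) (P' i)) :
    IsClosed (Lk k P P') := by
  have : Lk k P P' = ⋂ i : ℕ, ⋂ (_ : i < k), ((P i)ᶜ ∩ (P' i)ᶜ) := by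
    ext x
    simp only [Lk, mem_setOf_eq, mem_iInter, mem_inter_iff, mem_compl_iff]
  rw [this]
  exact isClosed_iInter fun i => isClosed_iInter fun hi =>
    (h i hi).1.isClosed_compl.inter (h i hi).2.1.isClosed_compl

/-- `f` as a continuous map -/
def toC (f : Q ≃ₜ Q) : C(Q, Q) := ⟨f, f.continuous⟩

section

variable {U : ℕ → ℕ → Set Q} (hU : ∀ n, NullFam fun u => closure (U n u))

include hU

theorem sep_step (f : Q ≃ₜ Q) (n i : ℕ) {L : Set Q} (hL : IsClosed L)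
    (h : ∀ u, ¬ ((∃ x ∈ closure (U n u), f x ∈ L ∧ f x ∈ A i) ∧
      ∃ x ∈ closure (U n u), f x ∈ L ∧ f x ∈ B i)) :
    ∃ P P' : Set Q, Sep i P P' ∧ ∀ u, ∀ x ∈ closure (U n u), f x ∈ L → f x ∈ P ∨ f x ∈ P' := by
  have hV : NullFam fun u => f '' closure (U n u) ∩ L := by
    refine ⟨fun u => (f.isClosedMap _ isClosed_closure).inter hL, fun u v huv => ?_, ?_⟩
    · rw [Set.disjoint_left]
      rintro _ ⟨⟨x, hx, rfl⟩, -⟩ ⟨⟨y, hy, hxy⟩, -⟩
      have := f.injective hxy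
      subst this
      exact Set.disjoint_left.1 ((hU n).2.1 u v huv) hx hy
    · intro S T hS hT hST
      refine ((hU n).2.2 (f ⁻¹' S) (f ⁻¹' T) (hS.preimage f.continuous) (hT.preimage f.continuous)
        (hST.preimage f)).subset ?_
      rintro u ⟨⟨_, ⟨⟨x, hx, rfl⟩, -⟩, hx2⟩, ⟨_, ⟨⟨y, hy, rfl⟩, -⟩, hy2⟩⟩
      exact ⟨⟨x, hx, hx2⟩, ⟨y, hy, hy2⟩⟩
  obtain ⟨O, O', h1, h2, h3, h4, h5, h6⟩ := sep_lemma hV (isClosed_A i) (isClosed_B i)
    (disjoint_AB i) (by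
      rintro u ⟨⟨_, ⟨⟨x, hx, rfl⟩, hx1⟩, hx2⟩, ⟨_, ⟨⟨y, hy, rfl⟩, hy1⟩, hy2⟩⟩
      exact h u ⟨⟨x, hx, hx1, hx2⟩, ⟨y, hy, hy1, hy2⟩⟩)
  exact ⟨O, O', ⟨h1, h2, h3, h4, h5⟩, fun u x hx hL => h6 u ⟨⟨x, hx, rfl⟩, hL⟩⟩

theorem exists_nbhd (f : Q ≃ₜ Q) (n i : ℕ) {L : Set Q} (hL : IsClosed L)
    (h : ∀ u, ∀ x ∈ closure (U n u), f x ∉ L) :
    ∃ O : Set C(Q, Q), IsOpen O ∧ toC f ∈ O ∧ ∀ f' ∈ O, ∀ u,
      ¬ ((∃ x ∈ closure (U n u), f' x ∈ L ∧ f' x ∈ A i) ∧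
        ∃ x ∈ closure (U n u), f' x ∈ L ∧ f' x ∈ B i) := by
  have hX : IsClosed (f ⁻¹' A i) := (isClosed_A i).preimage f.continuous
  have hY : IsClosed (f ⁻¹' B i) := (isClosed_B i).preimage f.continuous
  have hXY : Disjoint (f ⁻¹' A i) (f ⁻¹' B i) := (disjoint_AB i).preimage f
  obtain ⟨X, hX1, hX2, hX3⟩ := normal_exists_closure_subset hX hY.isOpen_compl
    (Set.disjoint_left.1 hXY : f ⁻¹' A i ⊆ (f ⁻¹' B i)ᶜ)
  have hYX : f ⁻¹' B i ⊆ (closure X)ᶜ := fun x hx hx2 => hX3 hx2 hx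
  obtain ⟨Y, hY1, hY2, hY3⟩ := normal_exists_closure_subset hY isClosed_closure.isOpen_compl hYX
  have hdis : Disjoint (closure X) (closure Y) :=
    Set.disjoint_left.2 fun x hx hx2 => hY3 hx2 hx
  have hF := (hU n).2.2 _ _ isClosed_closure isClosed_closure hdis
  refine ⟨({f' | MapsTo f' Xᶜ (A i)ᶜ} ∩ {f' | MapsTo f' Yᶜ (B i)ᶜ}) ∩
    ⋂ u ∈ {u | (closure (U n u) ∩ closure X).Nonempty ∧ (closure (U n u) ∩ closure Y).Nonempty},
      {f' | MapsTo f' (closure (U n u)) Lᶜ}, ?_, ?_, ?_⟩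
  · refine ((ContinuousMap.isOpen_setOf_mapsTo hX1.isClosed_compl.isCompact
      (isClosed_A i).isOpen_compl).inter (ContinuousMap.isOpen_setOf_mapsTo
        hY1.isClosed_compl.isCompact (isClosed_B i).isOpen_compl)).inter ?_
    exact hF.isOpen_biInter fun u _ =>
      ContinuousMap.isOpen_setOf_mapsTo isClosed_closure.isCompact hL.isOpen_compl
  · refine ⟨⟨?_, ?_⟩, ?_⟩
    · intro x hx hx2
      exact hx (hX2 hx2)
    · intro x hx hx2
      exact hx (hY2 hx2)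
    · exact mem_iInter₂.2 fun u _ x hx => h u x hx
  · rintro f' ⟨⟨h1, h2⟩, h3⟩ u ⟨⟨x, hx, hxL, hxA⟩, ⟨y, hy, hyL, hyB⟩⟩
    have hxX : x ∈ X := by
      by_contra hc
      exact h1 hc hxA
    have hyY : y ∈ Y := by
      by_contra hc
      exact h2 hc hyB
    have hu := mem_iInter₂.1 h3 u ⟨⟨x, hx, subset_closure hxX⟩, ⟨y, hy, subset_closure hyY⟩⟩
    exact hu hx hxL

end

variable {ι : Type}

/-- a finite set of pairs (index of a homeomorphism, index of a family) is good if finitely many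
partitions of the cube have an intersection that misses the closures of the images of all the members
of the families -/
def Good (U : ℕ → ℕ → Set Q) (g : ι → Q ≃ₜ Q) (p : Finset (ι × ℕ)) : Prop :=
  ∃ (k : ℕ) (P P' : ℕ → Set Q), (∀ i < k, Sep i (P i) (P' i)) ∧
    ∀ a ∈ p, ∀ u, ∀ x ∈ closure (U a.2 u), g a.1 x ∉ Lk k P P'

theorem good_empty (U : ℕ → ℕ → Set Q) (g : ι → Q ≃ₜ Q) : Good U g ∅ :=
  ⟨0, fun _ => ∅, fun _ => ∅, fun i hi => absurd hi (by omega),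
    fun a ha => absurd ha (Finset.notMem_empty a)⟩

theorem good_insert [DecidableEq ι] {U : ℕ → ℕ → Set Q}
    (hU : ∀ n, NullFam fun u => closure (U n u))
    (hfine : ∀ S T : Set Q, IsClosed S → IsClosed T → Disjoint S T →
      ∃ n, ∀ u, ¬ ((closure (U n u) ∩ S).Nonempty ∧ (closure (U n u) ∩ T).Nonempty))
    {g : ι → Q ≃ₜ Q} {p : Finset (ι × ℕ)} (hp : Good U g p) (α : ι) :
    ∃ n, Good U g (insert (α, n) p) := by
  obtain ⟨k, P, P', h1, h2⟩ := hp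
  obtain ⟨n, hn⟩ := hfine (g α ⁻¹' A k) (g α ⁻¹' B k) ((isClosed_A k).preimage (g α).continuous)
    ((isClosed_B k).preimage (g α).continuous) ((disjoint_AB k).preimage (g α))
  obtain ⟨R, R', hR, hR2⟩ := sep_step hU (g α) n k (isClosed_Lk h1) (by
    rintro u ⟨⟨x, hx, -, hx2⟩, ⟨y, hy, -, hy2⟩⟩
    exact hn u ⟨⟨x, hx, hx2⟩, ⟨y, hy, hy2⟩⟩)
  have hsub : Lk (k + 1) (fun i => if i = k then R else P i) (fun i => if i = k then R' else P' i) ⊆
      Lk k P P' := by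
    intro x hx i hi
    have h3 := hx i (by omega)
    simp only [if_neg (show i ≠ k by omega)] at h3
    exact h3
  refine ⟨n, k + 1, fun i => if i = k then R else P i, fun i => if i = k then R' else P' i,
    fun i hi => ?_, ?_⟩
  · by_cases hik : i = k
    · subst hik
      simp only [if_pos]
      exact hR
    · simp only [if_neg hik]
      exact h1 i (by omega)
  · intro a ha u x hx hxL
    rcases Finset.mem_insert.1 ha with rfl | ha
    · have h3 := hxL k (by omega)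
      simp only [if_pos] at h3
      rcases hR2 u x hx (hsub hxL) with h4 | h4
      · exact h3.1 h4
      · exact h3.2 h4
    · exact h2 a ha u x hx (hsub hxL)

theorem exists_code {U : ℕ → ℕ → Set Q} (hU : ∀ n, NullFam fun u => closure (U n u))
    {g : ι → Q ≃ₜ Q} {b : ℕ → Set C(Q, Q)} (hb : TopologicalSpace.IsTopologicalBasis (range b))
    {p : Finset (ι × ℕ)} (hp : Good U g p) :
    ∃ (N : ℕ) (e : Fin N → ι × ℕ) (m : Fin N → ℕ) (k : ℕ) (P P' : ℕ → Set Q),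
      (∀ a, a ∈ p ↔ ∃ j, e j = a) ∧ (∀ i < k, Sep i (P i) (P' i)) ∧
      (∀ a ∈ p, ∀ u, ∀ x ∈ closure (U a.2 u), g a.1 x ∉ Lk k P P') ∧
      ∀ j : Fin N, toC (g (e j).1) ∈ b (m j) ∧ ∀ f' ∈ b (m j), ∀ u,
        ¬ ((∃ x ∈ closure (U (e j).2 u), f' x ∈ Lk k P P' ∧ f' x ∈ A (k + j)) ∧
          ∃ x ∈ closure (U (e j).2 u), f' x ∈ Lk k P P' ∧ f' x ∈ B (k + j)) := by
  obtain ⟨k, P, P', h1, h2⟩ := hp
  let e : Fin p.card → ι × ℕ := fun j => (p.equivFin.symm j).1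
  have he : ∀ a, a ∈ p ↔ ∃ j, e j = a := by
    intro a
    constructor
    · intro ha
      exact ⟨p.equivFin ⟨a, ha⟩, by simp [e]⟩
    · rintro ⟨j, rfl⟩
      exact (p.equivFin.symm j).2
  have key : ∀ j : Fin p.card, ∃ m : ℕ, toC (g (e j).1) ∈ b m ∧ ∀ f' ∈ b m, ∀ u,
        ¬ ((∃ x ∈ closure (U (e j).2 u), f' x ∈ Lk k P P' ∧ f' x ∈ A (k + j)) ∧
          ∃ x ∈ closure (U (e j).2 u), f' x ∈ Lk k P P' ∧ f' x ∈ B (k + j)) := by
    intro j
    obtain ⟨O, hO1, hO2, hO3⟩ := exists_nbhd hU (g (e j).1) (e j).2 (k + j) (isClosed_Lk h1)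
      (h2 (e j) ((he _).2 ⟨j, rfl⟩))
    obtain ⟨_, ⟨m, rfl⟩, hm1, hm2⟩ := hb.exists_subset_of_mem_open hO2 hO1
    exact ⟨m, hm1, fun f' hf' => hO3 f' (hm2 hf')⟩
  choose m hm using key
  exact ⟨p.card, e, m, k, P, P', he, h1, h2, hm⟩

theorem good_union [DecidableEq ι] {U : ℕ → ℕ → Set Q}
    (hU : ∀ n, NullFam fun u => closure (U n u))
    {g : ι → Q ≃ₜ Q} {b : ℕ → Set C(Q, Q)} {p q : Finset (ι × ℕ)} {N : ℕ}
    {e e' : Fin N → ι × ℕ} {m : Fin N → ℕ} {k : ℕ} {P P' : ℕ → Set Q}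
    (he' : ∀ a, a ∈ q ↔ ∃ j, e' j = a) (h1 : ∀ i < k, Sep i (P i) (P' i))
    (h2 : ∀ a ∈ p, ∀ u, ∀ x ∈ closure (U a.2 u), g a.1 x ∉ Lk k P P')
    (h3 : ∀ j : Fin N, ∀ f' ∈ b (m j), ∀ u,
        ¬ ((∃ x ∈ closure (U (e j).2 u), f' x ∈ Lk k P P' ∧ f' x ∈ A (k + j)) ∧
          ∃ x ∈ closure (U (e j).2 u), f' x ∈ Lk k P P' ∧ f' x ∈ B (k + j)))
    (h4 : ∀ j : Fin N, toC (g (e' j).1) ∈ b (m j)) (h5 : ∀ j, (e j).2 = (e' j).2) :
    Good U g (p ∪ q) := by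
  have key : ∀ j : Fin N, ∃ R R' : Set Q, Sep (k + j) R R' ∧ ∀ u, ∀ x ∈ closure (U (e' j).2 u),
      g (e' j).1 x ∈ Lk k P P' → g (e' j).1 x ∈ R ∨ g (e' j).1 x ∈ R' := by
    intro j
    refine sep_step hU (g (e' j).1) (e' j).2 (k + j) (isClosed_Lk h1) ?_
    intro u
    have h6 := h3 j _ (h4 j) u
    rw [h5 j] at h6
    exact h6
  choose R R' hR hR2 using key
  let F : ℕ → Set Q := fun i => if i < k then P i else if h : i - k < N then R ⟨i - k, h⟩ else ∅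
  let F' : ℕ → Set Q := fun i => if i < k then P' i else if h : i - k < N then R' ⟨i - k, h⟩ else ∅
  have hsub : Lk (k + N) F F' ⊆ Lk k P P' := by
    intro x hx i hi
    have h6 := hx i (by omega)
    simp only [F, F', if_pos hi] at h6
    exact h6
  refine ⟨k + N, F, F', fun i hi => ?_, ?_⟩
  · by_cases hik : i < k
    · simp only [F, F', if_pos hik]
      exact h1 i hik
    · have hlt : i - k < N := by omega
      simp only [F, F', if_neg hik, dif_pos hlt]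
      have h6 := hR ⟨i - k, hlt⟩
      have h7 : k + (i - k) = i := by omega
      simp only [h7] at h6
      exact h6
  · intro a ha u x hx hxL
    rcases Finset.mem_union.1 ha with ha | ha
    · exact h2 a ha u x hx (hsub hxL)
    · obtain ⟨j, rfl⟩ := (he' a).1 ha
      have h6 := hxL (k + j) (by omega)
      have h7 : ¬ (k + (j : ℕ) < k) := by omega
      have h8 : k + (j : ℕ) - k < N := by omega
      have h9 : (⟨k + (j : ℕ) - k, h8⟩ : Fin N) = j := Fin.ext (by simp)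
      simp only [F, F', if_neg h7, dif_pos h8, h9] at h6
      rcases hR2 j u x hx (hsub hxL) with h | h
      · exact h6.1 h
      · exact h6.2 h

end Pool.Agent.R590.Hc
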