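import Pool.Agent.R590.HzFam

/-!
# One point avoids uncountably many translates of a countable family of minimal dense `G_δ`-sets
-/

set_option autoImplicit false

namespace Pool.Agent.R590.Hc

open Set Topology Filter

/-- a stage of the construction -/
def Stage (U : ℕ → ℕ → Set Q) (g : ℝ × ℕ → Q ≃ₜ Q) (k : ℕ) (w : Finset ℝ) (μ : ℕ → ℕ) : Prop := by
  classical
  exact Good U g ((w ×ˢ Finset.range k).image fun a => (a, μ a.2))

theorem good_mono {ι : Type} {U : ℕ → ℕ → Set Q} {g : ι → Q ≃ₜ Q} {p q : Finset (ι × ℕ)}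
    (h : Good U g q) (hpq : ∀ a ∈ p, a ∈ q) : Good U g p := by
  obtain ⟨k, P, P', h1, h2⟩ := h
  exact ⟨k, P, P', h1, fun a ha => h2 a (hpq a ha)⟩

theorem stage_step {U : ℕ → ℕ → Set Q} (hU : ∀ n, NullFam fun u => closure (U n u))
    (hfine : ∀ S T : Set Q, IsClosed S → IsClosed T → Disjoint S T →
      ∃ N, ∀ n ≥ N, ∀ u, ¬ ((closure (U n u) ∩ S).Nonempty ∧ (closure (U n u) ∩ T).Nonempty))
    {g : ℝ × ℕ → Q ≃ₜ Q} (hg : ∀ n, Continuous fun t => toC (g (t, n)))
    {k : ℕ} {w : Finset ℝ} {μ : ℕ → ℕ} (h : Stage U g k w μ) :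
    ∃ (w' : Finset ℝ) (μ' : ℕ → ℕ), Stage U g (k + 1) w' μ' ∧ (∀ n < k, μ' n = μ n) ∧ w ⊆ w' ∧
      ∀ t ∈ w, ∃ t' ∈ w', t' ≠ t ∧ |t' - t| < 1 / ((k : ℝ) + 1) := by
  classical
  unfold Stage at h
  obtain ⟨O, hO1, hO2⟩ := good_near hU h
  have h1 : ∀ t ∈ w, ∀ n ∈ Finset.range k,
      ∀ᶠ ε in 𝓝 (0 : ℝ), toC (g (t + ε, n)) ∈ O ((t, n), μ n) := by
    intro t ht n hn
    have hmem : ((t, n), μ n) ∈ (w ×ˢ Finset.range k).image fun a => (a, μ a.2) :=
      Finset.mem_image.2 ⟨(t, n), Finset.mem_product.2 ⟨ht, hn⟩, rfl⟩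
    obtain ⟨h2, h3⟩ := hO1 _ hmem
    have h4 : Continuous fun ε : ℝ => toC (g (t + ε, n)) :=
      (hg n).comp (continuous_const.add continuous_id)
    have h5 : O ((t, n), μ n) ∈ 𝓝 (toC (g (t + 0, n))) := by
      rw [add_zero]
      exact h2.mem_nhds h3
    exact h4.continuousAt.eventually h5
  have h2 : ∀ᶠ ε in 𝓝 (0 : ℝ), ∀ t ∈ w, ∀ n ∈ Finset.range k,
      toC (g (t + ε, n)) ∈ O ((t, n), μ n) := by
    rw [Filter.eventually_all_finset]
    intro t ht
    rw [Filter.eventually_all_finset]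
    exact h1 t ht
  obtain ⟨δ, hδ, hd⟩ := Metric.eventually_nhds_iff.1 h2
  obtain ⟨ε, hε, hε2⟩ := exists_between (lt_min hδ (show (0 : ℝ) < 1 / ((k : ℝ) + 1) by positivity))
  have h3 : ∀ t ∈ w, ∀ n ∈ Finset.range k, toC (g (t + ε, n)) ∈ O ((t, n), μ n) := by
    apply hd
    rw [Real.dist_eq, sub_zero, abs_of_pos hε]
    exact hε2.trans_le (min_le_left _ _)
  have h4 := hO2 (fun a => (a.1 + ε, a.2)) (by
    intro a ha
    obtain ⟨c, hc, rfl⟩ := Finset.mem_image.1 ha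
    obtain ⟨hc1, hc2⟩ := Finset.mem_product.1 hc
    exact h3 c.1 hc1 c.2 hc2)
  let w' : Finset ℝ := w ∪ w.image fun t => t + ε
  obtain ⟨m, hm⟩ := good_common hU hfine h4 (w' ×ˢ {k})
  refine ⟨w', Function.update μ k m, ?_, fun n hn => Function.update_of_ne (by omega) _ _,
    Finset.subset_union_left, fun t ht => ⟨t + ε, Finset.mem_union_right _
      (Finset.mem_image_of_mem _ ht), by linarith [hε] |> fun h : t + ε > t => ne_of_gt h, ?_⟩⟩
  · unfold Stage
    refine good_mono hm ?_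
    intro a ha
    obtain ⟨⟨t, n⟩, hc, rfl⟩ := Finset.mem_image.1 ha
    obtain ⟨hc1, hc2⟩ := Finset.mem_product.1 hc
    have hn : n < k + 1 := Finset.mem_range.1 hc2
    simp only at hc1 ⊢
    rcases Nat.lt_succ_iff_lt_or_eq.1 hn with hn | rfl
    · rw [Function.update_of_ne (by omega)]
      apply Finset.mem_union_left
      rcases Finset.mem_union.1 hc1 with hc1 | hc1
      · exact Finset.mem_union_left _ (Finset.mem_image.2
          ⟨(t, n), Finset.mem_product.2 ⟨hc1, Finset.mem_range.2 hn⟩, rfl⟩)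
      · obtain ⟨s, hs, rfl⟩ := Finset.mem_image.1 hc1
        exact Finset.mem_union_right _ (Finset.mem_image.2 ⟨((s, n), μ n), Finset.mem_image.2
          ⟨(s, n), Finset.mem_product.2 ⟨hs, Finset.mem_range.2 hn⟩, rfl⟩, rfl⟩)
    · rw [Function.update_self]
      exact Finset.mem_union_right _ (Finset.mem_image.2 ⟨(t, n), Finset.mem_product.2
        ⟨hc1, Finset.mem_singleton_self _⟩, rfl⟩)
  · rw [add_sub_cancel_left, abs_of_pos hε]
    exact hε2.trans_le (min_le_right _ _)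

theorem perfect_avoid {U : ℕ → ℕ → Set Q} (hU1 : ∀ n u, IsOpen (U n u))
    (hU : ∀ n, NullFam fun u => closure (U n u))
    (hfine : ∀ S T : Set Q, IsClosed S → IsClosed T → Disjoint S T →
      ∃ N, ∀ n ≥ N, ∀ u, ¬ ((closure (U n u) ∩ S).Nonempty ∧ (closure (U n u) ∩ T).Nonempty))
    {g : ℝ × ℕ → Q ≃ₜ Q} (hg : ∀ n, Continuous fun t => toC (g (t, n)))
    (hg2 : ∀ n x, Continuous fun t => (g (t, n)).symm x) :
    ∃ (x : Q) (E : Set ℝ) (μ : ℕ → ℕ), ¬ E.Countable ∧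
      ∀ t ∈ E, ∀ n u, (g (t, n)).symm x ∉ U (μ n) u := by
  classical
  choose W M h1 h2 h3 h4 using
    fun (k : ℕ) (s : {s : Finset ℝ × (ℕ → ℕ) // Stage U g k s.1 s.2}) => stage_step hU hfine hg s.2
  let S : (k : ℕ) → {s : Finset ℝ × (ℕ → ℕ) // Stage U g k s.1 s.2} := fun k =>
    Nat.rec ⟨({0}, fun _ => 0), by
      unfold Stage
      refine good_mono (good_empty U g) fun a ha => ?_
      obtain ⟨c, hc, rfl⟩ := Finset.mem_image.1 ha
      simp at hc⟩ (fun k s => ⟨(W k s, M k s), h1 k s⟩) k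
  have hS : ∀ k, (S (k + 1)).1 = (W k (S k), M k (S k)) := fun k => rfl
  let w : ℕ → Finset ℝ := fun k => (S k).1.1
  let ν : ℕ → ℕ → ℕ := fun k => (S k).1.2
  have hw : ∀ k, w k ⊆ w (k + 1) := fun k => h3 k (S k)
  have hwm : Monotone w := monotone_nat_of_le_succ hw
  have hν : ∀ k, ∀ n < k, ν (k + 1) n = ν k n := fun k => h2 k (S k)
  let μ : ℕ → ℕ := fun n => ν (n + 1) n
  have hμ : ∀ k n, n < k → ν k n = μ n := by
    intro k n hn
    induction k with
    | zero => omega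
    | succ k ih =>
      rcases Nat.lt_succ_iff_lt_or_eq.1 hn with h | h
      · rw [hν k n h]
        exact ih h
      · subst h
        rfl
  have hgood : ∀ k, ∃ x : Q, ∀ t ∈ w k, ∀ n < k, ∀ u, (g (t, n)).symm x ∉ U (μ n) u := by
    intro k
    have h5 : Stage U g k (w k) (ν k) := (S k).2
    unfold Stage at h5
    obtain ⟨N, P, P', h6, h7⟩ := h5
    obtain ⟨x, hx⟩ := miranda N P P' h6
    refine ⟨x, fun t ht n hn u hxu => ?_⟩
    have h8 := h7 ((t, n), ν k n) (Finset.mem_image.2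
      ⟨(t, n), Finset.mem_product.2 ⟨ht, Finset.mem_range.2 hn⟩, rfl⟩) u ((g (t, n)).symm x)
      (subset_closure (by rw [hμ k n hn]; exact hxu))
    rw [(g (t, n)).apply_symm_apply] at h8
    exact h8 hx
  let T : Set ℝ := {t | ∃ k, t ∈ w k}
  let K : ℕ → Set Q := fun k => {x | ∀ t ∈ w k, ∀ n < k, ∀ u, (g (t, n)).symm x ∉ U (μ n) u}
  have hKc : ∀ k, IsClosed (K k) := by
    intro k
    have : K k = ⋂ t ∈ w k, ⋂ (n : ℕ) (_ : n < k), ⋂ u, (g (t, n)).symm ⁻¹' (U (μ n) u)ᶜ := by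
      ext x
      simp [K]
    rw [this]
    exact isClosed_iInter fun t => isClosed_iInter fun _ => isClosed_iInter fun n =>
      isClosed_iInter fun _ => isClosed_iInter fun u =>
        (hU1 _ _).isClosed_compl.preimage (g (t, n)).symm.continuous
  have hKm : ∀ k, K (k + 1) ⊆ K k := fun k x hx t ht n hn u =>
    hx t (hw k ht) n (by omega) u
  obtain ⟨x, hx⟩ := IsCompact.nonempty_iInter_of_sequence_nonempty_isCompact_isClosed K hKm
    (fun k => hgood k) (hKc 0).isCompact hKc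
  have hxT : ∀ t ∈ T, ∀ n u, (g (t, n)).symm x ∉ U (μ n) u := by
    rintro t ⟨k, hk⟩ n u
    have h5 := mem_iInter.1 hx (max k (n + 1))
    exact h5 t (hwm (le_max_left _ _) hk) n (by have := le_max_right k (n + 1); omega) u
  have hpre : Preperfect T := by
    rintro t ⟨k, hk⟩
    rw [accPt_iff_nhds]
    intro V hV
    obtain ⟨δ, hδ, hd⟩ := Metric.mem_nhds_iff.1 hV
    obtain ⟨N, hN⟩ := exists_nat_one_div_lt hδ
    have hk2 : t ∈ w (max k N) := hwm (le_max_left _ _) hk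
    obtain ⟨t', ht', hne, hlt⟩ := h4 (max k N) (S (max k N)) t hk2
    refine ⟨t', ⟨hd ?_, ⟨max k N + 1, ht'⟩⟩, hne⟩
    rw [Metric.mem_ball, Real.dist_eq]
    have h7 : 1 / (((max k N : ℕ) : ℝ) + 1) ≤ 1 / ((N : ℝ) + 1) := by
      apply one_div_le_one_div_of_le (by positivity)
      have : (N : ℝ) ≤ ((max k N : ℕ) : ℝ) := by exact_mod_cast le_max_right k N
      linarith
    linarith
  have hne : T.Nonempty := ⟨0, 0, by
    show (0 : ℝ) ∈ ({0} : Finset ℝ)
    exact Finset.mem_singleton_self _⟩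
  obtain ⟨f, hf1, -, hf2⟩ := hpre.perfect_closure.exists_nat_bool_injection hne.closure
  refine ⟨x, closure T, μ, fun hc => ?_, fun t ht n u hu => ?_⟩
  · have h5 : (range f).Countable := hc.mono hf1
    have h6 : Countable (ℕ → Bool) := by
      have : Countable (range f) := h5.to_subtype
      exact (Set.rangeFactorization_injective.2 hf2).countable
    have h7 := Cardinal.mk_le_aleph0_iff.2 h6
    rw [← Cardinal.power_def, Cardinal.mk_bool, Cardinal.mk_nat] at h7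
    exact absurd h7 (not_le.2 (Cardinal.cantor _))
  · have h5 : IsOpen {t | (g (t, n)).symm x ∈ U (μ n) u} := (hU1 _ _).preimage (hg2 n x)
    obtain ⟨s, hs1, hs2⟩ := mem_closure_iff.1 ht _ h5 hu
    exact hxT s hs2 n u hs1

end Pool.Agent.R590.Hc
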