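import Pool.Agent.R590.HcPoset
import Pool.Agent.R590.HcDefs

/-!
# A zero-dimensional subset of the Hilbert cube outside the `σ`-ideal generated by the minimal dense
`G_δ`-sets: extension lemmas
-/

set_option autoImplicit false

namespace Pool.Agent.R590.Hc

open Set Topology Filter

/-- as `exists_families`, with all large indices in the last clause -/
theorem exists_families' : ∃ U : ℕ → ℕ → Set Q, (∀ n u, IsOpen (U n u)) ∧
    (∀ n, Dense (⋃ u, U n u)) ∧ (∀ n, NullFam fun u => closure (U n u)) ∧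
    ∀ S T : Set Q, IsClosed S → IsClosed T → Disjoint S T →
      ∃ N, ∀ n ≥ N, ∀ u, ¬ ((closure (U n u) ∩ S).Nonempty ∧ (closure (U n u) ∩ T).Nonempty) := by
  letI : MetricSpace Q := TopologicalSpace.metrizableSpaceMetric Q
  choose U hU1 hU2 hU3 hU4 using fun n : ℕ =>
    exists_small (X := Q) (ε := 1 / ((n : ℝ) + 1)) (by positivity)
  refine ⟨U, hU1, hU3, fun n => ⟨fun u => isClosed_closure, hU2 n, ?_⟩, ?_⟩
  · intro S T hS hT hST
    obtain ⟨δ, hδ, hd⟩ := exists_gap hS hT hST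
    have h1 : Tendsto (fun u : ℕ => 1 / ((n : ℝ) + 1) / 2 ^ u) atTop (𝓝 0) := by
      have h2 := tendsto_pow_atTop_nhds_zero_of_lt_one (r := (1 / 2 : ℝ)) (by norm_num) (by norm_num)
      have h3 := h2.const_mul (1 / ((n : ℝ) + 1))
      rw [mul_zero] at h3
      refine h3.congr fun u => ?_
      rw [one_div_pow, mul_one_div]
    have h2 := (h1.eventually (gt_mem_nhds hδ))
    obtain ⟨N, hN⟩ := eventually_atTop.1 h2
    refine (finite_lt_nat N).subset ?_
    rintro u ⟨⟨x, hx1, hx2⟩, ⟨y, hy1, hy2⟩⟩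
    by_contra hu
    have h3 := hN u (not_lt.1 hu)
    have h4 := hU4 n u x hx1 y hy1
    have h5 := hd x hx2 y hy2
    linarith
  · intro S T hS hT hST
    obtain ⟨δ, hδ, hd⟩ := exists_gap hS hT hST
    obtain ⟨N, hN⟩ := exists_nat_one_div_lt hδ
    refine ⟨N, fun n hn => ?_⟩
    rintro u ⟨⟨x, hx1, hx2⟩, ⟨y, hy1, hy2⟩⟩
    have h4 := hU4 n u x hx1 y hy1
    have h5 := hd x hx2 y hy2
    have h6 : 1 / ((n : ℝ) + 1) / 2 ^ u ≤ 1 / ((n : ℝ) + 1) :=
      div_le_self (by positivity) (one_le_pow₀ (by norm_num))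
    have h7 : 1 / ((n : ℝ) + 1) ≤ 1 / ((N : ℝ) + 1) := by
      apply one_div_le_one_div_of_le (by positivity)
      have : (N : ℝ) ≤ n := by exact_mod_cast hn
      linarith
    linarith

variable {ι : Type}

theorem good_union' [DecidableEq ι] {U : ℕ → ℕ → Set Q}
    (hU : ∀ n, NullFam fun u => closure (U n u))
    {g : ι → Q ≃ₜ Q} {p q : Finset (ι × ℕ)} {N : ℕ} {e' : Fin N → ι × ℕ} {k : ℕ} {P P' : ℕ → Set Q}
    (he' : ∀ a ∈ q, ∃ j, e' j = a) (h1 : ∀ i < k, Sep i (P i) (P' i))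
    (h2 : ∀ a ∈ p, ∀ u, ∀ x ∈ closure (U a.2 u), g a.1 x ∉ Lk k P P')
    (h3 : ∀ j : Fin N, ∀ u,
        ¬ ((∃ x ∈ closure (U (e' j).2 u), g (e' j).1 x ∈ Lk k P P' ∧ g (e' j).1 x ∈ A (k + j)) ∧
          ∃ x ∈ closure (U (e' j).2 u), g (e' j).1 x ∈ Lk k P P' ∧ g (e' j).1 x ∈ B (k + j))) :
    Good U g (p ∪ q) := by
  have key : ∀ j : Fin N, ∃ R R' : Set Q, Sep (k + j) R R' ∧ ∀ u, ∀ x ∈ closure (U (e' j).2 u),
      g (e' j).1 x ∈ Lk k P P' → g (e' j).1 x ∈ R ∨ g (e' j).1 x ∈ R' := fun j =>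
    sep_step hU (g (e' j).1) (e' j).2 (k + j) (isClosed_Lk h1) (h3 j)
  choose R R' hR hR2 using key
  let F : ℕ → Set Q := fun i => if i < k then P i else if h : i - k < N then R ⟨i - k, h⟩ else ∅
  let F' : ℕ → Set Q := fun i => if i < k then P' i else if h : i - k < N then R' ⟨i - k, h⟩ else ∅
  have hsub : Lk (k + N) F F' ⊆ Lk k P P' := by
    intro x hx i hi
    have h6 := hx i (by omega)
    simp only [F, F', if_pos hi] at h6
    exact h6
  refine ⟨k + N, F, F', fun i hi => ?_, ?_⟩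
  · by_cases hik : i < k
    · simp only [F, F', if_pos hik]
      exact h1 i hik
    · have hlt : i - k < N := by omega
      simp only [F, F', if_neg hik, dif_pos hlt]
      have h6 := hR ⟨i - k, hlt⟩
      have h7 : k + (i - k) = i := by omega
      simp only [h7] at h6
      exact h6
  · intro a ha u x hx hxL
    rcases Finset.mem_union.1 ha with ha | ha
    · exact h2 a ha u x hx (hsub hxL)
    · obtain ⟨j, rfl⟩ := he' a ha
      have h6 := hxL (k + j) (by omega)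
      have h7 : ¬ (k + (j : ℕ) < k) := by omega
      have h8 : k + (j : ℕ) - k < N := by omega
      have h9 : (⟨k + (j : ℕ) - k, h8⟩ : Fin N) = j := Fin.ext (by simp)
      simp only [F, F', if_neg h7, dif_pos h8, h9] at h6
      rcases hR2 j u x hx (hsub hxL) with h | h
      · exact h6.1 h
      · exact h6.2 h

/-- a common index can be added for finitely many homeomorphisms -/
theorem good_common [DecidableEq ι] {U : ℕ → ℕ → Set Q}
    (hU : ∀ n, NullFam fun u => closure (U n u))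
    (hfine : ∀ S T : Set Q, IsClosed S → IsClosed T → Disjoint S T →
      ∃ N, ∀ n ≥ N, ∀ u, ¬ ((closure (U n u) ∩ S).Nonempty ∧ (closure (U n u) ∩ T).Nonempty))
    {g : ι → Q ≃ₜ Q} {p : Finset (ι × ℕ)} (hp : Good U g p) (v : Finset ι) :
    ∃ m, Good U g (p ∪ v.image fun α => (α, m)) := by
  obtain ⟨k, P, P', h1, h2⟩ := hp
  let e : Fin v.card → ι := fun j => (v.equivFin.symm j).1
  have hN : ∀ j : Fin v.card, ∃ N, ∀ n ≥ N, ∀ u,
      ¬ ((closure (U n u) ∩ g (e j) ⁻¹' A (k + j)).Nonempty ∧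
        (closure (U n u) ∩ g (e j) ⁻¹' B (k + j)).Nonempty) := fun j =>
    hfine _ _ ((isClosed_A _).preimage (g (e j)).continuous)
      ((isClosed_B _).preimage (g (e j)).continuous) ((disjoint_AB _).preimage (g (e j)))
  choose N hN using hN
  let m : ℕ := Finset.univ.sup N
  refine ⟨m, good_union' hU (e' := fun j => (e j, m)) ?_ h1 h2 ?_⟩
  · intro a ha
    obtain ⟨α, hα, rfl⟩ := Finset.mem_image.1 ha
    exact ⟨v.equivFin ⟨α, hα⟩, by simp [e]⟩
  · rintro j u ⟨⟨x, hx, -, hx2⟩, ⟨y, hy, -, hy2⟩⟩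
    exact hN j m (Finset.le_sup (Finset.mem_univ j)) u ⟨⟨x, hx, hx2⟩, ⟨y, hy, hy2⟩⟩

/-- nearby homeomorphisms can be added -/
theorem good_near [DecidableEq ι] {U : ℕ → ℕ → Set Q}
    (hU : ∀ n, NullFam fun u => closure (U n u)) {g : ι → Q ≃ₜ Q} {p : Finset (ι × ℕ)}
    (hp : Good U g p) :
    ∃ O : ι × ℕ → Set C(Q, Q), (∀ a ∈ p, IsOpen (O a) ∧ toC (g a.1) ∈ O a) ∧
      ∀ φ : ι → ι, (∀ a ∈ p, toC (g (φ a.1)) ∈ O a) →
        Good U g (p ∪ p.image fun a => (φ a.1, a.2)) := by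
  classical
  obtain ⟨k, P, P', h1, h2⟩ := hp
  let e : Fin p.card → ι × ℕ := fun j => (p.equivFin.symm j).1
  have he : ∀ j, e j ∈ p := fun j => (p.equivFin.symm j).2
  choose O hO1 hO2 hO3 using fun j : Fin p.card =>
    exists_nbhd hU (g (e j).1) (e j).2 (k + j) (isClosed_Lk h1) (h2 (e j) (he j))
  refine ⟨fun a => if h : a ∈ p then O (p.equivFin ⟨a, h⟩) else univ, fun a ha => ?_, fun φ hφ => ?_⟩
  · simp only [dif_pos ha]
    refine ⟨hO1 _, ?_⟩
    have h3 := hO2 (p.equivFin ⟨a, ha⟩)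
    have h4 : e (p.equivFin ⟨a, ha⟩) = a := by simp [e]
    rw [h4] at h3
    exact h3
  · refine good_union' hU (e' := fun j => (φ (e j).1, (e j).2)) ?_ h1 h2 ?_
    · intro a ha
      obtain ⟨c, hc, rfl⟩ := Finset.mem_image.1 ha
      exact ⟨p.equivFin ⟨c, hc⟩, by simp [e]⟩
    · intro j u
      have h3 := hφ (e j) (he j)
      have h4 : (p.equivFin ⟨e j, he j⟩) = j := by simp [e]
      simp only [dif_pos (he j), h4] at h3
      exact hO3 j _ h3 u

end Pool.Agent.R590.Hc
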