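import Pool.Agent.R590.HcDefs
import Pool.Agent.R590.HcPoset
import Mathlib.Analysis.SpecialFunctions.Pow.Continuity
import Mathlib.Analysis.SpecialFunctions.Pow.Real

/-!
# A one-parameter group of homeomorphisms of the Hilbert cube, and a zero-dimensional set
-/

set_option autoImplicit false

namespace Pool.Agent.R590.Hc

open Set Topology Filter

/-- the power map with exponent `exp t` -/
noncomputable def pw (t : ℝ) (x : unitInterval) : unitInterval :=
  ⟨(x : ℝ) ^ Real.exp t, Real.rpow_nonneg x.2.1 _,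
    Real.rpow_le_one x.2.1 x.2.2 (Real.exp_pos t).le⟩

theorem pw_pw (s t : ℝ) (x : unitInterval) : pw s (pw t x) = pw (s + t) x := by
  apply Subtype.ext
  show ((x : ℝ) ^ Real.exp t) ^ Real.exp s = (x : ℝ) ^ Real.exp (s + t)
  rw [← Real.rpow_mul x.2.1, ← Real.exp_add, add_comm]

theorem pw_zero (x : unitInterval) : pw 0 x = x := by
  apply Subtype.ext
  show (x : ℝ) ^ Real.exp 0 = x
  rw [Real.exp_zero, Real.rpow_one]

theorem continuous_pw : Continuous fun z : ℝ × unitInterval => pw z.1 z.2 := by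
  refine Continuous.subtype_mk ?_ _
  exact Continuous.rpow (continuous_subtype_val.comp continuous_snd)
    (Real.continuous_exp.comp continuous_fst) fun z => Or.inr (Real.exp_pos _)

/-- the homeomorphism of the cube given by the power map on each coordinate -/
noncomputable def psi (t : ℝ) : Q ≃ₜ Q where
  toFun x := fun i => pw t (x i)
  invFun x := fun i => pw (-t) (x i)
  left_inv x := by
    funext i
    simp only [pw_pw, neg_add_cancel, pw_zero]
  right_inv x := by
    funext i
    simp only [pw_pw, add_neg_cancel, pw_zero]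
  continuous_toFun := continuous_pi fun i =>
    continuous_pw.comp (continuous_const.prodMk (continuous_apply i))
  continuous_invFun := continuous_pi fun i =>
    continuous_pw.comp (continuous_const.prodMk (continuous_apply i))

theorem continuous_psi : Continuous fun z : ℝ × Q => psi z.1 z.2 :=
  continuous_pi fun i => continuous_pw.comp
    (continuous_fst.prodMk ((continuous_apply i).comp continuous_snd))

theorem psi_symm (t : ℝ) (x : Q) : (psi t).symm x = psi (-t) x := rfl

/-- the rationals strictly between `0` and `1` -/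
def Dq : Set unitInterval := {z | ∃ q : ℚ, (z : ℝ) = q ∧ 0 < q ∧ q < 1}

/-- the points of the cube without a coordinate that is a rational strictly between `0` and `1` -/
def Z0 : Set Q := {x | ∀ i, x i ∉ Dq}

theorem countable_Dq : Dq.Countable := by
  have h : (range ((↑) : ℚ → ℝ)).Countable := countable_range _
  refine (h.preimage_of_injOn (f := ((↑) : unitInterval → ℝ))
    (Subtype.val_injective.injOn)).mono ?_
  rintro z ⟨q, hq, -⟩
  exact ⟨q, hq.symm⟩

theorem countable_hits (z : unitInterval) : {t : ℝ | pw (-t) z ∈ Dq}.Countable := by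
  by_cases h0 : (z : ℝ) = 0
  · have : {t : ℝ | pw (-t) z ∈ Dq} = ∅ := by
      rw [Set.eq_empty_iff_forall_notMem]
      rintro t ⟨q, hq, hq1, -⟩
      have h1 : ((pw (-t) z : unitInterval) : ℝ) = 0 := by
        show (z : ℝ) ^ Real.exp (-t) = 0
        rw [h0, Real.zero_rpow (Real.exp_pos _).ne']
      rw [h1] at hq
      have : q = 0 := by exact_mod_cast hq.symm
      exact hq1.ne' this
    rw [this]
    exact countable_empty
  by_cases h1 : (z : ℝ) = 1
  · have : {t : ℝ | pw (-t) z ∈ Dq} = ∅ := by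
      rw [Set.eq_empty_iff_forall_notMem]
      rintro t ⟨q, hq, -, hq1⟩
      have h2 : ((pw (-t) z : unitInterval) : ℝ) = 1 := by
        show (z : ℝ) ^ Real.exp (-t) = 1
        rw [h1, Real.one_rpow]
      rw [h2] at hq
      have : q = 1 := by exact_mod_cast hq.symm
      exact hq1.ne this
    rw [this]
    exact countable_empty
  have hz0 : 0 < (z : ℝ) := lt_of_le_of_ne z.2.1 (Ne.symm h0)
  have hz1 : (z : ℝ) < 1 := lt_of_le_of_ne z.2.2 h1
  refine countable_Dq.preimage_of_injOn (f := fun t : ℝ => pw (-t) z) ?_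
  intro s _ t _ hst
  have h2 : (z : ℝ) ^ Real.exp (-s) = (z : ℝ) ^ Real.exp (-t) := congrArg Subtype.val hst
  have h3 : Real.exp (-s) = Real.exp (-t) := by
    have h4 := congrArg Real.log h2
    rw [Real.log_rpow hz0, Real.log_rpow hz0] at h4
    exact mul_right_cancel₀ (Real.log_neg hz0 hz1).ne h4
  have h4 := Real.exp_injective h3
  linarith

theorem countable_hits' (x : Q) : {t : ℝ | (psi t).symm x ∉ Z0}.Countable := by
  have : {t : ℝ | (psi t).symm x ∉ Z0} = ⋃ i, {t : ℝ | pw (-t) (x i) ∈ Dq} := by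
    ext t
    simp only [Z0, mem_setOf_eq, not_forall, not_not, mem_iUnion]
    rfl
  rw [this]
  exact countable_iUnion fun i => countable_hits (x i)

/-- the subspace `Z` is zero-dimensional: its topology has a base of clopen sets -/
def ZeroDim (Z : Set Q) : Prop :=
  ∃ b : Set (Set Z), TopologicalSpace.IsTopologicalBasis b ∧ ∀ s ∈ b, IsClopen s

/-- around a point outside `Dq` there is a set, relatively clopen outside `Dq`, inside a given
neighbourhood -/
theorem exists_piece {z : unitInterval} (hz : z ∉ Dq) {V : Set unitInterval} (hV : V ∈ 𝓝 z) :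
    ∃ O C : Set unitInterval, IsOpen O ∧ IsClosed C ∧ z ∈ O ∧ O ⊆ V ∧
      ∀ y, y ∉ Dq → (y ∈ O ↔ y ∈ C) := by
  obtain ⟨δ, hδ, hd⟩ := Metric.mem_nhds_iff.1 hV
  -- a lower cut
  have hlow : ∃ O C : Set unitInterval, IsOpen O ∧ IsClosed C ∧ z ∈ O ∧
      (∀ y ∈ O, (z : ℝ) - δ < y) ∧ ∀ y, y ∉ Dq → (y ∈ O ↔ y ∈ C) := by
    by_cases h : (z : ℝ) - δ < 0
    · exact ⟨univ, univ, isOpen_univ, isClosed_univ, mem_univ _, fun y _ => h.trans_le y.2.1,
        fun y _ => Iff.rfl⟩
    · have hz0 : 0 < (z : ℝ) := by linarith [not_lt.1 h]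
      obtain ⟨q, hq1, hq2⟩ := exists_rat_btwn (show (z : ℝ) - δ < z by linarith)
      have hq0 : (0 : ℝ) ≤ z - δ := not_lt.1 h
      have hq3 : (0 : ℝ) < q := by linarith
      have hq4 : (q : ℝ) < 1 := hq2.trans_le z.2.2
      refine ⟨{y | (q : ℝ) < y}, {y | (q : ℝ) ≤ y}, isOpen_lt continuous_const
        continuous_subtype_val, isClosed_le continuous_const continuous_subtype_val, hq2,
        fun y hy => hq1.trans hy, fun y hy => ⟨fun hy2 => (le_of_lt hy2 : (q : ℝ) ≤ y), fun hy2 => ?_⟩⟩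
      refine lt_of_le_of_ne hy2 fun heq => hy ⟨q, heq.symm, by exact_mod_cast hq3,
        by exact_mod_cast hq4⟩
  have hup : ∃ O C : Set unitInterval, IsOpen O ∧ IsClosed C ∧ z ∈ O ∧
      (∀ y ∈ O, (y : ℝ) < z + δ) ∧ ∀ y, y ∉ Dq → (y ∈ O ↔ y ∈ C) := by
    by_cases h : 1 < (z : ℝ) + δ
    · exact ⟨univ, univ, isOpen_univ, isClosed_univ, mem_univ _, fun y _ => y.2.2.trans_lt h,
        fun y _ => Iff.rfl⟩
    · obtain ⟨q, hq1, hq2⟩ := exists_rat_btwn (show (z : ℝ) < z + δ by linarith)
      have hq0 : (z : ℝ) + δ ≤ 1 := not_lt.1 h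
      have hq3 : (0 : ℝ) < q := z.2.1.trans_lt hq1
      have hq4 : (q : ℝ) < 1 := by linarith
      refine ⟨{y | (y : ℝ) < q}, {y | (y : ℝ) ≤ q}, isOpen_lt continuous_subtype_val
        continuous_const, isClosed_le continuous_subtype_val continuous_const, hq1,
        fun y hy => lt_trans hy hq2, fun y hy => ⟨fun hy2 => (le_of_lt hy2 : (y : ℝ) ≤ q), fun hy2 => ?_⟩⟩
      refine lt_of_le_of_ne hy2 fun heq => hy ⟨q, heq, by exact_mod_cast hq3,
        by exact_mod_cast hq4⟩
  obtain ⟨O1, C1, h1, h2, h3, h4, h5⟩ := hlow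
  obtain ⟨O2, C2, k1, k2, k3, k4, k5⟩ := hup
  refine ⟨O1 ∩ O2, C1 ∩ C2, h1.inter k1, h2.inter k2, ⟨h3, k3⟩, fun y hy => hd ?_, fun y hy => ?_⟩
  · have h6 := h4 y hy.1
    have h7 := k4 y hy.2
    rw [Metric.mem_ball, Subtype.dist_eq, Real.dist_eq, abs_lt]
    constructor <;> linarith
  · rw [mem_inter_iff, mem_inter_iff, h5 y hy, k5 y hy]

theorem zeroDim_Z0 : ZeroDim Z0 := by
  refine ⟨{s | IsClopen s}, ?_, fun s hs => hs⟩
  refine TopologicalSpace.isTopologicalBasis_of_isOpen_of_nhds (fun s hs => hs.isOpen) ?_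
  intro x V hxV hV
  obtain ⟨W, hW, rfl⟩ := isOpen_induced_iff.1 hV
  have hxW : W ∈ 𝓝 (x : Q) := hW.mem_nhds hxV
  rw [nhds_pi, Filter.mem_pi] at hxW
  obtain ⟨I, hI, V, hV, hVW⟩ := hxW
  choose O C h1 h2 h3 h4 h5 using fun i => exists_piece (x.2 i) (hV i)
  refine ⟨Subtype.val ⁻¹' (I.pi O), ⟨?_, ?_⟩, fun i _ => h3 i, fun y hy => hVW fun i hi =>
    h4 i (hy i hi)⟩
  · have : (Subtype.val ⁻¹' (I.pi O) : Set Z0) = Subtype.val ⁻¹' (I.pi C) := by
      ext y
      simp only [mem_preimage, Set.mem_pi]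
      exact forall₂_congr fun i _ => h5 i _ (y.2 i)
    rw [this]
    exact (isClosed_set_pi fun i _ => h2 i).preimage continuous_subtype_val
  · exact (isOpen_set_pi hI fun i _ => h1 i).preimage continuous_subtype_val

end Pool.Agent.R590.Hc
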