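import Pool.Agent.R590.HzAvoid
import Pool.Agent.R590.HzPow

/-!
# A zero-dimensional subset of the Hilbert cube outside the `σ`-ideal generated by the minimal dense
`G_δ`-sets
-/

set_option autoImplicit false

namespace Pool.Agent.R590.Hc

open Set Topology Filter

theorem toC_continuous (h : Q ≃ₜ Q) :
    Continuous fun t : ℝ => toC (h.symm.trans (psi t)) := by
  have h1 : Continuous fun z : ℝ × Q => psi z.1 (h.symm z.2) :=
    continuous_psi.comp (continuous_fst.prodMk (h.symm.continuous.comp continuous_snd))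
  exact (ContinuousMap.curry ⟨_, h1⟩).continuous

theorem not_sigmaG_Z0 : ¬ SigmaG Z0 := by
  classical
  rintro ⟨𝒞, h𝒞, hmin, hcov⟩
  obtain ⟨U, hU1, hU2, hU3, hU4⟩ := exists_families'
  have hne : 𝒞.Nonempty := by
    have h0 : (fun _ => 0 : Q) ∈ Z0 := by
      rintro i ⟨q, hq, hq1, -⟩
      have h1 : (((0 : unitInterval)) : ℝ) = q := hq
      rw [Set.Icc.coe_zero] at h1
      have : q = 0 := by exact_mod_cast h1.symm
      exact hq1.ne' this
    obtain ⟨G, hG, -⟩ := hcov h0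
    exact ⟨G, hG⟩
  obtain ⟨G, hG⟩ := h𝒞.exists_eq_range hne
  have hG' : IsGδ (⋂ n, ⋃ u, U n u) := IsGδ.iInter_of_isOpen fun n => isOpen_iUnion (hU1 n)
  have hG'' : Dense (⋂ n, ⋃ u, U n u) :=
    dense_iInter_of_isOpen (fun n => isOpen_iUnion (hU1 n)) hU2
  choose h hh using fun n => (hmin (G n) (hG ▸ mem_range_self n)).2.2 _ hG' hG''
  let g : ℝ × ℕ → Q ≃ₜ Q := fun a => (h a.2).symm.trans (psi a.1)
  obtain ⟨x, E, μ, hE, hx⟩ := perfect_avoid (g := g) hU1 hU3 hU4 (fun n => toC_continuous (h n))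
    (fun n x => by
      show Continuous fun t : ℝ => h n ((psi t).symm x)
      have h1 : Continuous fun t : ℝ => psi (-t) x :=
        continuous_psi.comp (continuous_neg.prodMk continuous_const)
      exact (h n).continuous.comp h1)
  refine hE ((countable_hits' x).mono fun t ht => ?_)
  intro hZ
  obtain ⟨G', hG'1, hG'2⟩ := hcov hZ
  rw [hG] at hG'1
  obtain ⟨n, rfl⟩ := hG'1
  have h2 : h n ((psi t).symm x) ∈ ⋂ n, ⋃ u, U n u := hh n ⟨_, hG'2, rfl⟩
  obtain ⟨u, hu⟩ := mem_iUnion.1 (mem_iInter.1 h2 (μ n))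
  exact hx t ht n u hu

theorem Z0_eq : Z0 = ⋂ z : ℕ × Dq, {x : Q | x z.1 ≠ z.2} := by
  ext x
  rw [mem_iInter]
  constructor
  · rintro h ⟨i, d⟩ hx
    apply h i
    have h1 : x i = (d : unitInterval) := hx
    rw [h1]
    exact d.2
  · intro h i hi
    exact h (i, ⟨x i, hi⟩) rfl

theorem isOpen_ne_coord (z : ℕ × Dq) : IsOpen {x : Q | x z.1 ≠ z.2} :=
  isOpen_compl_singleton.preimage (continuous_apply z.1)

theorem dense_ne_coord (z : ℕ × Dq) : Dense {x : Q | x z.1 ≠ z.2} :=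
  (dense_compl_singleton (z.2 : unitInterval)).preimage (isOpenMap_eval z.1)

theorem isGδ_Z0 : IsGδ Z0 := by
  have : Countable Dq := countable_Dq.to_subtype
  rw [Z0_eq]
  exact IsGδ.iInter_of_isOpen isOpen_ne_coord

theorem dense_Z0 : Dense Z0 := by
  have : Countable Dq := countable_Dq.to_subtype
  rw [Z0_eq]
  exact dense_iInter_of_isOpen isOpen_ne_coord dense_ne_coord

/-- `X` belongs to the `σ`-ideal generated by the zero-dimensional subspaces: it is contained in the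
union of countably many of them -/
def SigmaD (X : Set Q) : Prop :=
  ∃ 𝒞 : Set (Set Q), 𝒞.Countable ∧ (∀ Z ∈ 𝒞, ZeroDim Z) ∧ X ⊆ ⋃₀ 𝒞

theorem main_zeroDim : (∃ Z : Set Q, IsGδ Z ∧ Dense Z ∧ ZeroDim Z ∧ ¬ SigmaG Z) ∧
    {X : Set Q | SigmaG X} ≠ {X : Set Q | SigmaD X} := by
  refine ⟨⟨Z0, isGδ_Z0, dense_Z0, zeroDim_Z0, not_sigmaG_Z0⟩, fun h => not_sigmaG_Z0 ?_⟩
  have h1 : Z0 ∈ {X : Set Q | SigmaD X} :=
    ⟨{Z0}, countable_singleton _, fun Z hZ => hZ ▸ zeroDim_Z0, fun x hx => ⟨Z0, rfl, hx⟩⟩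
  rw [← h] at h1
  exact h1

end Pool.Agent.R590.Hc
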