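import Mathlib

set_option autoImplicit false

namespace Pool.Agent.R590.Kl

open Cardinal Topology

/-- The well-ordered set of all ordinals below `ω₂`. -/
abbrev W : Type := (ℵ_ 2).ord.ToType

/-- The basic open set `N_σ` of all `x : ω₂ → ω₂` extending `σ : α → ω₂`. -/
def N {α : W} (σ : Set.Iio α → W) : Set (W → W) := {x | ∀ i : Set.Iio α, x i.1 = σ i}

/-- The bounded topology on the generalized Baire space of all functions `ω₂ → ω₂`. -/
def bdd : TopologicalSpace (W → W) :=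
  TopologicalSpace.generateFrom {U | ∃ (α : W) (σ : Set.Iio α → W), U = N σ}

/-- Restriction of a sequence of length `β` to length `α ≤ β`. -/
def res {α β : W} (h : α ≤ β) (σ : Set.Iio β → W) : Set.Iio α → W :=
  fun i => σ ⟨i.1, lt_of_lt_of_le i.2 h⟩

/-- The initial segment of length `α` of a function `x : ω₂ → ω₂`. -/
def seg (x : W → W) (α : W) : Set.Iio α → W := fun i => x i.1

/-- `T` (given by its levels: `T α` is the set of elements of length `α`) is closed under initial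
segments. -/
def IsSubtree (T : ∀ α : W, Set (Set.Iio α → W)) : Prop :=
  ∀ (α β : W) (h : α ≤ β) (σ : Set.Iio β → W), σ ∈ T β → res h σ ∈ T α

/-- The set of cofinal branches. -/
def Body (T : ∀ α : W, Set (Set.Iio α → W)) : Set (W → W) := {x | ∀ α, seg x α ∈ T α}

/-- `T` is an `ω₂`-Kurepa subtree: closed under initial segments, all levels of size at most `ℵ₁`,
more than `ℵ₂` cofinal branches (so that all levels are nonempty). -/
def IsKurepa (T : ∀ α : W, Set (Set.Iio α → W)) : Prop :=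
  IsSubtree T ∧ (∀ α, #(T α) ≤ ℵ_ 1) ∧ ℵ_ 2 < #(Body T)

/-- More than `ℵ₂` branches pass through each element of the tree. -/
def EverywhereLarge (T : ∀ α : W, Set (Set.Iio α → W)) : Prop :=
  ∀ (α : W) (σ : Set.Iio α → W), σ ∈ T α → ℵ_ 2 < #(Body T ∩ N σ : Set (W → W))

/-- `A` is the image of the space of all functions `ω₂ → ω₂` under a continuous map. -/
def IsContImage (A : Set (W → W)) : Prop :=
  ∃ f : (W → W) → (W → W), Continuous[bdd, bdd] f ∧ Set.range f = A

/-! ### basic facts -/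

theorem mk_W : #W = ℵ_ 2 := Cardinal.mk_ord_toType _

theorem aleph2 : (ℵ_ 2 : Cardinal.{0}) = Order.succ (ℵ_ 1) := by
  have h : (2 : Ordinal.{0}) = Order.succ 1 := by
    rw [← Ordinal.add_one_eq_succ]
    norm_num
  rw [h, Cardinal.aleph_succ]

theorem reg2 : (ℵ_ 2 : Cardinal.{0}).IsRegular := by
  rw [aleph2]
  exact Cardinal.isRegular_succ (Cardinal.aleph0_le_aleph 1)

theorem bddW {M : Type} (hM : #M ≤ ℵ_ 1) (f : M → W) : ∃ e : W, ∀ m, f m < e := by
  have hM' : #M < ℵ_ 2 := by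
    rw [aleph2]
    exact Order.lt_succ_of_le hM
  have hc := reg2
  let g : M → Ordinal.{0} := fun m => ((Ordinal.ToType.mk.symm (f m) : Set.Iio (ℵ_ 2).ord) : Ordinal.{0})
  have hg : ∀ m, g m < (ℵ_ 2).ord := fun m => (Ordinal.ToType.mk.symm (f m) : Set.Iio (ℵ_ 2).ord).2
  have hlim := Cardinal.isSuccLimit_ord hc.aleph0_le
  have hsup : (⨆ m, Order.succ (g m)) < (ℵ_ 2).ord := by
    refine Ordinal.iSup_lt_of_lt_cof ?_ (fun m => hlim.succ_lt (hg m))
    rw [hc.cof_ord]; exact hM'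
  refine ⟨Ordinal.ToType.mk ⟨_, hsup⟩, fun m => ?_⟩
  rw [← OrderIso.symm_apply_apply (Ordinal.ToType.mk (o := (ℵ_ 2).ord)).symm (f m)]
  simp only [OrderIso.symm_symm]
  rw [OrderIso.lt_iff_lt, ← Subtype.coe_lt_coe]
  exact lt_of_lt_of_le (Order.lt_succ (g m)) (Ordinal.le_iSup (fun m => Order.succ (g m)) m)

theorem mk_Iio_le (α : W) : #(Set.Iio α) ≤ ℵ_ 1 := by
  have h := Cardinal.mk_Iio_lt α (by simp)
  have h2 : #(Set.Iio α) < Order.succ (ℵ_ 1) := by
    rw [← aleph2]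
    exact h.trans_eq (Cardinal.mk_ord_toType _)
  exact Order.lt_succ_iff.mp h2

theorem mk_Iic_le (α : W) : #(Set.Iic α) ≤ ℵ_ 1 := by
  obtain ⟨e, he⟩ := bddW (M := Unit) (by
    rw [Cardinal.mk_fintype, Fintype.card_unit, Nat.cast_one]
    exact Cardinal.one_le_aleph0.trans (Cardinal.aleph0_le_aleph 1)) (fun _ => α)
  refine le_trans (Cardinal.mk_le_mk_of_subset (fun x hx => ?_)) (mk_Iio_le e)
  exact lt_of_le_of_lt hx (he ())

theorem exists_gt (α : W) : ∃ β : W, α < β := by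
  obtain ⟨e, he⟩ := bddW (M := Unit) (by
    rw [Cardinal.mk_fintype, Fintype.card_unit, Nat.cast_one]
    exact Cardinal.one_le_aleph0.trans (Cardinal.aleph0_le_aleph 1)) (fun _ => α)
  exact ⟨e, he ()⟩

instance : Nonempty W := by
  rw [← Cardinal.mk_ne_zero_iff, mk_W]
  exact (Cardinal.aleph0_pos.trans_le (Cardinal.aleph0_le_aleph 2)).ne'

theorem exists_min : ∃ m : W, ∀ β, ¬ β < m := by
  obtain ⟨m, -, hm⟩ := (wellFounded_lt (α := W)).has_min Set.univ Set.univ_nonempty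
  exact ⟨m, fun β => hm β trivial⟩

theorem isOpen_iff (U : Set (W → W)) :
    IsOpen[bdd] U ↔ ∀ x ∈ U, ∃ δ : W, ∀ y, (∀ i, i < δ → y i = x i) → y ∈ U := by
  constructor
  · intro h
    induction h with
    | basic V hV =>
      obtain ⟨α, σ, rfl⟩ := hV
      intro x hx
      refine ⟨α, fun y hy i => ?_⟩
      rw [hy i.1 i.2]
      exact hx i
    | univ => exact fun x _ => ⟨x (Classical.arbitrary W), fun y _ => trivial⟩
    | inter s t _ _ hs ht =>
      rintro x ⟨h1, h2⟩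
      obtain ⟨δ1, h1⟩ := hs x h1
      obtain ⟨δ2, h2⟩ := ht x h2
      refine ⟨max δ1 δ2, fun y hy => ⟨h1 y fun i hi => hy i (lt_max_of_lt_left hi),
        h2 y fun i hi => hy i (lt_max_of_lt_right hi)⟩⟩
    | sUnion S _ hS =>
      rintro x ⟨V, hV, hxV⟩
      obtain ⟨δ, h⟩ := hS V hV x hxV
      exact ⟨δ, fun y hy => ⟨V, hV, h y hy⟩⟩
  · intro h
    choose δ hδ using h
    have : U = ⋃₀ {V | ∃ (x : W → W) (hx : x ∈ U), V = N (seg x (δ x hx))} := by
      ext y
      constructor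
      · intro hy
        exact ⟨_, ⟨y, hy, rfl⟩, fun i => rfl⟩
      · rintro ⟨_, ⟨x, hx, rfl⟩, hy⟩
        exact hδ x hx y (fun i hi => hy ⟨i, hi⟩)
    rw [this]
    letI := bdd
    refine isOpen_sUnion ?_
    rintro _ ⟨x, hx, rfl⟩
    exact TopologicalSpace.isOpen_generateFrom_of_mem ⟨_, _, rfl⟩

theorem continuous_iff (f : (W → W) → (W → W)) :
    Continuous[bdd, bdd] f ↔ ∀ x (α : W), ∃ δ : W, ∀ y, (∀ i, i < δ → y i = x i) →
      ∀ i, i < α → f y i = f x i := by
  constructor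
  · intro h x α
    have h1 : IsOpen[bdd] (f ⁻¹' (N (seg (f x) α))) := by
      refine @Continuous.isOpen_preimage _ _ bdd bdd f h _ ?_
      exact TopologicalSpace.isOpen_generateFrom_of_mem ⟨_, _, rfl⟩
    obtain ⟨δ, hδ⟩ := (isOpen_iff _).mp h1 x (fun i => rfl)
    exact ⟨δ, fun y hy i hi => hδ y hy ⟨i, hi⟩⟩
  · intro h
    letI := bdd
    refine continuous_generateFrom_iff.mpr ?_
    rintro _ ⟨α, σ, rfl⟩
    rw [isOpen_iff]
    intro x hx
    obtain ⟨δ, hδ⟩ := h x α
    refine ⟨δ, fun y hy i => ?_⟩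
    rw [hδ y hy i.1 i.2]
    exact hx i

end Pool.Agent.R590.Kl
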