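import Mathlib
import Pool.Agent.R590.KlDefs

set_option autoImplicit false

namespace Pool.Agent.R590.Kl

open Cardinal Topology

section

variable (T0 : ∀ α : W, Set (Set.Iio α → W))

/-- `x` agrees on `[γ, δ)` with an element of `T0` of length `δ` -/
def Good (x : W → W) (γ δ : W) : Prop :=
  ∃ t ∈ T0 δ, ∀ i : Set.Iio δ, γ ≤ i.1 → x i.1 = t i

/-- `x` restricted to `α` is pieced together from countably many pieces of elements of `T0` -/
def Pc (α : W) (x : W → W) : Prop :=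
  ∃ R : Set W, R.Countable ∧ (∀ β, β < α → ∃ ρ ∈ R, ρ ≤ β ∧ ∀ r ∈ R, r ≤ β → r ≤ ρ) ∧
    ∀ γ δ, γ < δ → δ ≤ α → (∀ r ∈ R, ¬ (γ < r ∧ r < δ)) → Good T0 x γ δ

/-- the new tree -/
def Tn (α : W) : Set (Set.Iio α → W) := {σ | ∃ x, seg x α = σ ∧ Pc T0 α x}

variable {T0}

theorem Good.congr {x y : W → W} {γ δ : W} (h : Good T0 x γ δ) (hxy : ∀ i, i < δ → y i = x i) :
    Good T0 y γ δ := by
  obtain ⟨t, ht, h1⟩ := h
  refine ⟨t, ht, fun i hi => ?_⟩
  rw [hxy i.1 i.2]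
  exact h1 i hi

theorem Pc.congr {α : W} {x y : W → W} (h : Pc T0 α x) (hxy : ∀ i, i < α → y i = x i) :
    Pc T0 α y := by
  obtain ⟨R, h1, h2, h3⟩ := h
  exact ⟨R, h1, h2, fun γ δ hγ hδ hR =>
    (h3 γ δ hγ hδ hR).congr (fun i hi => hxy i (hi.trans_le hδ))⟩

theorem Pc.mono {α β : W} (hαβ : α ≤ β) {x : W → W} (h : Pc T0 β x) : Pc T0 α x := by
  obtain ⟨R, h1, h2, h3⟩ := h
  exact ⟨R, h1, fun β' hβ' => h2 β' (hβ'.trans_le hαβ),
    fun γ δ hγ hδ hR => h3 γ δ hγ (hδ.trans hαβ) hR⟩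

theorem seg_eq {x y : W → W} {α : W} : seg x α = seg y α ↔ ∀ i, i < α → x i = y i := by
  constructor
  · intro h i hi
    exact congrFun h ⟨i, hi⟩
  · intro h
    funext i
    exact h i.1 i.2

theorem sub_Tn : IsSubtree (Tn T0) := by
  rintro α β h σ ⟨x, rfl, hx⟩
  exact ⟨x, rfl, hx.mono h⟩

theorem mem_Tn {α : W} {x : W → W} : seg x α ∈ Tn T0 α ↔ Pc T0 α x := by
  constructor
  · rintro ⟨y, h1, h2⟩
    exact h2.congr (fun i hi => (seg_eq.mp h1 i hi).symm)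
  · exact fun h => ⟨x, rfl, h⟩

/-- the extension lemma -/
theorem ext_body {α : W} {x y : W → W} (hx : Pc T0 α x) (hy : y ∈ Body T0) :
    (fun i => if i < α then x i else y i) ∈ Body (Tn T0) := by
  classical
  intro β
  rw [mem_Tn]
  obtain ⟨R, h1, h2, h3⟩ := hx
  refine ⟨(R ∩ Set.Iio α) ∪ {α}, (h1.mono Set.inter_subset_left).union
    (Set.countable_singleton _), ?_, ?_⟩
  · intro β' _
    rcases lt_or_ge β' α with hlt | hge
    · obtain ⟨ρ, hρ, hρ1, hρ2⟩ := h2 β' hlt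
      refine ⟨ρ, Or.inl ⟨hρ, hρ1.trans_lt hlt⟩, hρ1, ?_⟩
      rintro r (⟨hr, -⟩ | hr) hr2
      · exact hρ2 r hr hr2
      · rw [Set.mem_singleton_iff] at hr
        rw [hr] at hr2
        exact absurd hr2 (not_le.mpr hlt)
    · refine ⟨α, Or.inr rfl, hge, ?_⟩
      rintro r (⟨-, hr⟩ | hr) _
      · exact le_of_lt hr
      · rw [Set.mem_singleton_iff] at hr
        exact hr.le
  · intro γ δ hγδ hδ hR
    rcases le_or_gt δ α with hle | hgt
    · have h4 : Good T0 x γ δ := by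
        refine h3 γ δ hγδ hle ?_
        rintro r hr ⟨hr1, hr2⟩
        exact hR r (Or.inl ⟨hr, hr2.trans_le hle⟩) ⟨hr1, hr2⟩
      refine h4.congr (fun i hi => ?_)
      simp only [hi.trans_le hle, if_true]
    · have hγ : α ≤ γ := by
        by_contra hcon
        exact hR α (Or.inr rfl) ⟨not_le.mp hcon, hgt⟩
      refine ⟨seg y δ, hy δ, fun i hi => ?_⟩
      have : ¬ i.1 < α := not_lt.mpr (hγ.trans hi)
      simp only [this, if_false]
      rfl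

theorem small_of_body (hlev : ∀ α, #(T0 α) ≤ ℵ_ 1) (hbig : ℵ_ 2 < #(Body T0)) {α : W}
    {x : W → W} (hx : Pc T0 α x) : ℵ_ 2 < #(Body (Tn T0) ∩ N (seg x α) : Set (W → W)) := by
  classical
  by_contra hcon
  push Not at hcon
  let g : Body T0 → T0 α × (Body (Tn T0) ∩ N (seg x α) : Set (W → W)) := fun y =>
    (⟨seg y.1 α, y.2 α⟩, ⟨fun i => if i < α then x i else y.1 i, ext_body hx y.2, fun i => by
      have : i.1 < α := i.2
      simp only [this, if_true]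
      rfl⟩)
  have hg : Function.Injective g := by
    intro y z h
    apply Subtype.ext
    funext i
    rcases lt_or_ge i α with hi | hi
    · have h1 : seg y.1 α = seg z.1 α := congrArg (fun p => p.1.1) h
      exact seg_eq.mp h1 i hi
    · have h1 := congrFun (congrArg (fun p => p.2.1) h) i
      simp only [g, not_lt.mpr hi, if_false] at h1
      exact h1
  have h1 := Cardinal.mk_le_of_injective hg
  rw [Cardinal.mk_prod, Cardinal.lift_id, Cardinal.lift_id] at h1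
  have h2 : #(T0 α) * #(Body (Tn T0) ∩ N (seg x α) : Set (W → W)) ≤ ℵ_ 2 := by
    refine (mul_le_mul' ((hlev α).trans (Cardinal.aleph_le_aleph.mpr one_le_two)) hcon).trans_eq ?_
    exact Cardinal.mul_eq_self (Cardinal.aleph0_le_aleph 2)
  exact absurd (h1.trans h2) (not_le.mpr hbig)

theorem lev_Tn (ch : (2 : Cardinal.{0}) ^ ℵ₀ = ℵ_ 1) (hlev : ∀ α, #(T0 α) ≤ ℵ_ 1) (α : W) :
    #(Tn T0 α) ≤ ℵ_ 1 := by
  classical
  rcases isEmpty_or_nonempty (Set.Iio α) with hemp | ⟨⟨β0, hβ0⟩⟩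
  · have : Subsingleton (Tn T0 α) := ⟨fun a b => Subtype.ext (funext fun i => hemp.elim i)⟩
    exact (Cardinal.le_one_iff_subsingleton.mpr this).trans
      (Cardinal.one_le_aleph0.trans (Cardinal.aleph0_le_aleph 1))
  let E : Type := Set.Iic α
  let Q : Type := Σ δ : Set.Iic α, T0 δ.1
  have hQ : #Q ≤ ℵ_ 1 := by
    rw [Cardinal.mk_sigma]
    refine (Cardinal.sum_le_sum _ (fun _ => ℵ_ 1) (fun (δ : Set.Iic α) => hlev δ.1)).trans ?_
    rw [Cardinal.sum_const']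
    refine (mul_le_mul' (mk_Iic_le α) le_rfl).trans_eq ?_
    exact Cardinal.mul_eq_self (Cardinal.aleph0_le_aleph 1)
  have hpow : ∀ A : Type, #A ≤ ℵ_ 1 → #(ℕ → A) ≤ ℵ_ 1 := by
    intro A hA
    rw [← Cardinal.power_def, Cardinal.mk_nat]
    refine (Cardinal.power_le_power_right hA).trans ?_
    rw [← ch, ← Cardinal.power_mul, Cardinal.aleph0_mul_aleph0]
  let D : (ℕ → E) × (ℕ → Q) → (Set.Iio α → W) := fun p β =>
    if h : ∃ n, (p.1 n).1 ≤ β.1 ∧ ∀ m, (p.1 m).1 ≤ β.1 → (p.1 m).1 ≤ (p.1 n).1 then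
      if h' : β.1 < (p.2 (Classical.choose h)).1.1 then
        (p.2 (Classical.choose h)).2.1 ⟨β.1, h'⟩ else β.1
    else β.1
  have hD : Tn T0 α ⊆ Set.range D := by
    rintro _ ⟨x, rfl, R, h1, h2, h3⟩
    have hlast : ∀ ρ : E, ρ.1 < α → ∃ q : Q, ρ.1 < q.1.1 ∧
        (∀ r ∈ R, ¬ (ρ.1 < r ∧ r < q.1.1)) ∧ (q.1.1 = α ∨ q.1.1 ∈ R) ∧
        ∀ i : Set.Iio q.1.1, ρ.1 ≤ i.1 → x i.1 = q.2.1 i := by
      intro ρ hρ
      obtain ⟨δ, ⟨hδ1, hδ2, hδ3⟩, hδ4⟩ := (wellFounded_lt (α := W)).has_min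
        {δ | ρ.1 < δ ∧ δ ≤ α ∧ (δ = α ∨ δ ∈ R)} ⟨α, hρ, le_rfl, Or.inl rfl⟩
      have hno : ∀ r ∈ R, ¬ (ρ.1 < r ∧ r < δ) := by
        rintro r hr ⟨hr1, hr2⟩
        exact hδ4 r ⟨hr1, (hr2.trans_le hδ2).le, Or.inr hr⟩ hr2
      obtain ⟨t, ht1, ht2⟩ := h3 ρ.1 δ hδ1 hδ2 hno
      exact ⟨⟨⟨δ, hδ2⟩, ⟨t, ht1⟩⟩, hδ1, hno, hδ3, ht2⟩
    -- enumerate the relevant part of R
    have hR' : (R ∩ Set.Iio α).Countable := h1.mono Set.inter_subset_left
    have hRne : (R ∩ Set.Iio α).Nonempty := by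
      obtain ⟨ρ, hρ, hρ1, -⟩ := h2 β0 hβ0
      exact ⟨ρ, hρ, hρ1.trans_lt hβ0⟩
    obtain ⟨e, he⟩ := hR'.exists_eq_range hRne
    have hemem : ∀ n, e n ∈ R ∧ e n < α := by
      intro n
      have : e n ∈ R ∩ Set.Iio α := by
        rw [he]
        exact ⟨n, rfl⟩
      exact this
    have hq : ∀ n, ∃ q : Q, e n < q.1.1 ∧
        (∀ r ∈ R, ¬ (e n < r ∧ r < q.1.1)) ∧ (q.1.1 = α ∨ q.1.1 ∈ R) ∧
        ∀ i : Set.Iio q.1.1, e n ≤ i.1 → x i.1 = q.2.1 i :=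
      fun n => hlast ⟨e n, (hemem n).2.le⟩ (hemem n).2
    choose q hq1 hq2 hq3 hq4 using hq
    refine ⟨(fun n => ⟨e n, (hemem n).2.le⟩, q), ?_⟩
    funext β
    have hex : ∃ n, e n ≤ β.1 ∧ ∀ m, e m ≤ β.1 → e m ≤ e n := by
      obtain ⟨ρ, hρ, hρ1, hρ2⟩ := h2 β.1 β.2
      have : ρ ∈ R ∩ Set.Iio α := ⟨hρ, hρ1.trans_lt β.2⟩
      rw [he] at this
      obtain ⟨n, rfl⟩ := this
      exact ⟨n, hρ1, fun m hm => hρ2 (e m) (hemem m).1 hm⟩
    have hc := Classical.choose_spec hex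
    have hlt : β.1 < (q (Classical.choose hex)).1.1 := by
      by_contra hcon
      push Not at hcon
      rcases hq3 (Classical.choose hex) with h | h
      · rw [h] at hcon
        exact absurd hcon (not_le.mpr β.2)
      · have h5 : (q (Classical.choose hex)).1.1 ∈ R ∩ Set.Iio α := ⟨h, hcon.trans_lt β.2⟩
        rw [he] at h5
        obtain ⟨m, hm⟩ := h5
        have h6 := hc.2 m (by rw [hm]; exact hcon)
        rw [hm] at h6
        exact absurd (hq1 (Classical.choose hex)) (not_lt.mpr h6)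
    simp only [D]
    rw [dif_pos hex, dif_pos hlt]
    exact (hq4 (Classical.choose hex) ⟨β.1, hlt⟩ hc.1).symm
  refine (Cardinal.mk_le_mk_of_subset hD).trans (Cardinal.mk_range_le.trans ?_)
  rw [Cardinal.mk_prod, Cardinal.lift_id, Cardinal.lift_id]
  exact (mul_le_mul' (hpow _ (mk_Iic_le α)) (hpow _ hQ)).trans_eq
    (Cardinal.mul_eq_self (Cardinal.aleph0_le_aleph 1))

end

end Pool.Agent.R590.Kl
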