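import Mathlib
import Pool.Agent.R590.KlMain

set_option autoImplicit false

namespace Pool.Agent.R590.Kl

open Cardinal Topology

variable {T0 : ∀ α : W, Set (Set.Iio α → W)}

/-- a branch of the new tree follows one branch of `T0` from some point on -/
theorem tail_good (y : W → W) (hy : y ∈ Body (Tn T0)) : ∃ ρ : W, ∀ δ, ρ < δ → Good T0 y ρ δ := by
  classical
  by_contra hcon
  push Not at hcon
  choose g hg1 hg2 using hcon
  let I : Type := (ℵ_ 1).ord.ToType
  have hI : #I = ℵ_ 1 := Cardinal.mk_ord_toType _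
  have hIio : ∀ i : I, #(Set.Iio i) ≤ ℵ_ 1 := fun i => (Cardinal.mk_set_le _).trans hI.le
  have hstep : ∀ (i : I) (ih : ∀ j, j < i → W), ∃ w : W, ∀ j : Set.Iio i, g (ih j.1 j.2) < w :=
    fun i ih => bddW (hIio i) (fun j : Set.Iio i => g (ih j.1 j.2))
  let s : I → W := (wellFounded_lt (α := I)).fix (fun i ih => Classical.choose (hstep i ih))
  have hs : ∀ i j, j < i → g (s j) < s i := by
    intro i j hji
    have h1 : s i = Classical.choose (hstep i (fun j _ => s j)) := by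
      simp only [s]
      rw [WellFounded.fix_eq]
    rw [h1]
    exact Classical.choose_spec (hstep i (fun j _ => s j)) ⟨j, hji⟩
  obtain ⟨α, hα⟩ := bddW (M := I) hI.le (fun i => g (s i))
  obtain ⟨R, hR, -, h3⟩ := mem_Tn.mp (hy α)
  have hr : ∀ i : I, ∃ r ∈ R, s i < r ∧ r < g (s i) := by
    intro i
    by_contra hcon
    push Not at hcon
    refine hg2 (s i) (h3 (s i) (g (s i)) (hg1 _) (hα i).le ?_)
    rintro r hr ⟨hr1, hr2⟩
    exact absurd hr2 (not_lt.mpr (hcon r hr hr1))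
  choose r hr1 hr2 hr3 using hr
  have hinj : Function.Injective (fun i => (⟨r i, hr1 i⟩ : R)) := by
    have hlt : ∀ i j, i < j → r i < r j := fun i j hij =>
      ((hr3 i).trans (hs j i hij)).trans (hr2 j)
    intro i j h
    have h' : r i = r j := congrArg Subtype.val h
    rcases lt_trichotomy i j with h1 | h1 | h1
    · exact absurd h' (hlt i j h1).ne
    · exact h1
    · exact absurd h' (hlt j i h1).ne'
  have h4 := Cardinal.mk_le_of_injective hinj
  rw [hI] at h4
  have h5 : #R ≤ ℵ₀ := Cardinal.mk_le_aleph0_iff.mpr hR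
  have h6 : ℵ₀ < (ℵ_ 1 : Cardinal.{0}) := Cardinal.aleph0_lt_aleph_one
  exact absurd (h4.trans h5) (not_le.mpr h6)

theorem follow (hsub : IsSubtree T0) (hlev : ∀ α, #(T0 α) ≤ ℵ_ 1) (y : W → W) (ρ : W)
    (h : ∀ δ, ρ < δ → Good T0 y ρ δ) : ∃ b ∈ Body T0, ∀ i, ρ ≤ i → b i = y i := by
  classical
  choose t ht1 ht2 using h
  have hunb : ∃ s : T0 ρ, ∀ β : W, ∃ δ, ∃ h : ρ < δ, β < δ ∧ res h.le (t δ h) = s.1 := by
    by_contra hcon
    push Not at hcon
    choose β hβ using hcon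
    obtain ⟨e, he⟩ := bddW (hlev ρ) β
    obtain ⟨δ, hδ⟩ := exists_gt (max e ρ)
    have h1 : ρ < δ := (le_max_right e ρ).trans_lt hδ
    exact hβ ⟨res h1.le (t δ h1), hsub _ _ h1.le _ (ht1 δ h1)⟩ δ h1
      ((he _).trans ((le_max_left e ρ).trans_lt hδ)) rfl
  obtain ⟨s, hs⟩ := hunb
  refine ⟨fun i => if h : i < ρ then s.1 ⟨i, h⟩ else y i, fun α => ?_, fun i hi => ?_⟩
  · obtain ⟨δ, h1, h2, h3⟩ := hs α
    have h4 : seg (fun i => if h : i < ρ then s.1 ⟨i, h⟩ else y i) α = res h2.le (t δ h1) := by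
      funext i
      simp only [seg, res]
      by_cases hi : i.1 < ρ
      · simp only [hi, dif_pos]
        rw [← h3]
        rfl
      · simp only [hi, dif_neg, not_false_eq_true]
        exact ht2 δ h1 ⟨i.1, _⟩ (not_lt.mp hi)
    rw [h4]
    exact hsub _ _ _ _ (ht1 δ h1)
  · simp only [not_lt.mpr hi, dif_neg, not_false_eq_true]

theorem image_Tn (ch : (2 : Cardinal.{0}) ^ ℵ₀ = ℵ_ 1) (hsub : IsSubtree T0)
    (hlev : ∀ α, #(T0 α) ≤ ℵ_ 1) (hf : IsContImage (Body T0)) :
    IsContImage (Body (Tn T0)) := by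
  classical
  obtain ⟨f, hf1, hf2⟩ := hf
  rw [continuous_iff] at hf1
  obtain ⟨m, hm⟩ := exists_min
  -- codes for nodes
  let Nd : Type := Σ α : W, Tn T0 α
  have hNd : #Nd ≤ #W := by
    rw [Cardinal.mk_sigma, mk_W]
    refine (Cardinal.sum_le_sum _ (fun _ => ℵ_ 1) (fun (δ : W) => lev_Tn ch hlev δ)).trans ?_
    rw [Cardinal.sum_const', mk_W]
    refine (mul_le_mul' le_rfl (Cardinal.aleph_le_aleph.mpr one_le_two)).trans_eq ?_
    exact Cardinal.mul_eq_self (Cardinal.aleph0_le_aleph 2)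
  have hNdne : Nonempty Nd := by
    have h : Pc T0 m (fun i => i) := ⟨∅, Set.countable_empty, fun β hβ => absurd hβ (hm β),
      fun γ δ hγ hδ _ => absurd (hγ.trans_le hδ) (hm γ)⟩
    exact ⟨⟨m, ⟨_, mem_Tn.mpr h⟩⟩⟩
  obtain ⟨c, hc⟩ : ∃ c : W → Nd, Function.Surjective c := by
    obtain ⟨i⟩ := (Cardinal.le_def _ _).mp hNd
    exact ⟨Function.invFun i, Function.invFun_surjective i.injective⟩
  obtain ⟨e⟩ : Nonempty (W ≃ W × W) := by
    rw [← Cardinal.eq, Cardinal.mk_prod, Cardinal.lift_id]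
    exact (Cardinal.mul_eq_self (by rw [mk_W]; exact Cardinal.aleph0_le_aleph 2)).symm
  let G : Nd → (W → W) → W → W := fun n u ξ =>
    if h : ξ < n.1 then n.2.1 ⟨ξ, h⟩ else u ξ
  let F : (W → W) → (W → W) := fun z => G (c (e (z m)).1) (f (fun i => (e (z i)).2))
  refine ⟨F, ?_, ?_⟩
  · rw [continuous_iff]
    intro z α
    obtain ⟨δ0, hδ0⟩ := hf1 (fun i => (e (z i)).2) α
    obtain ⟨δ1, hδ1⟩ := exists_gt m
    refine ⟨max δ0 δ1, fun z' hz' i hi => ?_⟩
    have h1 : z' m = z m := hz' m (hδ1.trans_le (le_max_right _ _))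
    have h2 : f (fun i => (e (z' i)).2) i = f (fun i => (e (z i)).2) i := by
      refine hδ0 (fun i => (e (z' i)).2) (fun j hj => ?_) i hi
      show (e (z' j)).2 = (e (z j)).2
      rw [hz' j (hj.trans_le (le_max_left _ _))]
    simp only [F, G]
    rw [h1, h2]
  · ext y
    constructor
    · rintro ⟨z, rfl⟩
      obtain ⟨x, hx1, hx2⟩ := (c (e (z m)).1).2.2
      have h1 := ext_body hx2 (y := f (fun i => (e (z i)).2)) (by
        rw [← hf2]
        exact ⟨_, rfl⟩)
      convert h1 using 1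
      funext ξ
      simp only [F, G]
      by_cases h : ξ < (c (e (z m)).1).1
      · simp only [h, dif_pos, if_true]
        exact (congrFun hx1 ⟨ξ, h⟩).symm
      · simp only [h, dif_neg, not_false_eq_true, if_false]
    · intro hy
      obtain ⟨ρ, hρ⟩ := tail_good y hy
      obtain ⟨b, hb1, hb2⟩ := follow hsub hlev y ρ hρ
      rw [← hf2] at hb1
      obtain ⟨z1, hz1⟩ := hb1
      obtain ⟨w, hw⟩ := hc ⟨ρ, ⟨seg y ρ, hy ρ⟩⟩
      refine ⟨fun i => e.symm (w, z1 i), ?_⟩
      have e1 : F (fun i => e.symm (w, z1 i)) = G ⟨ρ, ⟨seg y ρ, hy ρ⟩⟩ b := by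
        simp only [F, Equiv.apply_symm_apply]
        rw [hw, show (fun i => z1 i) = z1 from rfl, hz1]
      rw [e1]
      funext ξ
      simp only [G]
      by_cases h : ξ < ρ
      · simp only [h, dif_pos]
        rfl
      · simp only [h, dif_neg, not_false_eq_true]
        exact hb2 ξ (not_lt.mp h)

/-- Assume CH. If the set of branches of some `ω₂`-Kurepa tree is a continuous image of the space
of all functions `ω₂ → ω₂`, then this also happens for some everywhere large such tree. -/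
theorem main (ch : (2 : Cardinal.{0}) ^ ℵ₀ = ℵ_ 1) :
    (∃ T, IsKurepa T ∧ IsContImage (Body T)) ↔
      ∃ T, IsKurepa T ∧ EverywhereLarge T ∧ IsContImage (Body T) := by
  constructor
  · rintro ⟨T0, ⟨hsub, hlev, hbig⟩, hf⟩
    refine ⟨Tn T0, ⟨sub_Tn, lev_Tn ch hlev, ?_⟩, ?_, image_Tn ch hsub hlev hf⟩
    · obtain ⟨m, hm⟩ := exists_min
      have h : Pc T0 m (fun i => i) := ⟨∅, Set.countable_empty, fun β hβ => absurd hβ (hm β),
        fun γ δ hγ hδ _ => absurd (hγ.trans_le hδ) (hm γ)⟩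
      exact (small_of_body hlev hbig h).trans_le (Cardinal.mk_le_mk_of_subset
        Set.inter_subset_left)
    · rintro α _ ⟨x, rfl, hx⟩
      exact small_of_body hlev hbig hx
  · rintro ⟨T, h1, -, h2⟩
    exact ⟨T, h1, h2⟩

end Pool.Agent.R590.Kl
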