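import Mathlib
import Pool.Agent.R590.KuForce

set_option autoImplicit false

/-!
# The product of the Kurepa forcing with a Cohen forcing for `ω₁`
-/

namespace Pool.Agent.R590.Kst

open Cardinal Set Pool.Agent.Helper669.Forcing Pool.Agent.R590.Kur Pool.Agent.Helper669.KDelta

/-- pigeonhole principle -/
theorem pigeon {T K : Type} (hT : ¬ #T ≤ 𝔠) (hK : #K ≤ 𝔠) (key : T → K) :
    ∃ k, ¬ #{b | key b = k} ≤ 𝔠 := by
  by_contra hcon
  push Not at hcon
  apply hT
  have h1 : (univ : Set T) = ⋃ k, {b | key b = k} := by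
    ext b
    simp
  rw [← mk_univ, h1]
  exact small_iUnion aleph0_le_continuum hK _ hcon

/-- compatible conditions -/
def Compat {P : Type} [Preorder P] (p q : P) : Prop := ∃ r, r ≤ p ∧ r ≤ q

/-! ### General facts on countably closed forcings -/

/-- every decreasing sequence has a lower bound -/
def SigCl (P : Type) [Preorder P] : Prop :=
  ∀ p : ℕ → P, (∀ n, p (n + 1) ≤ p n) → ∃ q, ∀ n, q ≤ p n

theorem SigCl.generic {P : Type} [Preorder P] (hσ : SigCl P) (p : P) (D : ℕ → Set P)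
    (hd : ∀ n, Down (D n)) (hD : ∀ n, ∀ q ≤ p, ∃ r ≤ q, r ∈ D n) : ∃ q ≤ p, ∀ n, q ∈ D n := by
  choose! g hg1 hg2 using hD
  let s : ℕ → {q : P // q ≤ p} := fun n =>
    Nat.rec ⟨p, le_rfl⟩ (fun n q => ⟨g n q.1, (hg1 n q.1 q.2).trans q.2⟩) n
  have hs : ∀ n, (s (n + 1)).1 = g n (s n).1 := fun n => rfl
  obtain ⟨q, hq⟩ := hσ (fun n => (s n).1) fun n => by
    rw [hs]
    exact hg1 n _ (s n).2
  refine ⟨q, hq 0, fun n => ?_⟩
  refine hd n _ (hg2 n _ (s n).2) _ ?_
  rw [← hs]
  exact hq (n + 1)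

/-- deciding the values of a function on `ℕ` -/
theorem SigCl.decide_fun {P : Type} [Preorder P] (hσ : SigCl P) {X : Type} {R : ℕ → X → Set P}
    {p : P} (h : p ∈ IsFun R) : ∃ q ≤ p, ∃ x : ℕ → X, ∀ n, q ∈ meets (R n (x n)) := by
  obtain ⟨q, hq, hq'⟩ := hσ.generic p (fun n => {q | ∃ x, q ∈ meets (R n x)})
    (fun n q hq r hr => by
      obtain ⟨x, hx⟩ := hq
      exact ⟨x, down_meets _ _ hx _ hr⟩)
    (fun n q hq => by
      obtain ⟨r, hr, x, hx⟩ := IsFun.total (down_IsFun R p h q hq) n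
      exact ⟨r, hr, x, hx⟩)
  choose x hx using hq'
  exact ⟨q, hq, x, hx⟩

/-! ### The Knaster property of the Kurepa forcing -/

theorem knaster_Cond {T : Type} (hT : ¬ #T ≤ 𝔠) (q : T → Cond) :
    ∃ S : Set T, ¬ #S ≤ 𝔠 ∧ ∀ b ∈ S, ∀ b' ∈ S, Compat (q b) (q b') := by
  classical
  obtain ⟨T', R, hT', hR, hTR⟩ := weak_delta (K := Th)
    aleph0_le_continuum hT (fun b => (q b).I) fun b =>
      (Cardinal.le_aleph0_iff_set_countable.2 (q b).cnt).trans_lt aleph0_lt_continuum
  choose e he using fun b => (q b).cnt.exists_eq_range (q b).ne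
  have hmem : ∀ b n, e b n ∈ (q b).I := fun b n => by
    rw [he b]
    exact ⟨n, rfl⟩
  let v : T → ℕ → Cond.Bd := fun b n => ⟨(q b).f (e b n), (q b).al, (q b).bdd _ (hmem b n)⟩
  let key : T' → W × (ℕ → Cond.Bd) × (ℕ → Option (R × Cond.Bd)) := fun b =>
    ((q b.1).al, v b.1, fun n => if h : e b.1 n ∈ R then some (⟨e b.1 n, h⟩, v b.1 n) else none)
  have hcard : #(W × (ℕ → Cond.Bd) × (ℕ → Option (R × Cond.Bd))) ≤ 𝔠 := by
    have h1 : #(R × Cond.Bd) ≤ 𝔠 := by
      rw [mk_prod, lift_id, lift_id]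
      exact (mul_le_mul' hR Cond.mk_Bd).trans continuum_mul_self.le
    have h2 : #(Option (R × Cond.Bd)) ≤ 𝔠 := by
      rw [mk_option]
      exact (add_le_add h1 (one_lt_aleph0.le.trans aleph0_le_continuum)).trans
        continuum_add_self.le
    have h3 : #(ℕ → Cond.Bd) ≤ 𝔠 := by
      rw [← power_def, mk_nat]
      exact Cond.pow_le Cond.mk_Bd
    have h4 : #(ℕ → Option (R × Cond.Bd)) ≤ 𝔠 := by
      rw [← power_def, mk_nat]
      exact Cond.pow_le h2
    rw [mk_prod, lift_id, lift_id, mk_prod, lift_id, lift_id, mk_W]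
    exact (mul_le_mul' aleph_one_le_continuum
      ((mul_le_mul' h3 h4).trans continuum_mul_self.le)).trans continuum_mul_self.le
  obtain ⟨k, hk⟩ := pigeon hT' hcard key
  refine ⟨Subtype.val '' {b | key b = k}, ?_, ?_⟩
  · rwa [mk_image_eq Subtype.val_injective]
  rintro _ ⟨b, hb, rfl⟩ _ ⟨b', hb', rfl⟩
  by_cases hbb : b = b'
  · rw [hbb]
    exact ⟨q b'.1, le_rfl, le_rfl⟩
  have hk : key b = key b' := (show key b = k from hb).trans (show key b' = k from hb').symm
  have hal : (q b.1).al = (q b'.1).al := congrArg Prod.fst hk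
  have hv : v b.1 = v b'.1 := congrArg (fun x => x.2.1) hk
  have ho : ∀ n, (if h : e b.1 n ∈ R then some ((⟨e b.1 n, h⟩ : R), v b.1 n) else none) =
      if h : e b'.1 n ∈ R then some ((⟨e b'.1 n, h⟩ : R), v b'.1 n) else none :=
    fun n => congrFun (congrArg (fun x => x.2.2) hk) n
  have hne' : b.1 ≠ b'.1 := fun h => hbb (Subtype.ext h)
  have hfv : ∀ n, (q b.1).f (e b.1 n) = (q b'.1).f (e b'.1 n) := fun n =>
    congrArg Subtype.val (congrFun hv n)
  have hag : ∀ i, i ∈ (q b.1).I → i ∈ (q b'.1).I → (q b.1).f i = (q b'.1).f i := by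
    intro i hi hi'
    have hiR : i ∈ R := hTR _ b.2 _ b'.2 hne' ⟨hi, hi'⟩
    have hi2 := hi
    rw [he b.1] at hi2
    obtain ⟨n, rfl⟩ := hi2
    have h1 := ho n
    rw [dif_pos hiR] at h1
    by_cases h2 : e b'.1 n ∈ R
    · rw [dif_pos h2] at h1
      have h3 := Option.some.inj h1
      have h4 : e b.1 n = e b'.1 n := congrArg (fun x => x.1.1) h3
      rw [hfv n, h4]
    · rw [dif_neg h2] at h1
      exact absurd h1 (by simp)
  have hrange : ∀ i ∈ (q b.1).I, ∃ k ∈ (q b'.1).I, (q b.1).f i = (q b'.1).f k := by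
    intro i hi
    rw [he b.1] at hi
    obtain ⟨n, rfl⟩ := hi
    exact ⟨e b'.1 n, hmem _ _, hfv n⟩
  have hrange' : ∀ i ∈ (q b'.1).I, ∃ k ∈ (q b.1).I, (q b'.1).f i = (q b.1).f k := by
    intro i hi
    rw [he b'.1] at hi
    obtain ⟨n, rfl⟩ := hi
    exact ⟨e b.1 n, hmem _ _, (hfv n).symm⟩
  let r : Cond := ⟨(q b.1).al, (q b.1).I ∪ (q b'.1).I,
    fun i => if i ∈ (q b.1).I then (q b.1).f i else (q b'.1).f i,
    (q b.1).cnt.union (q b'.1).cnt, (q b.1).ne.mono subset_union_left, by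
      intro i hi
      split_ifs with h
      · exact (q b.1).bdd i h
      · rw [hal]
        exact (q b'.1).bdd i (hi.resolve_left h)⟩
  have hr1 : ∀ i ∈ (q b.1).I, r.f i = (q b.1).f i := fun i hi => if_pos hi
  have hr2 : ∀ i ∈ (q b'.1).I, r.f i = (q b'.1).f i := by
    intro i hi
    by_cases h : i ∈ (q b.1).I
    · rw [hr1 i h, hag i h hi]
    · exact if_neg h
  refine ⟨r, ⟨le_rfl, subset_union_left, fun i hi => ?_, fun i hi => ?_⟩,
    ⟨hal.ge, subset_union_right, fun i hi => ?_, fun i hi => ?_⟩⟩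
  · rw [hr1 i hi]
    exact inter_eq_left.2 ((q b.1).bdd i hi)
  · rcases hi with hi | hi
    · exact ⟨i, hi, by rw [hr1 i hi]; exact inter_eq_left.2 ((q b.1).bdd i hi)⟩
    · obtain ⟨k, hk, hk'⟩ := hrange' i hi
      exact ⟨k, hk, by rw [hr2 i hi, hk']; exact inter_eq_left.2 ((q b.1).bdd k hk)⟩
  · rw [hr2 i hi]
    exact inter_eq_left.2 ((q b'.1).bdd i hi)
  · rcases hi with hi | hi
    · obtain ⟨k, hk, hk'⟩ := hrange i hi
      exact ⟨k, hk, by rw [hr1 i hi, hk']; exact inter_eq_left.2 ((q b'.1).bdd k hk)⟩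
    · exact ⟨i, hi, by rw [hr2 i hi]; exact inter_eq_left.2 ((q b'.1).bdd i hi)⟩

/-! ### Countable partial functions -/

/-- countable partial functions from `L × ω₁ × ℕ` to `ℕ` -/
structure Ad (L : Type) where
  /-- the function -/
  s : L × W × ℕ → Option ℕ
  cnt : {x | s x ≠ none}.Countable

variable {L : Type}

instance : Preorder (Ad L) where
  le q p := ∀ x v, p.s x = some v → q.s x = some v
  le_refl _ _ _ h := h
  le_trans _ _ _ h h' x v hv := h x v (h' x v hv)

theorem Ad.sigCl : SigCl (Ad L) := by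
  classical
  intro p hp
  have hanti : ∀ m n, m ≤ n → p n ≤ p m := fun m n h => antitone_nat_of_succ_le hp h
  refine ⟨⟨fun x => if h : ∃ n, (p n).s x ≠ none then (p h.choose).s x else none, ?_⟩, ?_⟩
  · refine (countable_iUnion fun n => (p n).cnt).mono ?_
    intro x hx
    by_cases h : ∃ n, (p n).s x ≠ none
    · exact mem_iUnion.2 h
    · rw [mem_ofPred_eq, dif_neg h] at hx
      exact absurd rfl hx
  · intro n x v hv
    have h : ∃ n, (p n).s x ≠ none := ⟨n, by rw [hv]; simp⟩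
    show (if h : ∃ n, (p n).s x ≠ none then (p h.choose).s x else none) = some v
    rw [dif_pos h]
    have h1 := h.choose_spec
    obtain ⟨w, hw⟩ := Option.ne_none_iff_exists'.1 h1
    have h2 := hanti n (max n h.choose) (le_max_left _ _) x v hv
    have h3 := hanti h.choose (max n h.choose) (le_max_right _ _) x w hw
    rw [h2] at h3
    rw [hw, ← h3]

open Classical in
/-- `a` on the coordinates in `A` and `q` outside -/
noncomputable def join (A : Set L) (a q : Ad L) : Ad L where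
  s x := if x.1 ∈ A then a.s x else q.s x
  cnt := by
    refine (a.cnt.union q.cnt).mono fun x hx => ?_
    by_cases h : x.1 ∈ A
    · left
      rwa [mem_ofPred_eq, if_pos h] at hx
    · right
      rwa [mem_ofPred_eq, if_neg h] at hx

/-- the trivial condition -/
def emp : Ad L := ⟨fun _ => none, by simp⟩

theorem join_mem {A : Set L} {a q : Ad L} {x : L × W × ℕ} (h : x.1 ∈ A) :
    (join A a q).s x = a.s x := if_pos h

theorem join_not {A : Set L} {a q : Ad L} {x : L × W × ℕ} (h : x.1 ∉ A) :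
    (join A a q).s x = q.s x := if_neg h

theorem le_join {A : Set L} {t a q : Ad L}
    (h1 : ∀ x, x.1 ∈ A → ∀ v, a.s x = some v → t.s x = some v)
    (h2 : ∀ x, x.1 ∉ A → ∀ v, q.s x = some v → t.s x = some v) : t ≤ join A a q := by
  intro x v hv
  by_cases h : x.1 ∈ A
  · rw [join_mem h] at hv
    exact h1 x h v hv
  · rw [join_not h] at hv
    exact h2 x h v hv

theorem join_le {A : Set L} {t a q : Ad L}
    (h1 : ∀ x, x.1 ∈ A → ∀ v, t.s x = some v → a.s x = some v)
    (h2 : ∀ x, x.1 ∉ A → ∀ v, t.s x = some v → q.s x = some v) : join A a q ≤ t := by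
  intro x v hv
  by_cases h : x.1 ∈ A
  · rw [join_mem h]
    exact h1 x h v hv
  · rw [join_not h]
    exact h2 x h v hv

theorem join_mono {A : Set L} {a a' q q' : Ad L} (h : a ≤ a') (h' : q ≤ q') :
    join A a q ≤ join A a' q' :=
  join_le (fun x hx v hv => by rw [join_mem hx] at hv; exact h x v hv)
    fun x hx v hv => by rw [join_not hx] at hv; exact h' x v hv

theorem le_emp (q : Ad L) : q ≤ emp := fun _ _ h => absurd h (by simp [emp])

/-- the coordinates in the support -/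
def lam (p : Ad L) : Set L := {l | ∃ x, p.s (l, x) ≠ none}

theorem countable_lam (p : Ad L) : (lam p).Countable := by
  refine (p.cnt.image Prod.fst).mono ?_
  rintro l ⟨x, hx⟩
  exact ⟨(l, x), hx, rfl⟩

theorem mem_lam {p : Ad L} {x : L × W × ℕ} {v : ℕ} (h : p.s x = some v) : x.1 ∈ lam p :=
  ⟨x.2, by rw [Prod.mk.eta, h]; simp⟩

theorem knaster_Ad {T : Type} (hT : ¬ #T ≤ 𝔠) (q : T → Ad L) :
    ∃ S : Set T, ¬ #S ≤ 𝔠 ∧ ∀ b ∈ S, ∀ b' ∈ S, Compat (q b) (q b') := by
  classical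
  obtain ⟨T', R, hT', hR, hTR⟩ := weak_delta (K := L × W × ℕ)
    aleph0_le_continuum hT (fun b => {x | (q b).s x ≠ none}) fun b =>
      (Cardinal.le_aleph0_iff_set_countable.2 (q b).cnt).trans_lt aleph0_lt_continuum
  have hex : ∀ b, ∃ e : ℕ → Option (L × W × ℕ), ∀ x, (q b).s x ≠ none → ∃ n, e n = some x := by
    intro b
    have h1 : (insert none (some '' {x | (q b).s x ≠ none})).Countable :=
      ((q b).cnt.image _).insert _
    obtain ⟨e, he⟩ := h1.exists_eq_range (insert_nonempty _ _)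
    refine ⟨e, fun x hx => ?_⟩
    have h2 : some x ∈ range e := by
      rw [← he]
      exact Or.inr ⟨x, hx, rfl⟩
    exact h2
  choose e he using hex
  let key : T' → (ℕ → Option (R × Option ℕ)) := fun b n =>
    match e b.1 n with
    | none => none
    | some x => if h : x ∈ R then some (⟨x, h⟩, (q b.1).s x) else none
  have hcard : #(ℕ → Option (R × Option ℕ)) ≤ 𝔠 := by
    have h0 : #(Option ℕ) ≤ 𝔠 := by
      rw [mk_option, mk_nat]
      exact (add_le_add aleph0_le_continuum (one_lt_aleph0.le.trans aleph0_le_continuum)).trans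
        continuum_add_self.le
    have h1 : #(R × Option ℕ) ≤ 𝔠 := by
      rw [mk_prod, lift_id, lift_id]
      exact (mul_le_mul' hR h0).trans continuum_mul_self.le
    have h2 : #(Option (R × Option ℕ)) ≤ 𝔠 := by
      rw [mk_option]
      exact (add_le_add h1 (one_lt_aleph0.le.trans aleph0_le_continuum)).trans
        continuum_add_self.le
    rw [← power_def, mk_nat]
    exact Cond.pow_le h2
  obtain ⟨k, hk⟩ := pigeon hT' hcard key
  refine ⟨Subtype.val '' {b | key b = k}, ?_, ?_⟩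
  · rwa [mk_image_eq Subtype.val_injective]
  rintro _ ⟨b, hb, rfl⟩ _ ⟨b', hb', rfl⟩
  by_cases hbb : b = b'
  · rw [hbb]
    exact ⟨q b'.1, le_rfl, le_rfl⟩
  have hk : key b = key b' := (show key b = k from hb).trans (show key b' = k from hb').symm
  have hag : ∀ x v v', (q b.1).s x = some v → (q b'.1).s x = some v' → v = v' := by
    intro x v v' hv hv'
    have hx : (q b.1).s x ≠ none := by rw [hv]; simp
    have hx' : (q b'.1).s x ≠ none := by rw [hv']; simp
    have hiR : x ∈ R := hTR _ b.2 _ b'.2 (fun h => hbb (Subtype.ext h)) ⟨hx, hx'⟩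
    obtain ⟨n, hn⟩ := he b.1 x hx
    have h1 : key b n = some (⟨x, hiR⟩, (q b.1).s x) := by
      show (match e b.1 n with
        | none => none
        | some x => if h : x ∈ R then some ((⟨x, h⟩ : R), (q b.1).s x) else none) = _
      rw [hn]
      exact dif_pos hiR
    rw [hk] at h1
    change (match e b'.1 n with
        | none => none
        | some x => if h : x ∈ R then some ((⟨x, h⟩ : R), (q b'.1).s x) else none) = _ at h1
    cases hc : e b'.1 n with
    | none =>
      rw [hc] at h1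
      exact absurd h1 (by simp)
    | some y =>
      rw [hc] at h1
      by_cases hy : y ∈ R
      · simp only [dif_pos hy, Option.some.injEq, Prod.mk.injEq, Subtype.mk.injEq] at h1
        obtain ⟨h2, h3⟩ := h1
        rw [h2, hv', hv] at h3
        exact (Option.some.inj h3).symm
      · simp only [dif_neg hy] at h1
        exact absurd h1 (by simp)
  refine ⟨⟨fun x => if (q b.1).s x ≠ none then (q b.1).s x else (q b'.1).s x, ?_⟩, ?_, ?_⟩
  · refine ((q b.1).cnt.union (q b'.1).cnt).mono fun x hx => ?_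
    by_cases h : (q b.1).s x ≠ none
    · exact Or.inl h
    · right
      rwa [mem_ofPred_eq, if_neg h] at hx
  · intro x v hv
    have h : (q b.1).s x ≠ none := by rw [hv]; simp
    show (if (q b.1).s x ≠ none then (q b.1).s x else (q b'.1).s x) = some v
    rw [if_pos h, hv]
  · intro x v hv
    show (if (q b.1).s x ≠ none then (q b.1).s x else (q b'.1).s x) = some v
    by_cases h : (q b.1).s x ≠ none
    · rw [if_pos h]
      obtain ⟨w, hw⟩ := Option.ne_none_iff_exists'.1 h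
      rw [hw, hag x w v hw hv]
    · rw [if_neg h, hv]

/-- the forcing -/
abbrev PP (L : Type) : Type := Cond × Ad L

theorem PP.compat {T : Type} (hT : ¬ #T ≤ 𝔠) (q : T → PP L) :
    ∃ b b' : T, b ≠ b' ∧ Compat (q b) (q b') := by
  obtain ⟨S, hS, h1⟩ := knaster_Cond hT fun b => (q b).1
  obtain ⟨S', hS', h2⟩ := knaster_Ad hS fun b : S => (q b.1).2
  have h3 : ¬ #S' ≤ 1 := fun h => hS' (h.trans (one_lt_aleph0.le.trans aleph0_le_continuum))
  rw [Cardinal.le_one_iff_subsingleton] at h3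
  rw [not_subsingleton_iff_nontrivial] at h3
  obtain ⟨⟨b, hb⟩, ⟨b', hb'⟩, hne⟩ := h3
  refine ⟨b.1, b'.1, fun h => hne (Subtype.ext (Subtype.ext h)), ?_⟩
  obtain ⟨r, hr, hr'⟩ := h1 b.1 b.2 b'.1 b'.2
  obtain ⟨s, hs, hs'⟩ := h2 b hb b' hb'
  exact ⟨(r, s), ⟨hr, hs⟩, ⟨hr', hs'⟩⟩

theorem PP.sigCl : SigCl (PP L) := by
  intro p hp
  obtain ⟨c, hc⟩ := Cond.exists_lower (fun n => (p n).1) fun n => (hp n).1
  obtain ⟨s, hs⟩ := Ad.sigCl (fun n => (p n).2) fun n => (hp n).2
  exact ⟨(c, s), fun n => ⟨hc n, hs n⟩⟩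

/-- small predense sets -/
theorem PP.predense (p0 : PP L) (D : Set (PP L)) (hD : ∀ p ≤ p0, ∃ q ≤ p, q ∈ D) :
    ∃ M ⊆ D, #M ≤ 𝔠 ∧ ∀ p ≤ p0, ∃ μ ∈ M, Compat p μ := by
  obtain ⟨M, hM⟩ := zorn_subset {M : Set (PP L) | M ⊆ D ∧ M.Pairwise fun p q => ¬ Compat p q} (by
    intro c hc hchain
    refine ⟨⋃₀ c, ⟨sUnion_subset fun s hs => (hc hs).1, ?_⟩, fun s hs => subset_sUnion_of_mem hs⟩
    exact (pairwise_sUnion hchain.directedOn).2 fun s hs => (hc hs).2)
  refine ⟨M, hM.prop.1, ?_, fun p hp => ?_⟩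
  · by_contra hcon
    obtain ⟨b, b', hne, h⟩ := PP.compat hcon fun b : M => b.1
    exact hM.prop.2 b.2 b'.2 (fun h => hne (Subtype.ext h)) h
  · obtain ⟨d, hd, hdD⟩ := hD p hp
    by_contra hcon
    push Not at hcon
    have h1 : ∀ μ ∈ M, ¬ Compat d μ := by
      rintro μ hμ ⟨r, hr, hr'⟩
      exact hcon μ hμ ⟨r, hr.trans hd, hr'⟩
    have h2 : insert d M ∈ {M : Set (PP L) | M ⊆ D ∧ M.Pairwise fun p q => ¬ Compat p q} := by
      refine ⟨insert_subset hdD hM.prop.1, ?_⟩
      rw [pairwise_insert]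
      refine ⟨hM.prop.2, fun μ hμ _ => ⟨h1 μ hμ, ?_⟩⟩
      rintro ⟨r, hr, hr'⟩
      exact h1 μ hμ ⟨r, hr', hr⟩
    have h3 : d ∈ M := hM.le_of_ge h2 (subset_insert d M) (mem_insert d M)
    exact h1 d h3 ⟨d, le_rfl, le_rfl⟩

end Pool.Agent.R590.Kst
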