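import Mathlib
import Pool.Agent.R590.KsCond

set_option autoImplicit false

/-!
# The branches of the trees of the extension
-/

namespace Pool.Agent.R590.Kst

open Cardinal Set Pool.Agent.Helper669.Forcing Pool.Agent.R590.Kur Pool.Agent.Helper669.KDelta

theorem SigCl.generic' {P ι : Type} [Preorder P] [Countable ι] (hσ : SigCl P) (p : P)
    (D : ι → Set P) (hd : ∀ i, Down (D i)) (hD : ∀ i, ∀ q ≤ p, ∃ r ≤ q, r ∈ D i) :
    ∃ q ≤ p, ∀ i, q ∈ D i := by
  rcases isEmpty_or_nonempty ι with hι | hι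
  · exact ⟨p, le_rfl, fun i => (hι.false i).elim⟩
  · obtain ⟨e, he⟩ := exists_surjective_nat ι
    obtain ⟨q, hq, h⟩ := hσ.generic p (fun n => D (e n)) (fun n => hd _) (fun n => hD _)
    exact ⟨q, hq, fun i => by
      obtain ⟨n, rfl⟩ := he i
      exact h n⟩

variable {L : Type}

/-- nothing outside of `A` matters for the values of `f` below `r` -/
def Dec (A : Set L) (f : W → ℕ → Set (PP L)) (r : PP L) : Prop :=
  ∀ (c : Cond) (a d e : Ad L), (c, join A a d) ≤ r → (c, join A a e) ≤ r → ∀ α n m,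
    (c, join A a d) ∈ meets (f α n) → (c, join A a e) ∈ meets (f α m) → n = m

theorem split {A : Set L} {f : W → ℕ → Set (PP L)} {q0 : PP L} (hno : ∀ r ≤ q0, ¬ Dec A f r)
    (c : Cond) (a d : Ad L) (h : (c, join A a d) ≤ q0) :
    ∃ p : PP L, p ≤ (c, a) ∧ ∃ d0 d1 : Ad L, d0 ≤ d ∧ d1 ≤ d ∧ ∃ α n0 n1, n0 ≠ n1 ∧
      (p.1, join A p.2 d0) ∈ meets (f α n0) ∧ (p.1, join A p.2 d1) ∈ meets (f α n1) := by
  have h1 := hno _ h
  simp only [Dec, not_forall] at h1
  obtain ⟨c', a', d0, d1, h2, h3, α, n, m, h4, h5, h6⟩ := h1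
  have key : ∀ e : Ad L, (c', join A a' e) ≤ (c, join A a d) → join A d e ≤ d := by
    intro e he x v hv
    by_cases hx : x.1 ∈ A
    · rw [join_mem hx]
      exact hv
    · rw [join_not hx]
      have := he.2 x v (by rw [join_not hx]; exact hv)
      rwa [join_not hx] at this
  have key2 : ∀ e : Ad L, (c', join A (join A a' a) (join A d e)) ≤ (c', join A a' e) := by
    intro e
    refine ⟨le_rfl, le_join (fun x hx v hv => ?_) fun x hx v hv => ?_⟩
    · rw [join_mem hx, join_mem hx]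
      exact hv
    · rw [join_not hx, join_not hx]
      exact hv
  refine ⟨(c', join A a' a), ⟨h2.1, fun x v hv => ?_⟩, join A d d0, join A d d1, key _ h2,
    key _ h3, α, n, m, h6, down_meets _ _ h4 _ (key2 _), down_meets _ _ h5 _ (key2 _)⟩
  by_cases hx : x.1 ∈ A
  · rw [join_mem hx]
    have := h2.2 x v (by rw [join_mem hx]; exact hv)
    rwa [join_mem hx] at this
  · rw [join_not hx]
    exact hv

/-- the states of the construction -/
def St (A : Set L) (q0 : PP L) : Type :=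
  {x : PP L × (List Bool → Ad L) // ∀ s, (x.1.1, join A x.1.2 (x.2 s)) ≤ q0}

theorem step {A : Set L} {f : W → ℕ → Set (PP L)} {q0 : PP L} (hno : ∀ r ≤ q0, ¬ Dec A f r)
    (x : St A q0) : ∃ y : St A q0, y.1.1 ≤ x.1.1 ∧ ∀ s, ∃ α n0 n1, n0 ≠ n1 ∧
      y.1.2 (false :: s) ≤ x.1.2 s ∧ y.1.2 (true :: s) ≤ x.1.2 s ∧
      (y.1.1.1, join A y.1.1.2 (y.1.2 (false :: s))) ∈ meets (f α n0) ∧
      (y.1.1.1, join A y.1.1.2 (y.1.2 (true :: s))) ∈ meets (f α n1) := by
  obtain ⟨u, hu, hD⟩ := PP.sigCl.generic' x.1.1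
    (fun s : List Bool => {p : PP L | ∃ d0 d1 : Ad L, d0 ≤ x.1.2 s ∧ d1 ≤ x.1.2 s ∧
      ∃ α n0 n1, n0 ≠ n1 ∧ (p.1, join A p.2 d0) ∈ meets (f α n0) ∧
        (p.1, join A p.2 d1) ∈ meets (f α n1)}) (by
    rintro s p ⟨d0, d1, h0, h1, α, n0, n1, hne, h2, h3⟩ q hq
    exact ⟨d0, d1, h0, h1, α, n0, n1, hne,
      down_meets _ _ h2 (q.1, join A q.2 d0) ⟨hq.1, join_mono hq.2 le_rfl⟩,
      down_meets _ _ h3 (q.1, join A q.2 d1) ⟨hq.1, join_mono hq.2 le_rfl⟩⟩) (by
    intro s q hq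
    obtain ⟨p, hp, d0, d1, h⟩ := split hno q.1 q.2 (x.1.2 s)
      (le_trans (show (q.1, join A q.2 (x.1.2 s)) ≤ (x.1.1.1, join A x.1.1.2 (x.1.2 s)) from
        ⟨hq.1, join_mono hq.2 le_rfl⟩) (x.2 s))
    exact ⟨p, hp, d0, d1, h⟩)
  choose d0 d1 h0 h1 α n0 n1 hne h2 h3 using hD
  have hmono : ∀ s (d : Ad L), d ≤ x.1.2 s → (u.1, join A u.2 d) ≤ q0 := fun s d hd =>
    le_trans (show (u.1, join A u.2 d) ≤ (x.1.1.1, join A x.1.1.2 (x.1.2 s)) from
        ⟨hu.1, join_mono hu.2 hd⟩) (x.2 s)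
  refine ⟨⟨(u, fun s => match s with
    | [] => x.1.2 []
    | false :: s => d0 s
    | true :: s => d1 s), ?_⟩, hu, fun s => ⟨α s, n0 s, n1 s, hne s, h0 s, h1 s, h2 s, h3 s⟩⟩
  intro s
  match s with
  | [] => exact hmono [] _ le_rfl
  | false :: s => exact hmono s _ (h0 s)
  | true :: s => exact hmono s _ (h1 s)

/-- If `π` is evaluated by conditions with support in `A`, then so is every thread of `π`. -/
theorem exists_dec {A : Set L} {π : W → W → ℕ → ℕ → Set (PP L)} {f : W → ℕ → Set (PP L)}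
    {q0 : PP L} (hπ : ∀ α β, q0 ∈ IsFun (π α β)) (hf : q0 ∈ IsFun f)
    (hth : ∀ α β, α < β → ∀ n m, q0 ∈ fimp (fand (meets (f β n)) (meets (f α m)))
      (meets (π α β n m)))
    (hA : ∀ α β n, ∀ u : PP L, (u.1, join A u.2 emp) ≤ (q0.1, join A q0.2 emp) →
      ∃ u' ≤ u, ∃ m, (u'.1, join A u'.2 emp) ∈ meets (π α β n m)) :
    ∃ r ≤ q0, Dec A f r := by
  by_contra hcon
  push Not at hcon
  choose g hg α n0 n1 hne h0 h1 h2 h3 using step hcon
  have hstart : ∀ s : List Bool, ((q0, fun _ : List Bool => q0.2).1.1,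
      join A (q0, fun _ : List Bool => q0.2).1.2 ((q0, fun _ : List Bool => q0.2).2 s)) ≤ q0 := by
    intro s
    refine ⟨le_rfl, fun x v hv => ?_⟩
    show (join A q0.2 q0.2).s x = some v
    by_cases hx : x.1 ∈ A
    · rwa [join_mem hx]
    · rwa [join_not hx]
  let st : ℕ → St A q0 := fun n => Nat.rec ⟨(q0, fun _ => q0.2), hstart⟩ (fun _ x => g x) n
  have hst : ∀ n, st (n + 1) = g (st n) := fun n => rfl
  have hle : ∀ n, (st (n + 1)).1.1 ≤ (st n).1.1 := fun n => by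
    rw [hst]
    exact hg _
  obtain ⟨δ, hδ⟩ := W_bdd (countable_range fun z : ℕ × List Bool => α (st z.1) z.2)
  obtain ⟨u0, hu0⟩ := PP.sigCl (fun n => (st n).1.1) hle
  obtain ⟨u1, hu1, hD⟩ := PP.sigCl.generic' u0
    (fun z : ℕ × List Bool × ℕ => {u : PP L | ∃ k, (u.1, join A u.2 emp) ∈
      meets (π (α (st z.1) z.2.1) δ z.2.2 k)}) (by
    rintro z u ⟨k, hk⟩ u' hu'
    exact ⟨k, down_meets _ _ hk (u'.1, join A u'.2 emp) ⟨hu'.1, join_mono hu'.2 le_rfl⟩⟩) (by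
    intro z u hu
    have h4 : u ≤ q0 := hu.trans (hu0 0)
    exact hA _ _ _ u ⟨h4.1, join_mono h4.2 le_rfl⟩)
  choose k hk using hD
  -- the path
  let bb : ℕ → List Bool → Bool := fun n s =>
    if n0 (st n) s = k (n, s, n) then true else false
  let pa : ℕ → List Bool := fun n => Nat.rec [] (fun n s => bb n s :: s) n
  have hpa : ∀ n, pa (n + 1) = bb n (pa n) :: pa n := fun n => rfl
  have hdec : ∀ n, (st (n + 1)).1.2 (pa (n + 1)) ≤ (st n).1.2 (pa n) := by
    intro n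
    rw [hpa, hst]
    cases hb : bb n (pa n)
    · exact h0 _ _
    · exact h1 _ _
  have hval : ∀ n, ∃ v, v ≠ k (n, pa n, n) ∧ ((st (n + 1)).1.1.1, join A (st (n + 1)).1.1.2
      ((st (n + 1)).1.2 (pa (n + 1)))) ∈ meets (f (α (st n) (pa n)) v) := by
    intro n
    rw [hpa, hst]
    by_cases h : n0 (st n) (pa n) = k (n, pa n, n)
    · have hb : bb n (pa n) = true := if_pos h
      rw [hb]
      exact ⟨n1 (st n) (pa n), fun h' => hne (st n) (pa n) (h.trans h'.symm), h3 _ _⟩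
    · have hb : bb n (pa n) = false := if_neg h
      rw [hb]
      exact ⟨n0 (st n) (pa n), h, h2 _ _⟩
  choose v hv hv' using hval
  obtain ⟨d, hd⟩ := Ad.sigCl (fun n => (st n).1.2 (pa n)) hdec
  have ht : ∀ n, ((u1.1, join A u1.2 d) : PP L) ≤ ((st n).1.1.1, join A (st n).1.1.2
      ((st n).1.2 (pa n))) := fun n =>
    ⟨(hu1.trans (hu0 n)).1, join_mono (hu1.trans (hu0 n)).2 (hd n)⟩
  have htq : ((u1.1, join A u1.2 d) : PP L) ≤ q0 := (ht 0).trans ((st 0).2 _)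
  have htu : ((u1.1, join A u1.2 d) : PP L) ≤ (u1.1, join A u1.2 emp) :=
    ⟨le_rfl, join_mono le_rfl (le_emp _)⟩
  obtain ⟨t, ht', m, hm⟩ := IsFun.total (down_IsFun f q0 hf _ htq) δ
  have h4 : t ∈ meets (f (α (st m) (pa m)) (v m)) :=
    down_meets _ _ (hv' m) _ (ht'.trans (ht (m + 1)))
  have hlt : α (st m) (pa m) < δ := hδ _ ⟨(m, pa m), rfl⟩
  obtain ⟨t', ht'', h5⟩ := mem_fimp.1 (hth _ _ hlt m (v m)) t (ht'.trans htq) ⟨hm, h4⟩
  have h6 : t' ∈ meets (π (α (st m) (pa m)) δ m (k (m, pa m, m))) :=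
    down_meets _ _ (hk (m, pa m, m)) _ (ht''.trans (ht'.trans htu))
  exact hv m (IsFun.unique (down_IsFun _ q0 (hπ _ _) t' (ht''.trans (ht'.trans htq))) h5 h6)

/-- the restriction of a condition -/
noncomputable def res (A : Set L) (p : PP L) : PP L := (p.1, join A p.2 emp)

theorem lam_res (A : Set L) (p : PP L) : lam (res A p).2 ⊆ A := by
  rintro l ⟨x, hx⟩
  by_contra hl
  apply hx
  show (join A p.2 emp).s (l, x) = none
  rw [join_not hl]
  rfl

theorem le_res (A : Set L) (p : PP L) : p ≤ res A p := by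
  refine ⟨le_rfl, le_join (fun x _ v hv => hv) fun x _ v hv => ?_⟩
  exact absurd hv (by simp [emp])

/-- the names with support in `A` -/
def Nam (A : Set L) : Type := W → ℕ → Set {r : PP L // lam r.2 ⊆ A}

/-- the evaluation of the names with support in `A` -/
def Ev {A : Set L} (y : Nam A) (α : W) (n : ℕ) : Set (PP L) := Subtype.val '' (y α n)

theorem name_of_dec {A : Set L} {f : W → ℕ → Set (PP L)} {r : PP L} (hf : r ∈ IsFun f)
    (hr : Dec A f r) : ∃ y : Nam A, ∀ α n, r ∈ fiff (meets (f α n)) (meets (Ev y α n)) := by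
  refine ⟨fun α n => {z | ∃ r' ≤ r, r' ∈ meets (f α n) ∧ z.1 = res A r'}, fun α n =>
    ⟨mem_fimp.2 fun s hs h => ⟨s, le_rfl, ?_⟩, mem_fimp.2 fun s hs h => ?_⟩⟩
  · exact meets_of_le (s := res A s) ⟨⟨res A s, lam_res A s⟩, ⟨s, hs, h, rfl⟩, rfl⟩ (le_res A s)
  · obtain ⟨t, ht, _, ⟨z, ⟨r', hr', h1, hz⟩, rfl⟩, ht2⟩ := h s le_rfl
    obtain ⟨t', ht', n', hn'⟩ := IsFun.total (down_IsFun f r hf t (ht.trans hs)) α
    have h2 : t' ≤ res A r' := by
      rw [← hz]
      exact ht'.trans ht2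
    have h3 : ((t'.1, join A t'.2 r'.2) : PP L) ≤ r' := by
      refine ⟨h2.1, fun x v hv => ?_⟩
      by_cases hx : x.1 ∈ A
      · rw [join_mem hx]
        refine h2.2 x v ?_
        show (join A r'.2 emp).s x = some v
        rw [join_mem hx]
        exact hv
      · rw [join_not hx]
        exact hv
    have h4 : ((t'.1, join A t'.2 t'.2) : PP L) ≤ t' := by
      refine ⟨le_rfl, fun x v hv => ?_⟩
      by_cases hx : x.1 ∈ A
      · rw [join_mem hx]
        exact hv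
      · rw [join_not hx]
        exact hv
    have h5 : n' = n := hr t'.1 t'.2 t'.2 r'.2 (h4.trans (ht'.trans (ht.trans hs)))
      (h3.trans hr') α n' n (down_meets _ _ hn' _ h4) (down_meets _ _ h1 _ h3)
    exact ⟨t', ht'.trans ht, h5 ▸ hn'⟩

end Pool.Agent.R590.Kst
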