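import Mathlib
import Pool.Agent.R590.KsBr

set_option autoImplicit false

/-!
# The continuum hypothesis, a family with countably many traces, and trees with few branches
-/

namespace Pool.Agent.R590.Kst

open Cardinal Set Pool.Agent.Helper669.Forcing Pool.Agent.R590.Kur Pool.Agent.Helper669.KDelta

/-! ### The hypothesis and its translation -/

/-- (1) There is no function from `ℕ` onto `ω₁`. (2) There is a function from `ω₁` onto the set of
all functions from `ℕ` to `ℕ`. (3) There is a family of pairwise different subsets `A i` (`i` in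
`U`) of `ω₁`, such that for every `j < ω₁` there is a sequence of subsets of `ω₁` such that every
`A i` agrees below `j` with a member of the sequence, and there is no injective function
from `U` to `ω₁`. (4) For every `π` there is a set `Y` such that the threads of `π` (that is, the
functions `f` with `π α β (f β) = f α` for all `α < β`) are among the relations `E y`, `y ∈ Y`,
for some `E`, but the subsets of `ω₁` are not among the sets `B y`, `y ∈ Y`, for any `B`. -/
def Hypothesis : Prop :=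
  (¬ ∃ f : ℕ → W, f.Surjective) ∧
    (∃ E : W → ℕ → ℕ, ∀ x : ℕ → ℕ, ∃ y, x = E y) ∧
    (∃ (U : Type) (A : U → W → Prop),
      (∀ i i', i ≠ i' → ¬ ∀ β, A i β ↔ A i' β) ∧
      (∀ j : W, ∃ e : ℕ → W → Prop, ∀ i, ∃ n, ∀ β, β < j → (A i β ↔ e n β)) ∧
      ¬ ∃ f : U → W, f.Injective) ∧
    ∀ π : W → W → ℕ → ℕ, ∃ Y : Type,
      (∃ E : Y → W → ℕ → Prop, ∀ f : W → ℕ,
        (∀ α β, α < β → ∀ n m, f β = n ∧ f α = m → π α β n = m) →
          ∃ y, ∀ α n, f α = n ↔ E y α n) ∧
      ∀ B : Y → W → Prop, ∃ x : W → Prop, ∀ y, ¬ ∀ β, x β ↔ B y β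

section Names

variable {P : Type} [Preorder P]

/-- The translation of the hypothesis into the forcing language: relations are replaced by names
of relations, functions by names of their graphs. The set `W` is the `ω₁` of the
ground model, and the first clause says that it is still uncountable. -/
def HypothesisN (P : Type) [Preorder P] : Set P :=
  fand (fnot (fex fun R : ℕ → W → Set P => fand (IsFun R) (IsOnto R)))
    (fand (ContinuumLe P W)
      (fand
        (fex fun U : Type => fex fun A : U → W → Set P =>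
          fand (fall fun i : U => fall fun i' : U => fimp (fground (i ≠ i'))
              (fnot (fall fun β => fiff (meets (A i β)) (meets (A i' β)))))
            (fand (fall fun j : W => fex fun e : ℕ → W → Set P => fall fun i : U =>
                fex fun n => fall fun β => fimp (fground (β < j))
                  (fiff (meets (A i β)) (meets (e n β))))
              (fnot (fex fun R : U → W → Set P => fand (IsFun R) (IsInj R)))))
        (fall fun π : W → W → ℕ → ℕ → Set P =>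
          fimp (fall fun α => fall fun β => IsFun (π α β))
            (fex fun Y : Type =>
              fand
                (fex fun E : Y → W → ℕ → Set P => fall fun f : W → ℕ → Set P =>
                  fimp
                    (fand (IsFun f)
                      (fall fun α => fall fun β => fimp (fground (α < β))
                        (fall fun n => fall fun m =>
                          fimp (fand (meets (f β n)) (meets (f α m))) (meets (π α β n m)))))
                    (fex fun y => fall fun α => fall fun n =>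
                      fiff (meets (f α n)) (meets (E y α n))))
                (fall fun B : Y → W → Set P => fex fun x : W → Set P => fall fun y =>
                  fnot (fall fun β => fiff (meets (x β)) (meets (B y β))))))))

end Names

variable {L : Type}

/-! ### The support of the values of `π` -/

theorem mk_WWN : #(W × W × ℕ) ≤ 𝔠 := by
  rw [mk_prod, lift_id, lift_id, mk_prod, lift_id, lift_id, mk_W, mk_nat]
  refine (mul_le_mul' aleph_one_le_continuum ?_).trans continuum_mul_self.le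
  exact (mul_le_mul' aleph_one_le_continuum aleph0_le_continuum).trans continuum_mul_self.le

theorem exists_A {p0 : PP L} {π : W → W → ℕ → ℕ → Set (PP L)}
    (hπ : ∀ α β, p0 ∈ IsFun (π α β)) : ∃ A : Set L, #A ≤ 𝔠 ∧ lam p0.2 ⊆ A ∧
      ∀ α β n, ∀ u : PP L, (u.1, join A u.2 emp) ≤ p0 →
        ∃ u' ≤ u, ∃ m, (u'.1, join A u'.2 emp) ∈ meets (π α β n m) := by
  have h1 : ∀ z : W × W × ℕ, ∃ M ⊆ {q | ∃ m, q ∈ meets (π z.1 z.2.1 z.2.2 m)}, #M ≤ 𝔠 ∧
      ∀ p ≤ p0, ∃ μ ∈ M, Compat p μ := fun z => PP.predense p0 _ fun p hp => by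
    obtain ⟨q, hq, m, hm⟩ := IsFun.total (down_IsFun _ p0 (hπ z.1 z.2.1) p hp) z.2.2
    exact ⟨q, hq, m, hm⟩
  choose M hM hMc hMp using h1
  refine ⟨lam p0.2 ∪ ⋃ z, ⋃ μ ∈ M z, lam μ.2, ?_, subset_union_left, ?_⟩
  · have hc : ∀ p : PP L, #(lam p.2) ≤ 𝔠 := fun p =>
      (Cardinal.le_aleph0_iff_set_countable.2 (countable_lam p.2)).trans aleph0_le_continuum
    refine small_union aleph0_le_continuum (hc _) ?_
    exact small_iUnion aleph0_le_continuum mk_WWN _ fun z =>
      small_biUnion aleph0_le_continuum _ (hMc z) _ fun μ _ => hc μ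
  · intro α β n u hu
    obtain ⟨μ, hμ, r, hr, hr'⟩ := hMp (α, β, n) _ hu
    obtain ⟨m, hm⟩ := hM (α, β, n) hμ
    set A := lam p0.2 ∪ ⋃ z, ⋃ μ ∈ M z, lam μ.2 with hAdef
    have hsub : lam μ.2 ⊆ A := fun l hl =>
      Or.inr (mem_iUnion.2 ⟨(α, β, n), mem_iUnion₂.2 ⟨μ, hμ, hl⟩⟩)
    refine ⟨(r.1, join A r.2 u.2), ⟨hr.1, fun x v hv => ?_⟩, m, down_meets _ _ hm _ ⟨hr'.1, ?_⟩⟩
    · by_cases hx : x.1 ∈ A
      · rw [join_mem hx]
        exact hr.2 x v (by rw [join_mem hx]; exact hv)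
      · rw [join_not hx]
        exact hv
    · intro x v hv
      have hx : x.1 ∈ A := hsub (mem_lam hv)
      rw [join_mem hx, join_mem hx]
      exact hr'.2 x v hv

/-! ### The number of names -/

/-- the bound for the number of names -/
noncomputable def nu : Cardinal.{0} := 2 ^ (#Cond * 2 ^ (𝔠 : Cardinal.{0}))

theorem continuum_le_K : (𝔠 : Cardinal.{0}) ≤ #Cond * 2 ^ (𝔠 : Cardinal.{0}) := by
  have h1 : (1 : Cardinal.{0}) ≤ #Cond := by
    rw [Cardinal.one_le_iff_ne_zero, mk_ne_zero_iff]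
    infer_instance
  calc (𝔠 : Cardinal.{0}) ≤ 2 ^ (𝔠 : Cardinal.{0}) := (cantor _).le
    _ = 1 * 2 ^ (𝔠 : Cardinal.{0}) := (one_mul _).symm
    _ ≤ _ := mul_le_mul' h1 le_rfl

theorem continuum_le_nu : (𝔠 : Cardinal.{0}) ≤ nu := continuum_le_K.trans (cantor _).le

theorem mk_restricted {A : Set L} (hA : #A ≤ 𝔠) :
    #{r : PP L // lam r.2 ⊆ A} ≤ #Cond * 2 ^ (𝔠 : Cardinal.{0}) := by
  have h1 : #{r : PP L // lam r.2 ⊆ A} ≤ #(Cond × (A × W × ℕ → Option ℕ)) := by
    refine mk_le_of_injective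
      (f := fun r => (r.1.1, fun z : A × W × ℕ => r.1.2.s (z.1.1, z.2))) ?_
    intro r r' h
    apply Subtype.ext
    obtain ⟨h2, h3⟩ := Prod.ext_iff.1 h
    change (fun z : A × W × ℕ => r.1.2.s (z.1.1, z.2)) = fun z => r'.1.2.s (z.1.1, z.2) at h3
    change r.1.1 = r'.1.1 at h2
    have h4 : r.1.2.s = r'.1.2.s := by
      funext x
      by_cases hx : x.1 ∈ A
      · exact congrFun h3 (⟨x.1, hx⟩, x.2)
      · have h5 : ∀ r : {r : PP L // lam r.2 ⊆ A}, r.1.2.s x = none := by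
          intro r
          by_contra hne
          obtain ⟨v, hv⟩ := Option.ne_none_iff_exists'.1 hne
          exact hx (r.2 (mem_lam hv))
        rw [h5 r, h5 r']
    have h5 : r.1.2 = r'.1.2 := by
      have hmk : ∀ a b : Ad L, a.s = b.s → a = b := by
        rintro ⟨a, ha⟩ ⟨b, hb⟩ hab
        obtain rfl : a = b := hab
        rfl
      exact hmk _ _ h4
    exact Prod.ext h2 h5
  refine h1.trans ?_
  rw [mk_prod, lift_id, lift_id]
  refine mul_le_mul' le_rfl ?_
  have h6 : #(A × W × ℕ) ≤ 𝔠 := by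
    rw [mk_prod, lift_id, lift_id, mk_prod, lift_id, lift_id, mk_W, mk_nat]
    refine (mul_le_mul' hA ?_).trans continuum_mul_self.le
    exact (mul_le_mul' aleph_one_le_continuum aleph0_le_continuum).trans continuum_mul_self.le
  have h7 : #(Option ℕ) ≤ 𝔠 := by
    rw [mk_option, mk_nat]
    exact (add_le_add aleph0_le_continuum (one_lt_aleph0.le.trans aleph0_le_continuum)).trans
      continuum_add_self.le
  rw [← power_def]
  calc #(Option ℕ) ^ #(A × W × ℕ) ≤ 𝔠 ^ #(A × W × ℕ) := power_le_power_right h7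
    _ ≤ 𝔠 ^ (𝔠 : Cardinal.{0}) := power_le_power_left continuum_ne_zero h6
    _ = 2 ^ (𝔠 : Cardinal.{0}) := power_self_eq aleph0_le_continuum

theorem mk_Nam {A : Set L} (hA : #A ≤ 𝔠) : #(Nam A) ≤ nu := by
  have h1 : #(Nam A) = ((2 ^ #{r : PP L // lam r.2 ⊆ A}) ^ (ℵ₀ : Cardinal.{0})) ^
      (ℵ₁ : Cardinal.{0}) := by
    show #(W → ℕ → Set {r : PP L // lam r.2 ⊆ A}) = _
    rw [← power_def, ← power_def, mk_set, mk_nat, mk_W]
  rw [h1]
  have hK := continuum_le_K
  have h2 : (2 : Cardinal.{0}) ^ #{r : PP L // lam r.2 ⊆ A} ≤ nu :=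
    power_le_power_left two_ne_zero (mk_restricted hA)
  have h3 : nu ^ (ℵ₀ : Cardinal.{0}) = nu := by
    rw [nu, ← power_mul, mul_eq_left (aleph0_le_continuum.trans hK)
      (aleph0_le_continuum.trans hK) aleph0_ne_zero]
  have h4 : nu ^ (ℵ₁ : Cardinal.{0}) = nu := by
    rw [nu, ← power_mul, mul_eq_left (aleph0_le_continuum.trans hK)
      (aleph_one_le_continuum.trans hK) (aleph0_pos.trans aleph0_lt_aleph_one).ne']
  calc _ ≤ (nu ^ (ℵ₀ : Cardinal.{0})) ^ (ℵ₁ : Cardinal.{0}) :=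
        power_le_power_right (power_le_power_right h2)
    _ = nu := by rw [h3, h4]

/-! ### Changing values -/

open Classical in
/-- new values on a countable set -/
noncomputable def updv (q : Ad L) (K : Set (L × W × ℕ)) (hK : K.Countable)
    (g : L × W × ℕ → ℕ) : Ad L where
  s x := if x ∈ K then some (g x) else q.s x
  cnt := by
    refine (hK.union q.cnt).mono fun x hx => ?_
    by_cases h : x ∈ K
    · exact Or.inl h
    · right
      rwa [mem_ofPred_eq, if_neg h] at hx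

theorem updv_mem {q : Ad L} {K : Set (L × W × ℕ)} (hK : K.Countable) {g : L × W × ℕ → ℕ}
    {x : L × W × ℕ} (h : x ∈ K) : (updv q K hK g).s x = some (g x) := if_pos h

theorem updv_not {q : Ad L} {K : Set (L × W × ℕ)} {hK : K.Countable} {g : L × W × ℕ → ℕ}
    {x : L × W × ℕ} (h : x ∉ K) : (updv q K hK g).s x = q.s x := if_neg h

theorem updv_le {q t : Ad L} {K : Set (L × W × ℕ)} (hK : K.Countable) {g : L × W × ℕ → ℕ}
    (h : t ≤ q) (hq : ∀ x ∈ K, q.s x = none) : updv t K hK g ≤ q := by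
  intro x v hv
  by_cases hx : x ∈ K
  · rw [hq x hx] at hv
    exact absurd hv (by simp)
  · rw [updv_not hx]
    exact h x v hv

/-- there is a place without values -/
theorem exists_free (q : Ad L) (l : L) : ∃ α : W, ∀ n, q.s (l, α, n) = none := by
  have h1 : ({x | q.s x ≠ none}.image fun x => x.2.1).Countable := q.cnt.image _
  obtain ⟨δ, hδ⟩ := W_bdd h1
  refine ⟨δ, fun n => ?_⟩
  by_contra hne
  exact lt_irrefl _ (hδ δ ⟨(l, δ, n), hne, rfl⟩)

/-! ### The subsets of `ω₁` -/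

theorem big {Y : Type} (hY : #Y ≤ nu) (hL : ¬ #L ≤ nu) (B : Y → W → Set (PP L)) (p : PP L) :
    p ∈ fex fun x : W → Set (PP L) => fall fun y =>
      fnot (fall fun β => fiff (meets (x β)) (meets (B y β))) := by
  refine mem_fex.2 fun q _ => ?_
  have h1 : ∀ z : Y × W, ∃ M ⊆ {r | r ∈ meets (B z.1 z.2) ∨ r ∈ fnot (meets (B z.1 z.2))},
      #M ≤ 𝔠 ∧ ∀ p ≤ q, ∃ μ ∈ M, Compat p μ := fun z => PP.predense q _ fun p _ => by
    by_cases h : ∃ r ≤ p, r ∈ meets (B z.1 z.2)
    · obtain ⟨r, hr, hr'⟩ := h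
      exact ⟨r, hr, Or.inl hr'⟩
    · push Not at h
      exact ⟨p, le_rfl, Or.inr h⟩
  choose M hM hMc hMp using h1
  have hl : ∃ l, l ∉ ⋃ z, ⋃ μ ∈ M z, lam μ.2 := by
    by_contra hcon
    push Not at hcon
    apply hL
    have h2 : (univ : Set L) = ⋃ z, ⋃ μ ∈ M z, lam μ.2 :=
      (eq_univ_of_forall hcon).symm
    rw [← mk_univ, h2]
    have hnu : ℵ₀ ≤ nu := aleph0_le_continuum.trans continuum_le_nu
    refine small_iUnion hnu ?_ _ fun z => small_biUnion hnu _ ((hMc z).trans continuum_le_nu) _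
      fun μ _ => (Cardinal.le_aleph0_iff_set_countable.2 (countable_lam μ.2)).trans hnu
    rw [mk_prod, lift_id, lift_id, mk_W]
    exact (mul_le_mul' hY (aleph_one_le_continuum.trans continuum_le_nu)).trans
      (mul_eq_self hnu).le
  obtain ⟨l, hl⟩ := hl
  have hlM : ∀ z, ∀ μ ∈ M z, l ∉ lam μ.2 := fun z μ hμ h =>
    hl (mem_iUnion.2 ⟨z, mem_iUnion₂.2 ⟨μ, hμ, h⟩⟩)
  refine ⟨q, le_rfl, fun β => {p | p.2.s (l, β, 0) = some 1}, fun y r hr hall => ?_⟩
  obtain ⟨β, hβ⟩ := exists_free r.2 l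
  obtain ⟨μ, hμ, t, ht, ht'⟩ := hMp (y, β) r hr
  have hμl : ∀ n, μ.2.s (l, β, n) = none := fun n => by
    by_contra hne
    exact hlM _ μ hμ ⟨(β, n), hne⟩
  have hle : ∀ v : ℕ, ((t.1, updv t.2 {(l, β, 0)} (countable_singleton _) fun _ => v) : PP L) ≤ r :=
    fun v => ⟨ht.1, updv_le (countable_singleton _) ht.2 fun x hx => by rw [mem_singleton_iff.1 hx]; exact hβ 0⟩
  have hle' : ∀ v : ℕ, ((t.1, updv t.2 {(l, β, 0)} (countable_singleton _) fun _ => v) : PP L) ≤ μ :=
    fun v => ⟨ht'.1, updv_le (countable_singleton _) ht'.2 fun x hx => by rw [mem_singleton_iff.1 hx]; exact hμl 0⟩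
  rcases hM (y, β) hμ with h | h
  · obtain ⟨t1, ht1, h1⟩ := mem_fimp.1 (hall β).2 _ (hle 0) (down_meets _ _ h _ (hle' 0))
    obtain ⟨t2, ht2, s, hs, hs'⟩ := h1 t1 le_rfl
    have h2 : t2.2.s (l, β, 0) = some 1 := hs'.2 _ _ hs
    have h3 : t2.2.s (l, β, 0) = some 0 :=
      (ht2.trans ht1).2 _ _ (updv_mem (countable_singleton _) (mem_singleton _))
    rw [h2] at h3
    exact absurd h3 (by simp)
  · obtain ⟨t1, ht1, h1⟩ := mem_fimp.1 (hall β).1 _ (hle 1)
      (meets_of_mem (show _ = _ from updv_mem (countable_singleton _) (mem_singleton _)))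
    exact h t1 (ht1.trans (hle' 1)) h1

/-! ### The continuum hypothesis -/

theorem continuumLe (l : L) (p : PP L) : p ∈ ContinuumLe (PP L) W := by
  refine mem_fex.2 fun q _ => ⟨q, le_rfl, fun α n a => {p | p.2.s (l, α, n) = some a},
    fun α => ⟨fun n => ?_, fun n a b => ?_⟩, fun x => mem_fimp.2 fun r _ hr => ?_⟩
  · refine mem_fex.2 fun r _ => ?_
    by_cases h : r.2.s (l, α, n) = none
    · refine ⟨(r.1, updv r.2 {(l, α, n)} (countable_singleton _) fun _ => 0),
        ⟨le_rfl, updv_le (countable_singleton _) le_rfl fun x hx => by rw [mem_singleton_iff.1 hx]; exact h⟩, 0,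
        meets_of_mem (show _ = _ from updv_mem (countable_singleton _) (mem_singleton _))⟩
    · obtain ⟨v, hv⟩ := Option.ne_none_iff_exists'.1 h
      exact ⟨r, le_rfl, v, meets_of_mem hv⟩
  · refine mem_fimp.2 fun r _ h => ?_
    obtain ⟨r1, hr1, s1, hs1, hs1'⟩ := h.1 r le_rfl
    obtain ⟨r2, hr2, s2, hs2, hs2'⟩ := h.2 r1 hr1
    have h1 : r2.2.s (l, α, n) = some a := (hr2.trans hs1').2 _ _ hs1
    have h2 : r2.2.s (l, α, n) = some b := hs2'.2 _ _ hs2
    rw [h1] at h2
    exact ⟨r, le_rfl, Option.some.inj h2⟩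
  · obtain ⟨q2, hq2, y, hy⟩ := PP.sigCl.decide_fun hr
    refine ⟨q2, hq2, mem_fex.2 fun q3 hq3 => ?_⟩
    obtain ⟨α, hα⟩ := exists_free q3.2 l
    refine ⟨(q3.1, updv q3.2 (range fun n : ℕ => (l, α, n)) (countable_range _) fun z => y z.2.2),
      ⟨le_rfl, updv_le (countable_range _) le_rfl ?_⟩, α, fun n a b => ?_⟩
    · rintro _ ⟨n, rfl⟩
      exact hα n
    · refine mem_fimp.2 fun q4 hq4 h => ⟨q4, le_rfl, ?_⟩
      have hq43 : q4 ≤ q3 := by
        refine hq4.trans ⟨le_rfl, updv_le (countable_range _) le_rfl ?_⟩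
        rintro _ ⟨n, rfl⟩
        exact hα n
      have h1 := IsFun.unique (down_IsFun x r hr _ (hq43.trans (hq3.trans hq2)))
        (down_meets _ _ (hy n) _ (hq43.trans hq3)) h.1
      obtain ⟨r2, hr2, s2, hs2, hs2'⟩ := h.2 q4 le_rfl
      have h2 : r2.2.s (l, α, n) = some b := hs2'.2 _ _ hs2
      have h3 : r2.2.s (l, α, n) = some (y n) :=
        (hr2.trans hq4).2 _ _ (updv_mem (countable_range _) (mem_range_self n))
      rw [h3] at h2
      exact h1.symm.trans (Option.some.inj h2)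

theorem omegaOne (p : PP L) :
    p ∈ fnot (fex fun R : ℕ → W → Set (PP L) => fand (IsFun R) (IsOnto R)) := by
  intro q _ hq
  obtain ⟨q1, _, R, hF, hO⟩ := mem_fex.1 hq q le_rfl
  obtain ⟨q2, hq2, x, hx⟩ := PP.sigCl.decide_fun hF
  obtain ⟨δ, hδ⟩ := W_bdd (countable_range x)
  obtain ⟨q3, hq3, n, hn⟩ := mem_fex.1 (hO δ) q2 hq2
  have h1 := IsFun.unique (down_IsFun R q1 hF _ (hq3.trans hq2)) (down_meets _ _ (hx n) _ hq3) hn
  have h2 := hδ (x n) ⟨n, rfl⟩
  rw [h1] at h2
  exact lt_irrefl _ h2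

/-! ### The family -/

/-- the names of the members of the family -/
def An (i : Th) (β : W) : Set (PP L) := {p | i ∈ p.1.I ∧ β ∈ p.1.f i}

theorem mem_An_iff {p : PP L} {i : Th} (hi : i ∈ p.1.I) {β : W} (hβ : β < p.1.al) :
    p ∈ meets (An i β) ↔ β ∈ p.1.f i := by
  constructor
  · intro h
    obtain ⟨r, hr, s, hs, hrs⟩ := h p le_rfl
    have h1 : β ∈ r.1.f i := (Cond.val hrs.1 hs.1 (s.1.bdd i hs.1 hs.2)).2 hs.2
    exact (Cond.val hr.1 hi hβ).1 h1
  · intro h
    exact meets_of_mem ⟨hi, h⟩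

/-- the names of ground model sets -/
def chk (h : Prop) : Set (PP L) := {_p | h}

theorem mem_chk {p : PP L} {h : Prop} : p ∈ meets (chk h) ↔ h :=
  ⟨fun h1 => by
    obtain ⟨_, _, _, h2, _⟩ := h1 p le_rfl
    exact h2, fun h1 => meets_of_mem h1⟩

theorem fiff_of {φ ψ : Set (PP L)} {p : PP L} (h : ∀ q ≤ p, (q ∈ φ ↔ q ∈ ψ)) : p ∈ fiff φ ψ :=
  ⟨mem_fimp.2 fun q hq h1 => ⟨q, le_rfl, (h q hq).1 h1⟩,
    mem_fimp.2 fun q hq h1 => ⟨q, le_rfl, (h q hq).2 h1⟩⟩

/-- extending the first coordinate -/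
theorem ext_fst {q : PP L} {D : Set Cond} (h : ∃ r ≤ q.1, r ∈ D) : ∃ r ≤ q, r.1 ∈ D := by
  obtain ⟨r, hr, hD⟩ := h
  exact ⟨(r, q.2), ⟨hr, le_rfl⟩, hD⟩

theorem distinct (p : PP L) {i j : Th} (hij : i ≠ j) :
    p ∈ fnot (fall fun β => fiff (meets (An i β)) (meets (An j β))) := by
  intro q _ hq
  obtain ⟨q1, hq1, hi⟩ := ext_fst (q := q) (D := {r | i ∈ r.I}) (Cond.exists_mem q.1 i)
  obtain ⟨q2, hq2, hj⟩ := ext_fst (q := q1) (D := {r | j ∈ r.I}) (Cond.exists_mem q1.1 j)
  have hi2 : i ∈ q2.1.I := hq2.1.2.1 hi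
  have h1 : (((q2.1.spl i), q2.2) : PP L) ≤ q2 := ⟨Cond.spl_le q2.1 i, le_rfl⟩
  have h2 : i ∈ (q2.1.spl i).I := hi2
  have h3 : j ∈ (q2.1.spl i).I := hj
  have hlt : q2.1.al < (q2.1.spl i).al := lt_up _
  have h4 : q2.1.al ∈ (q2.1.spl i).f i := by
    have : (q2.1.spl i).f i = insert q2.1.al (q2.1.f i) := if_pos rfl
    rw [this]
    exact mem_insert _ _
  have h5 : q2.1.al ∉ (q2.1.spl i).f j := by
    have : (q2.1.spl i).f j = q2.1.f j := if_neg hij.symm
    rw [this]
    exact fun h => lt_irrefl q2.1.al (q2.1.bdd j hj h)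
  obtain ⟨r, hr, hr'⟩ := mem_fimp.1 (hq q2.1.al).1 (q2.1.spl i, q2.2) (h1.trans (hq2.trans hq1))
    ((mem_An_iff (p := (q2.1.spl i, q2.2)) h2 hlt).2 h4)
  have h6 := (mem_An_iff (hr.1.2.1 h3) (hlt.trans_le hr.1.1)).1 hr'
  exact h5 ((Cond.val hr.1 h3 hlt).1 h6)

theorem traces (p : PP L) (j : W) : p ∈ fex fun e : ℕ → W → Set (PP L) => fall fun i : Th =>
    fex fun n => fall fun β => fimp (fground (β < j)) (fiff (meets (An i β)) (meets (e n β))) := by
  refine mem_fex.2 fun q _ => ?_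
  obtain ⟨q1, hq1, hal⟩ := ext_fst (q := q) (D := {r | j ≤ r.al}) (Cond.exists_high q.1 j)
  obtain ⟨e, he⟩ := q1.1.cnt.exists_eq_range q1.1.ne
  refine ⟨q1, hq1, fun n β => chk (β ∈ q1.1.f (e n)), fun i => mem_fex.2 fun r hr => ?_⟩
  obtain ⟨r1, hr1, hi⟩ := ext_fst (q := r) (D := {r | i ∈ r.I}) (Cond.exists_mem r.1 i)
  have h1 : r1 ≤ q1 := hr1.trans hr
  obtain ⟨k, hk, hk'⟩ := h1.1.2.2.2 i hi
  rw [he] at hk
  obtain ⟨n, rfl⟩ := hk
  refine ⟨r1, hr1, n, fun β => mem_fimp.2 fun r2 hr2 hβ => ⟨r2, le_rfl, ?_⟩⟩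
  have hβ' : β < q1.1.al := lt_of_lt_of_le hβ hal
  refine fiff_of fun r3 hr3 => ?_
  have hr31 : r3 ≤ r1 := hr3.trans hr2
  rw [mem_chk, mem_An_iff (hr31.1.2.1 hi) (hβ'.trans_le (hr31.trans h1).1.1),
    Cond.val hr31.1 hi (hβ'.trans_le h1.1.1), ← hk']
  exact ⟨fun h => ⟨h, hβ'⟩, fun h => h.1⟩

theorem noInj (p : PP L) :
    p ∈ fnot (fex fun R : Th → W → Set (PP L) => fand (IsFun R) (IsInj R)) := by
  intro q _ hq
  obtain ⟨q1, _, R, hF, hI⟩ := mem_fex.1 hq q le_rfl
  choose r hr y hy using fun i => IsFun.total hF i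
  have hTh : ¬ #Th ≤ 𝔠 := by
    rw [mk_Th]
    exact not_le.2 (Order.lt_succ _)
  obtain ⟨y0, hy0⟩ := pigeon hTh (mk_W.le.trans aleph_one_le_continuum) y
  obtain ⟨b, b', hne, s, hs, hs'⟩ := PP.compat hy0 fun i => r i.1
  have h1 : s ∈ meets (R b.1 y0) := by
    have := down_meets _ _ (hy b.1) s hs
    rwa [b.2] at this
  have h2 : s ∈ meets (R b'.1 y0) := by
    have := down_meets _ _ (hy b'.1) s hs'
    rwa [b'.2] at this
  exact hne (Subtype.ext (IsInj.eq (down_IsInj R q1 hI s (hs.trans (hr b.1))) h1 h2))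

/-! ### The number of threads -/

theorem threads (hL : ¬ #L ≤ nu) (p : PP L) (π : W → W → ℕ → ℕ → Set (PP L)) :
    p ∈ fimp (fall fun α => fall fun β => IsFun (π α β))
      (fex fun Y : Type =>
        fand
          (fex fun E : Y → W → ℕ → Set (PP L) => fall fun f : W → ℕ → Set (PP L) =>
            fimp
              (fand (IsFun f)
                (fall fun α => fall fun β => fimp (fground (α < β))
                  (fall fun n => fall fun m =>
                    fimp (fand (meets (f β n)) (meets (f α m))) (meets (π α β n m)))))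
              (fex fun y => fall fun α => fall fun n =>
                fiff (meets (f α n)) (meets (E y α n))))
          (fall fun B : Y → W → Set (PP L) => fex fun x : W → Set (PP L) => fall fun y =>
            fnot (fall fun β => fiff (meets (x β)) (meets (B y β))))) := by
  refine mem_fimp.2 fun p0 _ hπ => ⟨p0, le_rfl, ?_⟩
  obtain ⟨A, hA, hA0, hA'⟩ := exists_A (p0 := p0) hπ
  refine mem_fex.2 fun q hq => ⟨q, le_rfl, Nam A, ?_, fun B => big (mk_Nam hA) hL B q⟩
  refine mem_fex.2 fun q' hq' => ⟨q', le_rfl, Ev, fun f => mem_fimp.2 fun q0 hq0 hf => ?_⟩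
  have hq00 : q0 ≤ p0 := hq0.trans (hq'.trans hq)
  obtain ⟨r, hr, hdec⟩ := exists_dec (A := A) (π := π) (f := f) (q0 := q0)
    (fun α β => down_IsFun _ p0 (hπ α β) q0 hq00) hf.1
    (fun α β hαβ n m => by
      refine mem_fimp.2 fun s hs h => ?_
      obtain ⟨s', hs', h'⟩ := mem_fimp.1 (hf.2 α β) s hs hαβ
      obtain ⟨s'', hs'', h''⟩ := mem_fimp.1 (h' n m) s' le_rfl
        ⟨down_meets _ _ h.1 _ hs', down_meets _ _ h.2 _ hs'⟩
      exact ⟨s'', hs''.trans hs', h''⟩)
    (fun α β n u hu => hA' α β n u (hu.trans ⟨hq00.1, fun x v hv => by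
      rw [join_mem (hA0 (mem_lam hv))]
      exact hq00.2 x v hv⟩))
  obtain ⟨y, hy⟩ := name_of_dec (down_IsFun f q0 hf.1 r hr) hdec
  refine ⟨r, hr, mem_fex.2 fun s hs => ⟨s, le_rfl, y, fun α n => ?_⟩⟩
  exact down_fand (down_fimp _ _) (down_fimp _ _) r (hy α n) s hs

theorem forced (hL : ¬ #L ≤ nu) (l : L) (p : PP L) : p ∈ HypothesisN (PP L) := by
  refine ⟨omegaOne p, continuumLe l p, ?_, fun π => threads hL p π⟩
  refine mem_fex.2 fun q _ => ⟨q, le_rfl, Th, mem_fex.2 fun q1 _ => ⟨q1, le_rfl, An,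
    fun i i' => ?_, fun j => traces q1 j, noInj q1⟩⟩
  exact mem_fimp.2 fun q3 _ h => ⟨q3, le_rfl, distinct q3 h⟩

theorem exists_forcing : ∃ (P : Type) (_ : Preorder P), Nonempty P ∧ ∀ p : P, p ∈ HypothesisN P := by
  have hL : ¬ #((Order.succ nu).out) ≤ nu := by
    rw [mk_out]
    exact not_le.2 (Order.lt_succ _)
  have hne : Nonempty (Order.succ nu).out := by
    rw [← mk_ne_zero_iff, mk_out]
    exact (Order.bot_lt_succ _).ne'
  obtain ⟨l⟩ := hne
  obtain ⟨c⟩ := (inferInstance : Nonempty Cond)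
  exact ⟨PP (Order.succ nu).out, inferInstance, ⟨(c, emp)⟩, forced hL l⟩

end Pool.Agent.R590.Kst
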