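import Mathlib
import Pool.Agent.R590.KsForce

set_option autoImplicit false

/-!
# Trees, cofinal branches and the cone topology
-/

namespace Pool.Agent.R590.Kst

open Cardinal Set Pool.Agent.Helper669.Forcing Pool.Agent.R590.Kur Pool.Agent.Helper669.KDelta

/-! ### Definitions -/

/-- The level `α` of `T`: the nodes whose set of predecessors is isomorphic to the ordinal `α`. -/
def level (T : Type) [PartialOrder T] (α : Ordinal.{0}) : Set T :=
  {t | Nonempty (Iio t ≃o α.ToType)}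

/-- `T` is an `ω₁`-tree: the set of predecessors of every node is well-ordered (isomorphic to an
ordinal), the height is `ω₁`, and the levels are countable. -/
structure IsOmegaOneTree (T : Type) [PartialOrder T] : Prop where
  tree : ∀ t : T, ∃ α, t ∈ level T α
  height : ∀ α, (level T α).Nonempty ↔ α < (ℵ₁ : Cardinal.{0}).ord
  countable : ∀ α, (level T α).Countable

/-- The cofinal branches of `T`: the downward closed linearly ordered subsets which meet every
level `α < ω₁`. -/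
def Branch (T : Type) [PartialOrder T] : Type :=
  {b : Set T // (∀ t ∈ b, ∀ s, s ≤ t → s ∈ b) ∧ IsChain (· ≤ ·) b ∧
    ∀ α < (ℵ₁ : Cardinal.{0}).ord, (b ∩ level T α).Nonempty}

/-- The cone topology on the set of cofinal branches. -/
instance (T : Type) [PartialOrder T] : TopologicalSpace (Branch T) :=
  TopologicalSpace.generateFrom {s | ∃ t : T, s = {b | t ∈ b.1}}

/-- The functions from `ω₁` to `2`. -/
def Two : Type := (ℵ₁ : Cardinal.{0}).ord.ToType → Bool

/-- The cone topology on the functions from `ω₁` to `2`: the basic open sets are the sets of all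
extensions of the restriction of some `f` to some `α < ω₁`. -/
instance : TopologicalSpace Two :=
  TopologicalSpace.generateFrom {s | ∃ (f : Two) (α : (ℵ₁ : Cardinal.{0}).ord.ToType),
    s = {g | ∀ β < α, g β = f β}}

/-- `T` is a Kurepa tree. -/
def IsKurepa (T : Type) [PartialOrder T] : Prop := IsOmegaOneTree T ∧ ℵ_ 2 ≤ #(Branch T)

/-- The Kurepa tree `T` is strong. -/
def IsStrong (T : Type) [PartialOrder T] : Prop :=
  ∃ f : Branch T → Two, Continuous f ∧ Function.Surjective f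

/-! ### Levels -/

section Level

variable {T : Type} [PartialOrder T]

theorem mem_level {t : T} {α : Ordinal.{0}} : t ∈ level T α ↔ Nonempty (Iio t ≃o Iio α) :=
  ⟨fun ⟨e⟩ => ⟨e.trans Ordinal.ToType.mk.symm⟩, fun ⟨e⟩ => ⟨e.trans Ordinal.ToType.mk⟩⟩

theorem level_unique {t : T} {α β : Ordinal.{0}} (h : t ∈ level T α) (h' : t ∈ level T β) :
    α = β := by
  obtain ⟨e⟩ := h
  obtain ⟨e'⟩ := h'
  have h1 : Ordinal.type (α := α.ToType) (· < ·) = Ordinal.type (α := β.ToType) (· < ·) :=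
    Ordinal.type_eq.2 ⟨(e.symm.trans e').toRelIsoLT⟩
  rwa [Ordinal.type_toType, Ordinal.type_toType] at h1

theorem level_lt {t s : T} (hts : t < s) {α β : Ordinal.{0}} (hs : s ∈ level T α)
    (ht : t ∈ level T β) : β < α := by
  obtain ⟨e⟩ := mem_level.1 hs
  have h1 : (e ⟨t, hts⟩).1 < α := (e ⟨t, hts⟩).2
  suffices h2 : t ∈ level T (e ⟨t, hts⟩).1 by
    rw [level_unique ht h2]
    exact h1
  refine mem_level.2 ⟨RelIso.ofSurjective (OrderEmbedding.ofMapLEIff
    (fun x : Iio t => (⟨(e ⟨x.1, lt_trans x.2 hts⟩).1, ?_⟩ : Iio (e ⟨t, hts⟩).1)) ?_) ?_⟩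
  · show (e ⟨x.1, lt_trans x.2 hts⟩).1 < (e ⟨t, hts⟩).1
    have h3 : (⟨x.1, lt_trans x.2 hts⟩ : Iio s) < ⟨t, hts⟩ := x.2
    exact e.lt_iff_lt.2 h3
  · intro a b
    show (e ⟨a.1, _⟩).1 ≤ (e ⟨b.1, _⟩).1 ↔ a ≤ b
    exact e.le_iff_le (x := ⟨a.1, lt_trans a.2 hts⟩) (y := ⟨b.1, lt_trans b.2 hts⟩)
  · rintro ⟨γ, hγ⟩
    have hγ' : γ < (e ⟨t, hts⟩).1 := hγ
    have h4 : e.symm ⟨γ, hγ'.trans h1⟩ < ⟨t, hts⟩ := by
      rw [e.symm_apply_lt]
      exact hγ'
    refine ⟨⟨(e.symm ⟨γ, hγ'.trans h1⟩).1, h4⟩, Subtype.ext ?_⟩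
    show (e (e.symm ⟨γ, hγ'.trans h1⟩)).1 = γ
    rw [e.apply_symm_apply]

end Level

/-! ### Threads code branches -/

/-- the ordinal of an element of `W` -/
noncomputable def od (a : W) : Ordinal.{0} := (Ordinal.ToType.mk.symm a).1

theorem od_lt (a : W) : od a < (ℵ₁ : Cardinal.{0}).ord := (Ordinal.ToType.mk.symm a).2

theorem od_lt_od {a b : W} : od a < od b ↔ a < b :=
  Ordinal.ToType.mk.symm.lt_iff_lt (x := a) (y := b)

theorem exists_od {α : Ordinal.{0}} (h : α < (ℵ₁ : Cardinal.{0}).ord) : ∃ a, od a = α :=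
  ⟨Ordinal.ToType.mk ⟨α, h⟩, by rw [od, OrderIso.symm_apply_apply]⟩

theorem exists_code {T : Type} [PartialOrder T] (hT : IsOmegaOneTree T) :
    ∃ (π : W → W → ℕ → ℕ) (F : Branch T → W → ℕ), Function.Injective F ∧
      ∀ b, ∀ α β, α < β → π α β (F b β) = F b α := by
  have h1 : ∀ a : W, ∃ e : ℕ → T, level T (od a) = range e := fun a =>
    (hT.countable _).exists_eq_range ((hT.height _).2 (od_lt a))
  choose e he using h1
  have hmem : ∀ a m, e a m ∈ level T (od a) := fun a m => by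
    rw [he a]
    exact mem_range_self m
  have hbr : ∀ (b : Branch T) (a : W), ∃ m, e a m ∈ b.1 := by
    intro b a
    obtain ⟨t, ht, ht'⟩ := b.2.2.2 (od a) (od_lt a)
    rw [he a] at ht'
    obtain ⟨m, rfl⟩ := ht'
    exact ⟨m, ht⟩
  have huniq : ∀ (b : Branch T) (a : W) (s t : T), s ∈ b.1 → t ∈ b.1 → s ∈ level T (od a) →
      t ∈ level T (od a) → s = t := by
    intro b a s t hs ht hs' ht'
    by_contra hne
    rcases b.2.2.1 hs ht hne with h | h
    · exact lt_irrefl _ (level_lt (lt_of_le_of_ne h hne) ht' hs')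
    · exact lt_irrefl _ (level_lt (lt_of_le_of_ne h (Ne.symm hne)) hs' ht')
  refine ⟨fun a b n => sInf {m | e a m < e b n}, fun b a => sInf {m | e a m ∈ b.1}, ?_, ?_⟩
  · intro b b' hbb
    have hsub : ∀ b b' : Branch T, ((fun a => sInf {m | e a m ∈ b.1}) : W → ℕ) =
        (fun a => sInf {m | e a m ∈ b'.1}) → ∀ t ∈ b.1, t ∈ b'.1 := by
      intro b b' hbb t ht
      obtain ⟨α, hα⟩ := hT.tree t
      obtain ⟨a, rfl⟩ := exists_od ((hT.height α).1 ⟨t, hα⟩)
      have h2 : e a (sInf {m | e a m ∈ b.1}) ∈ b.1 :=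
        Nat.sInf_mem (s := {m | e a m ∈ b.1}) (hbr b a)
      have h3 : e a (sInf {m | e a m ∈ b'.1}) ∈ b'.1 :=
        Nat.sInf_mem (s := {m | e a m ∈ b'.1}) (hbr b' a)
      rw [← congrFun hbb a] at h3
      rw [huniq b a t _ ht h2 hα (hmem _ _)]
      exact h3
    exact Subtype.ext (Set.ext fun t => ⟨hsub b b' hbb t, hsub b' b hbb.symm t⟩)
  · intro b α β hαβ
    show sInf {m | e α m < e β (sInf {m | e β m ∈ b.1})} = sInf {m | e α m ∈ b.1}
    have h2 : e β (sInf {m | e β m ∈ b.1}) ∈ b.1 :=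
      Nat.sInf_mem (s := {m | e β m ∈ b.1}) (hbr b β)
    congr 1
    ext m
    constructor
    · intro h
      exact b.2.1 _ h2 _ (le_of_lt h)
    · intro h
      have hne : e α m ≠ e β (sInf {m | e β m ∈ b.1}) := by
        intro heq
        have h3 := level_unique (hmem α m) (heq ▸ hmem β _)
        have h4 := od_lt_od.2 hαβ
        rw [h3] at h4
        exact lt_irrefl _ h4
      rcases b.2.2.1 h h2 hne with h5 | h5
      · exact lt_of_le_of_ne h5 hne
      · have h6 := level_lt (lt_of_le_of_ne h5 hne.symm) (hmem _ _) (hmem _ _)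
        exact absurd (h6.trans (od_lt_od.2 hαβ)) (lt_irrefl _)

theorem mk_Two : #Two = 2 ^ (ℵ₁ : Cardinal.{0}) := by
  show #(W → Bool) = _
  rw [← power_def, mk_W, mk_bool]

/-! ### The tree of a family -/

section Family

variable {U : Type} (u : U → Set W)

/-- the nodes of the tree of the initial segments of the members of the family -/
def Tr : Type := {x : W × Set W // ∃ i, x.2 = u i ∩ Iio x.1}

instance : PartialOrder (Tr u) where
  le x y := x.1.1 ≤ y.1.1 ∧ x.1.2 = y.1.2 ∩ Iio x.1.1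
  le_refl x := ⟨le_rfl, by
    obtain ⟨i, hi⟩ := x.2
    rw [hi, inter_assoc, inter_self]⟩
  le_trans x y z := by
    rintro ⟨h1, h2⟩ ⟨h3, h4⟩
    refine ⟨h1.trans h3, ?_⟩
    rw [h2, h4, inter_assoc, Iio_inter_Iio, min_eq_right h1]
  le_antisymm x y := by
    rintro ⟨h1, h2⟩ ⟨h3, h4⟩
    have h5 : x.1.1 = y.1.1 := le_antisymm h1 h3
    refine Subtype.ext (Prod.ext h5 ?_)
    obtain ⟨i, hi⟩ := y.2
    rw [h2, hi, inter_assoc, h5, inter_self]

variable {u}

theorem Tr.le_def {x y : Tr u} : x ≤ y ↔ x.1.1 ≤ y.1.1 ∧ x.1.2 = y.1.2 ∩ Iio x.1.1 := Iff.rfl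

/-- the node below `y` at height `a` -/
def Tr.cut (y : Tr u) (a : W) (h : a ≤ y.1.1) : Tr u :=
  ⟨(a, y.1.2 ∩ Iio a), by
    obtain ⟨i, hi⟩ := y.2
    refine ⟨i, ?_⟩
    show y.1.2 ∩ Iio a = u i ∩ Iio a
    rw [hi, inter_assoc, Iio_inter_Iio, min_eq_right h]⟩

theorem Tr.lt_iff {x y : Tr u} : x < y ↔ x.1.1 < y.1.1 ∧ x.1.2 = y.1.2 ∩ Iio x.1.1 := by
  constructor
  · intro h
    refine ⟨lt_of_le_of_ne h.le.1 fun heq => h.ne ?_, h.le.2⟩
    refine Subtype.ext (Prod.ext heq ?_)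
    obtain ⟨i, hi⟩ := y.2
    rw [h.le.2, hi, inter_assoc, heq, inter_self]
  · rintro ⟨h1, h2⟩
    refine lt_of_le_of_ne ⟨h1.le, h2⟩ ?_
    rintro rfl
    exact lt_irrefl _ h1

theorem Tr.mem_level (y : Tr u) : y ∈ level (Tr u) (od y.1.1) := by
  refine Kst.mem_level.2 ⟨RelIso.ofSurjective (OrderEmbedding.ofMapLEIff
    (fun x : Iio y => (⟨od x.1.1.1, od_lt_od.2 (Tr.lt_iff.1 x.2).1⟩ : Iio (od y.1.1))) ?_) ?_⟩
  · intro a b
    show od a.1.1.1 ≤ od b.1.1.1 ↔ a.1 ≤ b.1
    have h1 : od a.1.1.1 ≤ od b.1.1.1 ↔ a.1.1.1 ≤ b.1.1.1 := by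
      rw [← not_lt, ← not_lt, od_lt_od]
    rw [h1]
    refine ⟨fun h => ⟨h, ?_⟩, fun h => h.1⟩
    rw [(Tr.lt_iff.1 a.2).2, (Tr.lt_iff.1 b.2).2, inter_assoc, Iio_inter_Iio, min_eq_right h]
  · rintro ⟨γ, hγ⟩
    have hγ' : γ < od y.1.1 := hγ
    obtain ⟨a, rfl⟩ := exists_od (hγ'.trans (od_lt _))
    have h1 : a < y.1.1 := od_lt_od.1 hγ'
    exact ⟨⟨y.cut a h1.le, Tr.lt_iff.2 ⟨h1, rfl⟩⟩, rfl⟩

/-- the node of height `a` on the branch `i` -/
def Tr.node (i : U) (a : W) : Tr u := ⟨(a, u i ∩ Iio a), i, rfl⟩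

theorem Tr.isOmegaOneTree (hne : Nonempty U)
    (hc : ∀ j, (range fun s => u s ∩ Iio j).Countable) : IsOmegaOneTree (Tr u) := by
  refine ⟨fun t => ⟨_, t.mem_level⟩, fun α => ⟨?_, fun h => ?_⟩, fun α => ?_⟩
  · rintro ⟨t, ht⟩
    rw [level_unique ht t.mem_level]
    exact od_lt _
  · obtain ⟨a, rfl⟩ := exists_od h
    obtain ⟨i⟩ := hne
    exact ⟨Tr.node i a, Tr.mem_level _⟩
  · by_cases hα : α < (ℵ₁ : Cardinal.{0}).ord
    · obtain ⟨a, rfl⟩ := exists_od hα
      have hinj : ∀ x ∈ level (Tr u) (od a), x.1.1 = a := by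
        intro x hx
        have h1 := level_unique hx x.mem_level
        rcases lt_trichotomy x.1.1 a with h | h | h
        · exact absurd (h1 ▸ od_lt_od.2 h) (lt_irrefl _)
        · exact h
        · exact absurd (h1 ▸ od_lt_od.2 h) (lt_irrefl _)
      refine MapsTo.countable_of_injOn (f := fun x : Tr u => x.1.2) ?_ ?_ (hc a)
      · intro x hx
        obtain ⟨i, hi⟩ := x.2
        refine ⟨i, ?_⟩
        show u i ∩ Iio a = x.1.2
        rw [hi, hinj x hx]
      · intro x hx y hy hxy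
        exact Subtype.ext (Prod.ext ((hinj x hx).trans (hinj y hy).symm) hxy)
    · convert countable_empty
      rw [eq_empty_iff_forall_notMem]
      intro t ht
      apply hα
      rw [level_unique ht t.mem_level]
      exact od_lt _

/-- the branch `i` -/
def Tr.branch (i : U) : Branch (Tr u) :=
  ⟨range (Tr.node i), by
    rintro _ ⟨a, rfl⟩ s hs
    refine ⟨s.1.1, Subtype.ext (Prod.ext rfl ?_)⟩
    show u i ∩ Iio s.1.1 = s.1.2
    rw [hs.2]
    show _ = (u i ∩ Iio a) ∩ Iio s.1.1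
    have h : s.1.1 ≤ a := hs.1
    rw [inter_assoc, Iio_inter_Iio, min_eq_right h], by
    rintro _ ⟨a, rfl⟩ _ ⟨b, rfl⟩ _
    have key : ∀ a b : W, a ≤ b → (Tr.node i a : Tr u) ≤ Tr.node i b := by
      intro a b hab
      refine ⟨hab, ?_⟩
      show u i ∩ Iio a = (u i ∩ Iio b) ∩ Iio a
      rw [inter_assoc, Iio_inter_Iio, min_eq_right hab]
    rcases le_total a b with h | h
    · exact Or.inl (key _ _ h)
    · exact Or.inr (key _ _ h), by
    intro α hα
    obtain ⟨a, rfl⟩ := exists_od hα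
    exact ⟨Tr.node i a, mem_range_self a, Tr.mem_level _⟩⟩

theorem Tr.branch_injective (hu : Function.Injective u) :
    Function.Injective (Tr.branch : U → Branch (Tr u)) := by
  intro i j hij
  apply hu
  have h1 : range (Tr.node i : W → Tr u) = range (Tr.node j) := congrArg Subtype.val hij
  have h2 : ∀ a, u i ∩ Iio a = u j ∩ Iio a := by
    intro a
    have h3 : (Tr.node i a : Tr u) ∈ range (Tr.node j : W → Tr u) := by
      rw [← h1]
      exact mem_range_self a
    obtain ⟨b, hb⟩ := h3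
    have h4 : b = a := congrArg (fun x : Tr u => x.1.1) hb
    have h5 : u j ∩ Iio b = u i ∩ Iio a := congrArg (fun x : Tr u => x.1.2) hb
    rw [← h5, h4]
  ext β
  have h3 : ∀ i, β ∈ u i ↔ β ∈ u i ∩ Iio (up β) := fun i =>
    ⟨fun h => ⟨h, lt_up β⟩, fun h => h.1⟩
  rw [h3 i, h3 j, h2]

end Family

/-! ### The meaning and the consequences of the hypothesis -/

/-- The meaning of the hypothesis. -/
theorem hypothesis_iff : Hypothesis ↔ (2 : Cardinal.{0}) ^ (ℵ₀ : Cardinal.{0}) = ℵ₁ ∧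
    (∃ (U : Type) (u : U → Set W), Function.Injective u ∧ ℵ₁ < #U ∧
      ∀ j, (range fun s => u s ∩ Iio j).Countable) ∧
    ∀ π : W → W → ℕ → ℕ, #{f : W → ℕ // ∀ α β, α < β → π α β (f β) = f α} <
      2 ^ (ℵ₁ : Cardinal.{0}) := by
  have h8 : #(ℕ → ℕ) = 𝔠 := by
    rw [← power_def, mk_nat, aleph0_power_aleph0]
  constructor
  · rintro ⟨-, ⟨E, hE⟩, ⟨U, A, h1, h2, h3⟩, h4⟩
    refine ⟨?_, ⟨U, fun i => {β | A i β}, ?_, ?_, ?_⟩, fun π => ?_⟩
    · have h5 : Function.Surjective E := fun x => by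
        obtain ⟨y, hy⟩ := hE x
        exact ⟨y, hy.symm⟩
      have h6 := mk_le_of_surjective h5
      rw [h8, mk_W] at h6
      rw [two_power_aleph0]
      exact le_antisymm h6 aleph_one_le_continuum
    · intro i j hij
      by_contra hne
      refine h1 i j hne fun β => ?_
      have h5 : {β | A i β} = {β | A j β} := hij
      have : β ∈ {β | A i β} ↔ β ∈ {β | A j β} := by rw [h5]
      exact this
    · by_contra hcon
      apply h3
      have h5 : #U ≤ #W := by
        rw [mk_W]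
        exact not_lt.1 hcon
      obtain ⟨g⟩ := h5
      exact ⟨g, g.injective⟩
    · intro j
      obtain ⟨e, he⟩ := h2 j
      refine (countable_range fun n => {β | e n β ∧ β < j}).mono ?_
      rintro _ ⟨i, rfl⟩
      obtain ⟨n, hn⟩ := he i
      refine ⟨n, ?_⟩
      ext β
      constructor
      · rintro ⟨h5, h6⟩
        exact ⟨(hn β h6).2 h5, h6⟩
      · rintro ⟨h5, h6⟩
        exact ⟨(hn β h6).1 h5, h6⟩
    · obtain ⟨Y, ⟨E, hE⟩, hB⟩ := h4 π
      have h5 : #{f : W → ℕ // ∀ α β, α < β → π α β (f β) = f α} ≤ #Y := by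
        have h6 : ∀ f : {f : W → ℕ // ∀ α β, α < β → π α β (f β) = f α},
            ∃ y, ∀ α n, f.1 α = n ↔ E y α n := fun f =>
          hE f.1 fun α β hαβ n m h => by
            rw [← h.1, ← h.2]
            exact f.2 α β hαβ
        choose y hy using h6
        refine mk_le_of_injective (f := y) fun f g hfg => Subtype.ext (funext fun α => ?_)
        exact (hy f α (g.1 α)).2 (hfg ▸ (hy g α (g.1 α)).1 rfl)
      refine h5.trans_lt ?_
      by_contra hcon
      have h6 : #(W → Prop) ≤ #Y := by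
        have : #(W → Prop) = 2 ^ (ℵ₁ : Cardinal.{0}) := by
          rw [← power_def, mk_W, mk_Prop]
        rw [this]
        exact not_lt.1 hcon
      obtain ⟨g⟩ := h6
      obtain ⟨x, hx⟩ := hB (Function.invFun g)
      refine hx (g x) fun β => ?_
      rw [Function.leftInverse_invFun g.injective x]
  · rintro ⟨hCH, ⟨U, u, h1, h2, h3⟩, h4⟩
    refine ⟨?_, ?_, ⟨U, fun i β => β ∈ u i, ?_, ?_, ?_⟩, fun π => ?_⟩
    · rintro ⟨f, hf⟩
      have h5 := mk_le_of_surjective hf
      rw [mk_nat, mk_W] at h5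
      exact absurd h5 (not_le.2 aleph0_lt_aleph_one)
    · have h5 : #(ℕ → ℕ) ≤ #W := by
        rw [h8, mk_W, ← two_power_aleph0, hCH]
      obtain ⟨g⟩ := h5
      refine ⟨Function.invFun g, fun x => ⟨g x, ?_⟩⟩
      exact (Function.leftInverse_invFun g.injective x).symm
    · intro i j hij h
      exact hij (h1 (Set.ext h))
    · intro j
      have hne : Nonempty U := by
        rw [← mk_ne_zero_iff]
        intro h0
        rw [h0] at h2
        exact absurd h2 not_lt_zero'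
      obtain ⟨e, he⟩ := (h3 j).exists_eq_range (range_nonempty _)
      refine ⟨fun n β => β ∈ e n, fun i => ?_⟩
      have h5 : u i ∩ Iio j ∈ range e := by
        rw [← he]
        exact ⟨i, rfl⟩
      obtain ⟨n, hn⟩ := h5
      refine ⟨n, fun β hβ => ?_⟩
      show β ∈ u i ↔ β ∈ e n
      rw [hn]
      exact ⟨fun h => ⟨h, hβ⟩, fun h => h.1⟩
    · rintro ⟨f, hf⟩
      have h5 := mk_le_of_injective hf
      rw [mk_W] at h5
      exact absurd h2 (not_lt.2 h5)
    · refine ⟨{f : W → ℕ // ∀ α β, α < β → π α β (f β) = f α}, ⟨fun f α n => f.1 α = n,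
        fun f hf => ⟨⟨f, fun α β hαβ => hf α β hαβ _ _ ⟨rfl, rfl⟩⟩, fun α n => Iff.rfl⟩⟩,
        fun B => ?_⟩
      by_contra hcon
      push Not at hcon
      have h5 : Function.Surjective B := fun x => by
        obtain ⟨y, hy⟩ := hcon x
        exact ⟨y, (funext fun β => propext (hy β)).symm⟩
      have h6 := mk_le_of_surjective h5
      have h7 : #(W → Prop) = 2 ^ (ℵ₁ : Cardinal.{0}) := by
        rw [← power_def, mk_W, mk_Prop]
      rw [h7] at h6
      exact absurd (h4 π) (not_lt.2 h6)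

theorem consequence (h : Hypothesis) : (2 : Cardinal.{0}) ^ (ℵ₀ : Cardinal.{0}) = ℵ₁ ∧
    (∃ (T : Type) (_ : PartialOrder T), IsKurepa T) ∧
    ∀ (T : Type) (_ : PartialOrder T), IsOmegaOneTree T →
      ¬ ∃ f : Branch T → Two, Function.Surjective f := by
  obtain ⟨h1, ⟨U, u, h2, h3, h4⟩, h5⟩ := hypothesis_iff.1 h
  have hne : Nonempty U := by
    rw [← mk_ne_zero_iff]
    intro h0
    rw [h0] at h3
    exact absurd h3 not_lt_zero'
  refine ⟨h1, ⟨Tr u, inferInstance, Tr.isOmegaOneTree hne h4, ?_⟩, fun T _ hT => ?_⟩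
  · have h6 : (ℵ_ 2 : Cardinal.{0}) = Order.succ ℵ₁ := by
      rw [← aleph_succ]
      congr 1
      rw [Ordinal.succ_one]
    rw [h6, Order.succ_le_iff]
    exact h3.trans_le (mk_le_of_injective (Tr.branch_injective h2))
  · rintro ⟨f, hf⟩
    obtain ⟨π, F, hF, hF'⟩ := exists_code hT
    have h6 := mk_le_of_surjective hf
    have h7 : #(Branch T) ≤ #{f : W → ℕ // ∀ α β, α < β → π α β (f β) = f α} :=
      mk_le_of_injective (f := fun b => ⟨F b, hF' b⟩) fun b b' hb =>
        hF (congrArg Subtype.val hb)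
    rw [mk_Two] at h6
    exact absurd (h5 π) (not_lt.2 (h6.trans h7))

end Pool.Agent.R590.Kst
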