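import Mathlib

/-!
# Luzin sets and Sierpiński sets have no continuous maps onto uncountable subsets of each other
-/

set_option autoImplicit false

namespace Pool.Agent.R590.Ls

open Set Topology Filter MeasureTheory
open scoped ENNReal

/-- the Cantor space -/
abbrev Cantor : Type := ℕ → Bool

/-- the intersection of `L` with every meagre set is countable -/
def LuzinLike (L : Set Cantor) : Prop := ∀ M : Set Cantor, IsMeagre M → (L ∩ M).Countable

/-- the intersection of `S` with every `μ`-null set is countable -/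
def SierpinskiLike (μ : Measure Cantor) (S : Set Cantor) : Prop :=
  ∀ N : Set Cantor, μ N = 0 → (S ∩ N).Countable

theorem exists_eps (k : ℕ) : ∃ ε : ℕ → ℝ≥0∞, (∀ n, 0 < ε n) ∧ ∑' n, ε n < 1 / ((k : ℝ≥0∞) + 1) := by
  have h : (1 / ((k : ℝ≥0∞) + 1)) ≠ 0 := by
    rw [one_div]
    exact ENNReal.inv_ne_zero.2 (ENNReal.add_ne_top.2 ⟨ENNReal.natCast_ne_top k, ENNReal.one_ne_top⟩)
  obtain ⟨ε, h1, h2⟩ := ENNReal.exists_pos_sum_of_countable' h ℕ
  exact ⟨ε, h1, h2⟩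

theorem zero_of_le {a : ℝ≥0∞} (h : ∀ k : ℕ, a ≤ 1 / ((k : ℝ≥0∞) + 1)) : a = 0 := by
  by_contra ha
  obtain ⟨n, hn⟩ := ENNReal.exists_inv_nat_lt ha
  have h1 := h n
  rw [one_div] at h1
  have h2 : ((n : ℝ≥0∞) + 1)⁻¹ ≤ (n : ℝ≥0∞)⁻¹ := ENNReal.inv_le_inv.2 le_self_add
  exact absurd (h1.trans h2) (not_le.2 hn)

theorem luzin_avoids {L S Z : Set Cantor} {μ : Measure Cantor} [IsFiniteMeasure μ] [NullSingletonClass μ]
    (hL : LuzinLike L) (hS : SierpinskiLike μ S) (hZ : Z ⊆ L) {f : Cantor → Cantor}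
    (hf : ContinuousOn f Z) (hfS : MapsTo f Z S) : (f '' Z).Countable := by
  classical
  letI : MetricSpace Cantor := TopologicalSpace.metrizableSpaceMetric Cantor
  obtain ⟨D, hDZ, hDc, hD⟩ :=
    (TopologicalSpace.IsSeparable.of_separableSpace Z).exists_countable_dense_subset
  rcases D.eq_empty_or_nonempty with rfl | hDne
  · rw [closure_empty] at hD
    rw [subset_empty_iff.1 hD, image_empty]
    exact countable_empty
  obtain ⟨d, hd⟩ := hDc.exists_eq_range hDne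
  have hdZ : ∀ n, d n ∈ Z := fun n => hDZ (hd ▸ mem_range_self n)
  choose ε hε1 hε2 using exists_eps
  have hV : ∀ k n : ℕ, ∃ V : Set Cantor, IsOpen V ∧ f (d n) ∈ V ∧ μ V < ε k n := by
    intro k n
    obtain ⟨V, hV1, hV2, hV3⟩ := Set.exists_isOpen_lt_of_lt {f (d n)} (ε k n)
      (by rw [measure_singleton]; exact hε1 k n) (μ := μ)
    exact ⟨V, hV2, hV1 rfl, hV3⟩
  choose V hV1 hV2 hV3 using hV
  have hO : ∀ k n : ℕ, ∃ O : Set Cantor, IsOpen O ∧ d n ∈ O ∧ O ∩ Z ⊆ f ⁻¹' V k n := fun k n =>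
    continuousOn_iff.1 hf (d n) (hdZ n) (V k n) (hV1 k n) (hV2 k n)
  choose O hO1 hO2 hO3 using hO
  have hC : ∀ k, (Z \ ⋃ n, O k n).Countable := by
    intro k
    have h1 : IsMeagre (closure D \ ⋃ n, O k n) := by
      apply IsNowhereDense.isMeagre
      have hcl : IsClosed (closure D \ ⋃ n, O k n) := isClosed_closure.sdiff (isOpen_iUnion (hO1 k))
      rw [hcl.isNowhereDense_iff]
      by_contra hne
      obtain ⟨x, hx⟩ := nonempty_iff_ne_empty.2 hne
      have h2 : x ∈ closure D := (interior_subset hx).1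
      obtain ⟨y, hy1, hy2⟩ := mem_closure_iff.1 h2 _ isOpen_interior hx
      obtain ⟨n, rfl⟩ : y ∈ range d := hd ▸ hy2
      exact (interior_subset hy1).2 (mem_iUnion.2 ⟨n, hO2 k n⟩)
    refine (hL _ h1).mono ?_
    rintro x ⟨hx1, hx2⟩
    exact ⟨hZ hx1, hD hx1, hx2⟩
  have hT : μ (⋂ k, ⋃ n, V k n) = 0 := by
    apply zero_of_le
    intro k
    calc μ (⋂ k, ⋃ n, V k n) ≤ μ (⋃ n, V k n) := measure_mono (iInter_subset _ k)
      _ ≤ ∑' n, μ (V k n) := measure_iUnion_le _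
      _ ≤ ∑' n, ε k n := ENNReal.tsum_le_tsum fun n => (hV3 k n).le
      _ ≤ _ := (hε2 k).le
  have h1 : (⋃ k, f '' (Z \ ⋃ n, O k n)).Countable := countable_iUnion fun k => (hC k).image f
  refine (h1.union (hS _ hT)).mono ?_
  rintro _ ⟨z, hz, rfl⟩
  by_cases hk : ∃ k, z ∉ ⋃ n, O k n
  · obtain ⟨k, hk⟩ := hk
    exact Or.inl (mem_iUnion.2 ⟨k, z, ⟨hz, hk⟩, rfl⟩)
  · push Not at hk
    right
    refine ⟨hfS hz, mem_iInter.2 fun k => ?_⟩
    obtain ⟨n, hn⟩ := mem_iUnion.1 (hk k)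
    exact mem_iUnion.2 ⟨n, hO3 k n ⟨hn, hz⟩⟩

theorem sierpinski_avoids {L S Z : Set Cantor} {μ : Measure Cantor} [IsFiniteMeasure μ]
    (hL : LuzinLike L) (hS : SierpinskiLike μ S) (hZ : Z ⊆ S) {f : Cantor → Cantor}
    (hf : ContinuousOn f Z) (hfL : MapsTo f Z L) : (f '' Z).Countable := by
  classical
  obtain ⟨d, hd⟩ := TopologicalSpace.exists_dense_seq Cantor
  let Z' : Set Cantor := {z ∈ Z | ∀ j, f z ≠ d j}
  suffices h : (f '' Z').Countable by
    refine (h.union (countable_range d)).mono ?_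
    rintro _ ⟨z, hz, rfl⟩
    by_cases hj : ∃ j, f z = d j
    · obtain ⟨j, hj⟩ := hj
      exact Or.inr ⟨j, hj.symm⟩
    · push Not at hj
      exact Or.inl ⟨z, ⟨hz, hj⟩, rfl⟩
  -- the clopen neighbourhoods of `d j`
  let W : ℕ → ℕ → Set Cantor := fun j n => {y | ∀ i < n, y i = d j i}
  have hWo : ∀ j n, IsClopen (W j n) := by
    intro j n
    have : W j n = ⋂ i : ℕ, ⋂ (_ : i < n), {y : Cantor | y i = d j i} := by
      ext y
      simp only [W, mem_setOf_eq, mem_iInter]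
    rw [this]
    constructor
    · exact isClosed_iInter fun i => isClosed_iInter fun _ =>
        isClosed_singleton.preimage (continuous_apply i)
    · refine (finite_lt_nat n).isOpen_biInter fun i _ => ?_
      have h1 : IsOpen ({d j i} : Set Bool) := isOpen_discrete _
      have h2 : Continuous fun y : Cantor => y i := continuous_apply i
      exact h1.preimage h2
  let V : ℕ → ℕ → Set Cantor := fun j n =>
    ⋃₀ {O | IsOpen O ∧ ∀ z ∈ O ∩ Z', f z ∉ W j n}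
  have hVo : ∀ j n, IsOpen (V j n) := fun j n => isOpen_sUnion fun O hO => hO.1
  have hVf : ∀ j n, ∀ z ∈ Z', z ∈ V j n → f z ∉ W j n := by
    rintro j n z hz ⟨O, hO, hzO⟩
    exact hO.2 z ⟨hzO, hz⟩
  have hVm : ∀ j, Monotone (V j) := by
    intro j
    refine monotone_nat_of_le_succ fun n => ?_
    rintro x ⟨O, ⟨hO1, hO2⟩, hx⟩
    refine ⟨O, ⟨hO1, fun z hz hw => hO2 z hz fun i hi => hw i (by omega)⟩, hx⟩
  have hZV : ∀ j, Z' ⊆ ⋃ n, V j n := by
    intro j z hz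
    have h1 : ∃ n, f z ∉ W j n := by
      by_contra hc
      push Not at hc
      exact hz.2 j (funext fun i => hc (i + 1) i (by omega))
    obtain ⟨n, hn⟩ := h1
    obtain ⟨O, hO1, hO2, hO3⟩ := continuousOn_iff.1 hf z hz.1 (W j n)ᶜ (hWo j n).compl.isOpen hn
    exact mem_iUnion.2 ⟨n, O, ⟨hO1, fun w hw => hO3 ⟨hw.1, hw.2.1⟩⟩, hO2⟩
  choose ε hε1 hε2 using exists_eps
  have hn : ∀ k j : ℕ, ∃ n, μ ((⋃ n, V j n) \ V j n) < ε k j := by
    intro k j
    have h1 : Tendsto (fun n => μ ((⋃ n, V j n) \ V j n)) atTop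
        (𝓝 (μ (⋂ n, ((⋃ n, V j n) \ V j n)))) := by
      apply tendsto_measure_iInter_atTop
      · intro n
        exact ((isOpen_iUnion (hVo j)).measurableSet.diff (hVo j n).measurableSet).nullMeasurableSet
      · intro a b hab x hx
        exact ⟨hx.1, fun h => hx.2 (hVm j hab h)⟩
      · exact ⟨0, measure_ne_top _ _⟩
    have h2 : (⋂ n, ((⋃ n, V j n) \ V j n)) = ∅ := by
      rw [eq_empty_iff_forall_notMem]
      intro x hx
      obtain ⟨n, hn⟩ := mem_iUnion.1 (mem_iInter.1 hx 0).1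
      exact (mem_iInter.1 hx n).2 hn
    rw [h2, measure_empty] at h1
    exact (h1.eventually (gt_mem_nhds (hε1 k j))).exists
  choose n hn using hn
  let C : ℕ → Set Cantor := fun k => ⋂ j, V j (n k j)
  have hnull : μ ((⋂ j, ⋃ n, V j n) \ ⋃ k, C k) = 0 := by
    apply zero_of_le
    intro k
    have hsub : (⋂ j, ⋃ n, V j n) \ ⋃ k, C k ⊆ ⋃ j, ((⋃ n, V j n) \ V j (n k j)) := by
      rintro x ⟨hx1, hx2⟩
      have hx3 : x ∉ C k := fun h => hx2 (mem_iUnion.2 ⟨k, h⟩)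
      have hx4 : ∃ j, x ∉ V j (n k j) := by
        by_contra hc
        push Not at hc
        exact hx3 (mem_iInter.2 hc)
      obtain ⟨j, hj⟩ := hx4
      exact mem_iUnion.2 ⟨j, mem_iInter.1 hx1 j, hj⟩
    calc μ ((⋂ j, ⋃ n, V j n) \ ⋃ k, C k) ≤ μ (⋃ j, ((⋃ n, V j n) \ V j (n k j))) :=
          measure_mono hsub
      _ ≤ ∑' j, μ ((⋃ n, V j n) \ V j (n k j)) := measure_iUnion_le _
      _ ≤ ∑' j, ε k j := ENNReal.tsum_le_tsum fun j => (hn k j).le
      _ ≤ _ := (hε2 k).le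
  have himg : ∀ k, (f '' (Z' ∩ C k)).Countable := by
    intro k
    have h1 : IsMeagre (⋂ j, (W j (n k j))ᶜ) := by
      apply IsNowhereDense.isMeagre
      have hcl : IsClosed (⋂ j, (W j (n k j))ᶜ) :=
        isClosed_iInter fun j => (hWo j _).compl.isClosed
      rw [hcl.isNowhereDense_iff]
      by_contra hne
      obtain ⟨x, hx⟩ := nonempty_iff_ne_empty.2 hne
      obtain ⟨j, hy1⟩ := hd.exists_mem_open isOpen_interior ⟨x, hx⟩
      exact mem_iInter.1 (interior_subset hy1) j fun i _ => rfl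
    refine (hL _ h1).mono ?_
    rintro _ ⟨z, ⟨hz1, hz2⟩, rfl⟩
    exact ⟨hfL hz1.1, mem_iInter.2 fun j => hVf j _ z hz1 (mem_iInter.1 hz2 j)⟩
  have h2 := (hS _ hnull).image f
  refine ((countable_iUnion himg).union h2).mono ?_
  rintro _ ⟨z, hz, rfl⟩
  by_cases hk : ∃ k, z ∈ C k
  · obtain ⟨k, hk⟩ := hk
    exact Or.inl (mem_iUnion.2 ⟨k, z, ⟨hz, hk⟩, rfl⟩)
  · push Not at hk
    refine Or.inr ⟨z, ⟨hZ hz.1, mem_iInter.2 fun j => hZV j hz, fun h => ?_⟩, rfl⟩
    obtain ⟨k, hk2⟩ := mem_iUnion.1 h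
    exact hk k hk2

end Pool.Agent.R590.Ls
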