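import Pool.Agent.R590.LsAvoid

/-!
# `ℵ₁`-dense sets that strongly avoid each other, from a Luzin set and a Sierpiński set
-/

set_option autoImplicit false

namespace Pool.Agent.R590.Ls

open Set Topology Filter MeasureTheory Cardinal
open scoped ENNReal

/-- `A` meets every nonempty open set in exactly `ℵ₁` points -/
def AlephOneDense (A : Set Cantor) : Prop :=
  ∀ U : Set Cantor, IsOpen U → U.Nonempty → #(A ∩ U : Set Cantor) = ℵ₁

/-- every continuous map from a subset of `X` of size `ℵ₁` into `Y` has a countable image -/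
def StronglyAvoids (X Y : Set Cantor) : Prop :=
  ∀ Z : Set Cantor, Z ⊆ X → #Z = ℵ₁ → ∀ f : Cantor → Cantor, ContinuousOn f Z → MapsTo f Z Y →
    (f '' Z).Countable

/-- a Luzin set: uncountable, with countable intersection with every meagre set -/
def IsLuzin (L : Set Cantor) : Prop := ¬ L.Countable ∧ LuzinLike L

/-- a Sierpiński set: uncountable, with countable intersection with every null set of some finite
Borel measure without atoms -/
def IsSierpinski (S : Set Cantor) : Prop :=
  ¬ S.Countable ∧ ∃ μ : Measure Cantor, IsFiniteMeasure μ ∧ NullSingletonClass μ ∧ SierpinskiLike μ S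

/-- the function that changes the coordinates in `F` -/
def flip (F : Finset ℕ) (x : Cantor) : Cantor := fun i => if i ∈ F then !(x i) else x i

theorem flip_flip (F : Finset ℕ) (x : Cantor) : flip F (flip F x) = x := by
  funext i
  by_cases h : i ∈ F <;> simp [flip, h]

theorem continuous_flip (F : Finset ℕ) : Continuous (flip F) := by
  refine continuous_pi fun i => ?_
  have h1 : Continuous fun y : Cantor => y i := continuous_apply i
  by_cases h : i ∈ F
  · simp only [flip, if_pos h]
    exact (continuous_of_discreteTopology (f := Bool.not)).comp h1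
  · simp only [flip, if_neg h]
    exact h1

/-- `flip F` as a homeomorphism -/
def T (F : Finset ℕ) : Cantor ≃ₜ Cantor where
  toFun := flip F
  invFun := flip F
  left_inv := flip_flip F
  right_inv := flip_flip F
  continuous_toFun := continuous_flip F
  continuous_invFun := continuous_flip F

theorem luzinLike_image {L : Set Cantor} (h : LuzinLike L) (F : Finset ℕ) :
    LuzinLike (T F '' L) := by
  intro M hM
  have h1 : IsMeagre (T F ⁻¹' M) := hM.preimage_of_isOpenMap (T F).continuous (T F).isOpenMap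
  refine ((h _ h1).image (T F)).mono ?_
  rintro _ ⟨⟨x, hx, rfl⟩, hxM⟩
  exact ⟨x, ⟨hx, hxM⟩, rfl⟩

theorem sierpinskiLike_image {S : Set Cantor} {μ : Measure Cantor} (h : SierpinskiLike μ S)
    (F : Finset ℕ) : SierpinskiLike (μ.map (T F).toMeasurableEquiv) (T F '' S) := by
  intro N hN
  rw [MeasurableEquiv.map_apply] at hN
  refine ((h _ hN).image (T F)).mono ?_
  rintro _ ⟨⟨x, hx, rfl⟩, hxN⟩
  exact ⟨x, ⟨hx, hxN⟩, rfl⟩

theorem noAtoms_map {μ : Measure Cantor} [NullSingletonClass μ] (F : Finset ℕ) :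
    NullSingletonClass (μ.map (T F).toMeasurableEquiv) := by
  refine ⟨fun x => ?_⟩
  rw [MeasurableEquiv.map_apply]
  have : (T F).toMeasurableEquiv ⁻¹' {x} = {(T F).symm x} := by
    ext y
    simp only [mem_preimage, mem_singleton_iff]
    constructor
    · intro h
      rw [← h]
      exact ((T F).symm_apply_apply y).symm
    · rintro rfl
      exact (T F).apply_symm_apply x
  rw [this]
  exact measure_singleton _

/-- the union of the translates -/
def spread (A : Set Cantor) : Set Cantor := ⋃ F : Finset ℕ, T F '' A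

theorem alephOneDense_spread {A : Set Cantor} (hA : #A = ℵ₁) : AlephOneDense (spread A) := by
  intro U hU hne
  apply le_antisymm
  · refine (Cardinal.mk_le_mk_of_subset inter_subset_left).trans ?_
    refine (Cardinal.mk_iUnion_le_sum_mk).trans ?_
    refine (Cardinal.sum_le_sum _ (fun _ => ℵ₁) fun F => ?_).trans ?_
    · exact (Cardinal.mk_image_le).trans hA.le
    · rw [Cardinal.sum_const, Cardinal.lift_id, Cardinal.lift_id]
      refine (mul_le_mul_left (Cardinal.mk_le_aleph0 (α := Finset ℕ)) _).trans ?_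
      exact (Cardinal.aleph0_mul_aleph 1).le
  · -- a condensation point
    have hunc : ¬ A.Countable := by
      intro h
      have h1 := h.le_aleph0
      rw [hA] at h1
      exact absurd h1 (not_le.2 Cardinal.aleph0_lt_aleph_one)
    have hp : ∃ p : Cantor, ∀ O : Set Cantor, IsOpen O → p ∈ O → ¬ (A ∩ O).Countable := by
      by_contra hc
      push Not at hc
      choose O hO1 hO2 hO3 using hc
      obtain ⟨t, ht1, ht2⟩ := TopologicalSpace.countable_cover_nhds
        (f := O) (fun p => (hO1 p).mem_nhds (hO2 p))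
      apply hunc
      refine (ht1.biUnion fun p _ => hO3 p).mono fun x hx => ?_
      have hx2 : x ∈ ⋃ p ∈ t, O p := ht2 ▸ mem_univ x
      obtain ⟨p, hp, hxp⟩ := mem_iUnion₂.1 hx2
      exact mem_biUnion hp ⟨hx, hxp⟩
    obtain ⟨p, hp⟩ := hp
    obtain ⟨u, hu⟩ := hne
    -- a basic neighbourhood of `u`
    obtain ⟨I, V, hIV, hVU⟩ := isOpen_pi_iff.1 hU u hu
    classical
    let F : Finset ℕ := I.filter fun i => p i ≠ u i
    have hpU : p ∈ T F ⁻¹' U := by
      apply hVU
      intro i hi
      have : T F p i = u i := by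
        show flip F p i = u i
        by_cases h : p i = u i
        · simp [flip, F, h]
        · have h2 : i ∈ F := Finset.mem_filter.2 ⟨hi, h⟩
          simp only [flip, if_pos h2]
          cases h3 : p i <;> cases h4 : u i <;> simp_all
      rw [this]
      exact (hIV i hi).2
    have h1 := hp _ (hU.preimage (T F).continuous) hpU
    have h2 : T F '' (A ∩ T F ⁻¹' U) ⊆ spread A ∩ U := by
      rintro _ ⟨x, ⟨hx1, hx2⟩, rfl⟩
      exact ⟨mem_iUnion.2 ⟨F, x, hx1, rfl⟩, hx2⟩
    refine le_trans ?_ (Cardinal.mk_le_mk_of_subset h2)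
    rw [Cardinal.mk_image_eq (T F).injective]
    by_contra hlt
    push Not at hlt
    rw [Cardinal.lt_aleph_one_iff, Cardinal.le_aleph0_iff_set_countable] at hlt
    exact h1 hlt

theorem exists_subset {A : Set Cantor} (hA : ¬ A.Countable) : ∃ B ⊆ A, #B = ℵ₁ := by
  have h : ℵ₁ ≤ #A := by
    by_contra hlt
    push Not at hlt
    rw [Cardinal.lt_aleph_one_iff, Cardinal.le_aleph0_iff_set_countable] at hlt
    exact hA hlt
  obtain ⟨B, hB1, hB2⟩ := Cardinal.le_mk_iff_exists_subset.1 h
  exact ⟨B, hB1, hB2⟩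

theorem avoid_spread {X Y Z : Set Cantor} {f : Cantor → Cantor} (hf : ContinuousOn f Z)
    (hZ : Z ⊆ spread X) (hfY : MapsTo f Z (spread Y))
    (h : ∀ F G : Finset ℕ, ∀ Z' ⊆ T F '' X, ContinuousOn f Z' → MapsTo f Z' (T G '' Y) →
      (f '' Z').Countable) : (f '' Z).Countable := by
  have h1 : (⋃ F : Finset ℕ, ⋃ G : Finset ℕ,
      f '' (Z ∩ T F '' X ∩ f ⁻¹' (T G '' Y))).Countable := by
    refine countable_iUnion fun F => countable_iUnion fun G => ?_
    exact h F G _ (fun x hx => hx.1.2) (hf.mono fun x hx => hx.1.1) fun x hx => hx.2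
  refine h1.mono ?_
  rintro _ ⟨z, hz, rfl⟩
  obtain ⟨F, hF⟩ := mem_iUnion.1 (hZ hz)
  obtain ⟨G, hG⟩ := mem_iUnion.1 (hfY hz)
  exact mem_iUnion.2 ⟨F, mem_iUnion.2 ⟨G, z, ⟨⟨hz, hF⟩, hG⟩, rfl⟩⟩

theorem main {L S : Set Cantor} (hL : IsLuzin L) (hS : IsSierpinski S) :
    ∃ X Y : Set Cantor, AlephOneDense X ∧ AlephOneDense Y ∧ StronglyAvoids X Y ∧
      StronglyAvoids Y X := by
  obtain ⟨hL1, hL2⟩ := hL
  obtain ⟨hS1, μ, hμ1, hμ2, hS2⟩ := hS
  obtain ⟨L₀, hL₀, hLc⟩ := exists_subset hL1
  obtain ⟨S₀, hS₀, hSc⟩ := exists_subset hS1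
  have hL3 : LuzinLike L₀ := fun M hM => (hL2 M hM).mono (inter_subset_inter_left _ hL₀)
  have hS3 : SierpinskiLike μ S₀ := fun N hN => (hS2 N hN).mono (inter_subset_inter_left _ hS₀)
  have hm : ∀ F : Finset ℕ, IsFiniteMeasure (μ.map (T F).toMeasurableEquiv) := fun F => inferInstance
  have hna : ∀ F : Finset ℕ, NullSingletonClass (μ.map (T F).toMeasurableEquiv) :=
    fun F => noAtoms_map F
  refine ⟨spread L₀, spread S₀, alephOneDense_spread hLc, alephOneDense_spread hSc, ?_, ?_⟩
  · intro Z hZ _ f hf hfY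
    refine avoid_spread hf hZ hfY fun F G Z' hZ' hf' hfY' => ?_
    have := hm G
    have := hna G
    exact luzin_avoids (luzinLike_image hL3 F) (sierpinskiLike_image hS3 G) hZ' hf' hfY'
  · intro Z hZ _ f hf hfY
    refine avoid_spread hf hZ hfY fun F G Z' hZ' hf' hfY' => ?_
    have := hm F
    exact sierpinski_avoids (luzinLike_image hL3 G) (sierpinskiLike_image hS3 F) hZ' hf' hfY'

end Pool.Agent.R590.Ls
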