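import Pool.Agent.R590.RmTop
import Pool.Agent.Y986.GL.Card

/-!
# The Stone–Čech remainder of `ω*` minus a point: counting
-/

set_option autoImplicit false

namespace Pool.Agent.R590.Rm

open Cardinal Set Filter Topology

variable {ι : Type}

/-- every infinite set meets some member of the family in an infinite set -/
def Covers (C : ι → Set ℕ) : Prop := ∀ S : Set ℕ, S.Infinite → ∃ i, (S ∩ C i).Infinite

theorem dense_union {C : ι → Set ℕ} (hC : Covers C) : Dense (⋃ i, star (C i)) := by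
  rw [dense_iff_inter_open]
  rintro U hU ⟨u, hu⟩
  obtain ⟨S, hS, hSU⟩ := exists_star hU hu
  obtain ⟨i, hi⟩ := hC S (infinite_of_mem hS)
  obtain ⟨w, hw⟩ := exists_free hi
  exact ⟨w, hSU (mem_of_superset hw inter_subset_left),
    mem_iUnion.2 ⟨i, mem_of_superset hw inter_subset_right⟩⟩

theorem exists_tietze {y : OmegaStar} {S : Set ℕ} (hS : S ∉ y.1) {f : Minus y → ℝ}
    (hf : Continuous f) :
    ∃ Φ : C(Ultrafilter ℕ, ℝ), ∀ u : Minus y, S ∈ u.1.1 → Φ u.1.1 = f u := by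
  let K : Set (Ultrafilter ℕ) := {u | (u : Filter ℕ) ≤ cofinite} ∩ {u | S ∈ u}
  have hK : IsClosed K := isClosed_free.inter (ultrafilter_isClosed_basic S)
  have hne : ∀ u : K, (⟨u.1, u.2.1⟩ : OmegaStar) ≠ y := by
    rintro ⟨u, h1, h2⟩ rfl
    exact hS h2
  let g : C(K, ℝ) := ⟨fun u => f ⟨⟨u.1, u.2.1⟩, hne u⟩, hf.comp (by fun_prop)⟩
  obtain ⟨Φ, hΦ⟩ := ContinuousMap.exists_restrict_eq hK g
  refine ⟨Φ, fun u hu => ?_⟩
  exact DFunLike.congr_fun hΦ ⟨u.1.1, u.1.2, hu⟩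

theorem glue {C : ι → Set ℕ} (hC : Covers C) {y z : OmegaStar} (hyz : y ≠ z)
    {f : Minus y → ℝ} {g : Minus z → ℝ} (hf : Continuous f) (hg : Continuous g)
    (h : ∀ u (h1 : u ≠ y) (h2 : u ≠ z), (∃ i, C i ∈ u.1) → f ⟨u, h1⟩ = g ⟨u, h2⟩) :
    ∃ F : OmegaStar → ℝ, Continuous F ∧ ∀ u : Minus y, F u.1 = f u := by
  classical
  have h' : ∀ u (h1 : u ≠ y) (h2 : u ≠ z), f ⟨u, h1⟩ = g ⟨u, h2⟩ := by
    have hO : IsOpen {u : OmegaStar | u ≠ y ∧ u ≠ z} := isOpen_ne.inter isOpen_ne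
    have hd : Dense ((Subtype.val : {u : OmegaStar // u ≠ y ∧ u ≠ z} → OmegaStar) ⁻¹'
        ⋃ i, star (C i)) := (dense_union hC).preimage hO.isOpenMap_subtype_val
    have e : (fun u : {u : OmegaStar // u ≠ y ∧ u ≠ z} => f ⟨u.1, u.2.1⟩) =
        fun u => g ⟨u.1, u.2.2⟩ := by
      refine Continuous.ext_on hd (hf.comp (by fun_prop)) (hg.comp (by fun_prop)) ?_
      intro u hu
      obtain ⟨i, hi⟩ := mem_iUnion.1 hu
      exact h u.1 u.2.1 u.2.2 ⟨i, hi⟩
    intro u h1 h2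
    exact congrFun e ⟨u, h1, h2⟩
  let F : OmegaStar → ℝ := fun u => if hu : u = y then g ⟨y, hyz⟩ else f ⟨u, hu⟩
  have hF1 : ContinuousOn F {u | u ≠ y} := by
    rw [continuousOn_iff_continuous_restrict]
    have : ({u : OmegaStar | u ≠ y}.domRestrict F) = f := by
      funext u
      have hu : ¬ u.1 = y := u.2
      show F u.1 = f u
      simp only [F, dif_neg hu]
      rfl
    rw [this]
    exact hf
  have hF2 : ContinuousOn F {u | u ≠ z} := by
    rw [continuousOn_iff_continuous_restrict]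
    have : ({u : OmegaStar | u ≠ z}.domRestrict F) = g := by
      funext u
      have hu2 : u.1 ≠ z := u.2
      show F u.1 = g u
      by_cases hu : u.1 = y
      · have h3 : u = ⟨y, hyz⟩ := Subtype.ext hu
        simp only [F, dif_pos hu]
        rw [h3]
      · simp only [F, dif_neg hu]
        exact h' u.1 hu hu2
    rw [this]
    exact hg
  refine ⟨F, ?_, fun u => ?_⟩
  · rw [continuous_iff_continuousAt]
    intro u
    by_cases hu : u = y
    · exact hF2.continuousAt (isOpen_ne.mem_nhds (hu ▸ hyz : u ≠ z))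
    · exact hF1.continuousAt (isOpen_ne.mem_nhds hu)
  · have hu : ¬ u.1 = y := u.2
    simp only [F, dif_neg hu]

theorem card_cont : #(C(Ultrafilter ℕ, ℝ)) ≤ 𝔠 := by
  have hinj : Function.Injective fun (Φ : C(Ultrafilter ℕ, ℝ)) (n : ℕ) =>
      Φ (pure n : Ultrafilter ℕ) := by
    intro Φ Ψ h
    apply DFunLike.coe_injective
    exact denseRange_pure.equalizer Φ.continuous Ψ.continuous (funext fun n => congrFun h n)
  refine (Cardinal.mk_le_of_injective hinj).trans ?_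
  rw [← Cardinal.power_def, Cardinal.mk_real, Cardinal.mk_nat, Cardinal.continuum_power_aleph0]

theorem card_bad {C : ι → Set ℕ} (hC : Covers C) :
    #{y : OmegaStar // (∀ i, C i ∉ y.1) ∧ ∃ p ∈ R y, ∃ q ∈ R y, p ≠ q} ≤ 𝔠 ^ #ι := by
  classical
  have key : ∀ y : {y : OmegaStar // (∀ i, C i ∉ y.1) ∧ ∃ p ∈ R y, ∃ q ∈ R y, p ≠ q},
      ∃ Φ : ι → C(Ultrafilter ℕ, ℝ), ∃ f : Minus y.1 → ℝ, Continuous f ∧
        (¬ ∃ F : OmegaStar → ℝ, Continuous F ∧ ∀ u : Minus y.1, F u.1 = f u) ∧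
        ∀ i, ∀ u : Minus y.1, C i ∈ u.1.1 → Φ i u.1.1 = f u := by
    rintro ⟨y, hy, p, hp, q, hq, hne⟩
    obtain ⟨f, hf, hF⟩ := nonext_of_two hp hq hne
    choose Φ hΦ using fun i => exists_tietze (hy i) hf
    exact ⟨Φ, f, hf, hF, hΦ⟩
  choose Φ f hf hF hΦ using key
  have hinj : Function.Injective Φ := by
    intro y z hyz
    by_contra hne
    apply hF y
    apply glue hC (z := z.1) (fun h => hne (Subtype.ext h)) (hf y) (hf z)
    rintro u h1 h2 ⟨i, hi⟩
    rw [← hΦ y i ⟨u, h1⟩ hi, ← hΦ z i ⟨u, h2⟩ hi, hyz]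
  refine (Cardinal.mk_le_of_injective hinj).trans ?_
  rw [← Cardinal.power_def]
  exact Cardinal.power_le_power_right card_cont

/-- `D` is a dominating family: every function is below some member of `D` at all but finitely many
points -/
def Dominating (D : Set (ℕ → ℕ)) : Prop :=
  ∀ g : ℕ → ℕ, ∃ h ∈ D, {n | h n < g n}.Finite

/-- the columns of `ℕ × ℕ ≅ ℕ` and the regions below the members of `D` -/
def fam (D : Set (ℕ → ℕ)) : ℕ ⊕ D → Set ℕ
  | Sum.inl n => {k | k.unpair.1 = n}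
  | Sum.inr h => {k | k.unpair.2 ≤ h.1 k.unpair.1}

theorem covers_fam {D : Set (ℕ → ℕ)} (hD : Dominating D) : Covers (fam D) := by
  classical
  intro S hS
  by_cases hc : ∃ n, (S ∩ {k | k.unpair.1 = n}).Infinite
  · obtain ⟨n, hn⟩ := hc
    exact ⟨Sum.inl n, hn⟩
  · push Not at hc
    have hN : ((fun k : ℕ => k.unpair.1) '' S).Infinite := by
      intro hf
      apply hS
      refine (hf.biUnion fun n _ => hc n).subset fun k hk => ?_
      exact mem_biUnion (mem_image_of_mem _ hk) ⟨hk, rfl⟩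
    let g : ℕ → ℕ := fun n => if h : ∃ m, Nat.pair n m ∈ S then h.choose else 0
    have hg : ∀ n ∈ (fun k : ℕ => k.unpair.1) '' S, Nat.pair n (g n) ∈ S := by
      rintro _ ⟨k, hk, rfl⟩
      have h : ∃ m, Nat.pair k.unpair.1 m ∈ S := ⟨k.unpair.2, by rwa [Nat.pair_unpair]⟩
      simp only [g, dif_pos h]
      exact h.choose_spec
    obtain ⟨h, hh, hfin⟩ := hD g
    refine ⟨Sum.inr ⟨h, hh⟩, ?_⟩
    have h1 : (((fun k : ℕ => k.unpair.1) '' S) \ {n | h n < g n}).Infinite := hN.diff hfin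
    have h2 : (fun n => Nat.pair n (g n)).Injective := by
      intro a b hab
      exact (Nat.pair_eq_pair.1 hab).1
    refine (h1.image h2.injOn).mono ?_
    rintro _ ⟨n, ⟨hn1, hn2⟩, rfl⟩
    refine ⟨hg n hn1, ?_⟩
    show (Nat.pair n (g n)).unpair.2 ≤ h (Nat.pair n (g n)).unpair.1
    rw [Nat.unpair_pair]
    exact not_lt.1 hn2

/-- the sum of copies of a fixed free ultrafilter along `q` -/
noncomputable def sumU (q : Ultrafilter ℕ) : Ultrafilter ℕ :=
  q.bind fun n => (hyperfilter ℕ).map (Nat.pair n)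

theorem mem_sumU {q : Ultrafilter ℕ} {S : Set ℕ} :
    S ∈ sumU q ↔ {n | {m | Nat.pair n m ∈ S} ∈ hyperfilter ℕ} ∈ q := Iff.rfl

theorem map_sumU (q : Ultrafilter ℕ) (S : Set ℕ) :
    {k : ℕ | k.unpair.1 ∈ S} ∈ sumU q ↔ S ∈ q := by
  rw [mem_sumU]
  have : {n | {m | Nat.pair n m ∈ {k : ℕ | k.unpair.1 ∈ S}} ∈ hyperfilter ℕ} = S := by
    ext n
    simp only [mem_setOf_eq, Nat.unpair_pair]
    by_cases hn : n ∈ S
    · simp only [hn, setOf_true, iff_true]
      exact Filter.univ_mem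
    · simp [hn]
  rw [this]

theorem fam_not_mem {q : Ultrafilter ℕ} (hq : ∀ n : ℕ, {n}ᶜ ∈ q) {D : Set (ℕ → ℕ)} (i : ℕ ⊕ D) :
    fam D i ∉ sumU q := by
  rcases i with n | h
  · have h1 := map_sumU q {n}
    intro h2
    have h3 : {n} ∈ q := h1.1 h2
    exact (Ultrafilter.compl_mem_iff_notMem.1 (hq n)) h3
  · intro h2
    rw [mem_sumU] at h2
    obtain ⟨n, hn⟩ := q.nonempty_of_mem h2
    have h3 : {m | Nat.pair n m ∈ fam D (Sum.inr h)} ∈ hyperfilter ℕ := hn
    have h4 : {m | Nat.pair n m ∈ fam D (Sum.inr h)} ⊆ Iic (h.1 n) := by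
      intro m hm
      have h5 : (Nat.pair n m).unpair.2 ≤ h.1 (Nat.pair n m).unpair.1 := hm
      rw [Nat.unpair_pair] at h5
      exact h5
    exact (notMem_hyperfilter_of_finite ((finite_Iic (h.1 n)).subset h4)) h3

theorem sumU_free {q : Ultrafilter ℕ} (hq : ∀ n : ℕ, {n}ᶜ ∈ q) :
    (sumU q : Filter ℕ) ≤ cofinite := by
  rw [le_cofinite_iff_compl_singleton_mem]
  intro k
  show {k}ᶜ ∈ sumU q
  rw [Ultrafilter.compl_mem_iff_notMem]
  intro h
  refine fam_not_mem hq (D := ∅) (Sum.inl k.unpair.1) (mem_of_superset h ?_)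
  rintro _ rfl
  rfl

theorem card_good_le {D : Set (ℕ → ℕ)} :
    (2 : Cardinal.{0}) ^ 𝔠 ≤ #{y : OmegaStar // ∀ i, fam D i ∉ y.1} := by
  have h := Y986.GL.card_NP
  rw [Cardinal.two_power_aleph0] at h
  refine h.trans ?_
  refine Cardinal.mk_le_of_injective (f := fun q : Y986.GL.NP =>
    (⟨⟨sumU q.1, sumU_free q.2⟩, fun i => fam_not_mem q.2 i⟩ :
      {y : OmegaStar // ∀ i, fam D i ∉ y.1})) ?_
  intro q r hqr
  apply Subtype.ext
  have h1 : sumU q.1 = sumU r.1 := congrArg (fun z => z.1.1) hqr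
  apply Ultrafilter.ext
  intro S
  rw [← map_sumU q.1 S, ← map_sumU r.1 S, h1]

theorem card_omegaStar_le : #OmegaStar ≤ (2 : Cardinal.{0}) ^ 𝔠 := by
  have h1 : Function.Injective fun (u : OmegaStar) => {S : Set ℕ | S ∈ u.1} := by
    intro u v h
    apply Subtype.ext
    apply Ultrafilter.ext
    intro S
    exact Set.ext_iff.1 h S
  refine (Cardinal.mk_le_of_injective h1).trans ?_
  rw [Cardinal.mk_set, Cardinal.mk_set, Cardinal.mk_nat, Cardinal.two_power_aleph0]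

theorem card_one {D : Set (ℕ → ℕ)} (hD : Dominating D)
    (hcard : (2 : Cardinal.{0}) ^ #D < 2 ^ 𝔠) :
    #{y : OmegaStar // #(R y) = 1} = 2 ^ 𝔠 := by
  have hinf : ℵ₀ ≤ (2 : Cardinal.{0}) ^ 𝔠 :=
    (Cardinal.aleph0_le_continuum).trans (Cardinal.cantor 𝔠).le
  apply le_antisymm
  · exact (Cardinal.mk_subtype_le _).trans card_omegaStar_le
  · by_contra hlt
    push Not at hlt
    have hb := card_bad (covers_fam hD)
    have hb2 : 𝔠 ^ #(ℕ ⊕ D) < (2 : Cardinal.{0}) ^ 𝔠 := by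
      rw [Cardinal.mk_sum, Cardinal.lift_id, Cardinal.lift_id, Cardinal.mk_nat,
        ← Cardinal.two_power_aleph0, ← Cardinal.power_mul,
        Cardinal.aleph0_mul_eq (le_self_add), Cardinal.power_add]
      rw [← Cardinal.two_power_aleph0] at hcard hinf
      exact Cardinal.mul_lt_of_lt hinf (Cardinal.cantor _) hcard
    have h1 : #{y : OmegaStar // ∀ i, fam D i ∉ y.1} ≤
        #{y : OmegaStar // (∀ i, fam D i ∉ y.1) ∧ ∃ p ∈ R y, ∃ q ∈ R y, p ≠ q} +
        #{y : OmegaStar // #(R y) = 1} := by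
      have h2 : ({y : OmegaStar | ∀ i, fam D i ∉ y.1}) ⊆
          {y : OmegaStar | (∀ i, fam D i ∉ y.1) ∧ ∃ p ∈ R y, ∃ q ∈ R y, p ≠ q} ∪
          {y : OmegaStar | #(R y) = 1} := by
        intro y hy
        by_cases h3 : ∃ p ∈ R y, ∃ q ∈ R y, p ≠ q
        · exact Or.inl ⟨hy, h3⟩
        · right
          push Not at h3
          have : Nonempty (R y) := (R_nonempty y).to_subtype
          have : Subsingleton (R y) := ⟨fun a b => Subtype.ext (h3 a.1 a.2 b.1 b.2)⟩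
          exact Cardinal.mk_eq_one _
      exact (Cardinal.mk_le_mk_of_subset h2).trans (Cardinal.mk_union_le _ _)
    have h2 := (card_good_le (D := D)).trans h1
    exact absurd (h2.trans_lt (Cardinal.add_lt_of_lt hinf (hb.trans_lt hb2) hlt)) (lt_irrefl _)

end Pool.Agent.R590.Rm
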