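import Mathlib

/-!
# The Stone–Čech remainder of `ω*` minus a point: topology
-/

set_option autoImplicit false

namespace Pool.Agent.R590.Rm

open Cardinal Set Filter Topology

/-- `ω* = βω \ ω`: the space of the free ultrafilters on `ℕ`, a subspace of `Ultrafilter ℕ`. -/
abbrev OmegaStar : Type := {u : Ultrafilter ℕ // (u : Filter ℕ) ≤ cofinite}

/-- the subspace `ω* \ {x}` -/
abbrev Minus (x : OmegaStar) : Type := {u : OmegaStar // u ≠ x}

/-- `R(x)`: the Stone–Čech remainder of `ω* \ {x}` -/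
def R (x : OmegaStar) : Set (StoneCech (Minus x)) :=
  (range (stoneCechUnit : Minus x → StoneCech (Minus x)))ᶜ

/-- the clopen set of the free ultrafilters that contain `S` -/
def star (S : Set ℕ) : Set OmegaStar := {u | S ∈ u.1}

theorem mem_star {S : Set ℕ} {u : OmegaStar} : u ∈ star S ↔ S ∈ u.1 := Iff.rfl

theorem isClosed_free : IsClosed {u : Ultrafilter ℕ | (u : Filter ℕ) ≤ cofinite} := by
  have : {u : Ultrafilter ℕ | (u : Filter ℕ) ≤ cofinite} = ⋂ n : ℕ, {u | {n}ᶜ ∈ u} := by
    ext u
    simp only [mem_setOf_eq, mem_iInter, le_cofinite_iff_compl_singleton_mem]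
    rfl
  rw [this]
  exact isClosed_iInter fun n => ultrafilter_isClosed_basic _

instance : CompactSpace OmegaStar := isCompact_iff_compactSpace.1 isClosed_free.isCompact

theorem isOpen_star (S : Set ℕ) : IsOpen (star S) :=
  (ultrafilter_isOpen_basic S).preimage continuous_subtype_val

theorem isClosed_star (S : Set ℕ) : IsClosed (star S) :=
  (ultrafilter_isClosed_basic S).preimage continuous_subtype_val

theorem exists_star {U : Set OmegaStar} (hU : IsOpen U) {u : OmegaStar} (hu : u ∈ U) :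
    ∃ S : Set ℕ, S ∈ u.1 ∧ star S ⊆ U := by
  obtain ⟨V, hV, rfl⟩ := isOpen_induced_iff.1 hU
  obtain ⟨T, ⟨S, rfl⟩, h2, h3⟩ := ultrafilterBasis_is_basis.exists_subset_of_mem_open hu hV
  exact ⟨S, h2, fun w hw => h3 hw⟩

theorem infinite_of_mem {u : OmegaStar} {S : Set ℕ} (h : S ∈ u.1) : S.Infinite := by
  intro hf
  have h1 : Sᶜ ∈ u.1 := u.2 hf.compl_mem_cofinite
  exact (Ultrafilter.compl_mem_iff_notMem.1 h1) h

theorem exists_free {S : Set ℕ} (hS : S.Infinite) : ∃ u : OmegaStar, S ∈ u.1 := by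
  have : (cofinite ⊓ 𝓟 S).NeBot := hS.cofinite_inf_principal_neBot
  refine ⟨⟨Ultrafilter.of (cofinite ⊓ 𝓟 S), (Ultrafilter.of_le _).trans inf_le_left⟩, ?_⟩
  exact (Ultrafilter.of_le _) (mem_inf_of_right (mem_principal_self S))

theorem exists_split {S : Set ℕ} (hS : S.Infinite) :
    ∃ H : Set ℕ, H ⊆ S ∧ H.Infinite ∧ (S \ H).Infinite := by
  have : Infinite S := hS.to_subtype
  let f : ℕ → ℕ := fun n => (Infinite.natEmbedding S n : ℕ)
  have hf : Function.Injective f := fun a b h =>
    (Infinite.natEmbedding S).injective (Subtype.ext h)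
  have hfS : ∀ n, f n ∈ S := fun n => (Infinite.natEmbedding S n).2
  refine ⟨range fun n => f (2 * n), ?_, ?_, ?_⟩
  · rintro _ ⟨n, rfl⟩
    exact hfS _
  · exact infinite_range_of_injective fun a b h => by
      have := hf h
      omega
  · refine (infinite_range_of_injective (f := fun n => f (2 * n + 1)) fun a b h => by
      have := hf h
      omega).mono ?_
    rintro _ ⟨n, rfl⟩
    refine ⟨hfS _, ?_⟩
    rintro ⟨m, hm⟩
    have := hf hm
    omega

theorem exists_mem_not_mem {u v : OmegaStar} (h : u ≠ v) : ∃ S : Set ℕ, S ∈ u.1 ∧ S ∉ v.1 := by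
  by_contra hc
  push Not at hc
  apply h
  apply Subtype.ext
  apply Ultrafilter.coe_injective
  have h1 : (v.1 : Filter ℕ) ≤ u.1 := fun S hS => hc S hS
  exact (Ultrafilter.coe_le_coe.1 h1) ▸ rfl

/-- the extension of the inclusion -/
noncomputable def ext (x : OmegaStar) : StoneCech (Minus x) → OmegaStar :=
  stoneCechExtend (continuous_subtype_val : Continuous (Subtype.val : Minus x → OmegaStar))

theorem continuous_ext (x : OmegaStar) : Continuous (ext x) := continuous_stoneCechExtend _

theorem ext_unit (x : OmegaStar) (w : Minus x) : ext x (stoneCechUnit w) = w.1 :=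
  stoneCechExtend_stoneCechUnit _ _

theorem ext_of_mem_R {x : OmegaStar} {p : StoneCech (Minus x)} (hp : p ∈ R x) : ext x p = x := by
  by_contra hne
  obtain ⟨S, h1, h2⟩ := exists_mem_not_mem hne
  let K : Set (Minus x) := Subtype.val ⁻¹' star S
  have hKeq : (Subtype.val '' K : Set OmegaStar) = star S := by
    ext w
    constructor
    · rintro ⟨v, hv, rfl⟩
      exact hv
    · intro hw
      refine ⟨⟨w, ?_⟩, hw, rfl⟩
      rintro rfl
      exact h2 hw
  have hind : Topology.IsInducing (Subtype.val : Minus x → OmegaStar) :=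
    Topology.IsInducing.subtypeVal
  have hK : IsCompact K := by
    refine hind.isCompact_iff.2 ?_
    exact hKeq ▸ (isClosed_star S).isCompact
  have hK2 : IsClosed (stoneCechUnit '' K) := (hK.image continuous_stoneCechUnit).isClosed
  have hV : IsOpen (ext x ⁻¹' star S ∩ (stoneCechUnit '' K)ᶜ) :=
    ((isOpen_star S).preimage (continuous_ext x)).inter hK2.isOpen_compl
  have hpV : p ∈ ext x ⁻¹' star S ∩ (stoneCechUnit '' K)ᶜ := by
    refine ⟨h1, ?_⟩
    rintro ⟨w, -, rfl⟩
    exact hp ⟨w, rfl⟩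
  obtain ⟨w, hw1, hw2⟩ := denseRange_stoneCechUnit.exists_mem_open hV ⟨p, hpV⟩
  refine hw2 ⟨w, ?_, rfl⟩
  have : ext x (stoneCechUnit w) ∈ star S := hw1
  rw [ext_unit] at this
  exact this

theorem exists_rem {x : OmegaStar} {G : Set (Minus x)} (hG : x ∈ closure (Subtype.val '' G)) :
    ∃ p ∈ closure (stoneCechUnit '' G), p ∈ R x := by
  have h1 : IsClosed (ext x '' closure (stoneCechUnit '' G)) :=
    (isClosed_closure.isCompact.image (continuous_ext x)).isClosed
  have h2 : Subtype.val '' G ⊆ ext x '' closure (stoneCechUnit '' G) := by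
    rintro _ ⟨w, hw, rfl⟩
    exact ⟨stoneCechUnit w, subset_closure ⟨w, hw, rfl⟩, ext_unit x w⟩
  obtain ⟨p, hp1, hp2⟩ := closure_minimal h2 h1 hG
  refine ⟨p, hp1, ?_⟩
  rintro ⟨w, rfl⟩
  rw [ext_unit] at hp2
  exact w.2 hp2

theorem mem_closure_univ (x : OmegaStar) :
    x ∈ closure (Subtype.val '' (univ : Set (Minus x))) := by
  rw [mem_closure_iff]
  intro U hU hx
  obtain ⟨S, hS, hSU⟩ := exists_star hU hx
  obtain ⟨H, h1, h2, h3⟩ := exists_split (infinite_of_mem hS)
  by_cases hH : H ∈ x.1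
  · obtain ⟨u, hu⟩ := exists_free h3
    have hne : u ≠ x := by
      rintro rfl
      obtain ⟨k, hk1, hk2⟩ := u.1.nonempty_of_mem (inter_mem hH hu)
      exact hk2.2 hk1
    exact ⟨u, hSU (mem_of_superset hu sdiff_subset), ⟨u, hne⟩, mem_univ _, rfl⟩
  · obtain ⟨u, hu⟩ := exists_free h2
    have hne : u ≠ x := by
      rintro rfl
      exact hH hu
    exact ⟨u, hSU (mem_of_superset hu h1), ⟨u, hne⟩, mem_univ _, rfl⟩

theorem R_nonempty (x : OmegaStar) : (R x).Nonempty := by
  obtain ⟨p, -, hp⟩ := exists_rem (mem_closure_univ x)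
  exact ⟨p, hp⟩

/-- if `f` is a continuous function on `ω* \ {x}` with two values, both attained arbitrarily close to
`x`, then the remainder has at least two points -/
theorem two_points {x : OmegaStar} {f : Minus x → Bool} (hf : Continuous f)
    (h1 : x ∈ closure (Subtype.val '' {u | f u = true}))
    (h2 : x ∈ closure (Subtype.val '' {u | f u = false})) :
    ∃ p ∈ R x, ∃ q ∈ R x, p ≠ q := by
  obtain ⟨p, hp1, hp2⟩ := exists_rem h1
  obtain ⟨q, hq1, hq2⟩ := exists_rem h2
  refine ⟨p, hp2, q, hq2, ?_⟩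
  have key : ∀ b : Bool, closure (stoneCechUnit '' {u | f u = b}) ⊆
      stoneCechExtend hf ⁻¹' {b} := by
    intro b
    apply closure_minimal
    · rintro _ ⟨w, hw, rfl⟩
      show stoneCechExtend hf (stoneCechUnit w) = b
      rw [stoneCechExtend_stoneCechUnit]
      exact hw
    · exact (isClosed_discrete _).preimage (continuous_stoneCechExtend hf)
  rintro rfl
  have e1 : stoneCechExtend hf p = true := key true hp1
  have e2 : stoneCechExtend hf p = false := key false hq1
  rw [e1] at e2
  exact absurd e2 (by decide)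

/-- if the remainder has two points then some continuous function on `ω* \ {y}` has no continuous
extension -/
theorem nonext_of_two {y : OmegaStar} {p q : StoneCech (Minus y)} (hp : p ∈ R y) (hq : q ∈ R y)
    (hne : p ≠ q) : ∃ f : Minus y → ℝ, Continuous f ∧
      ¬ ∃ F : OmegaStar → ℝ, Continuous F ∧ ∀ u : Minus y, F u.1 = f u := by
  obtain ⟨φ, hφ1, hφ2, -⟩ := exists_continuous_zero_one_of_isClosed
    (isClosed_singleton (x := p)) (isClosed_singleton (x := q))
    (disjoint_singleton.2 hne)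
  refine ⟨fun u => φ (stoneCechUnit u), φ.continuous.comp continuous_stoneCechUnit, ?_⟩
  rintro ⟨F, hF1, hF2⟩
  have h1 : (fun b => F (ext y b)) = φ := by
    refine denseRange_stoneCechUnit.equalizer (hF1.comp (continuous_ext y)) φ.continuous ?_
    funext u
    show F (ext y (stoneCechUnit u)) = φ (stoneCechUnit u)
    rw [ext_unit, hF2]
  have h2 : φ p = 0 := hφ1 rfl
  have h3 : φ q = 1 := hφ2 rfl
  have h4 : F (ext y p) = φ p := congrFun h1 p
  have h5 : F (ext y q) = φ q := congrFun h1 q
  rw [ext_of_mem_R hp] at h4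
  rw [ext_of_mem_R hq] at h5
  rw [h2] at h4
  rw [h3, h4] at h5
  exact zero_ne_one h5

end Pool.Agent.R590.Rm
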