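import Pool.Agent.R590.RmTop

/-!
# The Stone–Čech remainder of `ω*` minus a point: points generated by a tower of length `ω₁`
-/

set_option autoImplicit false

namespace Pool.Agent.R590.Rm

open Cardinal Set Filter Topology

/-- the points of `X ∩ Y` at which `B` and `B'` differ -/
def Dis (X Y B B' : Set ℕ) : Set ℕ := {k | k ∈ X ∧ k ∈ Y ∧ ¬ (k ∈ B ↔ k ∈ B')}

theorem Dis_symm {X Y B B' : Set ℕ} : Dis X Y B B' ⊆ Dis Y X B' B := by
  rintro k ⟨h1, h2, h3⟩
  exact ⟨h2, h1, fun h => h3 h.symm⟩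

universe u

variable {W : Type u} [LinearOrder W]

/-- the requirements on the set `S` chosen at stage `a` -/
def Good (C : W → Set ℕ) (a : W) (B : W → Set ℕ) (S : Set ℕ) : Prop :=
  (∀ i < a, (Dis (C i) (C a) (B i) S).Finite) ∧
  ∀ b < a, (∀ c < a, c ≤ b) → ((C a \ C b) ∩ S).Infinite ∧ ((C a \ C b) \ S).Infinite

theorem exists_good {C : W → Set ℕ}
    (hC : ∀ i j, i < j → (C i \ C j).Finite ∧ (C j \ C i).Infinite)
    (hW : ∀ i : W, (Iio i).Countable) (a : W) (B : W → Set ℕ)
    (hB : ∀ i < a, ∀ j < a, (Dis (C i) (C j) (B i) (B j)).Finite) :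
    ∃ S, Good C a B S := by
  classical
  rcases (Iio a).eq_empty_or_nonempty with he | hne
  · refine ⟨∅, fun i hi => ?_, fun b hb => ?_⟩
    · exact absurd (he ▸ hi : i ∈ (∅ : Set W)) (notMem_empty i)
    · exact absurd (he ▸ hb : b ∈ (∅ : Set W)) (notMem_empty b)
  obtain ⟨e, he⟩ := (hW a).exists_eq_range hne
  have hea : ∀ n, e n < a := fun n => by
    have : e n ∈ Iio a := he ▸ mem_range_self n
    exact this
  let S0 : Set ℕ := {k | ∃ n, k ∈ C (e n) ∧ (∀ m < n, k ∉ C (e m)) ∧ k ∈ B (e n)}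
  have hS0 : ∀ i < a, (Dis (C i) (C a) (B i) S0).Finite := by
    intro i hi
    obtain ⟨n, rfl⟩ : i ∈ range e := he ▸ hi
    refine ((finite_Iic n).biUnion (t := fun m => Dis (C (e m)) (C (e n)) (B (e m)) (B (e n)))
      fun m _ => hB _ (hea m) _ (hea n)).subset ?_
    rintro k ⟨h1, h2, h3⟩
    have hex : ∃ m, k ∈ C (e m) := ⟨n, h1⟩
    have hm1 := Nat.find_spec hex
    have hm2 : Nat.find hex ≤ n := Nat.find_min' hex h1
    have hm3 : ∀ m < Nat.find hex, k ∉ C (e m) := fun m hm => Nat.find_min hex hm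
    have hS : k ∈ S0 ↔ k ∈ B (e (Nat.find hex)) := by
      constructor
      · rintro ⟨m, h4, h5, h6⟩
        have : Nat.find hex = m := by
          rcases lt_trichotomy (Nat.find hex) m with h | h | h
          · exact absurd hm1 (h5 _ h)
          · exact h
          · exact absurd h4 (hm3 _ h)
        rw [this]
        exact h6
      · intro h
        exact ⟨_, hm1, hm3, h⟩
    rw [hS] at h3
    exact mem_biUnion (mem_Iic.2 hm2) ⟨hm1, h1, fun h => h3 h.symm⟩
  by_cases hmax : ∃ b < a, ∀ c < a, c ≤ b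
  · obtain ⟨b, hb, hbm⟩ := hmax
    obtain ⟨H, h1, h2, h3⟩ := exists_split (hC b a hb).2
    refine ⟨(S0 ∩ C b) ∪ H, fun i hi => ?_, fun b' hb' hbm' => ?_⟩
    · have hib : (C i \ C b).Finite := by
        rcases (hbm i hi).lt_or_eq with h | h
        · exact (hC i b h).1
        · rw [h, Set.sdiff_self]
          exact finite_empty
      refine ((hS0 i hi).union hib).subset ?_
      rintro k ⟨h4, h5, h6⟩
      by_cases hk : k ∈ C b
      · left
        refine ⟨h4, h5, fun h7 => h6 (h7.trans ?_)⟩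
        constructor
        · intro h
          exact Or.inl ⟨h, hk⟩
        · rintro (h | h)
          · exact h.1
          · exact absurd hk (h1 h).2
      · exact Or.inr ⟨h4, hk⟩
    · have hbb : b' = b := le_antisymm (hbm b' hb') (hbm' b hb)
      subst hbb
      constructor
      · refine h2.mono fun k hk => ⟨h1 hk, Or.inr hk⟩
      · refine h3.mono ?_
        rintro k ⟨hk1, hk2⟩
        refine ⟨hk1, ?_⟩
        rintro (h | h)
        · exact hk1.2 h.2
        · exact hk2 h
  · exact ⟨S0, hS0, fun b hb hbm => absurd ⟨b, hb, hbm⟩ hmax⟩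

theorem exists_family [WellFoundedLT W] {C : W → Set ℕ}
    (hC : ∀ i j, i < j → (C i \ C j).Finite ∧ (C j \ C i).Infinite)
    (hW : ∀ i : W, (Iio i).Countable) :
    ∃ B : W → Set ℕ, (∀ i j, (Dis (C i) (C j) (B i) (B j)).Finite) ∧
      ∀ a, ∀ b < a, (∀ c < a, c ≤ b) →
        ((C a \ C b) ∩ B a).Infinite ∧ ((C a \ C b) \ B a).Infinite := by
  classical
  let step : W → (W → Set ℕ) → Set ℕ := fun a B => if h : ∃ S, Good C a B S then h.choose else ∅
  have hstep : ∀ a B, (∃ S, Good C a B S) → Good C a B (step a B) := by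
    intro a B h
    simp only [step, dif_pos h]
    exact h.choose_spec
  let F : (a : W) → ((b : W) → b < a → Set ℕ) → Set ℕ := fun a ih =>
    step a fun i => if h : i < a then ih i h else ∅
  let B : W → Set ℕ := (wellFounded_lt (α := W)).fix F
  have hB : ∀ a, B a = step a fun i => if i < a then B i else ∅ := by
    intro a
    have := (wellFounded_lt (α := W)).fix_eq F a
    show (wellFounded_lt (α := W)).fix F a = _
    rw [this]
    rfl
  have hGood : ∀ a, Good C a B (B a) := by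
    intro a
    induction a using WellFoundedLT.induction with
    | ind a ih =>
      have hcomp : ∀ i < a, ∀ j < a, (Dis (C i) (C j) (B i) (B j)).Finite := by
        intro i hi j hj
        rcases lt_trichotomy i j with h | h | h
        · exact (ih j hj).1 i h
        · subst h
          refine finite_empty.subset ?_
          rintro k ⟨-, -, h3⟩
          exact h3 Iff.rfl
        · exact ((ih i hi).1 j h).subset Dis_symm
      have hcomp' : ∀ i < a, ∀ j < a, (Dis (C i) (C j)
          ((fun i => if i < a then B i else ∅) i) ((fun i => if i < a then B i else ∅) j)).Finite := by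
        intro i hi j hj
        simp only [if_pos hi, if_pos hj]
        exact hcomp i hi j hj
      have h1 := hstep a _ (exists_good hC hW a _ hcomp')
      rw [← hB a] at h1
      refine ⟨fun i hi => ?_, h1.2⟩
      have h2 := h1.1 i hi
      simp only [if_pos hi] at h2
      exact h2
  refine ⟨B, fun i j => ?_, fun a b hb hbm => (hGood a).2 b hb hbm⟩
  rcases lt_trichotomy i j with h | h | h
  · exact (hGood j).1 i h
  · subst h
    refine finite_empty.subset ?_
    rintro k ⟨-, -, h3⟩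
    exact h3 Iff.rfl
  · exact ((hGood i).1 j h).subset Dis_symm

theorem mem_of_diff_finite {u : OmegaStar} {S T : Set ℕ} (hS : S ∈ u.1) (h : (S \ T).Finite) :
    T ∈ u.1 := by
  have h1 : (S \ T)ᶜ ∈ u.1 := u.2 h.compl_mem_cofinite
  filter_upwards [hS, h1] with k hk1 hk2
  by_contra hk3
  exact hk2 ⟨hk1, hk3⟩

theorem tower_two [WellFoundedLT W] [NoMaxOrder W] (hW : ∀ i : W, (Iio i).Countable)
    (A : W → Set ℕ) (hA : ∀ i j, i < j → (A j \ A i).Finite ∧ (A i \ A j).Infinite)
    (x : OmegaStar) (hx : ∀ S, S ∈ x.1 ↔ ∃ i, (A i \ S).Finite) :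
    ∃ p ∈ R x, ∃ q ∈ R x, p ≠ q := by
  classical
  let C : W → Set ℕ := fun i => (A i)ᶜ
  have hCA : ∀ i j, C i \ C j = A j \ A i := by
    intro i j
    ext k
    simp only [C, Set.mem_sdiff, mem_compl_iff, not_not]
    tauto
  have hC : ∀ i j, i < j → (C i \ C j).Finite ∧ (C j \ C i).Infinite := by
    intro i j hij
    rw [hCA, hCA]
    exact hA i j hij
  obtain ⟨B, hB1, hB2⟩ := exists_family hC hW
  have hAx : ∀ i, A i ∈ x.1 := fun i => (hx _).2 ⟨i, by rw [Set.sdiff_self]; exact finite_empty⟩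
  have hCx : ∀ i, C i ∉ x.1 := fun i h => (Ultrafilter.compl_mem_iff_notMem.1 h) (hAx i)
  have hout : ∀ u : OmegaStar, u ≠ x → ∃ i, C i ∈ u.1 := by
    intro u hu
    obtain ⟨S, hS1, hS2⟩ := exists_mem_not_mem hu.symm
    obtain ⟨i, hi⟩ := (hx S).1 hS1
    refine ⟨i, ?_⟩
    show (A i)ᶜ ∈ u.1
    rw [Ultrafilter.compl_mem_iff_notMem]
    exact fun h => hS2 (mem_of_diff_finite h hi)
  let f : Minus x → Bool := fun u => decide (∃ i, C i ∈ u.1.1 ∧ B i ∈ u.1.1)
  have hf1 : ∀ (u : Minus x) i, C i ∈ u.1.1 → B i ∈ u.1.1 → f u = true := by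
    intro u i h1 h2
    exact decide_eq_true ⟨i, h1, h2⟩
  have hf2 : ∀ (u : Minus x) i, C i ∈ u.1.1 → B i ∉ u.1.1 → f u = false := by
    intro u i h1 h2
    apply decide_eq_false
    rintro ⟨j, h3, h4⟩
    apply h2
    have h5 : (Dis (C i) (C j) (B i) (B j))ᶜ ∈ u.1.1 := u.1.2 (hB1 i j).compl_mem_cofinite
    filter_upwards [h1, h3, h4, h5] with k hk1 hk2 hk3 hk4
    by_contra hk5
    exact hk4 ⟨hk1, hk2, fun h => hk5 (h.2 hk3)⟩
  have hfc : Continuous f := by
    apply IsLocallyConstant.continuous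
    rw [IsLocallyConstant.iff_exists_open]
    intro u
    obtain ⟨i, hi⟩ := hout u.1 u.2
    by_cases hBi : B i ∈ u.1.1
    · refine ⟨Subtype.val ⁻¹' star (C i ∩ B i), (isOpen_star _).preimage continuous_subtype_val,
        inter_mem hi hBi, ?_⟩
      intro w hw
      rw [hf1 u i hi hBi, hf1 w i (mem_of_superset hw inter_subset_left)
        (mem_of_superset hw inter_subset_right)]
    · have hBi' : (B i)ᶜ ∈ u.1.1 := Ultrafilter.compl_mem_iff_notMem.2 hBi
      refine ⟨Subtype.val ⁻¹' star (C i ∩ (B i)ᶜ), (isOpen_star _).preimage continuous_subtype_val,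
        inter_mem hi hBi', ?_⟩
      intro w hw
      rw [hf2 u i hi hBi, hf2 w i (mem_of_superset hw inter_subset_left)
        (Ultrafilter.compl_mem_iff_notMem.1 (mem_of_superset hw inter_subset_right))]
  have hacc : ∀ b : Bool, x ∈ closure (Subtype.val '' {u | f u = b}) := by
    intro b
    rw [mem_closure_iff]
    intro U hU hxU
    obtain ⟨S, hS, hSU⟩ := exists_star hU hxU
    obtain ⟨i, hi⟩ := (hx S).1 hS
    obtain ⟨j, hj1, hj2⟩ : ∃ j, i < j ∧ ∀ c < j, c ≤ i := by
      obtain ⟨m, hm⟩ := exists_gt i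
      let j := (wellFounded_lt (α := W)).min (Ioi i) ⟨m, hm⟩
      refine ⟨j, (wellFounded_lt (α := W)).min_mem (Ioi i) ⟨m, hm⟩, ?_⟩
      intro c hc
      by_contra hci
      exact (wellFounded_lt (α := W)).not_lt_min (Ioi i) (not_le.1 hci : i < c) hc
    have hsplit := hB2 j i hj1 hj2
    have hT : ∀ T : Set ℕ, T ⊆ C j \ C i → T.Infinite → ∃ u : OmegaStar, T ∈ u.1 ∧ u ∈ U ∧ u ≠ x ∧
        C j ∈ u.1 := by
      intro T hTs hTi
      obtain ⟨u, hu⟩ := exists_free hTi
      have hCj : C j ∈ u.1 := mem_of_superset hu fun k hk => (hTs hk).1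
      refine ⟨u, hu, hSU (mem_of_diff_finite hu (hi.subset ?_)), ?_, hCj⟩
      · rintro k ⟨hk1, hk2⟩
        have h3 : k ∈ C j \ C i := hTs hk1
        rw [hCA] at h3
        exact ⟨h3.1, hk2⟩
      · rintro rfl
        exact hCx j hCj
    cases b with
    | true =>
      obtain ⟨u, hu1, hu2, hu3, hu4⟩ := hT _ inter_subset_left hsplit.1
      exact ⟨u, hu2, ⟨u, hu3⟩, hf1 ⟨u, hu3⟩ j hu4 (mem_of_superset hu1 inter_subset_right), rfl⟩
    | false =>
      obtain ⟨u, hu1, hu2, hu3, hu4⟩ := hT _ sdiff_subset hsplit.2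
      refine ⟨u, hu2, ⟨u, hu3⟩, hf2 ⟨u, hu3⟩ j hu4 ?_, rfl⟩
      rw [← Ultrafilter.compl_mem_iff_notMem]
      exact mem_of_superset hu1 fun k hk => hk.2
  exact two_points hfc (hacc true) (hacc false)

open Ordinal in
/-- the free ultrafilter `x` is generated by a tower of length `ω₁`: a sequence `A i`, `i < ω₁`, of
sets of natural numbers, strictly decreasing modulo finite sets, such that a set belongs to `x`
exactly when it almost contains some `A i` -/
def TowerPoint (x : OmegaStar) : Prop :=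
  ∃ A : Ordinal.{0} → Set ℕ,
    (∀ i j, i < j → j < ω₁ → (A j \ A i).Finite ∧ (A i \ A j).Infinite) ∧
    ∀ S : Set ℕ, S ∈ x.1 ↔ ∃ i < ω₁, (A i \ S).Finite

open Ordinal in
theorem towerPoint_two {x : OmegaStar} (hx : TowerPoint x) : ∃ p ∈ R x, ∃ q ∈ R x, p ≠ q := by
  obtain ⟨A, h1, h2⟩ := hx
  have : NoMaxOrder (Iio (ω₁ : Ordinal.{0})) := by
    refine ⟨fun i => ?_⟩
    have hl : Order.IsSuccLimit (ω₁ : Ordinal.{0}) := Cardinal.isSuccLimit_omega 1
    exact ⟨⟨Order.succ i.1, hl.succ_lt i.2⟩, Order.lt_succ i.1⟩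
  have hW : ∀ i : Iio (ω₁ : Ordinal.{0}), (Iio i).Countable := by
    intro i
    have h3 : i.1.card ≤ ℵ₀ := by
      rw [← lt_aleph_one_iff, ← lt_ord, ord_aleph]
      exact i.2
    have h4 : (Iio i.1).Countable := by
      rw [← Cardinal.le_aleph0_iff_set_countable, Cardinal.mk_Iio_ordinal, Cardinal.lift_le_aleph0]
      exact h3
    refine (h4.preimage (f := Subtype.val) Subtype.val_injective).mono ?_
    intro j hj
    exact hj
  refine tower_two hW (fun i => A i.1) (fun i j hij => h1 i.1 j.1 hij j.2) x fun S => ?_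
  rw [h2]
  constructor
  · rintro ⟨i, hi, h⟩
    exact ⟨⟨i, hi⟩, h⟩
  · rintro ⟨i, h⟩
    exact ⟨i.1, i.2, h⟩

end Pool.Agent.R590.Rm
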