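import Mathlib

set_option autoImplicit false
set_option linter.all false

/-!
Definitions for the consistency result on MP_fe7b28_co: countable ordinals, forcing over a
preorder (names as sets of conditions), names for a quotient of the free group on `ω₁`, for a
connection set of a Cayley graph of the quotient, and for an induced embedding of a graph on `ω₁`
in this Cayley graph.  The general forcing vocabulary is the one of the file
`Pool/Agent/Results/MP_b18e8e_lc/ConsistentAlephOne.lean`.
-/

open Set

namespace Pool.Agent.R590.Sg

/-- The well-ordered set of the countable ordinals (order type `ω₁`). -/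
abbrev Om : Type := (Cardinal.aleph 1 : Cardinal.{0}).ord.ToType

lemma mk_Om : Cardinal.mk Om = Cardinal.aleph 1 := Cardinal.mk_ord_toType _

lemma countable_Iio (a : Om) : (Iio a).Countable := by
  have h : Cardinal.mk (Iio a) < Cardinal.mk Om :=
    Cardinal.mk_Iio_lt (α := (Cardinal.aleph 1).ord.ToType) a (by simp)
  rw [mk_Om] at h
  rwa [← Cardinal.le_aleph0_iff_set_countable, ← Order.lt_succ_iff, Cardinal.succ_aleph0]

lemma countable_Iic (a : Om) : (Iic a).Countable := by
  rw [← Iio_union_right]
  exact (countable_Iio a).union (countable_singleton a)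

instance : Uncountable Om := by
  rw [← not_countable_iff, ← Cardinal.mk_le_aleph0_iff, mk_Om, not_le]
  exact Cardinal.aleph0_lt_aleph_one

/-- countable sets are bounded -/
lemma bdd_of_countable {A : Set Om} (hA : A.Countable) : ∃ b, ∀ a ∈ A, a < b := by
  by_contra hcon
  push Not at hcon
  have : (univ : Set Om) ⊆ ⋃ a ∈ A, Iic a := by
    intro x _
    obtain ⟨a, ha, hx⟩ := hcon x
    exact mem_biUnion ha hx
  exact not_countable_univ ((hA.biUnion fun a _ => countable_Iic a).mono this)

instance : Nonempty Om := by
  by_contra h
  rw [not_nonempty_iff] at h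
  exact not_countable (α := Om) inferInstance

/-! ### Forcing -/

section

universe u v w

variable {P : Type u} [Preorder P]

/-- `p` forces `not φ` iff no `q ≤ p` forces `φ`. -/
def fnot (φ : Set P) : Set P := {p | ∀ q ≤ p, q ∉ φ}

/-- `p` forces `φ and ψ` iff it forces both. -/
def fand (φ ψ : Set P) : Set P := {p | p ∈ φ ∧ p ∈ ψ}

/-- `p` forces `for all i, φ i` iff it forces every `φ i`. -/
def fall {ι : Sort v} (φ : ι → Set P) : Set P := {p | ∀ i, p ∈ φ i}

/-- `φ implies ψ` is `not (φ and not ψ)`. -/
def fimp (φ ψ : Set P) : Set P := fnot (fand φ (fnot ψ))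

/-- `there is i with φ i` is `not for all i, not φ i`. -/
def fex {ι : Sort v} (φ : ι → Set P) : Set P := fnot (fall fun i => fnot (φ i))

/-- An absolute statement about ground model objects. -/
def fground (h : Prop) : Set P := {_p | h}

/-- `p` forces that the generic filter meets the set `N` of conditions:
the set of `r` lying below some member of `N` is dense below `p`. -/
def meets (N : Set P) : Set P := {p | ∀ q ≤ p, ∃ r ≤ q, ∃ s ∈ N, r ≤ s}

/-- The relation named by `R` is a function from `X` to `Y`. -/
def IsFun {X : Type v} {Y : Type w} (R : X → Y → Set P) : Set P :=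
  fand (fall fun x => fex fun y => meets (R x y))
    (fall fun x => fall fun y => fall fun y' =>
      fimp (fand (meets (R x y)) (meets (R x y'))) (fground (y = y')))

/-- The relation named by `R` is onto `Y`. -/
def IsOnto {X : Type v} {Y : Type w} (R : X → Y → Set P) : Set P :=
  fall fun y => fex fun x => meets (R x y)

variable (P) in
/-- The countable chain condition. -/
def CCC : Prop := ∀ A : Set P, (∀ p ∈ A, ∀ q ∈ A, p ≠ q → ¬ ∃ r, r ≤ p ∧ r ≤ q) → A.Countable

variable (P) in
/-- In the extension there is no function from the natural numbers onto the ground model `ω₁`. -/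
def OmegaOnePreserved : Set P :=
  fnot (fex fun R : ℕ → Om → Set P => fand (IsFun R) (IsOnto R))

/-- In the extension, the set of words named by `N` is a normal subgroup of the free group on
`ω₁`. -/
def IsNormalName (N : FreeGroup Om → Set P) : Set P :=
  fand (meets (N 1)) (fand
    (fall fun u => fall fun v => fimp (fand (meets (N u)) (meets (N v))) (meets (N (u * v⁻¹))))
    (fall fun u => fall fun g => fimp (meets (N u)) (meets (N (g * u * g⁻¹)))))

/-- In the extension, the images of the generators in the quotient of the free group by `N` are
pairwise distinct. -/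
def GeneratorsDistinct (N : FreeGroup Om → Set P) : Set P :=
  fall fun i : Om => fall fun j : Om =>
    fimp (fground (i ≠ j)) (fnot (meets (N ((FreeGroup.of i)⁻¹ * FreeGroup.of j))))


/-- `φ iff ψ`. -/
def fiff (φ ψ : Set P) : Set P := fand (fimp φ ψ) (fimp ψ φ)

/-- In the extension, `S` is a set of words which is a union of classes modulo `N`, does not
contain `1` and is closed under inverses: it names a symmetric subset of the quotient group
modulo `N` which does not contain the neutral element. -/
def IsConnectionName (N S : FreeGroup Om → Set P) : Set P :=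
  fand (fall fun u => fall fun v => fimp (fand (meets (S u)) (meets (N (u⁻¹ * v)))) (meets (S v)))
    (fand (fnot (meets (S 1))) (fall fun u => fimp (meets (S u)) (meets (S u⁻¹))))

/-- In the extension, the function `Φ` from `ω₁` to the words is injective modulo `N`. -/
def IsInjMod (N : FreeGroup Om → Set P) (Φ : Om → FreeGroup Om → Set P) : Set P :=
  fall fun x => fall fun y => fall fun u => fall fun v =>
    fimp (fand (meets (Φ x u)) (fand (meets (Φ y v)) (meets (N (u⁻¹ * v))))) (fground (x = y))

/-- In the extension, two distinct vertices `x, y` of the graph `X` are adjacent in `X` iff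
`Φ x` and `Φ y` are adjacent in the Cayley graph given by `S`, that is, iff `(Φ x)⁻¹ (Φ y) ∈ S`. -/
def IsInducedEmb (X : SimpleGraph Om) (S : FreeGroup Om → Set P)
    (Φ : Om → FreeGroup Om → Set P) : Set P :=
  fall fun x => fall fun y => fall fun u => fall fun v =>
    fimp (fand (fground (x ≠ y)) (fand (meets (Φ x u)) (meets (Φ y v))))
      (fiff (fground (X.Adj x y)) (meets (S (u⁻¹ * v))))

/-- The graph `X` on `ω₁` has neither an uncountable clique nor an uncountable independent set. -/
def NoLargeHomogeneous (X : SimpleGraph Om) : Prop :=
  ∀ U : Set Om, ¬ U.Countable → (∃ a ∈ U, ∃ b ∈ U, a ≠ b ∧ X.Adj a b) ∧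
    ∃ a ∈ U, ∃ b ∈ U, a ≠ b ∧ ¬ X.Adj a b

variable (P) in
/-- In the extension there is a group `G` with `ω₁` distinct generators, such that no ground model
graph on `ω₁` which has (in the ground model) no uncountable clique and no uncountable independent
set embeds as an induced subgraph in a Cayley graph of `G`. -/
def BadGroupHolds : Set P :=
  fex fun N : FreeGroup Om → Set P => fand (IsNormalName N) (fand (GeneratorsDistinct N)
    (fall fun X : {X : SimpleGraph Om // NoLargeHomogeneous X} =>
      fall fun S : FreeGroup Om → Set P => fall fun Φ : Om → FreeGroup Om → Set P =>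
        fimp (IsConnectionName N S)
          (fnot (fand (IsFun Φ) (fand (IsInjMod N Φ) (IsInducedEmb X.1 S Φ))))))

end

end Pool.Agent.R590.Sg
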