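import Mathlib
import Pool.Agent.R590.SgDefs

set_option autoImplicit false
set_option linter.all false

/-!
The forcing notion of finite approximations to a group with `ω₁` generators, and the amalgamation
of three conditions of the same shape.  This file follows
`Pool/Agent/Results/MP_b18e8e_lc/ConsistentAlephOne.lean` (same definitions and proofs up to the
section on the generic group), restated here as a helper file for MP_fe7b28_co.
-/

open Set

namespace Pool.Agent.R590.Sg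

/-! ### Three copies of a group amalgamated along a subgroup -/

section Amalgam

variable {S : Type} [Group S] (R : Subgroup S)

/-- the set on which the amalgam acts -/
abbrev Pt (S : Type) [Group S] : Type := Subgroup S × S × ZMod 4

open Classical in
/-- the indicator function of `L ⊔ R` -/
noncomputable def ind (L : Subgroup S) (g : S) : ZMod 4 := if g ∈ L ⊔ R then 1 else 0

lemma ind_one (L : Subgroup S) : ind R L 1 = 1 := by simp [ind, one_mem]

lemma ind_of_not {L : Subgroup S} {g : S} (h : g ∉ L ⊔ R) : ind R L g = 0 := by simp [ind, h]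

lemma ind_mul {L : Subgroup S} {r : S} (h : r ∈ L ⊔ R) (g : S) : ind R L (r * g) = ind R L g := by
  have : r * g ∈ L ⊔ R ↔ g ∈ L ⊔ R := Subgroup.mul_mem_cancel_left _ h
  by_cases hg : g ∈ L ⊔ R
  · rw [ind, ind, if_pos hg, if_pos (this.2 hg)]
  · rw [ind, ind, if_neg hg, if_neg (fun h' => hg (this.1 h'))]

/-- `tw R k s` maps `(L, g, x)` to `(L, s g, x + k ([g ∈ L ⊔ R] - [s g ∈ L ⊔ R]))`. -/
noncomputable def tw (k : ZMod 4) : S →* Equiv.Perm (Pt S) where
  toFun s :=
    { toFun := fun y => (y.1, s * y.2.1, y.2.2 + k * (ind R y.1 y.2.1 - ind R y.1 (s * y.2.1)))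
      invFun := fun y =>
        (y.1, s⁻¹ * y.2.1, y.2.2 + k * (ind R y.1 y.2.1 - ind R y.1 (s⁻¹ * y.2.1)))
      left_inv := by
        rintro ⟨L, g, x⟩
        simp only [inv_mul_cancel_left, Prod.mk.injEq, true_and]
        ring
      right_inv := by
        rintro ⟨L, g, x⟩
        simp only [mul_inv_cancel_left, Prod.mk.injEq, true_and]
        ring }
  map_one' := by
    ext y <;> simp
  map_mul' s s' := by
    apply Equiv.ext
    rintro ⟨L, g, x⟩
    simp only [Equiv.coe_fn_mk, Equiv.Perm.coe_mul, Function.comp_apply, Prod.mk.injEq, true_and,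
      mul_assoc]
    ring

lemma tw_apply (k : ZMod 4) (s : S) (L : Subgroup S) (g : S) (x : ZMod 4) :
    tw R k s (L, g, x) = (L, s * g, x + k * (ind R L g - ind R L (s * g))) := rfl

lemma tw_injective (k : ZMod 4) : Function.Injective (tw R k) := by
  intro s s' h
  have := congrArg (fun f => (f (⊥, 1, 0)).2.1) h
  simpa [tw_apply] using this

/-- all copies agree on `R` -/
lemma tw_of_mem (k k' : ZMod 4) {r : S} (h : r ∈ R) : tw R k r = tw R k' r := by
  apply Equiv.ext
  rintro ⟨L, g, x⟩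
  have h' : r ∈ L ⊔ R := Subgroup.mem_sup_right h
  rw [tw_apply, tw_apply, ind_mul R h']
  simp

/-- the three copies of an element form an arithmetic progression -/
lemma tw_ap (w : S) : tw R 1 w * (tw R 0 w)⁻¹ * tw R 1 w = tw R 2 w := by
  rw [← map_inv]
  apply Equiv.ext
  rintro ⟨L, g, x⟩
  simp only [Equiv.Perm.coe_mul, Function.comp_apply, tw_apply, inv_mul_cancel_left, zero_mul,
    add_zero, one_mul, Prod.mk.injEq, true_and]
  ring

/-- the permutations which preserve a function -/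
def inv {X Y : Type} (F : X → Y) : Subgroup (Equiv.Perm X) where
  carrier := {g | ∀ x, F (g x) = F x}
  one_mem' := fun x => rfl
  mul_mem' := by
    intro g h hg hh x
    rw [Equiv.Perm.coe_mul, Function.comp_apply, hg, hh]
  inv_mem' := by
    intro g hg x
    have h1 : g (g⁻¹ x) = x := g.apply_symm_apply x
    have := hg (g⁻¹ x)
    rw [← this, h1]

lemma mem_inv {X Y : Type} {F : X → Y} {g : Equiv.Perm X} : g ∈ inv F ↔ ∀ x, F (g x) = F x :=
  Iff.rfl

open Classical in
/-- the value of `f` at the last coordinate, on the slice of `L` -/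
noncomputable def FL {Y : Type} (L : Subgroup S) (f : ZMod 4 → Y) (y : Pt S) : Option Y :=
  if y.1 = L then some (f y.2.2) else none

lemma tw_mem_inv_of_mem {Y : Type} (L : Subgroup S) (f : ZMod 4 → Y) (k : ZMod 4) {s : S}
    (hs : s ∈ L ⊔ R) : tw R k s ∈ inv (FL L f) := by
  rintro ⟨L', g, x⟩
  rw [tw_apply]
  by_cases h : L' = L
  · subst h
    simp only [FL, if_true]
    rw [ind_mul R hs]
    simp
  · simp [FL, h]

lemma tw_mem_inv_of_const {Y : Type} (L : Subgroup S) (f : ZMod 4 → Y) (k : ZMod 4) (s : S)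
    (hk : ∀ x c, f (x + k * c) = f x) : tw R k s ∈ inv (FL L f) := by
  rintro ⟨L', g, x⟩
  rw [tw_apply]
  by_cases h : L' = L
  · subst h
    simp only [FL, if_true]
    rw [hk]
  · simp [FL, h]

lemma of_tw_mem_inv {Y : Type} (L : Subgroup S) (f : ZMod 4 → Y) (k : ZMod 4) {s : S}
    (hk : f k ≠ f 0) (h : tw R k s ∈ inv (FL L f)) : s ∈ L ⊔ R := by
  by_contra hs
  have := h (L, 1, 0)
  rw [tw_apply] at this
  simp only [FL, if_true, mul_one, ind_one, ind_of_not R hs, sub_zero, zero_add,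
    Option.some.injEq] at this
  exact hk this

/-- the parity of an element of `ZMod 4` -/
def par (x : ZMod 4) : Bool := x = 0 ∨ x = 2

lemma par_two : ∀ x c : ZMod 4, par (x + 2 * c) = par x := by decide

lemma par_one : par 1 ≠ par 0 := by decide

lemma of_eq_zero {k : ZMod 4} (hk : k ≠ 0) {w s : S} (h : tw R k w = tw R 0 s) :
    w ∈ R ∧ w = s := by
  constructor
  · have h1 : tw R k w ∈ inv (FL (⊥ : Subgroup S) (id : ZMod 4 → ZMod 4)) := by
      rw [h]
      exact tw_mem_inv_of_const R _ _ _ _ (by simp)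
    have := of_tw_mem_inv R ⊥ (id : ZMod 4 → ZMod 4) k (by simpa using hk) h1
    simpa using this
  · have := congrArg (fun f => (f (⊥, 1, 0)).2.1) h
    simpa [tw_apply] using this

end Amalgam

/-- Pressing down: some value of `τ` is taken unboundedly often. -/
lemma pressing {Z : Type} (F : Om → Set Z) (hF : ∀ b, (F b).Countable) (τ : Om → Z)
    (h : ∀ (a : Om) (s : ℕ → Om), Monotone s → (∀ n, s n < a) → (∀ i < a, ∃ n, i ≤ s n) →
      ∃ n, τ a ∈ F (s n)) :
    ∃ z, ∀ b, ∃ a, b < a ∧ τ a = z := by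
  classical
  by_contra hcon
  push Not at hcon
  choose β hβ using hcon
  have step : ∀ b : Om, ∃ c, b < c ∧ ∀ z ∈ F b, β z < c := by
    intro b
    obtain ⟨c, hc⟩ := bdd_of_countable ((countable_singleton b).union ((hF b).image β))
    exact ⟨c, hc b (Or.inl rfl), fun z hz => hc _ (Or.inr ⟨z, hz, rfl⟩)⟩
  choose nx h1 h2 using step
  obtain ⟨b0⟩ : Nonempty Om := inferInstance
  let s : ℕ → Om := fun n => nx^[n] b0
  have hs : ∀ n, s (n + 1) = nx (s n) := fun n => Function.iterate_succ_apply' _ _ _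
  have hmono : StrictMono s := strictMono_nat_of_lt_succ fun n => by rw [hs]; exact h1 _
  obtain ⟨c, hc⟩ := bdd_of_countable (countable_range s)
  have hne : {x : Om | ∀ n, s n < x}.Nonempty := ⟨c, fun n => hc _ ⟨n, rfl⟩⟩
  let a := wellFounded_lt.min _ hne
  have ha : ∀ n, s n < a := wellFounded_lt.min_mem _ hne
  have hlt : ∀ x < a, ∃ n, x ≤ s n := by
    intro x hx
    by_contra hcon
    push Not at hcon
    exact wellFounded_lt.not_lt_min {x : Om | ∀ n, s n < x} hcon hx
  obtain ⟨n, hn⟩ := h a s hmono.monotone ha hlt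
  have h3 : β (τ a) < s (n + 1) := by rw [hs]; exact h2 _ _ hn
  exact hβ (τ a) a (h3.trans (ha _)) rfl

/-! ### The conditions -/

/-- A finite group, given by a sequence of generating permutations of a finite set, no one of
which is in the group generated by the previous ones. -/
structure Shape where
  m : ℕ
  n : ℕ
  T : Fin m → Equiv.Perm (Fin n)
  new : ∀ j, T j ∉ Subgroup.closure (T '' Iio j)

instance : Countable Shape := by
  have : Function.Injective (fun s : Shape =>
      (⟨s.m, s.n, s.T⟩ : Σ m : ℕ, Σ n : ℕ, (Fin m → Equiv.Perm (Fin n)))) := by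
    rintro ⟨m, n, T, _⟩ ⟨m', n', T', _⟩ h
    simp only [Sigma.mk.injEq] at h
    obtain ⟨rfl, h⟩ := h
    simp only [heq_eq_eq, Sigma.mk.injEq] at h
    obtain ⟨rfl, h⟩ := h
    simp only [heq_eq_eq] at h
    subst h
    rfl
  exact this.countable

/-- A condition: a shape, and an increasing sequence of countable ordinals which index the
generators. -/
structure Cond where
  s : Shape
  ε : Fin s.m ↪o Om

namespace Cond

open Classical in
/-- the permutation assigned to the generator of index `i`, trivial outside of the domain -/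
noncomputable def t (p : Cond) (i : Om) : Equiv.Perm (Fin p.s.n) :=
  if h : ∃ j, p.ε j = i then p.s.T h.choose else 1

lemma t_ε (p : Cond) (j : Fin p.s.m) : p.t (p.ε j) = p.s.T j := by
  have h : ∃ j', p.ε j' = p.ε j := ⟨j, rfl⟩
  rw [t, dif_pos h]
  congr 1
  exact p.ε.injective h.choose_spec

/-- the set of the indices of the generators of a condition -/
def dom (p : Cond) : Set Om := range p.ε

lemma t_off (p : Cond) {i : Om} (h : i ∉ p.dom) : p.t i = 1 := by
  rw [t, dif_neg]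
  exact h

/-- the words in the generators of a condition -/
def W (p : Cond) : Subgroup (FreeGroup Om) := Subgroup.closure (FreeGroup.of '' p.dom)

/-- the value of a word -/
noncomputable def val (p : Cond) : FreeGroup Om →* Equiv.Perm (Fin p.s.n) := FreeGroup.lift p.t

/-- the group generated by the generators of index `< a` -/
def gen (p : Cond) (a : Om) : Subgroup (Equiv.Perm (Fin p.s.n)) :=
  Subgroup.closure (p.t '' Iio a)

end Cond

open Cond

/-- `q ≤ p` if `q` has more generators, the group of `p` is a subgroup of the group of `q`, and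
the elements of the group of `p` which are generated by the generators of index `< a` in `q`
are so in `p`. -/
instance : Preorder Cond where
  le q p := p.dom ⊆ q.dom ∧ ∀ v ∈ p.W, (q.val v = 1 ↔ p.val v = 1) ∧
    ∀ a, q.val v ∈ q.gen a → p.val v ∈ p.gen a
  le_refl p := ⟨Subset.rfl, fun v _ => ⟨Iff.rfl, fun a h => h⟩⟩
  le_trans r q p h1 h2 := by
    refine ⟨h2.1.trans h1.1, fun v hv => ?_⟩
    have hv' : v ∈ q.W := Subgroup.closure_mono (image_mono h2.1) hv
    exact ⟨(h1.2 v hv').1.trans (h2.2 v hv).1, fun a h => (h2.2 v hv).2 a ((h1.2 v hv').2 a h)⟩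

lemma le_def {q p : Cond} : q ≤ p ↔ p.dom ⊆ q.dom ∧ ∀ v ∈ p.W, (q.val v = 1 ↔ p.val v = 1) ∧
    ∀ a, q.val v ∈ q.gen a → p.val v ∈ p.gen a := Iff.rfl

lemma W_mono {q p : Cond} (h : q ≤ p) : p.W ≤ q.W := Subgroup.closure_mono (image_mono h.1)

lemma finite_dom (p : Cond) : p.dom.Finite := finite_range _

/-- a generator is not in the group generated by the previous ones -/
lemma t_not_mem (p : Cond) {i : Om} (hi : i ∈ p.dom) : p.t i ∉ p.gen i := by
  obtain ⟨j, rfl⟩ := hi
  rw [t_ε, gen]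
  intro h
  refine p.s.new j (Subgroup.closure_le _ |>.2 ?_ h)
  rintro _ ⟨i, hi, rfl⟩
  by_cases hd : i ∈ p.dom
  · obtain ⟨j', rfl⟩ := hd
    rw [t_ε]
    exact Subgroup.subset_closure ⟨j', p.ε.lt_iff_lt.1 hi, rfl⟩
  · rw [t_off p hd]
    exact one_mem _

/-- A marked finite group is a condition. -/
lemma exists_cond (E : Finset Om) {G : Type} [Group G] [Finite G] (t : Om → G)
    (off : ∀ i ∉ E, t i = 1) (new : ∀ i ∈ E, t i ∉ Subgroup.closure (t '' Iio i)) :
    ∃ (c : Cond) (ρ : G →* Equiv.Perm (Fin c.s.n)), Function.Injective ρ ∧ c.dom = ↑E ∧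
      ∀ i, c.t i = ρ (t i) := by
  classical
  have : Fintype G := Fintype.ofFinite G
  let e : G ≃ Fin (Fintype.card G) := Fintype.equivFin G
  let ρ : G →* Equiv.Perm (Fin (Fintype.card G)) :=
    (e.permCongrHom : Equiv.Perm G ≃* Equiv.Perm (Fin (Fintype.card G))).toMonoidHom.comp
      (MulAction.toPermHom G G)
  have hρ : Function.Injective ρ := by
    intro x y hxy
    exact MulAction.toPerm_injective ((e.permCongrHom).injective hxy)
  let ε : Fin E.card ↪o Om := E.orderEmbOfFin rfl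
  have hE : ∀ j, ε j ∈ E := fun j => E.orderEmbOfFin_mem rfl j
  let c : Cond := ⟨⟨E.card, Fintype.card G, fun j => ρ (t (ε j)), by
    intro j hj
    refine new (ε j) (hE j) ?_
    have h1 : Subgroup.closure ((fun j => ρ (t (ε j))) '' Iio j) ≤
        (Subgroup.closure (t '' Iio (ε j))).map ρ := by
      rw [Subgroup.closure_le]
      rintro _ ⟨j', hj', rfl⟩
      exact ⟨_, Subgroup.subset_closure ⟨ε j', ε.lt_iff_lt.2 hj', rfl⟩, rfl⟩
    obtain ⟨x, hx, hx'⟩ := h1 hj
    rwa [hρ hx'] at hx⟩, ε⟩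
  have hdom : c.dom = ↑E := E.range_orderEmbOfFin rfl
  refine ⟨c, ρ, hρ, hdom, fun i => ?_⟩
  by_cases hi : i ∈ c.dom
  · obtain ⟨j, rfl⟩ := hi
    exact c.t_ε j
  · rw [c.t_off hi, off i (by rwa [hdom] at hi), map_one]

lemma val_eq {c : Cond} {G : Type} [Group G] (t : Om → G) (ρ : G →* Equiv.Perm (Fin c.s.n))
    (h : ∀ i, c.t i = ρ (t i)) (v : FreeGroup Om) : c.val v = ρ (FreeGroup.lift t v) := by
  have : c.val = ρ.comp (FreeGroup.lift t) := by
    ext i
    simp [Cond.val, h]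
  rw [this]; rfl

lemma gen_eq {c : Cond} {G : Type} [Group G] (t : Om → G) (ρ : G →* Equiv.Perm (Fin c.s.n))
    (h : ∀ i, c.t i = ρ (t i)) (a : Om) :
    c.gen a = (Subgroup.closure (t '' Iio a)).map ρ := by
  rw [Cond.gen, MonoidHom.map_closure, image_image]
  congr 1
  exact image_congr fun i _ => h i

/-- criterion for the order -/
lemma le_of {c p : Cond} {G : Type} [Group G] (t : Om → G) (ρ : G →* Equiv.Perm (Fin c.s.n))
    (hρ : Function.Injective ρ) (h : ∀ i, c.t i = ρ (t i)) (hd : p.dom ⊆ c.dom)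
    (φ : Equiv.Perm (Fin p.s.n) →* G) (hφ : Function.Injective φ)
    (ht : ∀ i ∈ p.dom, t i = φ (p.t i))
    (hg : ∀ a, ∀ w ∈ Subgroup.closure (range p.s.T), φ w ∈ Subgroup.closure (t '' Iio a) →
      w ∈ p.gen a) : c ≤ p := by
  have key : ∀ v ∈ p.W, FreeGroup.lift t v = φ (p.val v) := by
    intro v hv
    have : Set.EqOn (FreeGroup.lift t) (φ.comp p.val) (p.W : Set (FreeGroup Om)) := by
      apply MonoidHom.eqOn_closure
      rintro _ ⟨i, hi, rfl⟩
      simp [Cond.val, ht i hi]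
    exact this hv
  have hval : ∀ v ∈ p.W, p.val v ∈ Subgroup.closure (range p.s.T) := by
    intro v hv
    have h1 : p.W ≤ (Subgroup.closure (range p.s.T)).comap p.val := by
      rw [Cond.W, Subgroup.closure_le]
      rintro _ ⟨i, ⟨j, rfl⟩, rfl⟩
      simp only [SetLike.mem_coe, Subgroup.mem_comap, Cond.val, FreeGroup.lift_apply_of, t_ε]
      exact Subgroup.subset_closure ⟨j, rfl⟩
    exact h1 hv
  refine ⟨hd, fun v hv => ⟨?_, fun a ha => ?_⟩⟩
  · rw [val_eq t ρ h, key v hv]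
    constructor
    · intro h1
      exact hφ (hρ (by simpa using h1))
    · intro h1
      rw [h1, map_one, map_one]
  · rw [val_eq t ρ h, gen_eq t ρ h, key v hv] at ha
    obtain ⟨x, hx, hx'⟩ := ha
    rw [hρ hx'] at hx
    exact hg a _ (hval v hv) hx


/-! ### Density -/

lemma exists_dom (p : Cond) (i₀ : Om) : ∃ q ≤ p, i₀ ∈ q.dom := by
  classical
  by_cases hi : i₀ ∈ p.dom
  · exact ⟨p, le_rfl, hi⟩
  let G : Type := Equiv.Perm (Fin p.s.n) × Multiplicative (ZMod 2)
  let t : Om → G := fun i => if i = i₀ then (1, Multiplicative.ofAdd 1) else (p.t i, 1)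
  let E : Finset Om := insert i₀ (finite_dom p).toFinset
  have hne : (Multiplicative.ofAdd (1 : ZMod 2)) ≠ 1 := by decide
  have off : ∀ i ∉ E, t i = 1 := by
    intro i hi'
    simp only [E, Finset.mem_insert, Finite.mem_toFinset, not_or] at hi'
    show (if i = i₀ then _ else _) = _
    rw [if_neg hi'.1, t_off p hi'.2]
    rfl
  have hfst : ∀ a, Subgroup.closure (t '' Iio a) ≤
      (p.gen a).comap (MonoidHom.fst (Equiv.Perm (Fin p.s.n)) (Multiplicative (ZMod 2))) := by
    intro a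
    rw [Subgroup.closure_le]
    rintro _ ⟨i, hia, rfl⟩
    simp only [SetLike.mem_coe, Subgroup.mem_comap, MonoidHom.coe_fst]
    by_cases h : i = i₀
    · simp only [t, if_pos h]
      exact one_mem _
    · simp only [t, if_neg h]
      exact Subgroup.subset_closure ⟨i, hia, rfl⟩
  have new : ∀ i ∈ E, t i ∉ Subgroup.closure (t '' Iio i) := by
    intro i hiE hi'
    by_cases h : i = i₀
    · subst h
      have h1 : Subgroup.closure (t '' Iio i) ≤
          (MonoidHom.snd (Equiv.Perm (Fin p.s.n)) (Multiplicative (ZMod 2))).ker := by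
        rw [Subgroup.closure_le]
        rintro _ ⟨i', hia, rfl⟩
        have : i' ≠ i := ne_of_lt hia
        simp only [t, if_neg this, SetLike.mem_coe, MonoidHom.mem_ker, MonoidHom.coe_snd]
        rfl
      have h2 := h1 hi'
      simp only [t, if_true, MonoidHom.mem_ker, MonoidHom.coe_snd] at h2
      exact hne h2
    · have h1 := hfst i hi'
      simp only [t, if_neg h, Subgroup.mem_comap, MonoidHom.coe_fst] at h1
      have h2 : i ∈ p.dom := by
        simp only [E, Finset.mem_insert, Finite.mem_toFinset] at hiE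
        exact hiE.resolve_left h
      exact t_not_mem p h2 h1
  obtain ⟨c, ρ, hρ, hd, hc⟩ := exists_cond E t off new
  have hmem : ∀ i, i ∈ c.dom ↔ i = i₀ ∨ i ∈ p.dom := by
    intro i
    rw [hd]
    simp [E]
  refine ⟨c, ?_, (hmem i₀).2 (Or.inl rfl)⟩
  refine le_of t ρ hρ hc (fun i hi' => (hmem i).2 (Or.inr hi'))
    (MonoidHom.inl _ _) (fun x y h => congrArg Prod.fst h) (fun i hi' => ?_) (fun a w _ hw => ?_)
  · have : i ≠ i₀ := fun h => hi (h ▸ hi')
    simp only [t, if_neg this]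
    rfl
  · exact hfst a hw

lemma exists_finset_dom (p : Cond) (F : Finset Om) : ∃ q ≤ p, ↑F ⊆ q.dom := by
  classical
  induction F using Finset.induction_on with
  | empty => exact ⟨p, le_rfl, by simp⟩
  | insert i F _ ih =>
    obtain ⟨q, hq, hF⟩ := ih
    obtain ⟨r, hr, hi⟩ := exists_dom q i
    refine ⟨r, hr.trans hq, ?_⟩
    rw [Finset.coe_insert, insert_subset_iff]
    exact ⟨hi, hF.trans hr.1⟩

/-- each word is a product of finitely many generators -/
lemma exists_finset_word (v : FreeGroup Om) :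
    ∃ F : Finset Om, v ∈ Subgroup.closure (FreeGroup.of '' (F : Set Om)) := by
  classical
  induction v using FreeGroup.induction_on with
  | C1 => exact ⟨∅, one_mem _⟩
  | of i => exact ⟨{i}, Subgroup.subset_closure ⟨i, by simp, rfl⟩⟩
  | inv_of i _ => exact ⟨{i}, inv_mem (Subgroup.subset_closure ⟨i, by simp, rfl⟩)⟩
  | mul u v hu hv =>
    obtain ⟨F, hF⟩ := hu
    obtain ⟨F', hF'⟩ := hv
    refine ⟨F ∪ F', mul_mem ?_ ?_⟩
    · exact Subgroup.closure_mono (image_mono (by simp)) hF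
    · exact Subgroup.closure_mono (image_mono (by simp)) hF'

lemma exists_W (p : Cond) (v : FreeGroup Om) : ∃ q ≤ p, v ∈ q.W := by
  obtain ⟨F, hF⟩ := exists_finset_word v
  obtain ⟨q, hq, h⟩ := exists_finset_dom p F
  exact ⟨q, hq, Subgroup.closure_mono (image_mono h) hF⟩

/-! ### Three conditions of the same shape -/

lemma amalgam (s : Shape) (ε₀ ε₂ ε₁ : Fin s.m ↪o Om) {a b c : Om} (hab : a < b) (hbc : b < c)
    (h₀ : ∀ j, ε₀ j < b) (h₂ : ∀ j, ε₂ j < c)
    (e₂ : ∀ j, ε₀ j < a → ε₂ j = ε₀ j) (e₁ : ∀ j, ε₀ j < a → ε₁ j = ε₀ j)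
    (f₂ : ∀ j, ¬ ε₀ j < a → b ≤ ε₂ j) (f₁ : ∀ j, ¬ ε₀ j < a → c ≤ ε₁ j) :
    ∃ D : Cond, D ≤ ⟨s, ε₀⟩ ∧ D ≤ ⟨s, ε₂⟩ ∧ D ≤ ⟨s, ε₁⟩ ∧ ∀ u : FreeGroup (Fin s.m),
      D.val (FreeGroup.map ε₁ u) * (D.val (FreeGroup.map ε₀ u))⁻¹ * D.val (FreeGroup.map ε₁ u) =
        D.val (FreeGroup.map ε₂ u) ∧
      (D.val (FreeGroup.map ε₀ u) = D.val (FreeGroup.map ε₂ u) →
        FreeGroup.lift s.T u ∈ Subgroup.closure (s.T '' {j | ε₀ j < a})) := by
  classical
  let S : Type := Equiv.Perm (Fin s.n)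
  let R : Subgroup S := Subgroup.closure (s.T '' {j | ε₀ j < a})
  have hTR : ∀ j, ε₀ j < a → s.T j ∈ R := fun j hj => Subgroup.subset_closure ⟨j, hj, rfl⟩
  let p₀ : Cond := ⟨s, ε₀⟩
  let p₂ : Cond := ⟨s, ε₂⟩
  let p₁ : Cond := ⟨s, ε₁⟩
  let t : Om → Equiv.Perm (Pt S) := fun i =>
    if i < b then tw R 0 (p₀.t i) else if i < c then tw R 2 (p₂.t i) else tw R 1 (p₁.t i)
  have t₀ : ∀ j, t (ε₀ j) = tw R 0 (s.T j) := by
    intro j
    simp only [t, if_pos (h₀ j)]
    exact congrArg _ (t_ε p₀ j)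
  have t₂ : ∀ j, t (ε₂ j) = tw R 2 (s.T j) := by
    intro j
    by_cases hj : ε₀ j < a
    · rw [e₂ j hj, t₀, tw_of_mem R 0 2 (hTR j hj)]
    · have h1 : ¬ ε₂ j < b := not_lt.2 (f₂ j hj)
      simp only [t, if_neg h1, if_pos (h₂ j)]
      exact congrArg _ (t_ε p₂ j)
  have t₁ : ∀ j, t (ε₁ j) = tw R 1 (s.T j) := by
    intro j
    by_cases hj : ε₀ j < a
    · rw [e₁ j hj, t₀, tw_of_mem R 0 1 (hTR j hj)]
    · have h1 : ¬ ε₁ j < c := not_lt.2 (f₁ j hj)
      have h2 : ¬ ε₁ j < b := fun h => h1 (h.trans hbc)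
      simp only [t, if_neg h1, if_neg h2]
      exact congrArg _ (t_ε p₁ j)
  -- the values of `t` below `e`
  have cases : ∀ i, t i = 1 ∨ (∃ j, ε₀ j = i ∧ t i = tw R 0 (s.T j)) ∨
      (∃ j, ε₂ j = i ∧ b ≤ i ∧ t i = tw R 2 (s.T j)) ∨
      (∃ j, ε₁ j = i ∧ c ≤ i ∧ t i = tw R 1 (s.T j)) := by
    intro i
    by_cases hb : i < b
    · by_cases hi : i ∈ p₀.dom
      · obtain ⟨j, rfl⟩ := hi
        exact Or.inr (Or.inl ⟨j, rfl, t₀ j⟩)
      · left
        simp only [t, if_pos hb, t_off p₀ hi, map_one]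
    · by_cases hc : i < c
      · by_cases hi : i ∈ p₂.dom
        · obtain ⟨j, rfl⟩ := hi
          exact Or.inr (Or.inr (Or.inl ⟨j, rfl, not_lt.1 hb, t₂ j⟩))
        · left
          simp only [t, if_neg hb, if_pos hc, t_off p₂ hi, map_one]
      · by_cases hi : i ∈ p₁.dom
        · obtain ⟨j, rfl⟩ := hi
          exact Or.inr (Or.inr (Or.inr ⟨j, rfl, not_lt.1 hc, t₁ j⟩))
        · left
          simp only [t, if_neg hb, if_neg hc, t_off p₁ hi, map_one]
  have gle : ∀ (p : Cond) (e : Om) (j : Fin p.s.m), p.ε j < e → p.s.T j ∈ p.gen e := by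
    intro p e j hj
    exact Subgroup.subset_closure ⟨_, hj, t_ε p j⟩
  -- key facts
  have key₀ : ∀ e, ∀ w ∈ Subgroup.closure (range s.T),
      tw R 0 w ∈ Subgroup.closure (t '' Iio e) → w ∈ p₀.gen e := by
    intro e w hw hmem
    by_cases he : e ≤ b
    · have h1 : Subgroup.closure (t '' Iio e) ≤ (p₀.gen e).map (tw R 0) := by
        rw [Subgroup.closure_le]
        rintro _ ⟨i, hi, rfl⟩
        rcases cases i with h | ⟨j, hj, h⟩ | ⟨j, hj, hb, h⟩ | ⟨j, hj, hc, h⟩
        · rw [h]; exact one_mem _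
        · rw [h]; exact ⟨_, gle p₀ e j (hj ▸ hi), rfl⟩
        · exact absurd (hi.trans_le he) (not_lt.2 hb)
        · exact absurd ((hi.trans_le he).trans hbc) (not_lt.2 hc)
      obtain ⟨w', hw', h'⟩ := h1 hmem
      rwa [tw_injective R 0 h'] at hw'
    · have h1 : Subgroup.closure (range s.T) ≤ p₀.gen e := by
        rw [Subgroup.closure_le]
        rintro _ ⟨j, rfl⟩
        exact gle p₀ e j ((h₀ j).trans (not_le.1 he))
      exact h1 hw
  -- for `e ≤ b`
  have low : ∀ (ε : Fin s.m ↪o Om), (∀ j, ε₀ j < a → ε j = ε₀ j) → ∀ k : ZMod 4, k ≠ 0 →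
      ∀ e ≤ b, ∀ w, tw R k w ∈ Subgroup.closure (t '' Iio e) →
      w ∈ (⟨s, ε⟩ : Cond).gen e := by
    intro ε hε k hk e he w hmem
    have h1 : Subgroup.closure (t '' Iio e) ≤ (p₀.gen e).map (tw R 0) := by
      rw [Subgroup.closure_le]
      rintro _ ⟨i, hi, rfl⟩
      rcases cases i with h | ⟨j, hj, h⟩ | ⟨j, hj, hb, h⟩ | ⟨j, hj, hc, h⟩
      · rw [h]; exact one_mem _
      · rw [h]; exact ⟨_, gle p₀ e j (hj ▸ hi), rfl⟩
      · exact absurd (hi.trans_le he) (not_lt.2 hb)
      · exact absurd ((hi.trans_le he).trans hbc) (not_lt.2 hc)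
    obtain ⟨w', hw', h'⟩ := h1 hmem
    obtain ⟨hwR, rfl⟩ := of_eq_zero R hk h'.symm
    by_cases hea : e ≤ a
    · -- all generators below `e` are common
      have h2 : p₀.gen e ≤ (⟨s, ε⟩ : Cond).gen e := by
        rw [Cond.gen, Subgroup.closure_le]
        rintro _ ⟨i, hi, rfl⟩
        by_cases hd : i ∈ p₀.dom
        · obtain ⟨j, rfl⟩ := hd
          have hj : ε₀ j < a := lt_of_lt_of_le hi hea
          rw [t_ε]
          have : (⟨s, ε⟩ : Cond).ε j < e := by
            show ε j < e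
            rw [hε j hj]; exact hi
          exact gle ⟨s, ε⟩ e j this
        · rw [t_off p₀ hd]
          exact one_mem _
      exact h2 hw'
    · have h2 : R ≤ (⟨s, ε⟩ : Cond).gen e := by
        rw [Subgroup.closure_le]
        rintro _ ⟨j, hj, rfl⟩
        have : (⟨s, ε⟩ : Cond).ε j < e := by
          show ε j < e
          rw [hε j hj]; exact hj.trans (not_le.1 hea)
        exact gle ⟨s, ε⟩ e j this
      exact h2 hwR
  have hRgen : ∀ (ε : Fin s.m ↪o Om), (∀ j, ε₀ j < a → ε j = ε₀ j) → ∀ e, a ≤ e →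
      R ≤ (⟨s, ε⟩ : Cond).gen e := by
    intro ε hε e he
    rw [Subgroup.closure_le]
    rintro _ ⟨j, hj, rfl⟩
    have : (⟨s, ε⟩ : Cond).ε j < e := by
      show ε j < e
      rw [hε j hj]; exact lt_of_lt_of_le hj he
    exact gle ⟨s, ε⟩ e j this
  have key₂ : ∀ e, ∀ w ∈ Subgroup.closure (range s.T),
      tw R 2 w ∈ Subgroup.closure (t '' Iio e) → w ∈ p₂.gen e := by
    intro e w hw hmem
    by_cases he : e ≤ b
    · exact low ε₂ e₂ 2 (by decide) e he w hmem
    · rw [not_le] at he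
      by_cases hec : e ≤ c
      · have hR := hRgen ε₂ e₂ e (hab.trans he).le
        have h1 : Subgroup.closure (t '' Iio e) ≤ inv (FL (p₂.gen e) (id : ZMod 4 → ZMod 4)) := by
          rw [Subgroup.closure_le]
          rintro _ ⟨i, hi, rfl⟩
          rcases cases i with h | ⟨j, hj, h⟩ | ⟨j, hj, hb, h⟩ | ⟨j, hj, hc, h⟩
          · rw [h]; exact one_mem _
          · rw [h]; exact tw_mem_inv_of_const R _ _ _ _ (by simp)
          · rw [h]
            exact tw_mem_inv_of_mem R _ _ _ (Subgroup.mem_sup_left (gle p₂ e j (hj ▸ hi)))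
          · exact absurd (lt_of_lt_of_le hi hec) (not_lt.2 hc)
        have h2 := of_tw_mem_inv R _ _ _ (by decide) (h1 hmem)
        rwa [sup_eq_left.2 hR] at h2
      · have h1 : Subgroup.closure (range s.T) ≤ p₂.gen e := by
          rw [Subgroup.closure_le]
          rintro _ ⟨j, rfl⟩
          exact gle p₂ e j ((h₂ j).trans (not_le.1 hec))
        exact h1 hw
  have key₁ : ∀ e, ∀ w ∈ Subgroup.closure (range s.T),
      tw R 1 w ∈ Subgroup.closure (t '' Iio e) → w ∈ p₁.gen e := by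
    intro e w hw hmem
    by_cases he : e ≤ b
    · exact low ε₁ e₁ 1 (by decide) e he w hmem
    · rw [not_le] at he
      have hR := hRgen ε₁ e₁ e (hab.trans he).le
      have h1 : Subgroup.closure (t '' Iio e) ≤ inv (FL (p₁.gen e) par) := by
        rw [Subgroup.closure_le]
        rintro _ ⟨i, hi, rfl⟩
        rcases cases i with h | ⟨j, hj, h⟩ | ⟨j, hj, hb, h⟩ | ⟨j, hj, hc, h⟩
        · rw [h]; exact one_mem _
        · rw [h]; exact tw_mem_inv_of_const R _ _ _ _ (by simp)
        · rw [h]; exact tw_mem_inv_of_const R _ _ _ _ par_two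
        · rw [h]
          exact tw_mem_inv_of_mem R _ _ _ (Subgroup.mem_sup_left (gle p₁ e j (hj ▸ hi)))
      have h2 := of_tw_mem_inv R _ _ _ par_one (h1 hmem)
      rwa [sup_eq_left.2 hR] at h2
  -- the condition
  let E : Finset Om := Finset.univ.image ε₀ ∪ (Finset.univ.image ε₂ ∪ Finset.univ.image ε₁)
  have hE : ∀ i, i ∈ E ↔ (∃ j, ε₀ j = i) ∨ (∃ j, ε₂ j = i) ∨ (∃ j, ε₁ j = i) := by
    intro i
    simp [E]
  have off : ∀ i ∉ E, t i = 1 := by
    intro i hi
    rw [hE] at hi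
    push Not at hi
    rcases cases i with h | ⟨j, hj, h⟩ | ⟨j, hj, hb, h⟩ | ⟨j, hj, hc, h⟩
    · exact h
    · exact absurd hj (hi.1 j)
    · exact absurd hj (hi.2.1 j)
    · exact absurd hj (hi.2.2 j)
  have new : ∀ i ∈ E, t i ∉ Subgroup.closure (t '' Iio i) := by
    intro i hi hmem
    rcases (hE i).1 hi with ⟨j, rfl⟩ | ⟨j, rfl⟩ | ⟨j, rfl⟩
    · rw [t₀] at hmem
      have := key₀ _ _ (Subgroup.subset_closure ⟨j, rfl⟩) hmem
      rw [← t_ε p₀ j] at this
      exact t_not_mem p₀ ⟨j, rfl⟩ this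
    · rw [t₂] at hmem
      have := key₂ _ _ (Subgroup.subset_closure ⟨j, rfl⟩) hmem
      rw [← t_ε p₂ j] at this
      exact t_not_mem p₂ ⟨j, rfl⟩ this
    · rw [t₁] at hmem
      have := key₁ _ _ (Subgroup.subset_closure ⟨j, rfl⟩) hmem
      rw [← t_ε p₁ j] at this
      exact t_not_mem p₁ ⟨j, rfl⟩ this
  obtain ⟨D, ρ, hρ, hd, hD⟩ := exists_cond E t off new
  have hmem : ∀ i, i ∈ D.dom ↔ (∃ j, ε₀ j = i) ∨ (∃ j, ε₂ j = i) ∨ (∃ j, ε₁ j = i) := by
    intro i
    rw [hd]
    exact hE i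
  have hval : ∀ (ε : Fin s.m ↪o Om) (k : ZMod 4), (∀ j, t (ε j) = tw R k (s.T j)) →
      ∀ u : FreeGroup (Fin s.m), D.val (FreeGroup.map ε u) =
        ρ (tw R k (FreeGroup.lift s.T u)) := by
    intro ε k hε u
    rw [val_eq t ρ hD]
    congr 1
    have : (FreeGroup.lift t).comp (FreeGroup.map ε) = (tw R k).comp (FreeGroup.lift s.T) :=
      FreeGroup.ext_hom _ _ fun j => by
        simp only [MonoidHom.comp_apply, FreeGroup.map.of, FreeGroup.lift_apply_of, hε]
    exact congrArg (fun f : FreeGroup (Fin s.m) →* _ => f u) this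
  refine ⟨D, ?_, ?_, ?_, ?_⟩
  · refine le_of t ρ hρ hD (fun i hi => (hmem i).2 (Or.inl hi)) (tw R 0) (tw_injective R 0) ?_
      key₀
    rintro _ ⟨j, rfl⟩
    exact (t₀ j).trans (congrArg _ (t_ε p₀ j).symm)
  · refine le_of t ρ hρ hD (fun i hi => (hmem i).2 (Or.inr (Or.inl hi))) (tw R 2)
      (tw_injective R 2) ?_ key₂
    rintro _ ⟨j, rfl⟩
    exact (t₂ j).trans (congrArg _ (t_ε p₂ j).symm)
  · refine le_of t ρ hρ hD (fun i hi => (hmem i).2 (Or.inr (Or.inr hi))) (tw R 1)
      (tw_injective R 1) ?_ key₁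
    rintro _ ⟨j, rfl⟩
    exact (t₁ j).trans (congrArg _ (t_ε p₁ j).symm)
  · intro u
    rw [hval ε₀ 0 t₀, hval ε₂ 2 t₂, hval ε₁ 1 t₁]
    constructor
    · rw [← map_inv, ← map_mul, ← map_mul, tw_ap]
    · intro h
      exact (of_eq_zero R (by decide) (hρ h).symm).1


/-! ### Forcing -/

section

universe u v w

variable {P : Type u} [Preorder P]

theorem mem_fex {ι : Sort v} {φ : ι → Set P} {p : P} :
    p ∈ fex φ ↔ ∀ q ≤ p, ∃ r ≤ q, ∃ i, r ∈ φ i := by
  simp only [fex, fnot, fall, Set.mem_ofPred_eq, not_forall, not_not]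
  constructor
  · intro h q hq
    obtain ⟨i, r, hr, h'⟩ := h q hq
    exact ⟨r, hr, i, h'⟩
  · intro h q hq
    obtain ⟨r, hr, i, h'⟩ := h q hq
    exact ⟨i, r, hr, h'⟩

theorem mem_fimp {φ ψ : Set P} {p : P} :
    p ∈ fimp φ ψ ↔ ∀ q ≤ p, q ∈ φ → ∃ r ≤ q, r ∈ ψ := by
  simp only [fimp, fnot, fand, Set.mem_ofPred_eq, not_and, not_forall, not_not]
  constructor
  · intro h q hq hφ
    obtain ⟨r, hr, h'⟩ := h q hq hφ
    exact ⟨r, hr, h'⟩
  · intro h q hq hφ
    obtain ⟨r, hr, h'⟩ := h q hq hφ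
    exact ⟨r, hr, h'⟩

lemma meets_mono {A : Set P} {p q : P} (h : q ≤ p) (hp : p ∈ meets A) : q ∈ meets A :=
  fun r hr => hp r (hr.trans h)

theorem omegaOnePreserved_of_ccc (h : CCC P) (p : P) : p ∈ OmegaOnePreserved P := by
  classical
  intro q _ hq
  obtain ⟨r, _, R, ⟨⟨_, hfun⟩, honto⟩⟩ := mem_fex.1 hq q le_rfl
  have hV : ∀ n : ℕ, {b : Om | ∃ s ≤ r, s ∈ meets (R n b)}.Countable := by
    intro n
    have hex : ∀ b : {b : Om | ∃ s ≤ r, s ∈ meets (R n b)}, ∃ s ≤ r, s ∈ meets (R n b) :=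
      fun b => b.2
    choose s hs hs' using hex
    have hcomp : ∀ b b', (∃ t, t ≤ s b ∧ t ≤ s b') → b = b' := by
      rintro b b' ⟨t, h1, h2⟩
      have h3 := hfun n b b'
      obtain ⟨_, _, h4⟩ := mem_fimp.1 h3 t (h1.trans (hs b))
        ⟨meets_mono h1 (hs' b), meets_mono h2 (hs' b')⟩
      exact Subtype.ext h4
    have hA : (range s).Countable := by
      refine h _ ?_
      rintro _ ⟨b, rfl⟩ _ ⟨b', rfl⟩ hne hc
      exact hne (congrArg s (hcomp b b' hc))
    have hinj : Function.Injective s := fun b b' hb =>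
      hcomp b b' ⟨s b, le_rfl, hb.le⟩
    have : Countable (range s) := hA
    have h5 : Countable {b : Om | ∃ s ≤ r, s ∈ meets (R n b)} :=
      (Function.Injective.countable (f := fun b => (⟨s b, b, rfl⟩ : range s))
        fun b b' hb => hinj (congrArg Subtype.val hb))
    exact h5
  obtain ⟨b, hb⟩ := bdd_of_countable (countable_iUnion hV)
  obtain ⟨t, ht, n, hn⟩ := mem_fex.1 (honto b) r le_rfl
  exact lt_irrefl b (hb b (mem_iUnion.2 ⟨n, t, ht, hn⟩))

end

/-! ### The generic group -/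

/-- the words which are trivial in the generic group -/
def NN (v : FreeGroup Om) : Set Cond := {p | v ∈ p.W ∧ p.val v = 1}

lemma mem_meets_NN {p : Cond} {v : FreeGroup Om} (hv : v ∈ p.W) :
    p ∈ meets (NN v) ↔ p.val v = 1 := by
  constructor
  · intro h
    obtain ⟨r, hr, s, hs, hrs⟩ := h p le_rfl
    exact (hr.2 v hv).1.1 ((hrs.2 v hs.1).1.2 hs.2)
  · intro h q hq
    exact ⟨q, le_rfl, p, ⟨hv, h⟩, hq⟩

lemma not_meets_NN {p : Cond} {v : FreeGroup Om} (hv : v ∈ p.W) (h : p.val v ≠ 1) :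
    p ∈ fnot (meets (NN v)) := by
  intro q hq hq'
  rw [mem_meets_NN (W_mono hq hv)] at hq'
  exact h ((hq.2 v hv).1.1 hq')

lemma isNormalName (p : Cond) : p ∈ IsNormalName NN := by
  refine ⟨(mem_meets_NN (one_mem _)).2 (map_one _), fun u v => ?_, fun u g => ?_⟩
  · rw [mem_fimp]
    intro q _ hq
    obtain ⟨r, hr, hu⟩ := exists_W q u
    obtain ⟨r', hr', hv⟩ := exists_W r v
    have hu' := W_mono hr' hu
    refine ⟨r', hr'.trans hr, (mem_meets_NN (mul_mem hu' (inv_mem hv))).2 ?_⟩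
    rw [map_mul, map_inv, (mem_meets_NN hu').1 (meets_mono (hr'.trans hr) hq.1),
      (mem_meets_NN hv).1 (meets_mono (hr'.trans hr) hq.2), inv_one, mul_one]
  · rw [mem_fimp]
    intro q _ hq
    obtain ⟨r, hr, hu⟩ := exists_W q u
    obtain ⟨r', hr', hg⟩ := exists_W r g
    have hu' := W_mono hr' hu
    refine ⟨r', hr'.trans hr, (mem_meets_NN (mul_mem (mul_mem hg hu') (inv_mem hg))).2 ?_⟩
    rw [map_mul, map_mul, map_inv, (mem_meets_NN hu').1 (meets_mono (hr'.trans hr) hq), mul_one,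
      mul_inv_cancel]

lemma val_of (p : Cond) (i : Om) : p.val (FreeGroup.of i) = p.t i := by
  simp [Cond.val]

lemma of_mem_W {p : Cond} {i : Om} (h : i ∈ p.dom) : FreeGroup.of i ∈ p.W :=
  Subgroup.subset_closure ⟨i, h, rfl⟩

lemma generatorsDistinct (p : Cond) : p ∈ GeneratorsDistinct NN := by
  intro i j
  rw [mem_fimp]
  intro q _ hij
  have hij' : i ≠ j := hij
  obtain ⟨r, hr, hi⟩ := exists_dom q i
  obtain ⟨r', hr', hj⟩ := exists_dom r j
  have hi' := hr'.1 hi
  refine ⟨r', hr'.trans hr, not_meets_NN (mul_mem (inv_mem (of_mem_W hi')) (of_mem_W hj)) ?_⟩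
  intro h
  rw [map_mul, map_inv, val_of, val_of, inv_mul_eq_one] at h
  rcases lt_or_gt_of_ne hij' with hlt | hlt
  · refine t_not_mem r' hj ?_
    rw [← h]
    exact Subgroup.subset_closure ⟨i, hlt, rfl⟩
  · refine t_not_mem r' hi' ?_
    rw [h]
    exact Subgroup.subset_closure ⟨j, hlt, rfl⟩

lemma countable_words (a : Om) :
    (range (FreeGroup.map (Subtype.val : Iio a → Om))).Countable := by
  have : Countable (Iio a) := countable_Iio a
  have h : Countable (FreeGroup (Iio a)) :=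
    Function.Surjective.countable (f := (FreeGroup.mk : List (Iio a × Bool) → _))
      Quot.mk_surjective
  exact countable_range _

lemma exists_word (p : Cond) {v : FreeGroup Om} (hv : v ∈ p.W) :
    ∃ u : FreeGroup (Fin p.s.m), FreeGroup.map p.ε u = v := by
  have : p.W ≤ (FreeGroup.map p.ε).range := by
    rw [Cond.W, Subgroup.closure_le]
    rintro _ ⟨i, ⟨j, rfl⟩, rfl⟩
    exact ⟨FreeGroup.of j, by simp⟩
  exact this hv

lemma val_map (s : Shape) (ε : Fin s.m ↪o Om) (u : FreeGroup (Fin s.m)) :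
    (⟨s, ε⟩ : Cond).val (FreeGroup.map ε u) = FreeGroup.lift s.T u := by
  have : (⟨s, ε⟩ : Cond).val.comp (FreeGroup.map ε) = FreeGroup.lift s.T :=
    FreeGroup.ext_hom _ _ fun j => by
      simp only [MonoidHom.comp_apply, FreeGroup.map.of, FreeGroup.lift_apply_of, val_of]
      exact t_ε ⟨s, ε⟩ j
  exact congrArg (fun f : FreeGroup (Fin s.m) →* _ => f u) this


end Pool.Agent.R590.Sg
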