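import Mathlib
import Pool.Agent.R590.SgBase

set_option autoImplicit false
set_option linter.all false

open Set

namespace Pool.Agent.R590.Sg

open Cond

/-- An unbounded set of countable ordinals, labelled by reals, can be cut by a real into two
unbounded pieces. -/
lemma split (ρ : Om → ℝ) (W : Set Om) (hW : ∀ b, ∃ a ∈ W, b < a)
    (hρ : ∀ a, ∃ b, ∀ a', b < a' → ρ a ≠ ρ a') :
    ∃ t : ℝ, (∀ b, ∃ a ∈ W, b < a ∧ ρ a < t) ∧ (∀ b, ∃ a ∈ W, b < a ∧ t < ρ a) := by
  by_contra hcon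
  push Not at hcon
  have h1 : ∀ t : ℚ, ∃ b, (∀ a ∈ W, b < a → (t : ℝ) ≤ ρ a) ∨ (∀ a ∈ W, b < a → ρ a ≤ (t : ℝ)) := by
    intro t
    by_cases h : ∀ b, ∃ a ∈ W, b < a ∧ ρ a < (t : ℝ)
    · obtain ⟨b, hb⟩ := hcon t h
      exact ⟨b, Or.inr hb⟩
    · push Not at h
      obtain ⟨b, hb⟩ := h
      exact ⟨b, Or.inl hb⟩
  choose β hβ using h1
  obtain ⟨c, hc⟩ := bdd_of_countable (countable_range β)
  obtain ⟨a, haW, ha⟩ := hW c
  obtain ⟨b, hb⟩ := hρ a
  obtain ⟨a', haW', ha'⟩ := hW (max b c)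
  have hne : ρ a ≠ ρ a' := hb a' ((le_max_left _ _).trans_lt ha')
  have ha'' : c < a' := (le_max_right _ _).trans_lt ha'
  have key : ∀ x y, x ∈ W → y ∈ W → c < x → c < y → ρ x < ρ y → False := by
    intro x y hx hy hcx hcy hxy
    obtain ⟨t, ht, ht'⟩ := exists_rat_btwn hxy
    have hct : β t < c := hc _ ⟨t, rfl⟩
    rcases hβ t with h | h
    · exact absurd (h x hx (hct.trans hcx)) (not_le.2 ht)
    · exact absurd (h y hy (hct.trans hcy)) (not_le.2 ht')
  rcases lt_or_gt_of_ne hne with h | h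
  · exact key a a' haW haW' ha ha'' h
  · exact key a' a haW' haW ha'' ha h

/-- some value is taken unboundedly often -/
lemma pigeon {Z : Type} (f : Om → Z) (C : Set Z) (hC : C.Countable) (hf : ∀ x, f x ∈ C) :
    ∃ z, ∀ b, ∃ x, b < x ∧ f x = z := by
  by_contra hcon
  push Not at hcon
  choose β hβ using hcon
  obtain ⟨c, hc⟩ := bdd_of_countable (hC.image β)
  exact hβ (f c) c (hc _ ⟨f c, hf c, rfl⟩) rfl

/-- uncountable sets are unbounded -/
lemma unbdd {V : Set Om} (hV : ¬ V.Countable) (b : Om) : ∃ a ∈ V, b < a := by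
  by_contra h
  push Not at h
  exact hV ((countable_Iic b).mono fun a ha => h a ha)

lemma uncountable_of_unbdd {V : Set Om} (hV : ∀ b, ∃ a ∈ V, b < a) : ¬ V.Countable := by
  intro h
  obtain ⟨b, hb⟩ := bdd_of_countable h
  obtain ⟨a, ha, hba⟩ := hV b
  exact lt_asymm hba (hb a ha)

/-- an unbounded set contains an uncountable sequence which grows quickly -/
lemma spaced (U : Set Om) (hU : ∀ b, ∃ a ∈ U, b < a) (h : Om → Om) :
    ∃ g : Om → Om, (∀ i, g i ∈ U) ∧ ∀ i j, j < i → h (g j) < g i := by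
  classical
  have step : ∀ (i : Om) (ih : ∀ j, j < i → Om), ∃ a, a ∈ U ∧ ∀ j (hj : j < i), h (ih j hj) < a := by
    intro i ih
    have : Countable (Iio i) := countable_Iio i
    obtain ⟨b, hb⟩ := bdd_of_countable (countable_range fun j : Iio i => h (ih j.1 j.2))
    obtain ⟨a, ha, hba⟩ := hU b
    exact ⟨a, ha, fun j hj => (hb _ ⟨⟨j, hj⟩, rfl⟩).trans hba⟩
  choose f hf hf' using step
  let g : Om → Om := (wellFounded_lt (α := Om)).fix f
  have hg : ∀ i, g i = f i (fun j _ => g j) := fun i => WellFounded.fix_eq _ _ _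
  refine ⟨g, fun i => ?_, fun i j hj => ?_⟩
  · rw [hg i]; exact hf _ _
  · rw [hg i]; exact hf' i (fun j _ => g j) j hj

/-- Among uncountably many conditions, labelled by vertices, there are three which are compatible
in such a way that given elements form an arithmetic progression, with the vertices in prescribed
position. -/
lemma triple (T : Om → Om → Om → Prop)
    (hT : ∀ V : Set Om, ¬ V.Countable → ∃ a ∈ V, ∃ b ∈ V, ∃ c ∈ V, a < b ∧ b < c ∧ T a b c)
    (x : Om → Om) (hx : ∀ a, a ≤ x a)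
    (q : Om → Cond) (v : Om → FreeGroup Om) (hv : ∀ a, v a ∈ (q a).W) :
    ∃ a b c : Om, x a < x b ∧ x b < x c ∧ T (x a) (x b) (x c) ∧
      ∃ D : Cond, D ≤ q a ∧ D ≤ q b ∧ D ≤ q c ∧
      D.val (v c) * (D.val (v a))⁻¹ * D.val (v c) = D.val (v b) ∧
      (D.val (v a) = D.val (v b) → (q a).val (v a) ∈ (q a).gen a) := by
  classical
  choose u hu using fun a => exists_word (q a) (hv a)
  let Z : Type := Σ s : Shape, FreeGroup (Fin s.m) × (Fin s.m → Option Om)
  let τ : Om → Z := fun a =>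
    ⟨(q a).s, u a, fun j => if (q a).ε j < a then some ((q a).ε j) else none⟩
  let F : Om → Set Z := fun b => {z | ∀ j o, z.2.2 j = some o → o ≤ b}
  have hF : ∀ b, (F b).Countable := by
    intro b
    have : Countable (Iic b) := countable_Iic b
    have hfg : ∀ n : ℕ, Countable (FreeGroup (Fin n)) := fun n =>
      Function.Surjective.countable (f := (FreeGroup.mk : List (Fin n × Bool) → _))
        Quot.mk_surjective
    have h1 : Countable (Σ s : Shape, FreeGroup (Fin s.m) × (Fin s.m → Option (Iic b))) := by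
      have : ∀ s : Shape, Countable (FreeGroup (Fin s.m) × (Fin s.m → Option (Iic b))) :=
        fun s => inferInstance
      infer_instance
    refine (countable_range (fun z : (Σ s : Shape, FreeGroup (Fin s.m) ×
      (Fin s.m → Option (Iic b))) => (⟨z.1, z.2.1, fun j => (z.2.2 j).map Subtype.val⟩ : Z))).mono
      ?_
    rintro ⟨s, w, r⟩ hz
    refine ⟨⟨s, w, fun j => if h : ∃ o, r j = some o then some ⟨h.choose, hz j _ h.choose_spec⟩
      else none⟩, ?_⟩
    simp only [Sigma.mk.injEq, heq_eq_eq, Prod.mk.injEq, true_and]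
    funext j
    by_cases h : ∃ o, r j = some o
    · simp only [dif_pos h, Option.map_some]
      exact h.choose_spec.symm
    · simp only [dif_neg h, Option.map_none]
      cases hr : r j with
      | none => rfl
      | some o => exact absurd ⟨o, hr⟩ h
  obtain ⟨z, hz⟩ := pressing F hF τ (by
    intro a s hs hlt hcof
    have h1 : ∀ j : Fin (q a).s.m, ∃ n, (q a).ε j < a → (q a).ε j ≤ s n := by
      intro j
      by_cases hj : (q a).ε j < a
      · obtain ⟨n, hn⟩ := hcof _ hj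
        exact ⟨n, fun _ => hn⟩
      · exact ⟨0, fun h => absurd h hj⟩
    choose n hn using h1
    refine ⟨Finset.univ.sup n, ?_⟩
    intro j o ho
    simp only [τ] at ho
    by_cases hj : (q a).ε j < a
    · rw [if_pos hj, Option.some.injEq] at ho
      rw [← ho]
      exact (hn j hj).trans (hs (Finset.le_sup (f := n) (Finset.mem_univ j)))
    · rw [if_neg hj] at ho
      exact absurd ho (by simp))
  have real : ∀ a, τ a = z → ∃ ε : Fin z.1.m ↪o Om, q a = ⟨z.1, ε⟩ ∧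
      v a = FreeGroup.map ε z.2.1 ∧ ∀ j, z.2.2 j = if ε j < a then some (ε j) else none := by
    rintro a rfl
    exact ⟨(q a).ε, rfl, (hu a).symm, fun j => rfl⟩
  obtain ⟨s, w, r⟩ := z
  have hbd : ∀ a, ∃ b, x a < b ∧ ∀ j, (q a).ε j < b := by
    intro a
    obtain ⟨b, hb⟩ := bdd_of_countable
      ((countable_singleton (x a)).union (countable_range (q a).ε))
    exact ⟨b, hb _ (Or.inl rfl), fun j => hb _ (Or.inr ⟨j, rfl⟩)⟩
  choose h hh1 hh2 using hbd
  obtain ⟨g, hgU, hg⟩ := spaced {a | τ a = ⟨s, w, r⟩} (fun b => by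
    obtain ⟨a, h1, h2⟩ := hz b
    exact ⟨a, h2, h1⟩) h
  have hmono : StrictMono (fun i => x (g i)) := fun j i hji =>
    ((hh1 (g j)).trans (hg i j hji)).trans_le (hx (g i))
  have hunc : ¬ (range fun i => x (g i)).Countable := by
    intro hc
    have h1 := hc.preimage_of_injOn (f := fun i => x (g i)) hmono.injective.injOn
    rw [preimage_range] at h1
    exact not_countable_univ h1
  obtain ⟨_, ⟨i, rfl⟩, _, ⟨j, rfl⟩, _, ⟨k, rfl⟩, hij, hjk, hTx⟩ := hT _ hunc
  have hij' : i < j := hmono.lt_iff_lt.1 hij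
  have hjk' : j < k := hmono.lt_iff_lt.1 hjk
  dsimp only at hij hjk hTx
  generalize hga : g i = a at hij hTx
  generalize hgb : g j = b at hij hjk hTx
  generalize hgc : g k = c at hjk hTx
  have ha : τ a = ⟨s, w, r⟩ := hga ▸ hgU i
  have hb' : τ b = ⟨s, w, r⟩ := hgb ▸ hgU j
  have hc' : τ c = ⟨s, w, r⟩ := hgc ▸ hgU k
  have hhab : h a < b := hga ▸ hgb ▸ hg j i hij'
  have hhbc : h b < c := hgb ▸ hgc ▸ hg k j hjk'
  have hab : a < b := ((hx a).trans_lt (hh1 a)).trans hhab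
  have hbc : b < c := ((hx b).trans_lt (hh1 b)).trans hhbc
  have hha := hh2 a
  have hhb := hh2 b
  obtain ⟨εa, qa, va, ra⟩ := real a ha
  obtain ⟨εb, qb, vb, rb⟩ := real b hb'
  obtain ⟨εc, qc, vc, rc⟩ := real c hc'
  have hha' : ∀ j, εa j < b := by
    rw [qa] at hha
    exact fun j => (hha j).trans hhab
  have hhb' : ∀ j, εb j < c := by
    rw [qb] at hhb
    exact fun j => (hhb j).trans hhbc
  have cmp : ∀ (x : Om) (ε : Fin s.m ↪o Om),
      (∀ j, r j = if ε j < x then some (ε j) else none) →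
      (∀ j, εa j < a → ε j = εa j) ∧ (∀ j, ¬ εa j < a → x ≤ ε j) := by
    intro x ε hx
    constructor
    · intro j hj
      have h1 := ra j
      have h2 := hx j
      simp only [if_pos hj] at h1
      by_cases h3 : ε j < x
      · simp only [if_pos h3] at h2
        rw [h1, Option.some.injEq] at h2
        exact h2.symm
      · simp only [if_neg h3] at h2
        rw [h1] at h2
        exact absurd h2 (by simp)
    · intro j hj
      have h1 := ra j
      have h2 := hx j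
      simp only [if_neg hj] at h1
      by_contra h3
      rw [not_le] at h3
      simp only [if_pos h3] at h2
      rw [h1] at h2
      exact absurd h2 (by simp)
  obtain ⟨D, hD0, hD2, hD1, hD⟩ := amalgam s εa εb εc hab hbc
    hha' hhb'
    (cmp b εb rb).1 (cmp c εc rc).1 (cmp b εb rb).2 (cmp c εc rc).2
  refine ⟨a, b, c, hij, hjk, hTx, D, ?_, ?_, ?_, ?_, ?_⟩
  · rw [qa]; exact hD0
  · rw [qb]; exact hD2
  · rw [qc]; exact hD1
  · rw [va, vb, vc]; exact (hD w).1
  · rw [va, vb, qa]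
    intro h
    have h1 := (hD w).2 h
    have h2 : Subgroup.closure (s.T '' {j | εa j < a}) ≤ (⟨s, εa⟩ : Cond).gen a := by
      rw [Subgroup.closure_le]
      rintro _ ⟨j, hj, rfl⟩
      exact Subgroup.subset_closure ⟨_, hj, t_ε ⟨s, εa⟩ j⟩
    have h3 := val_map s εa w
    exact h3.symm ▸ h2 h1

/-- there is an injection of `ω₁` into the reals -/
lemma exists_inj : ∃ r₀ : Om → ℝ, Function.Injective r₀ := by
  have h : Cardinal.mk Om ≤ Cardinal.mk ℝ := by
    rw [mk_Om, Cardinal.mk_real]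
    exact Cardinal.aleph_one_le_continuum
  obtain ⟨f⟩ := (Cardinal.le_def _ _).1 h
  exact ⟨f, f.injective⟩

/-- the trivial case of the hypothesis in `triple` -/
lemma exists_three (V : Set Om) (hV : ¬ V.Countable) :
    ∃ a ∈ V, ∃ b ∈ V, ∃ c ∈ V, a < b ∧ b < c ∧ True := by
  obtain ⟨b₀⟩ : Nonempty Om := inferInstance
  obtain ⟨a, ha, _⟩ := unbdd hV b₀
  obtain ⟨b, hb, hab⟩ := unbdd hV a
  obtain ⟨c, hc, hbc⟩ := unbdd hV b
  exact ⟨a, ha, b, hb, c, hc, hab, hbc, trivial⟩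

/-- a graph without large homogeneous sets satisfies the hypothesis in `triple` -/
lemma exists_pattern {X : SimpleGraph Om} (hX : NoLargeHomogeneous X) (V : Set Om)
    (hV : ¬ V.Countable) :
    ∃ a ∈ V, ∃ b ∈ V, ∃ c ∈ V, a < b ∧ b < c ∧ ¬ (X.Adj a c ↔ X.Adj b c) := by
  by_contra hcon
  push Not at hcon
  let U₁ : Set Om := {c | c ∈ V ∧ ∀ a ∈ V, a < c → X.Adj a c}
  let U₀ : Set Om := {c | c ∈ V ∧ ∀ a ∈ V, a < c → ¬ X.Adj a c}
  have hsub : V ⊆ U₁ ∪ U₀ := by
    intro c hc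
    by_cases h : ∀ a ∈ V, a < c → X.Adj a c
    · exact Or.inl ⟨hc, h⟩
    · right
      push Not at h
      obtain ⟨b, hb, hbc, hnb⟩ := h
      refine ⟨hc, fun a ha hac hadj => ?_⟩
      rcases lt_trichotomy a b with hab | rfl | hab
      · exact hnb ((hcon a ha b hb c hc hab hbc).1 hadj)
      · exact hnb hadj
      · exact hnb ((hcon b hb a ha c hc hab hac).2 hadj)
  have hor : ¬ U₁.Countable ∨ ¬ U₀.Countable := by
    by_contra h
    push Not at h
    exact hV ((h.1.union h.2).mono hsub)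
  rcases hor with h | h
  · obtain ⟨_, a, ha, b, hb, hne, hadj⟩ := hX U₁ h
    rcases lt_or_gt_of_ne hne with hlt | hlt
    · exact hadj (hb.2 a ha.1 hlt)
    · exact hadj (ha.2 b hb.1 hlt).symm
  · obtain ⟨⟨a, ha, b, hb, hne, hadj⟩, _⟩ := hX U₀ h
    rcases lt_or_gt_of_ne hne with hlt | hlt
    · exact hb.2 a ha.1 hlt hadj
    · exact ha.2 b hb.1 hlt hadj.symm

theorem ccc_Cond : CCC Cond := by
  classical
  intro A hA
  by_contra hcon
  have h1 : Cardinal.mk Om ≤ Cardinal.mk A := by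
    rw [mk_Om, ← Cardinal.succ_aleph0, Order.succ_le_iff, ← not_le]
    rw [← Cardinal.le_aleph0_iff_set_countable] at hcon
    exact hcon
  obtain ⟨f⟩ := (Cardinal.le_def _ _).1 h1
  obtain ⟨a, b, c, hab, hbc, _, D, hDa, hDb, _⟩ := triple _ exists_three id (fun _ => le_rfl)
    (fun a => (f a : Cond)) (fun _ => 1) (fun a => one_mem _)
  refine hA _ (f a).2 _ (f b).2 (fun h => ?_) ⟨D, hDa, hDb⟩
  exact hab.ne (f.injective (Subtype.ext h))

/-- for a name of an injection modulo `NN` of `ω₁` to the words, the values lie outside of the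
countable stages -/
lemma exists_above {Φ : Om → FreeGroup Om → Set Cond} {p : Cond} (hf : p ∈ IsFun Φ)
    (hi : p ∈ IsInjMod NN Φ) (a : Om) :
    ∃ q ≤ p, ∃ x, a ≤ x ∧ ∃ v, q ∈ meets (Φ x v) ∧ v ∈ q.W ∧ q.val v ∉ q.gen a := by
  by_contra hcon
  push Not at hcon
  -- the values at the vertices above `a`
  have h1 : ∀ x : Om, ∃ q ≤ p, ∃ v, q ∈ meets (Φ (max a x) v) ∧ v ∈ q.W ∧
      ∃ c ∈ range (FreeGroup.map (Subtype.val : Iio a → Om)), c ∈ q.W ∧ q.val c = q.val v := by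
    intro x
    obtain ⟨q₀, hq₀, v, hv⟩ := mem_fex.1 (hf.1 (max a x)) p le_rfl
    obtain ⟨q, hq, hvq⟩ := exists_W q₀ v
    have hmem := hcon q (hq.trans hq₀) (max a x) (le_max_left _ _) v (meets_mono hq hv) hvq
    refine ⟨q, hq.trans hq₀, v, meets_mono hq hv, hvq, ?_⟩
    have h1 : q.gen a ≤ (Subgroup.closure (FreeGroup.of '' (Iio a ∩ q.dom))).map q.val := by
      rw [Cond.gen, Subgroup.closure_le]
      rintro _ ⟨i, hi, rfl⟩
      by_cases hd : i ∈ q.dom
      · exact ⟨FreeGroup.of i, Subgroup.subset_closure ⟨i, ⟨hi, hd⟩, rfl⟩, val_of q i⟩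
      · rw [t_off q hd]
        exact one_mem _
    obtain ⟨c, hc, hcv⟩ := h1 hmem
    have h2 : c ∈ q.W := Subgroup.closure_mono (image_mono inter_subset_right) hc
    have h3 : Subgroup.closure (FreeGroup.of '' (Iio a ∩ q.dom)) ≤
        (FreeGroup.map (Subtype.val : Iio a → Om)).range := by
      rw [Subgroup.closure_le]
      rintro _ ⟨i, ⟨hi, _⟩, rfl⟩
      exact ⟨FreeGroup.of ⟨i, hi⟩, by simp⟩
    exact ⟨c, h3 hc, h2, hcv⟩
  choose q hqp v hv hvW c hcr hcW hcv using h1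
  obtain ⟨c₀, hc₀⟩ := pigeon c _ (countable_words a) hcr
  choose X hX hXc using hc₀
  obtain ⟨a', b', _, hab, _, _, D, hDa, hDb, _⟩ := triple _ exists_three (fun b => max a (X b))
    (fun b => (hX b).le.trans (le_max_right _ _)) (fun b => q (X b)) (fun _ => 1)
    (fun a => one_mem _)
  have hcW' : c₀ ∈ (q (X a')).W := by rw [← hXc a']; exact hcW _
  have hcW'' : c₀ ∈ (q (X b')).W := by rw [← hXc b']; exact hcW _
  have ea : D.val (v (X a')) = D.val c₀ := by
    have h2 : (q (X a')).val (c₀⁻¹ * v (X a')) = 1 := by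
      rw [map_mul, map_inv, ← hcv (X a'), hXc a', inv_mul_cancel]
    have h3 := (hDa.2 _ (mul_mem (inv_mem hcW') (hvW (X a')))).1.2 h2
    rw [map_mul, map_inv, inv_mul_eq_one] at h3
    exact h3.symm
  have eb : D.val (v (X b')) = D.val c₀ := by
    have h2 : (q (X b')).val (c₀⁻¹ * v (X b')) = 1 := by
      rw [map_mul, map_inv, ← hcv (X b'), hXc b', inv_mul_cancel]
    have h3 := (hDb.2 _ (mul_mem (inv_mem hcW'') (hvW (X b')))).1.2 h2
    rw [map_mul, map_inv, inv_mul_eq_one] at h3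
    exact h3.symm
  have hWa : v (X a') ∈ D.W := W_mono hDa (hvW _)
  have hWb : v (X b') ∈ D.W := W_mono hDb (hvW _)
  have hN : D ∈ meets (NN ((v (X a'))⁻¹ * v (X b'))) := by
    refine (mem_meets_NN (mul_mem (inv_mem hWa) hWb)).2 ?_
    rw [map_mul, map_inv, ea, eb, inv_mul_cancel]
  obtain ⟨_, _, h5⟩ := mem_fimp.1 (hi (max a (X a')) (max a (X b')) (v (X a')) (v (X b'))) D
    (hDa.trans (hqp _)) ⟨meets_mono hDa (hv _), meets_mono hDb (hv _), hN⟩
  have h6 : max a (X a') = max a (X b') := h5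
  exact hab.ne h6

/-- The graph of Sierpinski: two countable ordinals are adjacent if the injection `r₀` into the
reals preserves their order. -/
def sierpinski (r₀ : Om → ℝ) : SimpleGraph Om where
  Adj x y := (x < y ∧ r₀ x < r₀ y) ∨ (y < x ∧ r₀ y < r₀ x)
  symm := ⟨fun x y h => Or.symm h⟩
  loopless := ⟨fun x h => by
    rcases h with ⟨h, _⟩ | ⟨h, _⟩
    · exact lt_irrefl _ h
    · exact lt_irrefl _ h⟩

lemma sierpinski_noLarge (r₀ : Om → ℝ) (hr₀ : Function.Injective r₀) :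
    NoLargeHomogeneous (sierpinski r₀) := by
  intro U hU
  obtain ⟨t, h1, h2⟩ := split r₀ U (unbdd hU) (fun a => ⟨a, fun a' ha' h => ha'.ne (hr₀ h)⟩)
  obtain ⟨b₀⟩ : Nonempty Om := inferInstance
  constructor
  · obtain ⟨a, ha, _, hat⟩ := h1 b₀
    obtain ⟨b, hb, hab, hbt⟩ := h2 a
    exact ⟨a, ha, b, hb, hab.ne, Or.inl ⟨hab, hat.trans hbt⟩⟩
  · obtain ⟨a, ha, _, hat⟩ := h2 b₀
    obtain ⟨b, hb, hab, hbt⟩ := h1 a
    refine ⟨a, ha, b, hb, hab.ne, ?_⟩
    rintro (⟨_, h⟩ | ⟨h, _⟩)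
    · exact lt_asymm h (hbt.trans hat)
    · exact lt_asymm h hab

theorem badGroup (p : Cond) : p ∈ BadGroupHolds Cond := by
  refine mem_fex.2 fun q _ => ⟨q, le_rfl, NN, isNormalName q, generatorsDistinct q, ?_⟩
  intro X S Φ
  rw [mem_fimp]
  intro q₁ _ hS
  refine ⟨q₁, le_rfl, ?_⟩
  rintro q₂ hq₂ ⟨hfun, hinj, hemb⟩
  choose s hs x hx v hv hvW hvg using exists_above hfun hinj
  obtain ⟨a, b, c, hab, hbc, hT, D, hDa, hDb, hDc, h1, _⟩ :=
    triple (fun a b c => ¬ (X.1.Adj a c ↔ X.1.Adj b c)) (exists_pattern X.2) x hx s v hvW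
  have hWa : v a ∈ D.W := W_mono hDa (hvW a)
  have hWb : v b ∈ D.W := W_mono hDb (hvW b)
  have hWc : v c ∈ D.W := W_mono hDc (hvW c)
  have hD2 : D ≤ q₂ := hDa.trans (hs a)
  have hac : x a < x c := hab.trans hbc
  -- the two differences are congruent
  have h4 : D ∈ meets (NN (((v a)⁻¹ * v c)⁻¹ * ((v c)⁻¹ * v b))) := by
    refine (mem_meets_NN ?_).2 ?_
    · exact mul_mem (inv_mem (mul_mem (inv_mem hWa) hWc)) (mul_mem (inv_mem hWc) hWb)
    · rw [map_mul, map_inv, map_mul, map_mul, map_inv, map_inv, ← h1]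
      group
  have h4' : D ∈ meets (NN (((v c)⁻¹ * v b)⁻¹ * ((v a)⁻¹ * v c))) := by
    refine (mem_meets_NN ?_).2 ?_
    · exact mul_mem (inv_mem (mul_mem (inv_mem hWc) hWb)) (mul_mem (inv_mem hWa) hWc)
    · rw [map_mul, map_inv, map_mul, map_mul, map_inv, map_inv, ← h1]
      group
  -- transfer between the two pairs
  refine hT ⟨fun hadj => ?_, fun hadj => ?_⟩
  · obtain ⟨D₁, hD₁, h2⟩ := mem_fimp.1 (hemb (x a) (x c) (v a) (v c)) D hD2
      ⟨hac.ne, meets_mono hDa (hv a), meets_mono hDc (hv c)⟩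
    obtain ⟨D₂, hD₂, h3⟩ := mem_fimp.1 h2.1 D₁ le_rfl hadj
    have hD₂' : D₂ ≤ D := hD₂.trans hD₁
    obtain ⟨D₃, hD₃, h5⟩ := mem_fimp.1 (hS.1 ((v a)⁻¹ * v c) ((v c)⁻¹ * v b)) D₂
      (hD₂'.trans (hD2.trans hq₂)) ⟨h3, meets_mono hD₂' h4⟩
    obtain ⟨D₄, hD₄, h6⟩ := mem_fimp.1 (hemb (x c) (x b) (v c) (v b)) D₃
      (hD₃.trans (hD₂'.trans hD2))
      ⟨hbc.ne', meets_mono (hD₃.trans (hD₂'.trans hDc)) (hv c),
        meets_mono (hD₃.trans (hD₂'.trans hDb)) (hv b)⟩
    obtain ⟨D₅, _, h7⟩ := mem_fimp.1 h6.2 D₄ le_rfl (meets_mono hD₄ h5)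
    have h8 : X.1.Adj (x c) (x b) := h7
    exact h8.symm
  · obtain ⟨D₁, hD₁, h2⟩ := mem_fimp.1 (hemb (x c) (x b) (v c) (v b)) D hD2
      ⟨hbc.ne', meets_mono hDc (hv c), meets_mono hDb (hv b)⟩
    obtain ⟨D₂, hD₂, h3⟩ := mem_fimp.1 h2.1 D₁ le_rfl (show X.1.Adj (x c) (x b) from hadj.symm)
    have hD₂' : D₂ ≤ D := hD₂.trans hD₁
    obtain ⟨D₃, hD₃, h5⟩ := mem_fimp.1 (hS.1 ((v c)⁻¹ * v b) ((v a)⁻¹ * v c)) D₂
      (hD₂'.trans (hD2.trans hq₂)) ⟨h3, meets_mono hD₂' h4'⟩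
    obtain ⟨D₄, hD₄, h6⟩ := mem_fimp.1 (hemb (x a) (x c) (v a) (v c)) D₃
      (hD₃.trans (hD₂'.trans hD2))
      ⟨hac.ne, meets_mono (hD₃.trans (hD₂'.trans hDa)) (hv a),
        meets_mono (hD₃.trans (hD₂'.trans hDc)) (hv c)⟩
    obtain ⟨D₅, _, h7⟩ := mem_fimp.1 h6.2 D₄ le_rfl (meets_mono hD₄ h5)
    exact h7

instance : Nonempty Cond := by
  obtain ⟨c, _⟩ := exists_cond ∅ (fun _ : Om => (1 : Equiv.Perm (Fin 1))) (fun _ _ => rfl)
    (fun i hi => absurd hi (by simp))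
  exact ⟨c⟩

/-- the forcing notion has cardinality at most `ℵ₁` -/
lemma mk_Cond : Cardinal.mk Cond ≤ Cardinal.aleph 1 := by
  classical
  let f : Cond → Σ s : Shape, (Fin s.m → Om) := fun p => ⟨p.s, p.ε⟩
  have hf : Function.Injective f := by
    rintro ⟨s, ε⟩ ⟨s', ε'⟩ h
    simp only [f, Sigma.mk.injEq] at h
    obtain ⟨rfl, h⟩ := h
    simp only [heq_eq_eq] at h
    congr 1
    exact DFunLike.coe_injective h
  refine (Cardinal.mk_le_of_injective hf).trans ?_
  rw [Cardinal.mk_sigma]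
  have h1 : ∀ s : Shape, Cardinal.mk (Fin s.m → Om) ≤ Cardinal.aleph 1 := by
    intro s
    rw [← Cardinal.power_def, Cardinal.mk_fin, mk_Om]
    exact Cardinal.power_nat_le (Cardinal.aleph0_le_aleph 1)
  refine (Cardinal.sum_le_mk_mul_iSup _).trans ?_
  have h2 : Cardinal.mk Shape ≤ Cardinal.aleph 1 :=
    (Cardinal.mk_le_aleph0_iff.2 inferInstance).trans (Cardinal.aleph0_le_aleph 1)
  calc Cardinal.mk Shape * (⨆ s : Shape, Cardinal.mk (Fin s.m → Om))
      ≤ Cardinal.aleph 1 * Cardinal.aleph 1 := mul_le_mul' h2 (ciSup_le' h1)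
    _ = Cardinal.aleph 1 := Cardinal.mul_eq_self (Cardinal.aleph0_le_aleph 1)

end Pool.Agent.R590.Sg
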