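import Pool.Agent.R590.TdReap

set_option autoImplicit false

/-!
Maximal independent families are reaping families with a countable decomposition into pieces
without large almost disjoint subfamilies.
-/

namespace Pool.Agent.R590.Td

open Filter Topology

/-- The Boolean combination: intersection of the members of `S` minus the union of `T`. -/
def Comb (S T : Finset (Set ℕ)) : Set ℕ := {n | (∀ E ∈ S, n ∈ E) ∧ ∀ E ∈ T, n ∉ E}

/-- All Boolean combinations of finitely many members are infinite. -/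
def Independent (𝓔 : Set (Set ℕ)) : Prop :=
  ∀ S T : Finset (Set ℕ), (S : Set (Set ℕ)) ⊆ 𝓔 → (T : Set (Set ℕ)) ⊆ 𝓔 → Disjoint S T →
    (Comb S T).Infinite

/-- Maximal independent families. -/
def MaxIndependent (𝓔 : Set (Set ℕ)) : Prop :=
  Independent 𝓔 ∧ ∀ X, Independent (insert X 𝓔) → X ∈ 𝓔

/-- The Boolean combinations of at most `k` members. -/
def Combs (𝓔 : Set (Set ℕ)) (k : ℕ) : Set (Set ℕ) :=
  {R | ∃ S T : Finset (Set ℕ), (S : Set (Set ℕ)) ⊆ 𝓔 ∧ (T : Set (Set ℕ)) ⊆ 𝓔 ∧ Disjoint S T ∧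
    S.card + T.card ≤ k ∧ R = Comb S T}

theorem reaps_combs {𝓔 : Set (Set ℕ)} (h : MaxIndependent 𝓔) (X : Set ℕ) :
    ∃ k, ∃ R ∈ Combs 𝓔 k, (R \ X).Finite ∨ (R ∩ X).Finite := by
  classical
  by_cases hX : X ∈ 𝓔
  · refine ⟨1, Comb {X} ∅, ⟨{X}, ∅, by simpa using hX, by simp, by simp, by simp, rfl⟩, Or.inl ?_⟩
    have : Comb {X} ∅ \ X = ∅ := by
      ext n
      simp [Comb]
    rw [this]
    exact Set.finite_empty
  · have h1 : ¬ Independent (insert X 𝓔) := fun hc => hX (h.2 X hc)
    unfold Independent at h1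
    push Not at h1
    obtain ⟨S, T, hS, hT, hdis, hfin⟩ := h1
    have hsub : ∀ F : Finset (Set ℕ), (F : Set (Set ℕ)) ⊆ insert X 𝓔 →
        ((F.erase X : Finset (Set ℕ)) : Set (Set ℕ)) ⊆ 𝓔 := by
      intro F hF E hE
      have h2 := Finset.mem_erase.1 (Finset.mem_coe.1 hE)
      rcases hF (Finset.mem_coe.2 h2.2) with h3 | h3
      · exact absurd h3 h2.1
      · exact h3
    have hsub' : ∀ F : Finset (Set ℕ), (F : Set (Set ℕ)) ⊆ insert X 𝓔 → X ∉ F →
        (F : Set (Set ℕ)) ⊆ 𝓔 := by
      intro F hF hXF E hE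
      rcases hF hE with h3 | h3
      · rw [h3] at hE
        exact absurd hE hXF
      · exact h3
    by_cases hXS : X ∈ S
    · have hXT : X ∉ T := fun h2 => (Finset.disjoint_left.1 hdis hXS) h2
      refine ⟨_, Comb (S.erase X) T, ⟨S.erase X, T, hsub S hS, hsub' T hT hXT,
        hdis.mono_left (Finset.erase_subset _ _), le_rfl, rfl⟩, Or.inr (hfin.subset ?_)⟩
      rintro n ⟨⟨h2, h3⟩, h4⟩
      refine ⟨fun E hE => ?_, h3⟩
      by_cases hEX : E = X
      · rw [hEX]; exact h4
      · exact h2 E (Finset.mem_erase.2 ⟨hEX, hE⟩)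
    · by_cases hXT : X ∈ T
      · refine ⟨_, Comb S (T.erase X), ⟨S, T.erase X, hsub' S hS hXS, hsub T hT,
          hdis.mono_right (Finset.erase_subset _ _), le_rfl, rfl⟩, Or.inl (hfin.subset ?_)⟩
        rintro n ⟨⟨h2, h3⟩, h4⟩
        refine ⟨h2, fun E hE => ?_⟩
        by_cases hEX : E = X
        · rw [hEX]; exact h4
        · exact h3 E (Finset.mem_erase.2 ⟨hEX, hE⟩)
      · exact absurd hfin (h.1 S T (hsub' S hS hXS) (hsub' T hT hXT) hdis)

/-- Pairwise conflicting partial functions with domains of size at most `k` are at most `2 ^ k`. -/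
theorem card_conflict {α : Type*} [DecidableEq α] {N k : ℕ} (S T : Fin N → Finset α)
    (hdis : ∀ i, Disjoint (S i) (T i)) (hk : ∀ i, (S i).card + (T i).card ≤ k)
    (hc : ∀ i j, i ≠ j → ¬ Disjoint (S i ∪ S j) (T i ∪ T j)) : N ≤ 2 ^ k := by
  classical
  let U : Finset α := Finset.univ.biUnion fun i => S i ∪ T i
  have hSU : ∀ i, S i ∪ T i ⊆ U := fun i =>
    Finset.subset_biUnion_of_mem (fun i => S i ∪ T i) (Finset.mem_univ i)
  let C : Fin N → Finset (Finset α) := fun i => Finset.Icc (S i) (U \ T i)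
  have hST : ∀ i, S i ⊆ U \ T i := by
    intro i x hx
    exact Finset.mem_sdiff.2 ⟨hSU i (Finset.mem_union_left _ hx),
      fun hx' => Finset.disjoint_left.1 (hdis i) hx hx'⟩
  have hcard : ∀ i, 2 ^ U.card ≤ (C i).card * 2 ^ k := by
    intro i
    have h1 : (C i).card = 2 ^ ((U \ T i).card - (S i).card) := Finset.card_Icc_finset (hST i)
    have h2 : (U \ T i).card = U.card - (T i).card :=
      Finset.card_sdiff_of_subset ((Finset.subset_union_right).trans (hSU i))
    have h3 := Finset.card_le_card (hST i)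
    have h4 := hk i
    rw [h1, ← pow_add]
    exact Nat.pow_le_pow_right (by norm_num) (by omega)
  have hdisj : ∀ i j, i ≠ j → Disjoint (C i) (C j) := by
    intro i j hij
    rw [Finset.disjoint_left]
    intro P h1 h2
    rw [Finset.mem_Icc] at h1 h2
    refine hc i j hij ?_
    rw [Finset.disjoint_left]
    intro x hx hx'
    have h3 : x ∈ P := by
      rcases Finset.mem_union.1 hx with h | h
      · exact h1.1 h
      · exact h2.1 h
    rcases Finset.mem_union.1 hx' with h | h
    · exact (Finset.mem_sdiff.1 (h1.2 h3)).2 h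
    · exact (Finset.mem_sdiff.1 (h2.2 h3)).2 h
  have hsum : ∑ i, (C i).card ≤ 2 ^ U.card := by
    rw [← Finset.card_biUnion fun i _ j _ hij => hdisj i j hij, ← Finset.card_powerset]
    refine Finset.card_le_card ?_
    intro P hP
    obtain ⟨i, _, hi⟩ := Finset.mem_biUnion.1 hP
    rw [Finset.mem_powerset]
    exact (Finset.mem_Icc.1 hi).2.trans Finset.sdiff_subset
  have h5 : N * 2 ^ U.card ≤ 2 ^ k * 2 ^ U.card := by
    calc N * 2 ^ U.card = ∑ i : Fin N, 2 ^ U.card := by simp
      _ ≤ ∑ i : Fin N, (C i).card * 2 ^ k := Finset.sum_le_sum fun i _ => hcard i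
      _ = (∑ i : Fin N, (C i).card) * 2 ^ k := by rw [Finset.sum_mul]
      _ ≤ 2 ^ U.card * 2 ^ k := Nat.mul_le_mul_right _ hsum
      _ = 2 ^ k * 2 ^ U.card := Nat.mul_comm _ _
  exact Nat.le_of_mul_le_mul_right h5 (by positivity)

/-- No maximal independent family has determined Turing saturations. -/
theorem no_maxIndependent {𝓔 : Set (Set ℕ)} (h : MaxIndependent 𝓔) :
    ¬ ∀ k, Pool.Agent.H685R3.Determined (satE (Above (Combs 𝓔 k))) := by
  classical
  intro hD
  obtain ⟨k, s, hs, hk⟩ := reaping (reaps_combs h) hD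
  let N := 2 ^ k + 1
  have hN : 0 < N := by positivity
  let D : Fin N → Set ℕ := fun i => {m | m % N = i}
  have hDinf : ∀ i, (D i).Infinite := by
    intro i
    refine Set.infinite_of_injective_forall_mem (f := fun n : ℕ => N * n + i) ?_ ?_
    · intro n n' hn
      have : N * n = N * n' := by simpa using hn
      exact Nat.eq_of_mul_eq_mul_left hN this
    · intro n
      show (N * n + i) % N = i
      rw [Nat.mul_add_mod]
      exact Nat.mod_eq_of_lt i.2
  have h1 := fun i => hk (D i) (hDinf i)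
  choose R hR hfin using h1
  choose S T hS hT hdis hcard hRe using hR
  have hle := card_conflict S T hdis hcard (by
    intro i j hij hdisj
    have h2 : (Comb (S i ∪ S j) (T i ∪ T j)).Infinite := by
      refine h.1 _ _ ?_ ?_ hdisj
      · rw [Finset.coe_union]; exact Set.union_subset (hS i) (hS j)
      · rw [Finset.coe_union]; exact Set.union_subset (hT i) (hT j)
    refine h2 (((hfin i).union (hfin j)).subset ?_)
    rintro n ⟨h3, h4⟩
    have hi : n ∈ R i := by
      rw [hRe i]
      exact ⟨fun E hE => h3 E (Finset.mem_union_left _ hE),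
        fun E hE => h4 E (Finset.mem_union_left _ hE)⟩
    have hj : n ∈ R j := by
      rw [hRe j]
      exact ⟨fun E hE => h3 E (Finset.mem_union_right _ hE),
        fun E hE => h4 E (Finset.mem_union_right _ hE)⟩
    by_cases hni : ∃ m ∈ D i, s m ≤ n ∧ n < s (m + 1)
    · refine Or.inr ⟨hj, ?_⟩
      rintro ⟨m', hm', h5, h6⟩
      obtain ⟨m, hm, h7, h8⟩ := hni
      have h9 : m < m' + 1 := hs.lt_iff_lt.1 (h7.trans_lt h6)
      have h10 : m' < m + 1 := hs.lt_iff_lt.1 (h5.trans_lt h8)
      have h11 : m = m' := by omega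
      subst h11
      have h12 : (m % N) = i := hm
      have h13 : (m % N) = j := hm'
      exact hij (Fin.ext (h12.symm.trans h13))
    · exact Or.inl ⟨hi, hni⟩)
  omega

end Pool.Agent.R590.Td
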