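import Pool.Agent.W885.TD.Main

set_option autoImplicit false

/-!
Turing determinacy: upward closed tail sets satisfy the interval dichotomy.  Countable
decompositions of reaping families.
-/

namespace Pool.Agent.R590.Td

open Pool.Agent.Helper227 Pool.Agent.H685R3 Pool.Agent.W885.TD
open Encodable Filter Topology

/-- The Turing saturation of the preimage of `V`. -/
def satE (V : Set (ℕ → Bool)) : Set (ℕ → Bool) := {x | ∃ x', TLe x' x ∧ TLe x x' ∧ ee x' ∈ V}

theorem satE_invariant (V : Set (ℕ → Bool)) : TuringInvariant (satE V) := by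
  rintro x y h1 h2 ⟨x', h3, h4, h5⟩
  exact ⟨x', TLe.trans h3 h1, TLe.trans h2 h4, h5⟩

/-- Closed under taking almost larger sets. -/
def UpTail (V : Set (ℕ → Bool)) : Prop :=
  ∀ a b, a ∈ V → (∀ᶠ n in atTop, a n = true → b n = true) → b ∈ V

variable {V : Set (ℕ → Bool)}

theorem case_one (hV : UpTail V) {z : ℕ → Bool} (hz : ∀ x, TLe z x → x ∈ satE V) :
    ∃ s : ℕ → ℕ, StrictMono s ∧ ∀ (X : ℕ → Bool) (d : ℕ → ℕ), StrictMono d →
      (∀ i, ∀ m ∈ Set.Ico (s (2 * d i)) (s (2 * d i + 2)), X m = true) → X ∈ V := by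
  obtain ⟨h, hh⟩ := control z
  refine ⟨ss h, ss_strictMono h, fun X d hd hX => ?_⟩
  let τ : ℕ → ℕ := fun j => ss h (2 * d (j / 2) + j % 2)
  have hτ : StrictMono τ := strictMono_nat_of_lt_succ fun j => by
    refine ss_strictMono h ?_
    rcases Nat.even_or_odd' j with ⟨k, rfl | rfl⟩
    · have h1 : 2 * k / 2 = k := by omega
      have h2 : (2 * k + 1) / 2 = k := by omega
      rw [h1, h2]
      omega
    · have h1 : (2 * k + 1) / 2 = k := by omega
      have h2 : (2 * k + 1 + 1) / 2 = k + 1 := by omega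
      have h3 := hd (Nat.lt_succ_self k)
      rw [h1, h2]
      have h4 : d k < d (k + 1) := h3
      omega
  have hτ0 : ∀ k, τ (2 * k) = ss h (2 * d k) := fun k => by
    have h1 : 2 * k / 2 = k := by omega
    have h2 : 2 * k % 2 = 0 := by omega
    simp only [τ, h1, h2, Nat.add_zero]
  have hτ1 : ∀ k, τ (2 * k + 1) = ss h (2 * d k + 1) := fun k => by
    have h1 : (2 * k + 1) / 2 = k := by omega
    have h2 : (2 * k + 1) % 2 = 1 := by omega
    simp only [τ, h1, h2]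
  obtain ⟨y, hy, hy'⟩ := hh τ hτ
  obtain ⟨x', h1, h2, h3⟩ := hz y hy
  obtain ⟨k₀, hk₀⟩ := hy' x' h2 h1
  refine hV _ _ h3 ?_
  filter_upwards [eventually_ge_atTop ((Finset.range k₀).sup (fun k => G x' (2 * k + 1)))]
    with m hm hm'
  simp only [ee, decide_eq_true_eq] at hm'
  obtain ⟨k, h4, h5⟩ := hm'
  by_cases hk : k < k₀
  · have h6 := Finset.le_sup (f := fun k => G x' (2 * k + 1)) (Finset.mem_range.2 hk)
    omega
  · have h6 := (hk₀ (2 * k) (by omega)).1
    have h7 := (hk₀ (2 * k + 1) (by omega)).2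
    rw [hτ0] at h6
    rw [hτ1] at h7
    refine hX k m ⟨h6.trans h4, ?_⟩
    have h8 := h_lt_ss h (2 * d k + 1)
    have h9 : 2 * d k + 1 + 1 = 2 * d k + 2 := by omega
    rw [h9] at h8
    omega

theorem case_two (hV : UpTail V) {z : ℕ → Bool} (hz : ∀ x, TLe z x → x ∉ satE V) :
    ∃ s : ℕ → ℕ, StrictMono s ∧ ∀ (X : ℕ → Bool) (d : ℕ → ℕ), StrictMono d →
      (∀ i, ∀ m ∈ Set.Ico (s (2 * d i)) (s (2 * d i + 2)), X m = false) → X ∉ V := by
  obtain ⟨h, hh⟩ := control z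
  refine ⟨ss h, ss_strictMono h, fun X d hd hX hV' => ?_⟩
  let τ : ℕ → ℕ := fun j => if j = 0 then 0 else ss h (2 * d ((j - 1) / 2) + (j - 1) % 2)
  have hτ0 : ∀ k, τ (2 * k + 1) = ss h (2 * d k) := fun k => by
    have h1 : (2 * k + 1 - 1) / 2 = k := by omega
    have h2 : (2 * k + 1 - 1) % 2 = 0 := by omega
    simp only [τ, h1, h2, Nat.add_zero]
    rw [if_neg (by omega)]
  have hτ1 : ∀ k, τ (2 * k + 2) = ss h (2 * d k + 1) := fun k => by
    have h1 : (2 * k + 2 - 1) / 2 = k := by omega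
    have h2 : (2 * k + 2 - 1) % 2 = 1 := by omega
    simp only [τ, h1, h2]
    rw [if_neg (by omega)]
  have hτ : StrictMono τ := strictMono_nat_of_lt_succ fun j => by
    rcases Nat.even_or_odd' j with ⟨k, rfl | rfl⟩
    · rw [hτ0]
      cases k with
      | zero =>
        have h1 : τ (2 * 0) = 0 := by simp [τ]
        rw [h1]
        have h2 := (ss_strictMono h).monotone (Nat.zero_le (2 * d 0))
        have h3 : ss h 0 = 1 := rfl
        omega
      | succ k =>
        have h1 : 2 * (k + 1) = 2 * k + 2 := by omega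
        rw [h1, hτ1]
        refine ss_strictMono h ?_
        have h3 : d k < d (k + 1) := hd (Nat.lt_succ_self k)
        omega
    · rw [hτ0]
      have h1 : 2 * k + 1 + 1 = 2 * k + 2 := by omega
      rw [h1, hτ1]
      exact ss_strictMono h (by omega)
  obtain ⟨y, hy, hy'⟩ := hh τ hτ
  obtain ⟨k₀, hk₀⟩ := hy' y (TLe.refl y) (TLe.refl y)
  refine hz y hy ⟨y, TLe.refl y, TLe.refl y, ?_⟩
  refine hV _ _ hV' ?_
  filter_upwards [eventually_ge_atTop ((Finset.range (k₀ + 1)).sup (fun k => G y k))] with m hm hm'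
  -- the first clock value above `m`
  have h1 : ∃ k, m < G y k := by
    refine ⟨k₀ + m + 1, ?_⟩
    have h2 := (hk₀ (k₀ + m + 1) (by omega)).1
    have h3 := hτ.id_le (k₀ + m + 1)
    simp only [id] at h3
    omega
  have h2 : m < G y (Nat.find h1) := Nat.find_spec h1
  have h3 : k₀ < Nat.find h1 := by
    by_contra hc
    have h4 := Finset.le_sup (f := fun k => G y k)
      (Finset.mem_range.2 (show Nat.find h1 < k₀ + 1 by omega))
    omega
  have h4 : ¬ m < G y (Nat.find h1 - 1) := Nat.find_min h1 (by omega)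
  obtain ⟨j, hj⟩ : ∃ j, Nat.find h1 = j + 1 := ⟨Nat.find h1 - 1, by omega⟩
  rw [hj] at h2 h3 h4
  have h5 : j + 1 - 1 = j := by omega
  rw [h5] at h4
  simp only [ee, decide_eq_true_eq]
  rcases Nat.even_or_odd' j with ⟨k, rfl | rfl⟩
  · exact ⟨k, by omega, h2⟩
  · exfalso
    have h6 := (hk₀ (2 * k + 1) (by omega)).1
    have h7 := (hk₀ (2 * k + 2) (by omega)).2
    rw [hτ0] at h6
    rw [hτ1] at h7
    have h8 := h_lt_ss h (2 * d k + 1)
    have h9 : 2 * d k + 1 + 1 = 2 * d k + 2 := by omega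
    have h10 : 2 * k + 1 + 1 = 2 * k + 2 := by omega
    rw [h9] at h8
    rw [h10] at h2
    have h11 := hX k m ⟨by omega, by omega⟩
    rw [h11] at hm'
    cases hm'

/-- The interval dichotomy. -/
theorem dichotomy (hV : UpTail V) (hD : Determined (satE V)) :
    ∃ s : ℕ → ℕ, StrictMono s ∧
      ((∀ (X : ℕ → Bool) (D : Set ℕ), D.Infinite →
        (∀ i ∈ D, ∀ m ∈ Set.Ico (s i) (s (i + 1)), X m = true) → X ∈ V) ∨
      (∀ (X : ℕ → Bool) (D : Set ℕ), D.Infinite →
        (∀ i ∈ D, ∀ m ∈ Set.Ico (s i) (s (i + 1)), X m = false) → X ∉ V)) := by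
  have aux : ∀ (s : ℕ → ℕ) (D : Set ℕ), D.Infinite → ∃ d : ℕ → ℕ, StrictMono d ∧ ∀ i, d i ∈ D :=
    fun s D hD => ⟨Nat.nth (· ∈ D), Nat.nth_strictMono hD, fun i => Nat.nth_mem_of_infinite hD i⟩
  rcases hD with h1 | h1
  · obtain ⟨z, hz⟩ := cone_of_wins (b := 0) (by omega) (satE_invariant V) h1
    obtain ⟨s, hs, h2⟩ := case_one hV hz
    refine ⟨fun i => s (2 * i), fun i j hij => hs (by omega), Or.inl fun X D hD hX => ?_⟩
    obtain ⟨d, hd, hd'⟩ := aux s D hD
    refine h2 X d hd fun i m hm => hX _ (hd' i) m ⟨hm.1, ?_⟩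
    have : 2 * (d i + 1) = 2 * d i + 2 := by ring
    simp only [this]
    exact hm.2
  · obtain ⟨z, hz⟩ := cone_of_wins (b := 1) (by omega) (compl_invariant (satE_invariant V)) h1
    obtain ⟨s, hs, h2⟩ := case_two hV (z := z) hz
    refine ⟨fun i => s (2 * i), fun i j hij => hs (by omega), Or.inr fun X D hD hX => ?_⟩
    obtain ⟨d, hd, hd'⟩ := aux s D hD
    refine h2 X d hd fun i m hm => hX _ (hd' i) m ⟨hm.1, ?_⟩
    have : 2 * (d i + 1) = 2 * d i + 2 := by ring
    simp only [this]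
    exact hm.2

/-! ### Reaping families -/

/-- The set of all `a` such that some `R ∈ 𝓢` is almost contained in `a`. -/
def Above (𝓢 : Set (Set ℕ)) : Set (ℕ → Bool) := {a | ∃ R ∈ 𝓢, (R \ {n | a n = true}).Finite}

theorem upTail_above (𝓢 : Set (Set ℕ)) : UpTail (Above 𝓢) := by
  rintro a b ⟨R, hR, hfin⟩ hab
  refine ⟨R, hR, ?_⟩
  obtain ⟨N, hN⟩ := eventually_atTop.1 hab
  refine (hfin.union (Set.finite_Iio N)).subset ?_
  rintro n ⟨hn, hb⟩
  by_cases h : n < N
  · exact Or.inr h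
  · left
    refine ⟨hn, fun ha => hb (hN n (not_lt.1 h) ha)⟩

/-- The sequence of stages of the diagonal construction. -/
def pp (ρ : ℕ → ℕ → ℕ) : ℕ → ℕ
  | 0 => 0
  | j + 1 => ρ (j / 2).unpair.1 (pp ρ j + 1)

open Classical in
/-- the diagonal set -/
noncomputable def diag (ρ : ℕ → ℕ → ℕ) (m : ℕ) : Bool :=
  decide (∃ j, pp ρ (2 * j) ≤ m ∧ m < pp ρ (2 * j + 1))

theorem pp_strictMono {ρ : ℕ → ℕ → ℕ} (hρ : ∀ k, StrictMono (ρ k)) : StrictMono (pp ρ) :=
  strictMono_nat_of_lt_succ fun j => by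
    have h1 := (hρ (j / 2).unpair.1).id_le (pp ρ j + 1)
    simp only [id] at h1
    change pp ρ j < ρ (j / 2).unpair.1 (pp ρ j + 1)
    omega

theorem exists_diag {ρ : ℕ → ℕ → ℕ} (hρ : ∀ k, StrictMono (ρ k)) (k : ℕ) :
    (∃ D : Set ℕ, D.Infinite ∧ ∀ i ∈ D, ∀ m ∈ Set.Ico (ρ k i) (ρ k (i + 1)), diag ρ m = true) ∧
    (∃ D : Set ℕ, D.Infinite ∧ ∀ i ∈ D, ∀ m ∈ Set.Ico (ρ k i) (ρ k (i + 1)),
      diag ρ m = false) := by
  have hp := pp_strictMono hρ
  have low : ∀ j, pp ρ j ≤ ρ (j / 2).unpair.1 (pp ρ j) := fun j => (hρ _).id_le _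
  constructor
  · refine ⟨Set.range fun n => pp ρ (2 * Nat.pair k n), Set.infinite_range_of_injective ?_, ?_⟩
    · intro n n' h
      have h1 := hp.injective h
      have h2 : Nat.pair k n = Nat.pair k n' := by omega
      exact (Nat.pair_eq_pair.1 h2).2
    · rintro _ ⟨n, rfl⟩ m ⟨h1, h2⟩
      have h3 : (2 * Nat.pair k n / 2).unpair.1 = k := by
        rw [Nat.mul_div_cancel_left _ (by norm_num), Nat.unpair_pair]
      have h4 := low (2 * Nat.pair k n)
      rw [h3] at h4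
      have h5 : pp ρ (2 * Nat.pair k n + 1) = ρ k (pp ρ (2 * Nat.pair k n) + 1) := by
        change ρ (2 * Nat.pair k n / 2).unpair.1 _ = _
        rw [h3]
      simp only [diag, decide_eq_true_eq]
      exact ⟨Nat.pair k n, h4.trans h1, by rw [h5]; exact h2⟩
  · refine ⟨Set.range fun n => pp ρ (2 * Nat.pair k n + 1), Set.infinite_range_of_injective ?_, ?_⟩
    · intro n n' h
      have h1 := hp.injective h
      have h2 : Nat.pair k n = Nat.pair k n' := by omega
      exact (Nat.pair_eq_pair.1 h2).2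
    · rintro _ ⟨n, rfl⟩ m ⟨h1, h2⟩
      have h3 : ((2 * Nat.pair k n + 1) / 2).unpair.1 = k := by
        have : (2 * Nat.pair k n + 1) / 2 = Nat.pair k n := by omega
        rw [this, Nat.unpair_pair]
      have h4 := low (2 * Nat.pair k n + 1)
      rw [h3] at h4
      have h5 : pp ρ (2 * Nat.pair k n + 2) = ρ k (pp ρ (2 * Nat.pair k n + 1) + 1) := by
        change ρ ((2 * Nat.pair k n + 1) / 2).unpair.1 _ = _
        rw [h3]
      simp only [diag, decide_eq_false_iff_not, not_exists, not_and, not_lt]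
      intro j hj
      -- `j` is at most `Nat.pair k n`
      by_contra hc
      have h6 : pp ρ (2 * Nat.pair k n + 1) ≤ m := h4.trans h1
      have h7 : m < pp ρ (2 * Nat.pair k n + 2) := by rw [h5]; exact h2
      have h8 : pp ρ (2 * Nat.pair k n + 1) < pp ρ (2 * j + 1) := h6.trans_lt (not_le.1 hc)
      have h9 := hp.lt_iff_lt.1 h8
      have h10 : pp ρ (2 * j) < pp ρ (2 * Nat.pair k n + 2) := hj.trans_lt h7
      have h11 := hp.lt_iff_lt.1 h10
      omega

/-- Countable decompositions of reaping families. -/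
theorem reaping {𝓡 : ℕ → Set (Set ℕ)}
    (hR : ∀ X : Set ℕ, ∃ k, ∃ R ∈ 𝓡 k, (R \ X).Finite ∨ (R ∩ X).Finite)
    (hD : ∀ k, Determined (satE (Above (𝓡 k)))) :
    ∃ k, ∃ s : ℕ → ℕ, StrictMono s ∧ ∀ D : Set ℕ, D.Infinite →
      ∃ R ∈ 𝓡 k, (R \ {m | ∃ i ∈ D, s i ≤ m ∧ m < s (i + 1)}).Finite := by
  classical
  have h1 := fun k => dichotomy (upTail_above (𝓡 k)) (hD k)
  choose ρ hρ hd using h1
  by_cases hcase : ∃ k, ∀ (X : ℕ → Bool) (D : Set ℕ), D.Infinite →
      (∀ i ∈ D, ∀ m ∈ Set.Ico (ρ k i) (ρ k (i + 1)), X m = true) → X ∈ Above (𝓡 k)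
  · obtain ⟨k, hk⟩ := hcase
    refine ⟨k, ρ k, hρ k, fun D hD => ?_⟩
    obtain ⟨R, hR, hfin⟩ := hk (fun m => decide (∃ i ∈ D, ρ k i ≤ m ∧ m < ρ k (i + 1))) D hD
      (fun i hi m hm => by
        simp only [decide_eq_true_eq]
        exact ⟨i, hi, hm.1, hm.2⟩)
    refine ⟨R, hR, ?_⟩
    simpa using hfin
  · exfalso
    have h2 : ∀ k (X : ℕ → Bool) (D : Set ℕ), D.Infinite →
        (∀ i ∈ D, ∀ m ∈ Set.Ico (ρ k i) (ρ k (i + 1)), X m = false) → X ∉ Above (𝓡 k) := by
      intro k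
      rcases hd k with h | h
      · exact absurd ⟨k, h⟩ hcase
      · exact h
    obtain ⟨k, R, hR, hor⟩ := hR {m | diag ρ m = true}
    obtain ⟨⟨D₁, hD₁, h3⟩, D₀, hD₀, h4⟩ := exists_diag hρ k
    rcases hor with h | h
    · exact h2 k (diag ρ) D₀ hD₀ h4 ⟨R, hR, h⟩
    · refine h2 k (fun m => !(diag ρ m)) D₁ hD₁ (fun i hi m hm => by simp [h3 i hi m hm])
        ⟨R, hR, ?_⟩
      refine h.subset ?_
      rintro m ⟨hm, hm'⟩
      refine ⟨hm, ?_⟩
      simpa using hm'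

end Pool.Agent.R590.Td
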