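import Pool.Agent.R590.UWDefs

set_option autoImplicit false

/-! # Complete algebras of sets and ultrafilters on them -/

namespace Pool.Agent.R590.UW

open Cardinal Ordinal Set

universe u

variable {K : Type u}

theorem IsAlg.iUnion {A : Set (Set K)} (hA : IsAlg A) {ι : Type u} (X : ι → Set K)
    (hι : #ι < #K) (hX : ∀ i, X i ∈ A) : ⋃ i, X i ∈ A := by
  have h := hA.sUnion (range X) (by rintro _ ⟨i, rfl⟩; exact hX i) (mk_range_le.trans_lt hι)
  rwa [sUnion_range] at h

theorem IsAlg.biUnion {A : Set (Set K)} (hA : IsAlg A) {ι : Type u} (s : Set ι) (X : ι → Set K)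
    (hι : #s < #K) (hX : ∀ i ∈ s, X i ∈ A) : ⋃ i ∈ s, X i ∈ A := by
  rw [biUnion_eq_iUnion]
  exact hA.iUnion _ hι (fun i => hX i i.2)

theorem IsUlt.iInter {A W : Set (Set K)} (hW : IsUlt A W) {ι : Type u} (X : ι → Set K)
    (hι : #ι < #K) (hX : ∀ i, X i ∈ W) : ⋂ i, X i ∈ W := by
  have h := hW.sInter (range X) (by rintro _ ⟨i, rfl⟩; exact hX i) (mk_range_le.trans_lt hι)
  rwa [sInter_range] at h

theorem IsUlt.biInter {A W : Set (Set K)} (hW : IsUlt A W) {ι : Type u} (s : Set ι)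
    (X : ι → Set K) (hι : #s < #K) (hX : ∀ i ∈ s, X i ∈ W) : ⋂ i ∈ s, X i ∈ W := by
  rw [biInter_eq_iInter]
  exact hW.iInter _ hι (fun i => hX i i.2)

theorem IsUlt.inter {A W : Set (Set K)} (hW : IsUlt A W) (hK : ℵ₀ ≤ #K) {X Y : Set K}
    (hX : X ∈ W) (hY : Y ∈ W) : X ∩ Y ∈ W := by
  have h := hW.sInter {X, Y} (by rintro Z (rfl | rfl) <;> assumption)
    ((Cardinal.lt_aleph0_of_finite _).trans_le hK)
  rwa [sInter_pair] at h

theorem IsUlt.nonempty {A W : Set (Set K)} (hW : IsUlt A W) (hK : ℵ₀ ≤ #K) {X : Set K}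
    (hX : X ∈ W) : X.Nonempty := by
  rw [nonempty_iff_ne_empty]
  rintro rfl
  have h := hW.uniform _ hX
  rw [mk_eq_zero] at h
  rw [← h] at hK
  exact absurd hK (not_le.2 aleph0_pos)

theorem IsUlt.univ {A W : Set (Set K)} (hW : IsUlt A W) (hK : ℵ₀ ≤ #K) : (univ : Set K) ∈ W := by
  have h := hW.sInter ∅ (by simp) (by rw [mk_eq_zero]; exact aleph0_pos.trans_le hK)
  rwa [sInter_empty] at h

theorem gen_isAlg (S : Set (Set K)) : IsAlg (gen S) where
  compl := fun X hX A hA hS => hA.compl X (hX A hA hS)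
  sUnion := fun T hT hT' A hA hS => hA.sUnion T (fun X hX => hT hX A hA hS) hT'

theorem subset_gen (S : Set (Set K)) : S ⊆ gen S := fun X hX _ _ hS => hS hX

theorem gen_le {S A : Set (Set K)} (hA : IsAlg A) (hS : S ⊆ A) : gen S ⊆ A :=
  fun _ hX => hX A hA hS

theorem gen_mono {S T : Set (Set K)} (h : S ⊆ T) : gen S ⊆ gen T :=
  gen_le (gen_isAlg T) (h.trans (subset_gen T))

section Order

variable [LinearOrder K] [WellFoundedLT K]

/-- The standing assumptions on the order of `K`. -/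
structure Good (K : Type u) [LinearOrder K] : Prop where
  inacc : (#K).IsInaccessible
  seg : ∀ x : K, #(Iio x) < #K

theorem Good.aleph0_le {K : Type u} [LinearOrder K] (hK : Good K) : ℵ₀ ≤ #K :=
  hK.inacc.isRegular.aleph0_le

theorem Good.segle {K : Type u} [LinearOrder K] (hK : Good K) (x : K) : #(Iic x) < #K := by
  have h1 : Iic x = Iio x ∪ {x} := by
    ext y
    simp [le_iff_lt_or_eq]
  rw [h1]
  refine (mk_union_le _ _).trans_lt (add_lt_of_lt hK.aleph0_le (hK.seg x) ?_)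
  rw [mk_singleton]
  exact one_lt_aleph0.trans_le hK.aleph0_le

theorem Good.bdd {K : Type u} [LinearOrder K] (hK : Good K) {S : Set K} (hS : #S < #K) :
    ∃ b, ∀ x ∈ S, x < b := by
  by_contra hcon
  push Not at hcon
  have h1 : (⋃ x ∈ S, Iic x) = Set.univ := by
    rw [eq_univ_iff_forall]
    intro b
    obtain ⟨x, hx, hb⟩ := hcon b
    exact mem_biUnion hx hb
  have h2 : #(⋃ x ∈ S, Iic x : Set K) < #K := by
    rw [card_biUnion_lt_iff_forall_of_isRegular hK.inacc.isRegular hS]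
    intro x _
    exact hK.segle x
  rw [h1, mk_univ] at h2
  exact lt_irrefl _ h2

theorem Good.exists_gt {K : Type u} [LinearOrder K] (hK : Good K) (x : K) : ∃ b, x < b := by
  obtain ⟨b, hb⟩ := hK.bdd (S := {x}) (by
    rw [mk_singleton]; exact one_lt_aleph0.trans_le hK.aleph0_le)
  exact ⟨b, hb x rfl⟩

/-- If `ρ < |Iio x|`, then there is `b < x` with `|Iio b| = ρ`. -/
theorem exists_seg {x : K} {ρ : Cardinal.{u}} (h : ρ < #(Iio x)) : ∃ b < x, #(Iio b) = ρ := by
  have h1 : ρ.ord < typein (α := K) (· < ·) x := by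
    have h2 : ρ.ord ≤ typein (α := K) (· < ·) x := by
      rw [ord_le, card_typein]
      exact h.le
    refine lt_of_le_of_ne h2 fun h3 => ?_
    have h4 := congrArg Ordinal.card h3
    rw [card_ord, card_typein] at h4
    exact h.ne h4
  obtain ⟨b, hb⟩ := typein_surj (α := K) (· < ·) (h1.trans (typein_lt_type _ _))
  refine ⟨b, ?_, ?_⟩
  · rwa [← hb, typein_lt_typein] at h1
  · have h4 := congrArg Ordinal.card hb
    rw [card_ord, card_typein] at h4
    exact h4

/-- The sets which are saturated with respect to fewer than `κ` of the sets `X i`. -/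
def Sat (X : K → Set K) : Set (Set K) :=
  {Z | ∃ b : K, ∀ x y, (∀ i < b, x ∈ X i ↔ y ∈ X i) → x ∈ Z → y ∈ Z}

theorem sat_isAlg (hK : Good K) (X : K → Set K) : IsAlg (Sat X) where
  compl := by
    rintro Z ⟨b, hb⟩
    exact ⟨b, fun x y hxy hx hy => hx (hb y x (fun i hi => (hxy i hi).symm) hy)⟩
  sUnion := by
    intro S hS hS'
    have hne : Nonempty K := mk_ne_zero_iff.1 (aleph0_pos.trans_le hK.aleph0_le).ne'
    choose! b hb using hS
    obtain ⟨c, hc⟩ := hK.bdd (S := b '' S) (mk_image_le.trans_lt hS')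
    refine ⟨c, ?_⟩
    rintro x y hxy ⟨Z, hZ, hx⟩
    exact ⟨Z, hZ, hb hZ x y (fun i hi => hxy i (hi.trans (hc _ (mem_image_of_mem _ hZ)))) hx⟩

theorem mem_sat (hK : Good K) (X : K → Set K) (i : K) : X i ∈ Sat X := by
  obtain ⟨b, hb⟩ := hK.exists_gt i
  exact ⟨b, fun x y hxy hx => (hxy i hb).1 hx⟩

theorem mk_sat_le (hK : Good K) (X : K → Set K) : #(Sat X) ≤ #K := by
  classical
  let B : K → Set (Set K) := fun b => {Z | ∀ x y, (∀ i < b, x ∈ X i ↔ y ∈ X i) → x ∈ Z → y ∈ Z}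
  have h1 : Sat X = ⋃ b, B b := by
    ext Z
    simp [Sat, B]
  have h2 : ∀ b, #(B b) ≤ #K := by
    intro b
    let e : B b → Set (Set (Iio b)) := fun Z => {s | ∃ x ∈ Z.1, s = {i | x ∈ X i.1}}
    have he : Function.Injective e := by
      rintro ⟨Z, hZ⟩ ⟨Z', hZ'⟩ h
      have key : ∀ Z Z' : Set K, (∀ x y, (∀ i < b, x ∈ X i ↔ y ∈ X i) → x ∈ Z' → y ∈ Z') →
          {s : Set (Iio b) | ∃ x ∈ Z, s = {i | x ∈ X i.1}} =
          {s : Set (Iio b) | ∃ x ∈ Z', s = {i | x ∈ X i.1}} → Z ⊆ Z' := by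
        intro Z Z' hZ' h x hx
        have h3 : {i : Iio b | x ∈ X i.1} ∈ {s : Set (Iio b) | ∃ x ∈ Z', s = {i | x ∈ X i.1}} := by
          rw [← h]
          exact ⟨x, hx, rfl⟩
        obtain ⟨y, hy, hxy⟩ := h3
        refine hZ' y x (fun i hi => ?_) hy
        have := congrArg (fun s => (⟨i, hi⟩ : Iio b) ∈ s) hxy
        simpa using this.symm.to_iff
      exact Subtype.ext ((key Z Z' hZ' h).antisymm (key Z' Z hZ h.symm))
    have h4 := mk_le_of_injective he
    rw [mk_set, mk_set] at h4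
    exact h4.trans (hK.inacc.isStrongLimit.isStrongPrelimit
      (hK.inacc.isStrongLimit.isStrongPrelimit (hK.seg b))).le
  rw [h1]
  refine (mk_iUnion_le _).trans ?_
  have h3 : (⨆ b, #(B b)) ≤ #K := ciSup_le' h2
  calc #K * ⨆ b, #(B b) ≤ #K * #K := by gcongr
    _ = #K := mul_eq_self hK.aleph0_le

theorem mk_gen_le (hK : Good K) {S : Set (Set K)} (hS : #S ≤ #K) : #(gen S) ≤ #K := by
  classical
  by_cases hne : S.Nonempty
  · obtain ⟨Z, hZ⟩ := hne
    have hne' : Nonempty S := ⟨⟨Z, hZ⟩⟩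
    obtain ⟨i⟩ := hS
    let X : K → Set K := fun x => (Function.invFun i x).1
    have h1 : S ⊆ Sat X := by
      intro Y hY
      have h2 : X (i ⟨Y, hY⟩) = Y := by
        simp only [X]
        rw [Function.leftInverse_invFun i.injective]
      rw [← h2]
      exact mem_sat hK X _
    exact (mk_le_mk_of_subset (gen_le (sat_isAlg hK X) h1)).trans (mk_sat_le hK X)
  · rw [not_nonempty_iff_eq_empty] at hne
    subst hne
    exact (mk_le_mk_of_subset (gen_le (sat_isAlg hK (fun _ => ∅)) (empty_subset _))).trans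
      (mk_sat_le hK _)

end Order

end Pool.Agent.R590.UW
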