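import Mathlib

/-!
# Ulam games and the Welch games `G*`: the definitions

`K` is a set of cardinality `κ`. A play of length `γ` is a sequence of moves which is indexed by
the ordinals `α < γ`. A strategy of Player II is a function `σ` of a stage `α` and of the sequence
of the moves of Player I which depends only on the moves of Player I at the stages `β ≤ α`.
-/

set_option autoImplicit false

namespace Pool.Agent.R590.UW

open Cardinal Ordinal Set

universe u v w

/-- `σ` is a strategy of Player II: the answer `σ α A` at the stage `α` depends only on the moves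
`A β` of Player I at the stages `β ≤ α`. -/
def IsStrategy {X : Type v} {Y : Type w} (σ : Ordinal.{u} → (Ordinal.{u} → X) → Y) : Prop :=
  ∀ (α : Ordinal.{u}) (A A' : Ordinal.{u} → X), (∀ β ≤ α, A β = A' β) → σ α A = σ α A'

/-! ### The game `G*` -/

/-- `A` is a `κ`-complete subalgebra of `P(K)`, where `κ = |K|`: it is closed under complements and
under unions of fewer than `κ` of its members. -/
structure IsAlg {K : Type u} (A : Set (Set K)) : Prop where
  compl : ∀ X ∈ A, Xᶜ ∈ A
  sUnion : ∀ S ⊆ A, #S < #K → ⋃₀ S ∈ A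

/-- `U` is a uniform `κ`-complete ultrafilter on the subalgebra `A` of `P(K)`, where `κ = |K|`. -/
structure IsUlt {K : Type u} (A U : Set (Set K)) : Prop where
  sub : U ⊆ A
  up : ∀ X ∈ U, ∀ Y ∈ A, X ⊆ Y → Y ∈ U
  ultra : ∀ X ∈ A, (X ∈ U ↔ Xᶜ ∉ U)
  sInter : ∀ S ⊆ U, #S < #K → ⋂₀ S ∈ U
  uniform : ∀ X ∈ U, #X = #K

/-- The `κ`-complete subalgebra of `P(K)` generated by `S`. -/
def gen {K : Type u} (S : Set (Set K)) : Set (Set K) := {X | ∀ A, IsAlg A → S ⊆ A → X ∈ A}

/-- The moves `A β`, `β ≤ α`, of Player I are legal: they are `κ`-complete subalgebras of `P(K)` of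
cardinality `κ`, they increase, and the first one contains all singletons. -/
structure LegalI {K : Type u} (A : Ordinal.{u} → Set (Set K)) (α : Ordinal.{u}) : Prop where
  alg : ∀ β ≤ α, IsAlg (A β) ∧ #(A β) = #K
  mono : ∀ β ≤ α, ∀ β' ≤ β, A β' ⊆ A β
  singleton : ∀ x : K, {x} ∈ A 0

/-- Player II has a winning strategy in the game `G*_γ` on `κ = |K|`: she always has a legal answer,
and after `γ` stages the union of her ultrafilters extends to a uniform `κ`-complete ultrafilter on
the `κ`-complete subalgebra generated by the union of the subalgebras played by Player I. -/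
def IIWinsStar (K : Type u) (γ : Ordinal.{u}) : Prop :=
  ∃ σ : Ordinal.{u} → (Ordinal.{u} → Set (Set K)) → Set (Set K), IsStrategy σ ∧
    (∀ A, ∀ α < γ, LegalI A α → IsUlt (A α) (σ α A) ∧ ∀ β ≤ α, σ β A ⊆ σ α A) ∧
    ∀ A, (∀ α < γ, LegalI A α) →
      ∃ W, IsUlt (gen (⋃ α ∈ Iio γ, A α)) W ∧ ∀ α < γ, σ α A ⊆ W

/-! ### The Ulam game -/

/-- The piece of the partition `p` chosen by the bit `b`. -/
def piece {K : Type u} (p : Set K × Set K) (b : Bool) : Set K := if b then p.1 else p.2

/-- Player II has a winning strategy in the Ulam game of length `γ` on `K`: at the stage `α < γ`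
Player I plays a partition of the intersection of the earlier choices of Player II (of `K` if
`α = 0`) into two pieces, and Player II chooses one of the two pieces. Player II wins if the
intersection of all her choices has at least two elements. -/
def IIWinsUlam (K : Type u) (γ : Ordinal.{u}) : Prop :=
  ∃ τ : Ordinal.{u} → (Ordinal.{u} → Set K × Set K) → Bool, IsStrategy τ ∧
    ∀ P : Ordinal.{u} → Set K × Set K,
      (∀ α < γ, (P α).1 ∩ (P α).2 = ∅ ∧
        (P α).1 ∪ (P α).2 = ⋂ β ∈ Iio α, piece (P β) (τ β P)) →
      (⋂ α ∈ Iio γ, piece (P α) (τ α P)).Nontrivial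

/-! ### Large cardinals -/

/-- `μ` is a measurable cardinal: it is uncountable, and there is a nonprincipal `μ`-complete
ultrafilter on a set of cardinality `μ`. -/
def IsMeasurable (μ : Cardinal.{u}) : Prop :=
  ℵ₀ < μ ∧ ∃ (M : Type u) (U : Ultrafilter M), #M = μ ∧ (∀ x, {x} ∉ U) ∧
    CardinalInterFilter (U : Filter M) μ

/-- `κ` is a weakly compact cardinal: it is uncountable and `κ → (κ)²₂`, that is, every graph with
`κ` vertices has a clique or an independent set with `κ` vertices. -/
def WeaklyCompact (κ : Cardinal.{u}) : Prop :=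
  ℵ₀ < κ ∧ ∀ (L : Type u) (G : SimpleGraph L), #L = κ →
    ∃ H : Set L, #H = κ ∧ (G.IsClique H ∨ G.IsIndepSet H)

end Pool.Agent.R590.UW
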