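import Pool.Agent.R590.UWDefs

set_option autoImplicit false

/-! # Player II wins the Ulam game above a measurable cardinal -/

namespace Pool.Agent.R590.UW

open Cardinal Ordinal Set

universe u

/-- The Ulam game is monotone in the set. -/
theorem ulam_mono {M K : Type u} (j : M ↪ K) {γ : Ordinal.{u}} (h : IIWinsUlam M γ) :
    IIWinsUlam K γ := by
  obtain ⟨τ, hτ, hw⟩ := h
  let pb : (Ordinal.{u} → Set K × Set K) → Ordinal.{u} → Set M × Set M :=
    fun P β => (j ⁻¹' (P β).1, j ⁻¹' (P β).2)
  have hpiece : ∀ (P : Ordinal.{u} → Set K × Set K) (β : Ordinal.{u}) (b : Bool),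
      piece (pb P β) b = j ⁻¹' (piece (P β) b) := by
    intro P β b
    cases b <;> rfl
  refine ⟨fun α P => τ α (pb P), ?_, ?_⟩
  · intro α A A' hA
    apply hτ
    intro β hβ
    simp only [pb, hA β hβ]
  · intro P hP
    have h1 := hw (pb P) (by
      intro α hα
      obtain ⟨h1, h2⟩ := hP α hα
      refine ⟨?_, ?_⟩
      · change j ⁻¹' (P α).1 ∩ j ⁻¹' (P α).2 = ∅
        rw [← preimage_inter, h1, preimage_empty]
      · change j ⁻¹' (P α).1 ∪ j ⁻¹' (P α).2 = _
        rw [← preimage_union, h2]
        simp only [preimage_iInter, hpiece])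
    simp only [hpiece] at h1
    obtain ⟨x, hx, y, hy, hxy⟩ := h1
    refine ⟨j x, ?_, j y, ?_, fun h => hxy (j.injective h)⟩
    · simp only [mem_iInter, mem_preimage] at hx ⊢
      exact hx
    · simp only [mem_iInter, mem_preimage] at hy ⊢
      exact hy

/-- Player II wins the Ulam games of length less than `μ` on a measurable cardinal `μ`. -/
theorem ulam_of_ultrafilter {M : Type u} (U : Ultrafilter M) (hU : ∀ x, {x} ∉ U)
    (hc : CardinalInterFilter (U : Filter M) #M) {γ : Ordinal.{u}} (hγ : γ < (#M).ord) :
    IIWinsUlam M γ := by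
  classical
  refine ⟨fun α P => decide ((P α).1 ∈ U), ?_, ?_⟩
  · intro α A A' hA
    simp only [hA α le_rfl]
  · intro P hP
    have hint : ∀ α < (#M).ord, (∀ β < α, piece (P β) (decide ((P β).1 ∈ U)) ∈ U) →
        (⋂ β ∈ Iio α, piece (P β) (decide ((P β).1 ∈ U))) ∈ U := by
      intro α hα h
      have h2 : #α.ToType < #M := by
        rw [mk_toType]
        exact lt_ord.1 hα
      have h3 : (⋂ i : α.ToType, piece (P ((Ordinal.ToType.mk (o := α)).symm i)) (decide ((P ((Ordinal.ToType.mk (o := α)).symm i)).1 ∈ U))) ∈ (U : Filter M) := by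
        have := hc
        rw [Filter.cardinal_iInter_mem h2]
        intro i
        exact h _ ((Ordinal.ToType.mk (o := α)).symm i).2
      refine Filter.mem_of_superset h3 ?_
      intro x hx
      simp only [mem_iInter] at hx ⊢
      intro β hβ
      have := hx (Ordinal.ToType.mk ⟨β, hβ⟩)
      simpa using this
    have hmem : ∀ α < γ, piece (P α) (decide ((P α).1 ∈ U)) ∈ U := by
      intro α
      induction α using WellFoundedLT.induction with
      | _ α ih =>
        intro hα
        have h1 := hint α (hα.trans hγ) (fun β hβ => ih β hβ (hβ.trans hα))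
        obtain ⟨-, h2⟩ := hP α hα
        rw [← h2] at h1
        have h3 : (P α).1 ∪ (P α).2 ∈ U := h1
        rw [Ultrafilter.union_mem_iff] at h3
        by_cases h4 : (P α).1 ∈ U
        · simpa [piece, h4] using h4
        · simpa [piece, h4] using h3.resolve_left h4
    have h1 := hint γ hγ hmem
    rw [← not_subsingleton_iff]
    intro hs
    rcases hs.eq_empty_or_singleton with h2 | ⟨x, h2⟩
    · rw [h2] at h1
      exact U.empty_notMem h1
    · rw [h2] at h1
      exact hU x h1

end Pool.Agent.R590.UW
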