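import Pool.Agent.R590.UWMain
import Pool.Agent.R590.UWUlam

set_option autoImplicit false

/-! # Ulam games and the games `G*`: the end of the proof -/

namespace Pool.Agent.R590.UW

open Cardinal Ordinal Set

universe u v w

/-- Recursion along a strategy. -/
theorem exists_seq {X : Type v} {Y : Type w} {Z : Type*} {σ : Ordinal.{u} → (Ordinal.{u} → Z) → Y}
    (hσ : IsStrategy σ) (pl : (ℕ → X) → Ordinal.{u} → Z)
    (hpl : ∀ (F F' : ℕ → X) (n : ℕ), (∀ m ≤ n, F m = F' m) → ∀ α : Ordinal.{u}, α ≤ n →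
      pl F α = pl F' α) (x0 : X) (Φ : X → Y → X) :
    ∃ F : ℕ → X, F 0 = x0 ∧ ∀ n : ℕ, F (n + 1) = Φ (F n) (σ n (pl F)) := by
  let s : ℕ → ℕ → X := fun n => Nat.rec (fun _ => x0)
    (fun n s m => if m ≤ n then s m else Φ (s n) (σ n (pl s))) n
  have hs : ∀ n m, s (n + 1) m = if m ≤ n then s n m else Φ (s n n) (σ n (pl (s n))) :=
    fun n m => rfl
  have h1 : ∀ n, ∀ m ≤ n, s n m = s m m := by
    intro n
    induction n with
    | zero =>
      intro m hm
      have : m = 0 := by omega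
      subst this
      rfl
    | succ n ih =>
      intro m hm
      rcases Nat.lt_or_ge n m with h | h
      · have : m = n + 1 := by omega
        subst this
        rfl
      · rw [hs, if_pos h, ih m h]
  refine ⟨fun n => s n n, rfl, fun n => ?_⟩
  change s (n + 1) (n + 1) = Φ (s n n) (σ n (pl fun n => s n n))
  rw [hs, if_neg (by omega)]
  congr 1
  refine hσ _ _ _ fun β hβ => ?_
  exact hpl _ _ n (fun m hm => h1 n m hm) β hβ

section

variable {K : Type u} [LinearOrder K] [WellFoundedLT K]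

/-- The play of Player I given by a sequence of families of functions. -/
def play (F : ℕ → Set (K → K)) (α : Ordinal.{u}) : Set (Set K) :=
  gen {X | ∃ n : ℕ, (n : Ordinal.{u}) ≤ α ∧ ∃ f ∈ F n, ∃ β, X = f ⁻¹' {β}}

omit [LinearOrder K] [WellFoundedLT K] in
theorem play_mono (F : ℕ → Set (K → K)) {α β : Ordinal.{u}} (h : β ≤ α) :
    play F β ⊆ play F α :=
  gen_mono (by rintro X ⟨n, hn, hX⟩; exact ⟨n, hn.trans h, hX⟩)

omit [LinearOrder K] [WellFoundedLT K] in
theorem play_congr (F F' : ℕ → Set (K → K)) (n : ℕ) (h : ∀ m ≤ n, F m = F' m)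
    (α : Ordinal.{u}) (hα : α ≤ n) : play F α = play F' α := by
  have key : {X | ∃ n : ℕ, (n : Ordinal.{u}) ≤ α ∧ ∃ f ∈ F n, ∃ β, X = f ⁻¹' {β}} =
      {X | ∃ n : ℕ, (n : Ordinal.{u}) ≤ α ∧ ∃ f ∈ F' n, ∃ β, X = f ⁻¹' {β}} := by
    ext X
    constructor
    · rintro ⟨m, hm, hX⟩
      refine ⟨m, hm, ?_⟩
      rwa [← h m (by exact_mod_cast hm.trans hα)]
    · rintro ⟨m, hm, hX⟩
      refine ⟨m, hm, ?_⟩
      rwa [h m (by exact_mod_cast hm.trans hα)]
  unfold play
  rw [key]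

theorem legal (hK : Good K) {F : ℕ → Set (K → K)} (h0 : (fun x => x) ∈ F 0)
    (hF : ∀ n, #(F n) ≤ #K) (α : Ordinal.{u}) : LegalI (play F) α where
  alg := by
    intro β _
    refine ⟨gen_isAlg _, le_antisymm (mk_gen_le hK ?_) ?_⟩
    · have h1 : {X | ∃ n : ℕ, (n : Ordinal.{u}) ≤ β ∧ ∃ f ∈ F n, ∃ β, X = f ⁻¹' {β}} ⊆
          range (fun p : (⋃ n : ULift.{u} ℕ, F n.down : Set (K → K)) × K => p.1.1 ⁻¹' {p.2}) := by
        rintro X ⟨n, -, f, hf, δ, rfl⟩
        exact ⟨(⟨f, mem_iUnion.2 ⟨⟨n⟩, hf⟩⟩, δ), rfl⟩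
      refine (mk_le_mk_of_subset h1).trans (mk_range_le.trans ?_)
      rw [mk_prod, Cardinal.lift_id, Cardinal.lift_id]
      have h2 : #(⋃ n : ULift.{u} ℕ, F n.down : Set (K → K)) ≤ #K := by
        refine (mk_iUnion_le _).trans ?_
        have h3 : (⨆ n : ULift.{u} ℕ, #(F n.down)) ≤ #K := ciSup_le' fun n => hF _
        calc #(ULift.{u} ℕ) * _ ≤ #K * #K := by
              refine mul_le_mul' ?_ h3
              rw [mk_uLift, mk_nat, lift_aleph0]
              exact hK.aleph0_le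
          _ = #K := mul_eq_self hK.aleph0_le
      calc #(⋃ n : ULift.{u} ℕ, F n.down : Set (K → K)) * #K ≤ #K * #K := mul_le_mul' h2 le_rfl
        _ = #K := mul_eq_self hK.aleph0_le
    · have h1 : Function.Injective (fun x : K => (⟨{x}, subset_gen _
          ⟨0, by simp, _, h0, x, rfl⟩⟩ : play F β)) := by
        intro x y hxy
        simpa using hxy
      exact mk_le_of_injective h1
  mono := fun β _ β' hβ' => play_mono F hβ'
  singleton := fun x => subset_gen _ ⟨0, by simp, _, h0, x, rfl⟩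

theorem not_wins (hK : Good K) {μ : Cardinal.{u}} (hμ : μ < #K) {c : K → SimpleGraph K}
    (hc : ∀ x : K, μ < #(Iio x) → (∀ b < x, #(Iio b) ≠ #(Iio x)) →
      ∀ H ⊆ Iio x, #H = #(Iio x) → ∀ i, ¬ Hom (fun y y' => (c x).Adj y y') i H)
    {γ : Ordinal.{u}} (hγ : ω ≤ γ) : ¬ IIWinsStar K γ := by
  rintro ⟨σ, hσ, hans, hend⟩
  have h2 : (1 : Cardinal.{u}) < #K := one_lt_aleph0.trans_le hK.aleph0_le
  obtain ⟨z1, z2, hz⟩ := one_lt_iff_nontrivial.1 h2
  let z : K × K := (z1, z2)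
  obtain ⟨F, hF0, hF⟩ := exists_seq hσ play play_congr {fun x => x} (fun F U => Nx z c F U)
  have hid : (fun x => x) ∈ F 0 := by
    rw [hF0]
    rfl
  have hcard : ∀ n, #(F n) ≤ #K := by
    intro n
    induction n with
    | zero =>
      rw [hF0, mk_singleton]
      exact h2.le
    | succ n ih =>
      rw [hF]
      exact mk_nx_le hK z c ih _
  have hleg := fun α => legal hK hid hcard α
  have hn : ∀ n : ℕ, (n : Ordinal.{u}) < γ := fun n => (natCast_lt_omega0 n).trans_le hγ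
  obtain ⟨W, hW, hWσ⟩ := hend (play F) (fun α _ => hleg α)
  have hmem : ∀ n, ∀ f ∈ F n, ∀ β, f ⁻¹' {β} ∈ play F n := by
    intro n f hf β
    exact subset_gen _ ⟨n, le_rfl, f, hf, β, rfl⟩
  have hE : EndS z c (gen (⋃ α ∈ Iio γ, play F α)) W F (fun n => σ n (play F)) := by
    refine ⟨hz, gen_isAlg _, hW, hid, fun n => (hF n).ge, ?_, ?_⟩
    · intro n f hf β
      exact subset_gen _ (mem_biUnion (hn n) (hmem n f hf β))
    · intro n f hf β
      have h3 := (hans (play F) n (hn n) (hleg n)).1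
      have h4 : f ⁻¹' {β} ∈ gen (⋃ α ∈ Iio γ, play F α) :=
        subset_gen _ (mem_biUnion (hn n) (hmem n f hf β))
      constructor
      · intro h5
        exact hWσ n (hn n) h5
      · intro h5
        rw [h3.ultra _ (hmem n f hf β)]
        intro h6
        exact (hW.ultra _ h4).1 h5 (hWσ n (hn n) h6)
  exact hE.false hK hμ hc

end

/-- A cardinal that is not weakly compact has a bad graph. -/
theorem exists_graph {K : Type u} [LinearOrder K] {x : K} (hx : ℵ₀ < #(Iio x))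
    (h : ¬ WeaklyCompact #(Iio x)) :
    ∃ c : SimpleGraph K, ∀ H ⊆ Iio x, #H = #(Iio x) → ∀ i, ¬ Hom (fun y y' => c.Adj y y') i H := by
  unfold WeaklyCompact at h
  push Not at h
  obtain ⟨L, G, hL, hG⟩ := h hx
  obtain ⟨e⟩ := Cardinal.eq.1 hL
  let j : L ↪ K := e.toEmbedding.trans (Function.Embedding.subtype _)
  refine ⟨G.map j, fun H hH hHc i hHom => ?_⟩
  have h1 : #(j ⁻¹' H) = #(Iio x) := by
    rw [← hHc]
    refine mk_preimage_of_injective_of_subset_range _ _ j.injective ?_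
    intro y hy
    exact ⟨e.symm ⟨y, hH hy⟩, by simp [j]⟩
  have h2 := hG (j ⁻¹' H) h1
  by_cases hi : i = true
  · refine h2.1 ?_
    intro a ha b hb hab
    have h3 := (hHom (j a) ha (j b) hb (fun h => hab (j.injective h))).2 hi
    exact (SimpleGraph.map_adj_apply).1 h3
  · refine h2.2 ?_
    intro a ha b hb hab h4
    have h3 := (hHom (j a) ha (j b) hb (fun h => hab (j.injective h))).1
      ((SimpleGraph.map_adj_apply).2 h4)
    exact hi h3

/-- **Main theorem.** -/
theorem main (μ : Cardinal.{u}) (hμ : IsMeasurable μ) (K : Type u) (hK : (#K).IsInaccessible)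
    (hμK : μ < #K) (hno : ∀ ν, μ < ν → ν < #K → ¬ WeaklyCompact ν) (γ : Ordinal.{u})
    (hγ : Order.IsSuccLimit γ) (hγμ : γ < μ.ord) : IIWinsUlam K γ ∧ ¬ IIWinsStar K γ := by
  classical
  obtain ⟨hμ0, M, U, hM, hU, hU'⟩ := hμ
  refine ⟨?_, ?_⟩
  · have h1 : #M ≤ #K := by
      rw [hM]
      exact hμK.le
    obtain ⟨j⟩ := h1
    subst hM
    exact ulam_mono j (ulam_of_ultrafilter U hU hU' hγμ)
  · obtain ⟨r, wo, hr⟩ := ord_eq K
    letI : LinearOrder K := linearOrderOfSTO r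
    have hwf : WellFoundedLT K := ⟨wo.wf⟩
    have hgood : Good K := ⟨hK, fun x => mk_Iio_lt x hr⟩
    have hex : ∀ x : K, ∃ c : SimpleGraph K, μ < #(Iio x) →
        ∀ H ⊆ Iio x, #H = #(Iio x) → ∀ i, ¬ Hom (fun y y' => c.Adj y y') i H := by
      intro x
      by_cases hx : μ < #(Iio x)
      · obtain ⟨c, hc⟩ := exists_graph (x := x) (hμ0.trans hx) (hno _ hx (hgood.seg x))
        exact ⟨c, fun _ => hc⟩
      · exact ⟨⊥, fun h => absurd h hx⟩
    choose c hc using hex
    exact not_wins hgood hμK (c := c) (fun x hx _ => hc x hx) (omega0_le_of_isSuccLimit hγ)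

end Pool.Agent.R590.UW
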