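import Pool.Agent.R590.UWAlg

set_option autoImplicit false

/-! # Player II does not win the game `G*` below the next weakly compact cardinal -/

namespace Pool.Agent.R590.UW

open Cardinal Ordinal Set

universe u

variable {K : Type u} [LinearOrder K] [WellFoundedLT K]

/-! ### Homogeneous sets from ultrafilters -/

theorem exists_chain (hK : Good K) {B W : Set (Set K)} (hW : IsUlt B W) {T : K → Set K}
    (hT : ∀ y, T y ∈ W) : ∃ a : K → K, ∀ α β, β < α → a α ∈ T (a β) := by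
  classical
  have hne : Nonempty K := mk_ne_zero_iff.1 (aleph0_pos.trans_le hK.aleph0_le).ne'
  let z : K := Classical.arbitrary K
  let F : (x : K) → ((y : K) → y < x → K) → K := fun x g =>
    if h : (⋂ y : Iio x, T (g y.1 y.2)).Nonempty then h.choose else z
  let a : K → K := WellFounded.fix (wellFounded_lt (α := K)) F
  refine ⟨a, fun α β hβ => ?_⟩
  have h1 : a α = F α (fun y _ => a y) := WellFounded.fix_eq _ _ _
  have h2 : (⋂ y : Iio α, T (a y.1)).Nonempty :=
    hW.nonempty hK.aleph0_le (hW.iInter _ (hK.seg α) (fun y => hT _))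
  have h3 : a α ∈ ⋂ y : Iio α, T (a y.1) := by
    rw [h1]
    simp only [F]
    rw [dif_pos h2]
    exact h2.choose_spec
  exact mem_iInter.1 h3 ⟨β, hβ⟩

/-- homogeneous sets of full cardinality -/
def Hom (R : K → K → Prop) (i : Bool) (H : Set K) : Prop :=
  ∀ x ∈ H, ∀ y ∈ H, x ≠ y → (R x y ↔ i = true)

theorem Ioi_mem (hK : Good K) {B W : Set (Set K)} (hB : IsAlg B) (hW : IsUlt B W)
    (hs : ∀ x, {x} ∈ B) (ξ : K) : Ioi ξ ∈ W := by
  have h1 : Iic ξ ∈ B := by
    have := hB.biUnion (Iic ξ) (fun x => ({x} : Set K)) (hK.segle ξ) (fun x _ => hs x)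
    rwa [biUnion_of_singleton] at this
  have h2 : Iic ξ ∉ W := fun h => (hK.segle ξ).ne (hW.uniform _ h)
  have h3 := (hW.ultra _ (hB.compl _ h1))
  rw [compl_compl] at h3
  rw [compl_Iic] at h3
  exact h3.2 h2

theorem exists_hom (hK : Good K) {B W : Set (Set K)} (hB : IsAlg B) (hW : IsUlt B W)
    (hs : ∀ x, {x} ∈ B) {R : K → K → Prop} (hsym : ∀ x y, R x y → R y x)
    (hR : ∀ ξ, {η | R ξ η} ∈ B) :
    ∃ H : Set K, #H = #K ∧ ∃ i, Hom R i H := by
  classical
  let T : K → Set K := fun ξ => {η | R ξ η ↔ {η | R ξ η} ∈ W} ∩ Ioi ξ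
  have hT : ∀ ξ, T ξ ∈ W := by
    intro ξ
    refine hW.inter hK.aleph0_le ?_ (Ioi_mem hK hB hW hs ξ)
    by_cases h : {η | R ξ η} ∈ W
    · have : {η | R ξ η ↔ {η | R ξ η} ∈ W} = {η | R ξ η} := by
        ext η
        simp [h]
      rw [this]
      exact h
    · have : {η | R ξ η ↔ {η | R ξ η} ∈ W} = {η | R ξ η}ᶜ := by
        ext η
        simp [h]
      rw [this]
      by_contra h2
      exact h ((hW.ultra _ (hR ξ)).2 h2)
  obtain ⟨a, ha⟩ := exists_chain hK hW hT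
  have hmono : ∀ α β, β < α → a β < a α := fun α β h => (ha α β h).2
  have hinj : Function.Injective a := by
    intro α β h
    by_contra hne
    rcases lt_or_gt_of_ne hne with h1 | h1
    · exact (hmono _ _ h1).ne h
    · exact (hmono _ _ h1).ne h.symm
  let A : Bool → Set K := fun i => {α | {η | R (a α) η} ∈ W ↔ i = true}
  have hA : ∃ i, #(A i) = #K := by
    by_contra hcon
    push Not at hcon
    have h1 : ∀ i, #(A i) < #K := fun i => (mk_set_le (A i)).lt_of_ne (hcon i)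
    have h2 : A true ∪ A false = Set.univ := by
      rw [eq_univ_iff_forall]
      intro α
      by_cases h : {η | R (a α) η} ∈ W
      · left
        simp [A, h]
      · right
        simp [A, h]
    have h3 := (mk_union_le (A true) (A false)).trans_lt
      (add_lt_of_lt hK.aleph0_le (h1 true) (h1 false))
    rw [h2, mk_univ] at h3
    exact lt_irrefl _ h3
  obtain ⟨i, hi⟩ := hA
  refine ⟨a '' A i, by rw [mk_image_eq hinj, hi], i, ?_⟩
  have key : ∀ α α', α < α' → α ∈ A i → (R (a α) (a α') ↔ i = true) := by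
    intro α α' h hα
    exact (ha α' α h).1.trans hα
  rintro _ ⟨α, hα, rfl⟩ _ ⟨α', hα', rfl⟩ hne
  rcases lt_trichotomy α α' with h | h | h
  · exact key _ _ h hα
  · exact absurd (by rw [h]) hne
  · rw [← key _ _ h hα']
    exact ⟨hsym _ _, hsym _ _⟩

/-! ### The operations -/

open Classical in
/-- the indicator function of a set, with two values -/
noncomputable def ind (z : K × K) (R : Set K) : K → K := fun x => if x ∈ R then z.2 else z.1

omit [LinearOrder K] [WellFoundedLT K] in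
theorem ind_pre {z : K × K} (hz : z.1 ≠ z.2) (R : Set K) : ind z R ⁻¹' {z.2} = R := by
  ext x
  by_cases h : x ∈ R
  · simp [ind, h]
  · simp [ind, h, hz]

open Classical in
/-- the cardinal of `x` -/
noncomputable def crd (x : K) : K := if h : ∃ b < x, #(Iio b) = #(Iio x) then h.choose else x

/-- The limit of the graphs `c (f x)`. -/
def lim (c : K → SimpleGraph K) (U : Set (Set K)) (f : K → K) (ξ η : K) : Prop :=
  {x | (c (f x)).Adj ξ η} ∈ U

open Classical in
/-- a homogeneous set -/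
noncomputable def Hch (R : K → K → Prop) : Set K :=
  if h : ∃ H : Set K, #H = #K ∧ ∃ i, Hom R i H then h.choose else ∅

/-- a pair of elements of `H` with the wrong colour -/
def BadP (c : K → SimpleGraph K) (H : Set K) (i : Bool) (l : K) (p : K × K) : Prop :=
  p.1 ∈ H ∧ p.2 ∈ H ∧ p.1 < l ∧ p.2 < l ∧ p.1 ≠ p.2 ∧ ¬ ((c l).Adj p.1 p.2 ↔ i = true)

open Classical in
/-- a pair of elements of `H` with the wrong colour -/
noncomputable def pw (z : K × K) (c : K → SimpleGraph K) (H : Set K) (i : Bool) (l : K) : K × K :=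
  if h : ∃ p, BadP c H i l p then h.choose else z

open Classical in
/-- a bound for the cardinality of `H` below `l` -/
noncomputable def bw (z : K × K) (H : Set K) (l : K) : K :=
  if h : ∃ b < l, #(H ∩ Iio l : Set K) ≤ #(Iio b) then h.choose else z.1

/-- The operations. -/
def Op (z : K × K) (c : K → SimpleGraph K) (R : K → K → Prop) : Set (K → K) :=
  ({crd, ind z {x | crd x < x}, bw z (Hch R)} ∪
    (range fun i : Bool => fun l => (pw z c (Hch R) i l).1) ∪
    (range fun i : Bool => fun l => (pw z c (Hch R) i l).2) ∪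
    (range fun i : Bool => ind z {l | ∃ p, BadP c (Hch R) i l p})) ∪
    range fun p : K × K => ind z {x | (c x).Adj p.1 p.2}

/-- The next family of functions. -/
def Nx (z : K × K) (c : K → SimpleGraph K) (F : Set (K → K)) (U : Set (Set K)) : Set (K → K) :=
  F ∪ ⋃ f ∈ F, (((fun g => g ∘ f) '' Op z c (lim c U f)) ∪
    range fun ξ => ind z {η | lim c U f ξ η})

theorem mk_op_le (hK : Good K) (z : K × K) (c : K → SimpleGraph K) (R : K → K → Prop) :
    #(Op z c R) ≤ #K := by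
  unfold Op
  refine (mk_union_le _ _).trans (add_le_of_le hK.aleph0_le ?_ ?_)
  · refine (Cardinal.lt_aleph0_iff_set_finite.2 ?_).le.trans hK.aleph0_le
    refine (((Set.toFinite _).union (finite_range _)).union (finite_range _)).union (finite_range _)
  · refine mk_range_le.trans ?_
    rw [mk_prod, Cardinal.lift_id, mul_eq_self hK.aleph0_le]

theorem mk_nx_le (hK : Good K) (z : K × K) (c : K → SimpleGraph K) {F : Set (K → K)}
    (hF : #F ≤ #K) (U : Set (Set K)) : #(Nx z c F U) ≤ #K := by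
  unfold Nx
  refine (mk_union_le _ _).trans (add_le_of_le hK.aleph0_le hF ?_)
  refine (mk_biUnion_le _ _).trans ?_
  have h1 : (⨆ f : F, #((((fun g => g ∘ f.1) '' Op z c (lim c U f.1)) ∪
    range fun ξ => ind z {η | lim c U f.1 ξ η} : Set (K → K)))) ≤ #K := by
    refine ciSup_le' fun f => ?_
    refine (mk_union_le _ _).trans (add_le_of_le hK.aleph0_le ?_ ?_)
    · exact mk_image_le.trans (mk_op_le hK z c _)
    · exact mk_range_le
  calc #F * _ ≤ #K * #K := mul_le_mul' hF h1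
    _ = #K := mul_eq_self hK.aleph0_le

/-! ### The main argument -/

/-- The situation at the end of the play. -/
structure EndS (z : K × K) (c : K → SimpleGraph K) (B W : Set (Set K)) (F : ℕ → Set (K → K))
    (U : ℕ → Set (Set K)) : Prop where
  zne : z.1 ≠ z.2
  algB : IsAlg B
  ultW : IsUlt B W
  idm : (fun x => x) ∈ F 0
  nx : ∀ n, Nx z c (F n) (U n) ⊆ F (n + 1)
  mem : ∀ n, ∀ f ∈ F n, ∀ β, f ⁻¹' {β} ∈ B
  dec : ∀ n, ∀ f ∈ F n, ∀ β, (f ⁻¹' {β} ∈ U n ↔ f ⁻¹' {β} ∈ W)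

variable {z : K × K} {c : K → SimpleGraph K} {B W : Set (Set K)} {F : ℕ → Set (K → K)}
  {U : ℕ → Set (Set K)}

theorem EndS.succ (h : EndS z c B W F U) {n : ℕ} {f : K → K} (hf : f ∈ F n) : f ∈ F (n + 1) :=
  h.nx n (Or.inl hf)

theorem EndS.comp (h : EndS z c B W F U) {n : ℕ} {f : K → K} (hf : f ∈ F n) {g : K → K}
    (hg : g ∈ Op z c (lim c (U n) f)) : g ∘ f ∈ F (n + 1) := by
  refine h.nx n (Or.inr ?_)
  simp only [mem_iUnion]
  exact ⟨f, hf, Or.inl ⟨g, hg, rfl⟩⟩

theorem EndS.lims (h : EndS z c B W F U) {n : ℕ} {f : K → K} (hf : f ∈ F n) (ξ : K) :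
    ind z {η | lim c (U n) f ξ η} ∈ F (n + 1) := by
  refine h.nx n (Or.inr ?_)
  simp only [mem_iUnion]
  exact ⟨f, hf, Or.inr ⟨ξ, rfl⟩⟩

theorem EndS.pre (hK : Good K) (h : EndS z c B W F U) {n : ℕ} {f : K → K} (hf : f ∈ F n)
    {R : Set K} (hR : #R < #K) : f ⁻¹' R ∈ B := by
  have h1 := h.algB.biUnion R (fun β => f ⁻¹' {β}) hR (fun β _ => h.mem n f hf β)
  rwa [← preimage_iUnion₂, biUnion_of_singleton] at h1

theorem EndS.compl_mem (h : EndS z c B W F U) {X : Set K} (hX : X ∈ B) (hX' : X ∉ W) : Xᶜ ∈ W := by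
  by_contra h1
  exact hX' ((h.ultW.ultra X hX).2 h1)

/-- A function that is bounded on a large set is constant on a large set. -/
theorem EndS.const (hK : Good K) (h : EndS z c B W F U) {n : ℕ} {g : K → K} (hg : g ∈ F n) {β : K}
    (hβ : {x | g x ≤ β} ∈ W) : ∃ δ, g ⁻¹' {δ} ∈ W := by
  by_contra hcon
  push Not at hcon
  have h1 : ⋂ δ ∈ Iic β, (g ⁻¹' {δ})ᶜ ∈ W :=
    h.ultW.biInter (Iic β) (fun δ => (g ⁻¹' {δ})ᶜ) (hK.segle β)
      (fun δ _ => h.compl_mem (h.mem n g hg δ) (hcon δ))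
  obtain ⟨x, hx1, hx2⟩ := h.ultW.nonempty hK.aleph0_le (h.ultW.inter hK.aleph0_le h1 hβ)
  simp only [mem_iInter] at hx1
  exact hx1 (g x) hx2 rfl

/-- There is a least unbounded function. -/
theorem EndS.exists_min (hK : Good K) (h : EndS z c B W F U) :
    ∃ m, ∃ f ∈ F m, (∀ β, {x | f x ≤ β} ∉ W) ∧
      ∀ n, ∀ g ∈ F n, ∀ Z ∈ W, (∀ x ∈ Z, g x < f x) → ∃ δ, g ⁻¹' {δ} ∈ W := by
  classical
  by_contra hcon
  push Not at hcon
  let S := {f : K → K // (∃ m, f ∈ F m) ∧ ∀ β, {x | f x ≤ β} ∉ W}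
  have step : ∀ s : S, ∃ t : S, ∃ Z ∈ W, ∀ x ∈ Z, t.1 x < s.1 x := by
    rintro ⟨f, ⟨m, hf⟩, hub⟩
    obtain ⟨n, g, hg, Z, hZ, hlt, hno⟩ := hcon m f hf hub
    exact ⟨⟨g, ⟨n, hg⟩, fun β hβ => by
      obtain ⟨δ, hδ⟩ := h.const hK hg hβ
      exact hno δ hδ⟩, Z, hZ, hlt⟩
  choose nxt Z hZ hlt using step
  have hid : ∀ β : K, {x : K | x ≤ β} ∉ W := by
    intro β hβ
    exact (hK.segle β).ne (h.ultW.uniform _ hβ)
  let s0 : S := ⟨fun x => x, ⟨0, h.idm⟩, hid⟩
  let s : ℕ → S := fun n => nxt^[n] s0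
  have h1 : (⋂ n : ULift.{u} ℕ, Z (s n.down)) ∈ W := by
    refine h.ultW.iInter _ ?_ (fun n => hZ _)
    rw [mk_uLift, mk_nat, lift_aleph0]
    exact hK.inacc.1
  obtain ⟨x, hx⟩ := h.ultW.nonempty hK.aleph0_le h1
  rw [mem_iInter] at hx
  have h2 : ∀ n, (s (n + 1)).1 x < (s n).1 x := by
    intro n
    have h3 : s (n + 1) = nxt (s n) := Function.iterate_succ_apply' _ _ _
    rw [h3]
    exact hlt (s n) x (hx ⟨n⟩)
  exact (wellFounded_iff_isEmpty_descending_chain.1 (wellFounded_lt (α := K))).false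
    ⟨fun n => (s n).1 x, h2⟩

theorem exists_big (hK : Good K) {S : Set K} (hS : #S = #K) {ρ : Cardinal.{u}} (hρ : ρ < #K) :
    ∃ β : K, ρ < #(S ∩ Iio β : Set K) := by
  have h1 : Order.succ ρ < #K := hK.inacc.isSuccLimit.succ_lt hρ
  rw [← hS] at h1
  obtain ⟨T, hTS, hT⟩ := le_mk_iff_exists_subset.1 h1.le
  obtain ⟨β, hβ⟩ := hK.bdd (S := T) (by rw [hT, ← hS]; exact h1)
  refine ⟨β, ?_⟩
  rw [← Order.succ_le_iff, ← hT]
  exact mk_le_mk_of_subset fun x hx => ⟨hTS hx, hβ x hx⟩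

theorem exists_bigseg (hK : Good K) {ρ : Cardinal.{u}} (hρ : ρ < #K) :
    ∃ β : K, ρ < #(Iio β) := by
  obtain ⟨β, hβ⟩ := exists_big hK (S := Set.univ) mk_univ hρ
  exact ⟨β, by rwa [univ_inter] at hβ⟩

theorem EndS.false (hK : Good K) (h : EndS z c B W F U) {μ : Cardinal.{u}} (hμ : μ < #K)
    (hc : ∀ x : K, μ < #(Iio x) → (∀ b < x, #(Iio b) ≠ #(Iio x)) →
      ∀ H ⊆ Iio x, #H = #(Iio x) → ∀ i, ¬ Hom (fun y y' => (c x).Adj y y') i H) : False := by
  classical
  obtain ⟨m, f, hf, hub, hmin⟩ := h.exists_min hK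
  have hgt : ∀ β, {x | β < f x} ∈ W := by
    intro β
    have h1 : {x | f x ≤ β} ∈ B := EndS.pre hK h hf (hK.segle β)
    have h2 := h.compl_mem h1 (hub β)
    have h3 : {x | f x ≤ β}ᶜ = {x | β < f x} := by
      ext x
      simp
    rwa [h3] at h2
  -- `f x` is a cardinal
  have hT : {x | crd (f x) < f x} ∈ B := by
    have h1 : ind z {x | crd x < x} ∘ f ∈ F (m + 1) := h.comp hf (by simp [Op])
    have h2 := h.mem _ _ h1 z.2
    rw [preimage_comp, ind_pre h.zne] at h2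
    exact h2
  have hT' : {x | crd (f x) < f x} ∉ W := by
    intro hin
    have h1 : crd ∘ f ∈ F (m + 1) := h.comp hf (by simp [Op])
    obtain ⟨b, hb⟩ := hmin _ _ h1 _ hin (fun x hx => hx)
    obtain ⟨β, hβ⟩ := exists_bigseg hK (hK.seg b)
    obtain ⟨x, ⟨hx1, hx2⟩, hx3⟩ := h.ultW.nonempty hK.aleph0_le
      (h.ultW.inter hK.aleph0_le (h.ultW.inter hK.aleph0_le hin hb) (hgt β))
    have hx1' : crd (f x) < f x := hx1
    have hx2' : crd (f x) = b := hx2
    have hx3' : β < f x := hx3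
    have h3 : #(Iio b) = #(Iio (f x)) := by
      by_cases h4 : ∃ b < f x, #(Iio b) = #(Iio (f x))
      · have h5 : crd (f x) = h4.choose := by
          unfold crd
          rw [dif_pos h4]
        rw [← hx2', h5]
        exact h4.choose_spec.2
      · have h5 : crd (f x) = f x := by
          unfold crd
          rw [dif_neg h4]
        rw [h5] at hx1'
        exact absurd hx1' (lt_irrefl _)
    rw [h3] at hβ
    exact absurd (mk_le_mk_of_subset (Iio_subset_Iio hx3'.le)) (not_le.2 hβ)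
  have hTc : {x | ∀ b < f x, #(Iio b) ≠ #(Iio (f x))} ∈ W := by
    have h1 := h.compl_mem hT hT'
    have h3 : {x | crd (f x) < f x}ᶜ = {x | ∀ b < f x, #(Iio b) ≠ #(Iio (f x))} := by
      ext x
      simp only [mem_compl_iff, mem_ofPred_eq, not_lt]
      constructor
      · intro h4 b hb heq
        have h5 : ∃ b < f x, #(Iio b) = #(Iio (f x)) := ⟨b, hb, heq⟩
        unfold crd at h4
        rw [dif_pos h5] at h4
        exact absurd h5.choose_spec.1 (not_lt.2 h4)
      · intro h4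
        have h5 : ¬ ∃ b < f x, #(Iio b) = #(Iio (f x)) := by
          rintro ⟨b, hb, heq⟩
          exact h4 b hb heq
        unfold crd
        rw [dif_neg h5]
    rwa [h3] at h1
  -- the limit graph
  have hcol : ∀ ξ η, ind z {x | (c x).Adj ξ η} ∘ f ∈ F (m + 1) := by
    intro ξ η
    refine h.comp hf ?_
    right
    exact ⟨(ξ, η), rfl⟩
  have hcolpre : ∀ ξ η, (ind z {x | (c x).Adj ξ η} ∘ f) ⁻¹' {z.2} = {x | (c (f x)).Adj ξ η} := by
    intro ξ η
    rw [preimage_comp, ind_pre h.zne]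
    rfl
  have hlim : lim c (U (m + 1)) f = lim c W f := by
    funext ξ η
    have h1 := h.dec _ _ (hcol ξ η) z.2
    rw [hcolpre] at h1
    exact propext h1
  have hcolB : ∀ ξ η, {x | (c (f x)).Adj ξ η} ∈ B := by
    intro ξ η
    rw [← hcolpre]
    exact h.mem _ _ (hcol ξ η) _
  have hf1 : f ∈ F (m + 1) := h.succ hf
  have hs : ∀ x, {x} ∈ B := fun x => h.mem 0 _ h.idm x
  have hH : ∃ H : Set K, #H = #K ∧ ∃ i, Hom (lim c W f) i H := by
    refine exists_hom hK h.algB h.ultW hs ?_ ?_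
    · intro ξ η h1
      have h2 : {x | (c (f x)).Adj η ξ} = {x | (c (f x)).Adj ξ η} := by
        ext x
        exact (c (f x)).adj_comm η ξ
      unfold lim
      rw [h2]
      exact h1
    · intro ξ
      have h1 := h.lims hf1 ξ
      rw [hlim] at h1
      have h2 := h.mem _ _ h1 z.2
      rwa [ind_pre h.zne] at h2
  have hHch : Hch (lim c W f) = hH.choose := by
    unfold Hch
    rw [dif_pos hH]
  obtain ⟨hHc, i, hHom⟩ := hH.choose_spec
  rw [← hHch] at hHc hHom
  set H := Hch (lim c W f) with hHdef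
  -- no bad pairs
  have hP : {x | ∃ p, BadP c H i (f x) p} ∈ B := by
    have h1 : ind z {l | ∃ p, BadP c H i l p} ∘ f ∈ F (m + 1 + 1) := by
      refine h.comp hf1 ?_
      rw [hlim]
      left
      right
      exact ⟨i, rfl⟩
    have h2 := h.mem _ _ h1 z.2
    rw [preimage_comp, ind_pre h.zne] at h2
    exact h2
  have hP' : {x | ∃ p, BadP c H i (f x) p} ∉ W := by
    intro hin
    have h1 : (fun l => (pw z c H i l).1) ∘ f ∈ F (m + 1 + 1) := by
      refine h.comp hf1 ?_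
      rw [hlim]
      left
      left
      left
      right
      exact ⟨i, rfl⟩
    have h2 : (fun l => (pw z c H i l).2) ∘ f ∈ F (m + 1 + 1) := by
      refine h.comp hf1 ?_
      rw [hlim]
      left
      left
      right
      exact ⟨i, rfl⟩
    have hpw : ∀ x ∈ {x | ∃ p, BadP c H i (f x) p}, BadP c H i (f x) (pw z c H i (f x)) := by
      intro x hx
      have hx' : ∃ p, BadP c H i (f x) p := hx
      unfold pw
      rw [dif_pos hx']
      exact hx'.choose_spec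
    obtain ⟨ξ, hξ⟩ := hmin _ _ h1 _ hin (fun x hx => (hpw x hx).2.2.1)
    obtain ⟨η, hη⟩ := hmin _ _ h2 _ hin (fun x hx => (hpw x hx).2.2.2.1)
    have h3 := h.ultW.inter hK.aleph0_le (h.ultW.inter hK.aleph0_le hin hξ) hη
    have h4 : ∀ x ∈ ({x | ∃ p, BadP c H i (f x) p} ∩ ((fun l => (pw z c H i l).1) ∘ f) ⁻¹' {ξ}) ∩
        ((fun l => (pw z c H i l).2) ∘ f) ⁻¹' {η}, BadP c H i (f x) (ξ, η) := by
      rintro x ⟨⟨hx1, hx2⟩, hx3⟩
      have h5 := hpw x hx1
      have h6 : pw z c H i (f x) = (ξ, η) := Prod.ext hx2 hx3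
      rwa [h6] at h5
    obtain ⟨x0, hx0⟩ := h.ultW.nonempty hK.aleph0_le h3
    have h5 := h4 x0 hx0
    have h6 := hHom ξ h5.1 η h5.2.1 h5.2.2.2.2.1
    by_cases hi : i = true
    · have h7 : {x | (c (f x)).Adj ξ η} ∈ W := h6.2 hi
      obtain ⟨x, hx1, hx2⟩ := h.ultW.nonempty hK.aleph0_le (h.ultW.inter hK.aleph0_le h3 h7)
      exact (h4 x hx1).2.2.2.2.2 ⟨fun _ => hi, fun _ => hx2⟩
    · have h7 : {x | (c (f x)).Adj ξ η}ᶜ ∈ W :=
        h.compl_mem (hcolB ξ η) (fun h8 => hi (h6.1 h8))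
      obtain ⟨x, hx1, hx2⟩ := h.ultW.nonempty hK.aleph0_le (h.ultW.inter hK.aleph0_le h3 h7)
      exact (h4 x hx1).2.2.2.2.2 ⟨fun h8 => absurd h8 hx2, fun h8 => absurd h8 hi⟩
  have hPc := h.compl_mem hP hP'
  obtain ⟨β0, hβ0⟩ := exists_bigseg hK hμ
  have hY := h.ultW.inter hK.aleph0_le (h.ultW.inter hK.aleph0_le hTc hPc) (hgt β0)
  have hbw : ∀ x ∈ ({x | ∀ b < f x, #(Iio b) ≠ #(Iio (f x))} ∩
      {x | ∃ p, BadP c H i (f x) p}ᶜ) ∩ {x | β0 < f x},
      bw z H (f x) < f x ∧ #(H ∩ Iio (f x) : Set K) ≤ #(Iio (bw z H (f x))) := by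
    rintro x ⟨⟨hx1, hx2⟩, hx3⟩
    have h1 : #(H ∩ Iio (f x) : Set K) < #(Iio (f x)) := by
      refine lt_of_le_of_ne (mk_le_mk_of_subset inter_subset_right) fun heq => ?_
      refine hc (f x) (hβ0.trans_le (mk_le_mk_of_subset (Iio_subset_Iio (le_of_lt hx3)))) hx1
        (H ∩ Iio (f x)) inter_subset_right heq i ?_
      intro y hy y' hy' hne
      by_contra h2
      exact hx2 ⟨(y, y'), hy.1, hy'.1, hy.2, hy'.2, hne, h2⟩
    obtain ⟨b, hb, hb'⟩ := exists_seg h1
    have h2 : ∃ b < f x, #(H ∩ Iio (f x) : Set K) ≤ #(Iio b) := ⟨b, hb, hb'.ge⟩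
    unfold bw
    rw [dif_pos h2]
    exact h2.choose_spec
  have hbF : bw z H ∘ f ∈ F (m + 1 + 1) := by
    refine h.comp hf1 ?_
    rw [hlim]
    simp [Op, hHdef]
  obtain ⟨b, hb⟩ := hmin _ _ hbF _ hY (fun x hx => (hbw x hx).1)
  obtain ⟨β, hβ⟩ := exists_big hK hHc (hK.seg b)
  obtain ⟨x, ⟨hx1, hx2⟩, hx3⟩ := h.ultW.nonempty hK.aleph0_le
    (h.ultW.inter hK.aleph0_le (h.ultW.inter hK.aleph0_le hY hb) (hgt β))
  have h1 := (hbw x hx1).2
  have h2 : bw z H (f x) = b := hx2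
  rw [h2] at h1
  have h3 : #(H ∩ Iio β : Set K) ≤ #(H ∩ Iio (f x) : Set K) :=
    mk_le_mk_of_subset (inter_subset_inter_right _ (Iio_subset_Iio (le_of_lt hx3)))
  exact absurd (h3.trans h1) (not_le.2 hβ)

end Pool.Agent.R590.UW
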